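import Pool.Agent.Lib.SCDO.Defs

/-!
# Row AS1 (outer part of the symmetric chain decompositions)
Extension of a good family by one level, with the links.
Recipe: copy the proof of Good.extend (Pool/Agent/Lib/MP_0ccee8_co/Chains.lean); the new chain a :: (c ++ [(τ a)ᶜ]) has first element a and last element (τ a)ᶜ.
-/

set_option linter.unusedSectionVars false
set_option linter.unusedVariables false

namespace Pool.SCDO

open Finset Pool.SCDH Pool.MP_0ccee8_co.Lib

theorem extend_linked {n k : ℕ} (hk : 2 * (k + 1) ≤ n) {C : Set (List (Finset (Fin n)))}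
    (hC : Good n (k + 1) C) (ζ : Lv n (k + 1) ≃ Lv n (k + 1)) (hζ : Linked C (k + 1) ζ)
    (u : Lv n k → Lv n (k + 1)) (τ : Lv n k ≃ Lv n k) (hu : Function.Injective u)
    (hu1 : ∀ a, a.1 ⊆ (u a).1) (hu2 : ∀ a, (τ a).1 ⊆ (ζ (u a)).1) :
    ∃ C' : Set (List (Finset (Fin n))), Good n k C' ∧ Linked C' k τ ∧
      ∀ S T, Edge C' S T → Edge C S T ∨ (∃ a, S = a.1 ∧ T = (u a).1) ∨
        (∃ a, S = ((ζ (u a)).1)ᶜ ∧ T = ((τ a).1)ᶜ) := by
  let C' : Set (List (Finset (Fin n))) :=
    {c | c ∈ C ∧ ∀ a, c.head? ≠ some (u a).1} ∪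
      {c' | ∃ a : Lv n k, ∃ c ∈ C, c.head? = some (u a).1 ∧
        c' = a.1 :: (c ++ [((τ a).1)ᶜ])}
  -- the last element of the chain through `u a`
  have hlast : ∀ a : Lv n k, ∀ c ∈ C, c.head? = some (u a).1 →
      c.getLast? = some ((ζ (u a)).1)ᶜ := by
    intro a c hc hh
    obtain ⟨c', hc', h1, h2⟩ := hζ (u a)
    have : c = c' := hC.chain_unique hc hc' (mem_of_head? hh) (mem_of_head? h1)
    rw [this, h2]
  have hcard1 : ∀ a : Lv n k, (((τ a).1)ᶜ).card = n - k := by
    intro a
    rw [card_compl, Fintype.card_fin, (τ a).2]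
  have hcard2 : ∀ y : Lv n (k+1), (((ζ y).1)ᶜ).card = n - (k + 1) := by
    intro y
    rw [card_compl, Fintype.card_fin, (ζ y).2]
  have hedge : ∀ a : Lv n k, ∀ c ∈ C, c.head? = some (u a).1 → ∀ S T,
      [S, T] <:+: a.1 :: (c ++ [((τ a).1)ᶜ]) → (S = a.1 ∧ T = (u a).1) ∨
        (S = ((ζ (u a)).1)ᶜ ∧ T = ((τ a).1)ᶜ) ∨ [S, T] <:+: c := by
    intro a c hc hh S T hST
    rcases pair_infix_cons.1 hST with ⟨rfl, h1⟩ | h1
    · left
      rw [List.head?_append, hh] at h1
      simp only [Option.some_or, Option.some.injEq] at h1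
      exact ⟨rfl, h1.symm⟩
    · rcases pair_infix_concat.1 h1 with ⟨rfl, h2⟩ | h2
      · right; left
        rw [hlast a c hc hh] at h2
        simp only [Option.some.injEq] at h2
        exact ⟨h2.symm, rfl⟩
      · right; right; exact h2
  refine ⟨C', ⟨?_, ?_, ?_⟩, ?_, ?_⟩
  · -- ends
    intro c hc
    rcases hc with ⟨hc, _⟩ | ⟨a, c, hc, hh, rfl⟩
    · obtain ⟨a, b, h1, h2, h3, h4⟩ := hC.ends c hc
      exact ⟨a, b, h1, h2, h3, by omega⟩
    · refine ⟨a.1, ((τ a).1)ᶜ, rfl, ?_, ?_, a.2.ge⟩
      · rw [← List.cons_append, List.getLast?_concat]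
      · rw [hcard1, a.2]; omega
  · -- chain
    intro c hc
    rcases hc with ⟨hc, _⟩ | ⟨a, c, hc, hh, rfl⟩
    · exact hC.chain c hc
    · intro S T hST
      rcases hedge a c hc hh S T hST with ⟨rfl, rfl⟩ | ⟨rfl, rfl⟩ | h
      · exact ⟨hu1 a, by rw [a.2, (u a).2]⟩
      · refine ⟨compl_subset_compl.2 (hu2 a), ?_⟩
        rw [hcard1, hcard2]
        omega
      · exact hC.chain c hc S T h
  · -- cover
    intro S hS1 hS2
    rcases Nat.eq_or_lt_of_le hS1 with hS1 | hS1
    · -- level k
      obtain ⟨c, hc, h1, h2⟩ := hζ (u ⟨S, hS1.symm⟩)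
      refine ⟨S :: (c ++ [((τ ⟨S, hS1.symm⟩).1)ᶜ]),
        ⟨Or.inr ⟨⟨S, hS1.symm⟩, c, hc, h1, rfl⟩, by simp⟩, ?_⟩
      rintro c' ⟨hc', hSc'⟩
      rcases hc' with ⟨hc', _⟩ | ⟨a, c'', hc'', hh, rfl⟩
      · have := hC.mem_card hc' hSc'
        omega
      · have : S = a.1 := by
          rw [List.mem_cons, List.mem_append, List.mem_singleton] at hSc'
          rcases hSc' with h | h | h
          · exact h
          · have := hC.mem_card hc'' h
            omega
          · have h3 := hcard1 a
            rw [← h] at h3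
            omega
        subst this
        have : c'' = c := hC.chain_unique hc'' hc (mem_of_head? hh) (mem_of_head? h1)
        rw [this]
    · rcases Nat.eq_or_lt_of_le hS2 with hS2 | hS2
      · -- level n - k
        have hSc : (Sᶜ).card = k := by
          rw [card_compl, Fintype.card_fin]; omega
        set a : Lv n k := τ.symm ⟨Sᶜ, hSc⟩ with ha
        have hτa : ((τ a).1)ᶜ = S := by
          rw [ha, Equiv.apply_symm_apply]; simp
        obtain ⟨c, hc, h1, h2⟩ := hζ (u a)
        refine ⟨a.1 :: (c ++ [((τ a).1)ᶜ]), ⟨Or.inr ⟨a, c, hc, h1, rfl⟩, by simp [hτa]⟩, ?_⟩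
        rintro c' ⟨hc', hSc'⟩
        rcases hc' with ⟨hc', _⟩ | ⟨a', c'', hc'', hh, rfl⟩
        · have := hC.mem_card hc' hSc'
          omega
        · have : a' = a := by
            rw [List.mem_cons, List.mem_append, List.mem_singleton] at hSc'
            rcases hSc' with h | h | h
            · have := a'.2
              rw [← h] at this
              omega
            · have := hC.mem_card hc'' h
              omega
            · apply τ.injective
              apply Subtype.ext
              rw [← compl_inj_iff, ← h, hτa]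
          subst this
          have : c'' = c := hC.chain_unique hc'' hc (mem_of_head? hh) (mem_of_head? h1)
          rw [this]
      · -- middle levels
        obtain ⟨c, ⟨hc, hSc⟩, _⟩ := hC.cover S (by omega) (by omega)
        by_cases hex : ∃ a, c.head? = some (u a).1
        · obtain ⟨a, ha⟩ := hex
          refine ⟨a.1 :: (c ++ [((τ a).1)ᶜ]), ⟨Or.inr ⟨a, c, hc, ha, rfl⟩, by simp [hSc]⟩, ?_⟩
          rintro c' ⟨hc', hSc'⟩
          rcases hc' with ⟨hc', hno⟩ | ⟨a', c'', hc'', hh, rfl⟩
          · have : c' = c := hC.chain_unique hc' hc hSc' hSc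
            subst this
            exact absurd ha (hno a)
          · have hSc'' : S ∈ c'' := by
              rw [List.mem_cons, List.mem_append, List.mem_singleton] at hSc'
              rcases hSc' with h | h | h
              · have := a'.2
                rw [← h] at this
                omega
              · exact h
              · have h3 := hcard1 a'
                rw [← h] at h3
                omega
            have : c'' = c := hC.chain_unique hc'' hc hSc'' hSc
            subst this
            rw [hh] at ha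
            simp only [Option.some.injEq] at ha
            have : a' = a := hu (Subtype.ext ha)
            rw [this]
        · refine ⟨c, ⟨Or.inl ⟨hc, fun a h => hex ⟨a, h⟩⟩, hSc⟩, ?_⟩
          rintro c' ⟨hc', hSc'⟩
          rcases hc' with ⟨hc', hno⟩ | ⟨a', c'', hc'', hh, rfl⟩
          · exact hC.chain_unique hc' hc hSc' hSc
          · have hSc'' : S ∈ c'' := by
              rw [List.mem_cons, List.mem_append, List.mem_singleton] at hSc'
              rcases hSc' with h | h | h
              · have := a'.2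
                rw [← h] at this
                omega
              · exact h
              · have h3 := hcard1 a'
                rw [← h] at h3
                omega
            have : c'' = c := hC.chain_unique hc'' hc hSc'' hSc
            subst this
            exact absurd ⟨a', hh⟩ hex
  · -- links
    intro y
    obtain ⟨c, hc, h1, h2⟩ := hζ (u y)
    exact ⟨y.1 :: (c ++ [((τ y).1)ᶜ]), Or.inr ⟨y, c, hc, h1, rfl⟩, rfl, by
      rw [← List.cons_append, List.getLast?_concat]⟩
  · rintro S T ⟨c, hc, hST⟩
    rcases hc with ⟨hc, _⟩ | ⟨a, c, hc, hh, rfl⟩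
    · exact Or.inl ⟨c, hc, hST⟩
    · rcases hedge a c hc hh S T hST with h | h | h
      · right; left; exact ⟨a, h⟩
      · right; right; exact ⟨a, h⟩
      · left; exact ⟨c, hc, h⟩

end Pool.SCDO
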