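import Pool.Agent.Lib.SCDO.Defs
import Pool.Agent.Lib.SCDO.AS1

/-!
# Row AS2 (outer part of the symmetric chain decompositions)
Extension of K edge-disjoint families by one level.
Recipe: extend_linked for every c; the disjointness as in `lower` in Pool/Agent/Lib/MP_0ccee8_co2/Assemble.lean (levels: new lower edges have S of card k, new upper edges T of card n-k; 2(k+1) ≤ n; complements are injective).
-/

set_option linter.unusedSectionVars false
set_option linter.unusedVariables false

namespace Pool.SCDO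

open Finset Pool.SCDH Pool.MP_0ccee8_co.Lib

theorem fam_step {n k K : ℕ} (hk : 2 * (k + 1) ≤ n) {C : Fin K → Set (List (Finset (Fin n)))}
    {ζ : Fin K → Lv n (k + 1) ≃ Lv n (k + 1)} (hC : Fam n (k + 1) K C ζ)
    (u : Fin K → Lv n k → Lv n (k + 1)) (τ : Fin K → Lv n k ≃ Lv n k)
    (hu : ∀ c, Function.Injective (u c)) (hu1 : ∀ c a, a.1 ⊆ (u c a).1)
    (hu2 : ∀ c a, (τ c a).1 ⊆ (ζ c (u c a)).1)
    (h1 : ∀ c c' a, c ≠ c' → u c a ≠ u c' a)
    (h2 : ∀ c c' a a', c ≠ c' → ζ c (u c a) = ζ c' (u c' a') → τ c a ≠ τ c' a') :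
    ∃ C' : Fin K → Set (List (Finset (Fin n))), Fam n k K C' τ := by
  have h3 := fun c => extend_linked hk (hC.good c) (ζ c) (hC.linked c) (u c) (τ c) (hu c)
    (fun a => hu1 c a) (fun a => hu2 c a)
  choose C' hC' hL' hE' using h3
  refine ⟨C', ⟨hC', hL', ?_⟩⟩
  intro i i' hne S T h h'
  have hc1 : ∀ (i : Fin K) (a : Lv n k), (((τ i a).1)ᶜ).card = n - k := by
    intro i a
    rw [card_compl, Fintype.card_fin, (τ i a).2]
  have hc2 : ∀ (i : Fin K) (a : Lv n k), (((ζ i (u i a)).1)ᶜ).card = n - (k + 1) := by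
    intro i a
    rw [card_compl, Fintype.card_fin, (ζ i (u i a)).2]
  rcases hE' i S T h with h4 | ⟨a, h4, h5⟩ | ⟨a, h4, h5⟩
  · rcases hE' i' S T h' with h4' | ⟨a', h4', h5'⟩ | ⟨a', h4', h5'⟩
    · exact hC.dis i i' hne S T h4 h4'
    · have h6 := (hC.good i).edge_cover h4
      rw [h4', a'.2] at h6
      omega
    · have h6 := (hC.good i).edge_cover h4
      rw [h5', hc1] at h6
      omega
  · rcases hE' i' S T h' with h4' | ⟨a', h4', h5'⟩ | ⟨a', h4', h5'⟩
    · have h6 := (hC.good i').edge_cover h4'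
      rw [h4, a.2] at h6
      omega
    · have haa : a = a' := Subtype.ext (h4.symm.trans h4')
      subst haa
      exact h1 i i' a hne (Subtype.ext (h5.symm.trans h5'))
    · have h6 : S.card = k := by rw [h4, a.2]
      have h7 : S.card = n - (k + 1) := by rw [h4', hc2]
      omega
  · rcases hE' i' S T h' with h4' | ⟨a', h4', h5'⟩ | ⟨a', h4', h5'⟩
    · have h6 := (hC.good i').edge_cover h4'
      rw [h5, hc1] at h6
      omega
    · have h6 : S.card = k := by rw [h4', a'.2]
      have h7 : S.card = n - (k + 1) := by rw [h4, hc2]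
      omega
    · exact h2 i i' a a' hne (Subtype.ext (compl_injective (h4.symm.trans h4')))
        (Subtype.ext (compl_injective (h5.symm.trans h5')))

end Pool.SCDO
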