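import Pool.Agent.Lib.SCDO.Defs

/-!
# Row NU2 (outer part of the symmetric chain decompositions)
Basic numerical facts.
Recipe: ε t ≥ 10^100 and ε ≤ 1/2 give t ≥ 10^100.  NN = n - 2(t^50 + 1), t^200 ≤ n < 2 t^200.  For (2): t^m ≤ t^1000000 ≤ e^t.
(3): K ≤ n/2 - ε n and ε n ≥ 10^100 t^199.
-/

set_option linter.unusedSectionVars false
set_option linter.unusedVariables false

namespace Pool.SCDO

open Finset Pool.SCDH

theorem ob_t {ε : ℝ} {t : ℕ} (hB : Big ε t) : 10 ^ 100 ≤ t := by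
  have h1 : (10 : ℝ) ^ 100 ≤ t := by
    refine hB.b1.trans ?_
    have h2 : (0 : ℝ) ≤ t := Nat.cast_nonneg t
    have h3 := hB.e1
    nlinarith
  exact_mod_cast h1

private lemma ten_le {ε : ℝ} {t : ℕ} (hB : Big ε t) : 10 ≤ t :=
  le_trans (Nat.le_self_pow (by norm_num) 10) (ob_t hB)

theorem ob_exp {ε : ℝ} {t : ℕ} (hB : Big ε t) (m : ℕ) (hm : m ≤ 1000000) : (t : ℝ) ^ m ≤ Real.exp t := by
  have h1 : (1 : ℝ) ≤ t := by
    have := ten_le hB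
    exact_mod_cast (by omega : 1 ≤ t)
  exact (pow_le_pow_right₀ h1 hm).trans hB.b2

private lemma k0_facts {t : ℕ} (ht : 10 ≤ t) : 10 ≤ t ^ 50 ∧ t ^ 200 = (t ^ 50) ^ 4 := by
  refine ⟨ht.trans (Nat.le_self_pow (by norm_num) t), ?_⟩
  rw [← pow_mul]

theorem ob_K {ε : ℝ} {t n K : ℕ} (hB : Big ε t) (hR : Rng t n) (hK : (K : ℝ) ≤ (1 / 2 - ε) * n) :
    2 * K + 6 * k0 t + 4 ≤ n ∧ 8 * (k0 t + 1) ^ 2 ≤ n := by
  have ht := ten_le hB
  obtain ⟨h1, h2⟩ := k0_facts ht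
  obtain ⟨hn1, hn2⟩ := hR
  unfold k0
  constructor
  · -- `ε n ≥ t ^ 199`
    have h3 : (t : ℝ) ^ 199 ≤ ε * n := by
      have h4 : (t : ℝ) ^ 200 ≤ n := by exact_mod_cast hn1
      have h5 : (1 : ℝ) ≤ ε * t := by
        refine le_trans ?_ hB.b1
        norm_num
      have h6 : ε * (t : ℝ) ^ 200 = (ε * t) * (t : ℝ) ^ 199 := by
        rw [pow_succ (t : ℝ) 199]; ring
      have h7 : (0 : ℝ) ≤ (t : ℝ) ^ 199 := by positivity
      have h8 : ε * (t : ℝ) ^ 200 ≤ ε * n := mul_le_mul_of_nonneg_left h4 hB.e0.le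
      rw [h6] at h8
      have h9 : (1 : ℝ) * (t : ℝ) ^ 199 ≤ (ε * t) * (t : ℝ) ^ 199 :=
        mul_le_mul_of_nonneg_right h5 h7
      linarith
    have h10 : 6 * t ^ 50 + 4 ≤ t ^ 199 := by
      have e : t ^ 199 = t ^ 50 * t ^ 149 := by rw [← pow_add]
      have h11 : 10 ≤ t ^ 149 := ht.trans (Nat.le_self_pow (by norm_num) t)
      rw [e]
      have h12 : t ^ 50 * 10 ≤ t ^ 50 * t ^ 149 := Nat.mul_le_mul_left _ h11
      omega
    have h13 : (6 : ℝ) * (t : ℝ) ^ 50 + 4 ≤ (t : ℝ) ^ 199 := by exact_mod_cast h10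
    have h14 : (2 : ℝ) * K + 6 * (t : ℝ) ^ 50 + 4 ≤ n := by
      have h15 : (0 : ℝ) ≤ (t : ℝ) ^ 50 := by positivity
      nlinarith
    exact_mod_cast h14
  · rw [h2] at hn1
    refine le_trans ?_ hn1
    generalize t ^ 50 = T at h1
    have h3 : (T + 1) ^ 2 ≤ 4 * T ^ 2 := by nlinarith
    have h4 : 100 ≤ T ^ 2 := by nlinarith
    have h5 : T ^ 4 = T ^ 2 * T ^ 2 := by ring
    rw [h5]
    generalize (T + 1) ^ 2 = U at h3
    generalize T ^ 2 = V at h3 h4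
    nlinarith

theorem ob_NN {ε : ℝ} {t n : ℕ} (hB : Big ε t) (hR : Rng t n) :
    n = NN n t + 2 * (k0 t + 1) ∧ t ^ 200 ≤ 2 * NN n t ∧ NN n t ≤ 2 * t ^ 200 := by
  have ht := ten_le hB
  obtain ⟨h1, h2⟩ := k0_facts ht
  obtain ⟨hn1, hn2⟩ := hR
  unfold NN k0
  have h3 : 4 * (t ^ 50 + 1) ≤ t ^ 200 := by
    rw [h2]
    generalize t ^ 50 = T at h1
    have h4 : 1000 ≤ T ^ 3 := by
      calc 1000 = 10 ^ 3 := by norm_num
        _ ≤ T ^ 3 := Nat.pow_le_pow_left h1 3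
    have h5 : T ^ 4 = T * T ^ 3 := by ring
    rw [h5]
    generalize T ^ 3 = V at h4
    nlinarith
  refine ⟨by omega, by omega, by omega⟩

end Pool.SCDO
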