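import Pool.Agent.Lib.SCDO.Defs
import Pool.Agent.Lib.SCDO.NU2

/-!
# Row OK10 (outer part of the symmetric chain decompositions)
om: the outer chains are few.
Recipe: k = k0+1: C(n,k0+1)(k0+1) = C(n,k0)(n-k0) (Nat.choose_succ_right_eq), t^26 (k0+2)(k0+1) ≤ n - k0.  k ≥ k0+2: C(n,k) ≥ C(n,k0+2) (Nat.choose_le_choose-monotonicity up to the middle: Nat.choose_le_succ_of_lt_half_left or choose_mono lemmas; prove by Nat.le_induction)
and C(n,k0+2)(k0+2)(k0+1) = C(n,k0)(n-k0)(n-k0-1); t^26 (k+1)(k0+2)(k0+1) ≤ t^26 n · 8 t^100 ≤ (n-k0)(n-k0-1).  card (Lv n k) = C(n,k): Fintype.card_finset_len.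
-/

set_option linter.unusedSectionVars false
set_option linter.unusedVariables false

namespace Pool.SCDO

open Finset Pool.SCDH

private theorem choose_mono_half {n j k : ℕ} (hjk : j ≤ k) (hk : 2 * k ≤ n) :
    n.choose j ≤ n.choose k := by
  induction k, hjk using Nat.le_induction with
  | base => exact le_rfl
  | succ m hm ih =>
    refine le_trans (ih (by omega)) ?_
    exact Nat.choose_le_succ_of_lt_half_left (by omega)

theorem om_of {ε : ℝ} {n k t : ℕ} (hB : Big ε t) (hR : Rng t n) (hk : t ^ 50 + 1 ≤ k) (hk2 : 2 * k + 1 ≤ n) :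
    t ^ 26 * ((k + 1) * n.choose (k0 t)) ≤ Fintype.card (Lv n k) := by
  have hcard : Fintype.card (Lv n k) = n.choose k := by
    have := Fintype.card_finset_len (α := Fin n) k
    rw [Fintype.card_fin] at this
    exact this
  rw [hcard]
  have ht : 100 ≤ t := le_trans (by norm_num) (ob_t hB)
  have hn : t ^ 200 ≤ n := hR.1
  have h1 : 24 * t ^ 126 ≤ t ^ 200 := by
    have e : t ^ 200 = t ^ 74 * t ^ 126 := by rw [← pow_add]
    rw [e]
    apply Nat.mul_le_mul_right
    calc 24 ≤ t := by omega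
      _ = t ^ 1 := (pow_one t).symm
      _ ≤ t ^ 74 := Nat.pow_le_pow_right (by omega) (by norm_num)
  have h2 : 8 * t ^ 50 ≤ t ^ 200 := by
    have e : t ^ 200 = t ^ 150 * t ^ 50 := by rw [← pow_add]
    rw [e]
    apply Nat.mul_le_mul_right
    calc 8 ≤ t := by omega
      _ = t ^ 1 := (pow_one t).symm
      _ ≤ t ^ 150 := Nat.pow_le_pow_right (by omega) (by norm_num)
  obtain ⟨a, ha⟩ : ∃ a, a = t ^ 50 := ⟨_, rfl⟩
  have hk0 : k0 t = a := by rw [ha]; rfl
  have ha1 : 1 ≤ a := by rw [ha]; exact Nat.one_le_pow _ _ (by omega)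
  have h3 : t ^ 26 * ((a + 2) * (a + 1)) ≤ 6 * t ^ 126 := by
    have e : (a + 2) * (a + 1) ≤ 6 * (a * a) := by nlinarith
    have e2 : a * a = t ^ 100 := by rw [ha, ← pow_add]
    rw [e2] at e
    calc t ^ 26 * ((a + 2) * (a + 1)) ≤ t ^ 26 * (6 * t ^ 100) := Nat.mul_le_mul_left _ e
      _ = 6 * (t ^ 26 * t ^ 100) := by ring
      _ = 6 * t ^ 126 := by rw [← pow_add]
  rw [← ha] at h2 hk
  rw [hk0]
  have hna : 8 * a ≤ n := le_trans h2 hn
  have hna1 : 24 * t ^ 126 ≤ n := le_trans h1 hn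
  have c1 : n.choose (a + 1) * (a + 1) = n.choose a * (n - a) := Nat.choose_succ_right_eq n a
  have c2 : n.choose (a + 2) * (a + 2) = n.choose (a + 1) * (n - (a + 1)) :=
    Nat.choose_succ_right_eq n (a + 1)
  rcases Nat.lt_or_ge (a + 1) k with hlt | hge
  · -- k ≥ a + 2
    have hmono : n.choose (a + 2) ≤ n.choose k := choose_mono_half (by omega) (by omega)
    refine le_trans ?_ hmono
    have c3 : n.choose (a + 2) * ((a + 2) * (a + 1)) = n.choose a * ((n - a) * (n - (a + 1))) := by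
      calc n.choose (a + 2) * ((a + 2) * (a + 1))
          = (n.choose (a + 2) * (a + 2)) * (a + 1) := by ring
        _ = (n.choose (a + 1) * (n - (a + 1))) * (a + 1) := by rw [c2]
        _ = (n.choose (a + 1) * (a + 1)) * (n - (a + 1)) := by ring
        _ = (n.choose a * (n - a)) * (n - (a + 1)) := by rw [c1]
        _ = _ := by ring
    have hpos : 0 < (a + 2) * (a + 1) := by positivity
    apply Nat.le_of_mul_le_mul_right (c := (a + 2) * (a + 1)) _ hpos
    rw [c3]
    have key : t ^ 26 * (k + 1) * ((a + 2) * (a + 1)) ≤ (n - a) * (n - (a + 1)) := by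
      obtain ⟨b, hb⟩ : ∃ b, n = b + (a + 1) := ⟨n - (a + 1), by omega⟩
      have e1 : n - (a + 1) = b := by omega
      have e2 : n - a = b + 1 := by omega
      rw [e1, e2]
      have hb2 : n ≤ 2 * b := by omega
      calc t ^ 26 * (k + 1) * ((a + 2) * (a + 1))
          = (k + 1) * (t ^ 26 * ((a + 2) * (a + 1))) := by ring
        _ ≤ n * (6 * t ^ 126) := Nat.mul_le_mul (by omega) h3
        _ ≤ (b + 1) * b := by nlinarith
    calc t ^ 26 * ((k + 1) * n.choose a) * ((a + 2) * (a + 1))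
        = n.choose a * (t ^ 26 * (k + 1) * ((a + 2) * (a + 1))) := by ring
      _ ≤ n.choose a * ((n - a) * (n - (a + 1))) := Nat.mul_le_mul_left _ key
  · -- k = a + 1
    have hk' : k = a + 1 := by omega
    subst hk'
    have hpos : 0 < a + 1 := by omega
    apply Nat.le_of_mul_le_mul_right (c := a + 1) _ hpos
    rw [c1]
    have key : t ^ 26 * ((a + 2) * (a + 1)) ≤ n - a := by
      have : 6 * t ^ 126 + a ≤ n := by omega
      omega
    calc t ^ 26 * ((a + 1 + 1) * n.choose a) * (a + 1)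
        = n.choose a * (t ^ 26 * ((a + 2) * (a + 1))) := by ring
      _ ≤ n.choose a * (n - a) := Nat.mul_le_mul_left _ key

end Pool.SCDO
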