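import Pool.Agent.Lib.SCDH.Defs

/-!
# Row OK1 (outer part of the symmetric chain decompositions)
Smoothing: functions with small two-step sums are small on sets with small boundary (Y side).
Recipe: call x minority if 2 e(x,N) ≤ d (then min(e(x,N), e(x,Nᶜ)) = e(x,N)).  T1 = the y ∈ N with κ ≤ 2 #{minority x ~ y}: κ |T1| ≤ 2 ∑_{x minority} e(x,N) ≤ 2 mY.
For y ∈ N \ T1: κ ≤ 2 #{x ~ y, d < 2 e(x,N)}, so κ d f(y) ≤ 4 f(y) ∑_{x ~ y} e(x,N); sum over y (all y) and exchange: = 4 ∑_{y' ∈ N} ∑_{x ~ y'} ∑_{y ~ x} f(y).  Then multiply by q.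
-/

set_option linter.unusedSectionVars false
set_option linter.unusedVariables false

namespace Pool.SCDO

open Finset Pool.SCDH

private theorem smooth_abs1 {α β : Type} [Fintype α] [Fintype β] [DecidableEq α] [DecidableEq β]
    (R : α → β → Prop) [∀ x y, Decidable (R x y)] (d κ : ℕ)
    (hX : ∀ x, (univ.filter (fun y => R x y)).card = d)
    (hY : ∀ y, (univ.filter (fun x => R x y)).card = κ) (f : β → ℕ) (m1 m2 q : ℕ)
    (h1 : ∀ y, f y ≤ m1)
    (h2 : ∀ y', q * ∑ x ∈ univ.filter (fun x => R x y'), ∑ y ∈ univ.filter (fun y => R x y), f y ≤ m2)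
    (N : Finset β) (m : ℕ)
    (hm : ∑ x, min ((N.filter (fun y => R x y)).card) ((Nᶜ.filter (fun y => R x y)).card) = m) :
    q * (κ * d * ∑ y ∈ N, f y) ≤ q * (2 * d * m1 * m) + 4 * m2 * N.card := by
  classical
  set e : α → ℕ := fun x => (N.filter (fun y => R x y)).card with he
  have hsplit : ∀ x, e x + (Nᶜ.filter (fun y => R x y)).card = d := by
    intro x
    have h3 : (univ.filter (fun y => R x y)) = N.filter (fun y => R x y) ∪ Nᶜ.filter (fun y => R x y) := by
      ext y
      simp only [mem_filter, mem_univ, true_and, mem_union, mem_compl]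
      tauto
    have h4 : Disjoint (N.filter (fun y => R x y)) (Nᶜ.filter (fun y => R x y)) :=
      Finset.disjoint_filter_filter disjoint_compl_right
    rw [← hX x, h3, Finset.card_union_of_disjoint h4]
  -- the minority
  set Mi : Finset α := univ.filter (fun x => 2 * e x ≤ d) with hMi
  have hmin : ∑ x ∈ Mi, e x ≤ m := by
    rw [← hm]
    calc ∑ x ∈ Mi, e x ≤ ∑ x ∈ Mi, min (e x) ((Nᶜ.filter (fun y => R x y)).card) := by
          refine Finset.sum_le_sum fun x hx => ?_
          have h3 := (Finset.mem_filter.1 hx).2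
          have h4 := hsplit x
          exact le_min le_rfl (by omega)
      _ ≤ ∑ x, min (e x) ((Nᶜ.filter (fun y => R x y)).card) :=
          Finset.sum_le_sum_of_subset (Finset.subset_univ _)
  set mi : β → ℕ := fun y => (Mi.filter (fun x => R x y)).card with hmi
  set T1 : Finset β := N.filter (fun y => κ ≤ 2 * mi y) with hT1
  have hdc : ∀ (A : Finset α) (B : Finset β), ∑ y ∈ B, (A.filter (fun x => R x y)).card =
      ∑ x ∈ A, (B.filter (fun y => R x y)).card := by
    intro A B
    have := Finset.sum_card_bipartiteAbove_eq_sum_card_bipartiteBelow (s := A) (t := B) R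
    exact this.symm
  have hT : κ * T1.card ≤ 2 * m := by
    calc κ * T1.card = ∑ y ∈ T1, κ := by rw [Finset.sum_const, smul_eq_mul, mul_comm]
      _ ≤ ∑ y ∈ T1, 2 * mi y := Finset.sum_le_sum fun y hy => (Finset.mem_filter.1 hy).2
      _ = 2 * ∑ y ∈ T1, mi y := by rw [Finset.mul_sum]
      _ ≤ 2 * ∑ y ∈ N, mi y :=
          Nat.mul_le_mul_left _ (Finset.sum_le_sum_of_subset (Finset.filter_subset _ _))
      _ = 2 * ∑ x ∈ Mi, e x := by rw [hdc Mi N]
      _ ≤ 2 * m := Nat.mul_le_mul_left _ hmin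
  have hpart1 : κ * d * ∑ y ∈ T1, f y ≤ 2 * d * m1 * m := by
    have h3 : ∑ y ∈ T1, f y ≤ T1.card * m1 := by
      have := Finset.sum_le_card_nsmul T1 f m1 (fun y _ => h1 y)
      simpa [smul_eq_mul] using this
    calc κ * d * ∑ y ∈ T1, f y ≤ κ * d * (T1.card * m1) := Nat.mul_le_mul_left _ h3
      _ = (κ * T1.card) * (d * m1) := by ring
      _ ≤ (2 * m) * (d * m1) := Nat.mul_le_mul_right _ hT
      _ = 2 * d * m1 * m := by ring
  -- the other vertices
  have hvert : ∀ y ∈ N \ T1, κ * d * f y ≤ 4 * (f y * ∑ x ∈ univ.filter (fun x => R x y), e x) := by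
    intro y hy
    obtain ⟨hyN, hyT⟩ := Finset.mem_sdiff.1 hy
    have h3 : 2 * mi y < κ := by
      by_contra h
      exact hyT (Finset.mem_filter.2 ⟨hyN, by omega⟩)
    set Ma : Finset α := univ.filter (fun x => R x y ∧ d < 2 * e x) with hMa
    have h4 : κ = mi y + Ma.card := by
      have h5 : (univ.filter (fun x => R x y)) = Mi.filter (fun x => R x y) ∪ Ma := by
        ext x
        simp only [hMa, hMi, mem_filter, mem_univ, true_and, mem_union]
        constructor
        · intro hR
          by_cases h6 : 2 * e x ≤ d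
          · exact Or.inl ⟨h6, hR⟩
          · exact Or.inr ⟨hR, by omega⟩
        · rintro (h6 | h6)
          · exact h6.2
          · exact h6.1
      have h7 : Disjoint (Mi.filter (fun x => R x y)) Ma := by
        rw [Finset.disjoint_left]
        intro x hx hx'
        have h8 := (Finset.mem_filter.1 (Finset.mem_filter.1 hx).1).2
        have h9 := (Finset.mem_filter.1 hx').2.2
        omega
      rw [← hY y, h5, Finset.card_union_of_disjoint h7]
    have h10 : d * Ma.card ≤ 2 * ∑ x ∈ univ.filter (fun x => R x y), e x := by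
      calc d * Ma.card = ∑ x ∈ Ma, d := by rw [Finset.sum_const, smul_eq_mul, mul_comm]
        _ ≤ ∑ x ∈ Ma, 2 * e x := Finset.sum_le_sum fun x hx => (Finset.mem_filter.1 hx).2.2.le
        _ ≤ ∑ x ∈ univ.filter (fun x => R x y), 2 * e x := by
            refine Finset.sum_le_sum_of_subset fun x hx => ?_
            exact Finset.mem_filter.2 ⟨Finset.mem_univ _, (Finset.mem_filter.1 hx).2.1⟩
        _ = 2 * ∑ x ∈ univ.filter (fun x => R x y), e x := by rw [Finset.mul_sum]
    calc κ * d * f y ≤ (2 * Ma.card) * d * f y := by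
          have : κ ≤ 2 * Ma.card := by omega
          exact Nat.mul_le_mul_right _ (Nat.mul_le_mul_right _ this)
      _ = 2 * f y * (d * Ma.card) := by ring
      _ ≤ 2 * f y * (2 * ∑ x ∈ univ.filter (fun x => R x y), e x) := Nat.mul_le_mul_left _ h10
      _ = _ := by ring
  have hexch : ∑ y, f y * ∑ x ∈ univ.filter (fun x => R x y), e x =
      ∑ y' ∈ N, ∑ x ∈ univ.filter (fun x => R x y'), ∑ y ∈ univ.filter (fun y => R x y), f y := by
    have e1 : ∀ y, f y * ∑ x ∈ univ.filter (fun x => R x y), e x =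
        ∑ x, ∑ y' ∈ N, if R x y ∧ R x y' then f y else 0 := by
      intro y
      rw [Finset.mul_sum, Finset.sum_filter]
      refine Finset.sum_congr rfl fun x _ => ?_
      by_cases hR : R x y
      · rw [if_pos hR]
        simp only [hR, true_and]
        rw [← Finset.sum_filter, Finset.sum_const, smul_eq_mul, mul_comm]
      · rw [if_neg hR]
        simp [hR]
    have e2 : ∀ y' , (∑ x ∈ univ.filter (fun x => R x y'), ∑ y ∈ univ.filter (fun y => R x y), f y) =
        ∑ x, ∑ y, if R x y ∧ R x y' then f y else 0 := by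
      intro y'
      rw [Finset.sum_filter]
      refine Finset.sum_congr rfl fun x _ => ?_
      by_cases hR : R x y'
      · rw [if_pos hR, Finset.sum_filter]
        simp only [hR, and_true]
      · rw [if_neg hR]
        simp [hR]
    rw [Finset.sum_congr rfl fun y _ => e1 y, Finset.sum_congr rfl fun y' _ => e2 y']
    rw [Finset.sum_comm]
    rw [Finset.sum_comm (s := N)]
    refine Finset.sum_congr rfl fun x _ => ?_
    rw [Finset.sum_comm]
  have hpart2 : q * (κ * d * ∑ y ∈ N \ T1, f y) ≤ 4 * m2 * N.card := by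
    have h3 : κ * d * ∑ y ∈ N \ T1, f y ≤
        4 * ∑ y' ∈ N, ∑ x ∈ univ.filter (fun x => R x y'), ∑ y ∈ univ.filter (fun y => R x y), f y := by
      rw [← hexch, Finset.mul_sum, Finset.mul_sum]
      refine (Finset.sum_le_sum hvert).trans ?_
      exact Finset.sum_le_sum_of_subset (Finset.subset_univ _)
    calc q * (κ * d * ∑ y ∈ N \ T1, f y) ≤ q * (4 * ∑ y' ∈ N, ∑ x ∈ univ.filter (fun x => R x y'),
          ∑ y ∈ univ.filter (fun y => R x y), f y) := Nat.mul_le_mul_left _ h3
      _ = 4 * ∑ y' ∈ N, q * ∑ x ∈ univ.filter (fun x => R x y'),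
          ∑ y ∈ univ.filter (fun y => R x y), f y := by rw [← Finset.mul_sum]; ring
      _ ≤ 4 * ∑ y' ∈ N, m2 := Nat.mul_le_mul_left _ (Finset.sum_le_sum fun y' _ => h2 y')
      _ = 4 * m2 * N.card := by rw [Finset.sum_const, smul_eq_mul]; ring
  have hsum : ∑ y ∈ N, f y = ∑ y ∈ N \ T1, f y + ∑ y ∈ T1, f y :=
    (Finset.sum_sdiff (Finset.filter_subset _ _)).symm
  calc q * (κ * d * ∑ y ∈ N, f y) = q * (κ * d * ∑ y ∈ T1, f y) + q * (κ * d * ∑ y ∈ N \ T1, f y) := by
        rw [hsum]; ring
    _ ≤ q * (2 * d * m1 * m) + 4 * m2 * N.card :=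
        Nat.add_le_add (Nat.mul_le_mul_left _ hpart1) hpart2

theorem smoothY {X Y : Type} [Fintype X] [DecidableEq X] [Fintype Y] [DecidableEq Y]
    (G : Finset (X × Y)) (d κ : ℕ) (hX : ∀ x, dgX G x = d) (hY : ∀ y, dgY G y = κ) (f : Y → ℕ)
    (m1 m2 q : ℕ) (h1 : ∀ y, f y ≤ m1)
    (h2 : ∀ y', q * ∑ x ∈ univ.filter (fun x => (x, y') ∈ G), ∑ y ∈ univ.filter (fun y => (x, y) ∈ G), f y ≤ m2)
    (N : Finset Y) :
    q * (κ * d * ∑ y ∈ N, f y) ≤ q * (2 * d * m1 * mY G N) + 4 * m2 * N.card := by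
  have hx1 : ∀ (x : X) (S : Finset Y), eB G {x} S = (S.filter (fun y => (x, y) ∈ G)).card := by
    intro x S
    unfold eB
    symm
    apply Finset.card_bij (fun y _ => (x, y))
    · intro y hy
      rw [mem_filter] at hy ⊢
      exact ⟨hy.2, by simp, hy.1⟩
    · intro y _ y' _ h
      exact (Prod.mk.inj h).2
    · rintro ⟨x', y⟩ he
      rw [mem_filter, mem_singleton] at he
      obtain ⟨he1, he2, he3⟩ := he
      simp only at he2 he3
      subst he2
      exact ⟨y, mem_filter.2 ⟨he3, he1⟩, rfl⟩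
  have hy1 : ∀ (y : Y) (S : Finset X), eB G S {y} = (S.filter (fun x => (x, y) ∈ G)).card := by
    intro y S
    unfold eB
    symm
    apply Finset.card_bij (fun x _ => (x, y))
    · intro x hx
      rw [mem_filter] at hx ⊢
      exact ⟨hx.2, hx.1, by simp⟩
    · intro x _ x' _ h
      exact (Prod.mk.inj h).1
    · rintro ⟨x, y'⟩ he
      rw [mem_filter, mem_singleton] at he
      obtain ⟨he1, he2, he3⟩ := he
      simp only at he2 he3
      subst he3
      exact ⟨x, mem_filter.2 ⟨he2, he1⟩, rfl⟩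
  apply smooth_abs1 (fun (x : X) (y : Y) => (x, y) ∈ G) d κ
    (fun x => by rw [← hx1, ← hX x]; rfl) (fun y => by rw [← hy1, ← hY y]; rfl) f m1 m2 q h1 h2 N (mY G N)
  unfold mY
  refine Finset.sum_congr rfl fun x _ => ?_
  rw [hx1, hx1]

end Pool.SCDO
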