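import Pool.Agent.Lib.SCDO.Defs
import Pool.Agent.Lib.SCDH.G01
import Pool.Agent.Lib.SCDH.C1

/-!
# Row OK6 (outer part of the symmetric chain decompositions)
Degrees and two-step sums in the inclusion graph.
Recipe: eB_left/right: unfold eB, bijection e ↦ e.1 resp. e.2.  twoY: exchange: ∑_{x0 ⊆ y'} ∑_{y ⊇ x0} #{x ∈ OX c, x ⊆ y} = number of (x0,y,x); those with x = x0: x ∈ OX c, x ⊆ y' (a1: ≤ t), y arbitrary above x (n-k ≤ n): ≤ t n.
those with x ≠ x0: |x \ x0| = 1 (both below y) and y = x ∪ x0: ≤ ∑_{x0 ⊆ y'} #{x ∈ OX c, |x \ x0| = 1}, there are k+1 sets x0, a5.  twoX the same upside down: (y0,x,y), y = y0: y ∈ OY c, y ⊇ x' (a2), x below: ≤ t (k+1); y ≠ y0: |y \ y0| = 1, x = y ∩ y0,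
n-k sets y0 ⊇ x', a6.
-/

set_option linter.unusedSectionVars false
set_option linter.unusedVariables false

namespace Pool.SCDO

open Finset Pool.SCDH

variable {n k t K : ℕ}

private theorem mem_G (x : Lv n k) (y : Lv n (k + 1)) : (x, y) ∈ GLv n k ↔ x.1 ⊆ y.1 := by
  unfold GLv
  rw [mem_filter]
  exact ⟨fun h => h.2, fun h => ⟨mem_univ _, h⟩⟩

theorem eB_left (A : Finset (Lv n k)) (y : Lv n (k + 1)) :
    eB (GLv n k) A {y} = (univ.filter (fun x => x ∈ A ∧ x.1 ⊆ y.1)).card := by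
  unfold eB
  refine Finset.card_bij (fun e _ => e.1) ?_ ?_ ?_
  · rintro ⟨x, y'⟩ he
    obtain ⟨h1, h2, h3⟩ := mem_filter.1 he
    have h4 : y' = y := mem_singleton.1 h3
    subst h4
    exact mem_filter.2 ⟨mem_univ _, h2, (mem_G _ _).1 h1⟩
  · rintro ⟨x, y1⟩ h1 ⟨x', y2⟩ h2 hxx
    have h3 : y1 = y := mem_singleton.1 (mem_filter.1 h1).2.2
    have h4 : y2 = y := mem_singleton.1 (mem_filter.1 h2).2.2
    have h5 : x = x' := hxx
    rw [h3, h4, h5]
  · intro x hx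
    obtain ⟨_, h2, h3⟩ := mem_filter.1 hx
    exact ⟨(x, y), mem_filter.2 ⟨(mem_G _ _).2 h3, h2, mem_singleton_self _⟩, rfl⟩

theorem eB_right (x : Lv n k) (N : Finset (Lv n (k + 1))) :
    eB (GLv n k) {x} N = (univ.filter (fun y => y ∈ N ∧ x.1 ⊆ y.1)).card := by
  unfold eB
  refine Finset.card_bij (fun e _ => e.2) ?_ ?_ ?_
  · rintro ⟨x', y⟩ he
    obtain ⟨h1, h2, h3⟩ := mem_filter.1 he
    have h4 : x' = x := mem_singleton.1 h2
    subst h4
    exact mem_filter.2 ⟨mem_univ _, h3, (mem_G _ _).1 h1⟩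
  · rintro ⟨x1, y1⟩ h1 ⟨x2, y2⟩ h2 hyy
    have h3 : x1 = x := mem_singleton.1 (mem_filter.1 h1).2.1
    have h4 : x2 = x := mem_singleton.1 (mem_filter.1 h2).2.1
    have h5 : y1 = y2 := hyy
    rw [h3, h4, h5]
  · intro y hy
    obtain ⟨_, h2, h3⟩ := mem_filter.1 hy
    exact ⟨(x, y), mem_filter.2 ⟨(mem_G _ _).2 h3, mem_singleton_self _, h2⟩, rfl⟩

private theorem two_abs {X Y : Type} [Fintype X] [DecidableEq X] [Fintype Y] [DecidableEq Y]
    (R : X → Y → Prop) [∀ x y, Decidable (R x y)] (x0 : X) (A : Finset X) (Q : X → Prop)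
    [DecidablePred Q] (h : ∀ x, x ≠ x0 → ∀ y y', R x0 y → R x y → R x0 y' → R x y' → y = y')
    (h' : ∀ x, x ≠ x0 → ∀ y, R x0 y → R x y → Q x) :
    ∑ y ∈ univ.filter (fun y => R x0 y), (univ.filter (fun x => x ∈ A ∧ R x y)).card
      ≤ (if x0 ∈ A then (univ.filter (fun y => R x0 y)).card else 0)
        + (univ.filter (fun x => x ∈ A ∧ Q x)).card := by
  have h1 : ∀ x, ∑ y ∈ univ.filter (fun y => R x0 y), (if x ∈ A ∧ R x y then 1 else 0)
      ≤ (if x = x0 then (if x0 ∈ A then (univ.filter (fun y => R x0 y)).card else 0) else 0)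
        + (if x ∈ A ∧ Q x then 1 else 0) := by
    intro x
    by_cases hx : x = x0
    · subst hx
      rw [if_pos rfl]
      refine le_trans ?_ (Nat.le_add_right _ _)
      by_cases hA : x ∈ A
      · rw [if_pos hA, card_eq_sum_ones]
        refine sum_le_sum (fun y _ => ?_)
        split_ifs <;> simp
      · rw [if_neg hA]
        refine le_of_eq (sum_eq_zero (fun y _ => ?_))
        rw [if_neg (fun h2 => hA h2.1)]
    · rw [if_neg hx, Nat.zero_add, ← card_filter, filter_filter]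
      by_cases hy : ∃ y, R x0 y ∧ x ∈ A ∧ R x y
      · obtain ⟨y, h2, h3, h4⟩ := hy
        rw [if_pos ⟨h3, h' x hx y h2 h4⟩]
        refine card_le_one.2 (fun y1 hy1 y2 hy2 => ?_)
        obtain ⟨_, h5, _, h6⟩ := mem_filter.1 hy1
        obtain ⟨_, h7, _, h8⟩ := mem_filter.1 hy2
        exact h x hx y1 y2 h5 h6 h7 h8
      · refine le_trans (le_of_eq ?_) (Nat.zero_le _)
        refine card_eq_zero.2 (filter_eq_empty_iff.2 (fun y _ h2 => hy ⟨y, h2⟩))
  calc ∑ y ∈ univ.filter (fun y => R x0 y), (univ.filter (fun x => x ∈ A ∧ R x y)).card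
      = ∑ y ∈ univ.filter (fun y => R x0 y), ∑ x, (if x ∈ A ∧ R x y then 1 else 0) := by
        refine sum_congr rfl (fun y _ => ?_)
        rw [card_filter]
    _ = ∑ x, ∑ y ∈ univ.filter (fun y => R x0 y), (if x ∈ A ∧ R x y then 1 else 0) := sum_comm
    _ ≤ ∑ x, ((if x = x0 then (if x0 ∈ A then (univ.filter (fun y => R x0 y)).card else 0) else 0)
        + (if x ∈ A ∧ Q x then 1 else 0)) := sum_le_sum (fun x _ => h1 x)
    _ = _ := by
        rw [sum_add_distrib, sum_ite_eq' univ x0, if_pos (mem_univ _), ← card_filter]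

private theorem card_up (x : Lv n k) :
    (univ.filter (fun y : Lv n (k + 1) => (x, y) ∈ GLv n k)).card = n - k := by
  rw [← GLv_degX n k x]
  unfold dgX
  rw [eB_right]
  congr 1
  ext y
  simp only [mem_filter, mem_univ, true_and, mem_G]

private theorem card_dn (y : Lv n (k + 1)) :
    (univ.filter (fun x : Lv n k => (x, y) ∈ GLv n k)).card = k + 1 := by
  refine Eq.trans ?_ (GLv_degY n k y)
  unfold dgY
  rw [eB_left]
  congr 1
  ext x
  simp only [mem_filter, mem_univ, true_and, mem_G]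

private theorem un_eq {x x0 : Lv n k} (hx : x ≠ x0) {y : Lv n (k + 1)} (h0 : x0.1 ⊆ y.1)
    (h1 : x.1 ⊆ y.1) : x.1 ∪ x0.1 = y.1 ∧ (x.1 \ x0.1).card = 1 := by
  have hc : x.1.card = k := x.2
  have hc0 : x0.1.card = k := x0.2
  have hcy : y.1.card = k + 1 := y.2
  have h2 : x.1 ∪ x0.1 ⊆ y.1 := union_subset h1 h0
  have h3 := card_le_card h2
  have h4 : (x.1 \ x0.1).card + x0.1.card = (x.1 ∪ x0.1).card := card_sdiff_add_card _ _
  have h5 : (x.1 \ x0.1).card ≠ 0 := by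
    intro h6
    have h7 : x.1 ⊆ x0.1 := sdiff_eq_empty_iff_subset.1 (card_eq_zero.1 h6)
    exact hx (Subtype.ext (eq_of_subset_of_card_le h7 (by omega)))
  have h6 : (x.1 \ x0.1).card = 1 := by omega
  exact ⟨eq_of_subset_of_card_le h2 (by omega), h6⟩

private theorem in_eq {y y0 : Lv n (k + 1)} (hy : y ≠ y0) {x : Lv n k} (h0 : x.1 ⊆ y0.1)
    (h1 : x.1 ⊆ y.1) : y.1 ∩ y0.1 = x.1 ∧ (y.1 \ y0.1).card = 1 := by
  have hc : y.1.card = k + 1 := y.2
  have hc0 : y0.1.card = k + 1 := y0.2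
  have hcx : x.1.card = k := x.2
  have h2 : x.1 ⊆ y.1 ∩ y0.1 := subset_inter h1 h0
  have h3 := card_le_card h2
  have h4 : (y.1 \ y0.1).card + (y.1 ∩ y0.1).card = y.1.card := card_sdiff_add_card_inter _ _
  have h5 : (y.1 \ y0.1).card ≠ 0 := by
    intro h6
    have h7 : y.1 ⊆ y0.1 := sdiff_eq_empty_iff_subset.1 (card_eq_zero.1 h6)
    exact hy (Subtype.ext (eq_of_subset_of_card_le h7 (by omega)))
  exact ⟨(eq_of_subset_of_card_le h2 (by omega)).symm, by omega⟩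

theorem twoY (O : Outer (Lv n k) (Lv n (k + 1)) (Fin K)) (hl : OutLoc t O) (c : Fin K)
    (y' : Lv n (k + 1)) :
    t ^ 27 * ∑ x ∈ univ.filter (fun x => (x, y') ∈ GLv n k), ∑ y ∈ univ.filter (fun y => (x, y) ∈ GLv n k),
      eB (GLv n k) (O.OX c) {y} ≤ t ^ 28 * n + (k + 1) * n := by
  have h1 : ∀ x0 : Lv n k, ∑ y ∈ univ.filter (fun y => (x0, y) ∈ GLv n k),
      eB (GLv n k) (O.OX c) {y} ≤ (if x0 ∈ O.OX c then n else 0)
        + (univ.filter (fun x' => x' ∈ O.OX c ∧ (x'.1 \ x0.1).card = 1)).card := by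
    intro x0
    have h2 := two_abs (fun (x : Lv n k) (y : Lv n (k + 1)) => (x, y) ∈ GLv n k) x0 (O.OX c)
      (fun x' => (x'.1 \ x0.1).card = 1)
      (fun x hx y y' h3 h4 h5 h6 => Subtype.ext (Eq.trans
        (Eq.symm (un_eq hx ((mem_G _ _).1 h3) ((mem_G _ _).1 h4)).1)
        (un_eq hx ((mem_G _ _).1 h5) ((mem_G _ _).1 h6)).1))
      (fun x hx y h3 h4 => (un_eq hx ((mem_G _ _).1 h3) ((mem_G _ _).1 h4)).2)
    rw [card_up] at h2
    refine le_trans (le_of_eq ?_) (le_trans h2 (Nat.add_le_add_right ?_ _))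
    · refine sum_congr rfl (fun y _ => ?_)
      rw [eB_left]
      congr 1
      ext x
      simp only [mem_filter, mem_univ, true_and, mem_G]
    · split_ifs
      · exact Nat.sub_le _ _
      · exact le_refl _
  have h3 : ∑ x ∈ univ.filter (fun x => (x, y') ∈ GLv n k), (if x ∈ O.OX c then n else 0) ≤ t * n := by
    rw [← sum_filter, sum_const, smul_eq_mul]
    refine Nat.mul_le_mul_right n (le_trans (card_le_card ?_) (hl.a1 c y'))
    intro x hx
    have h4 := mem_filter.1 hx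
    exact mem_filter.2 ⟨mem_univ _, h4.2, (mem_G _ _).1 (mem_filter.1 h4.1).2⟩
  have h5 : t ^ 27 * ∑ x0 ∈ univ.filter (fun x => (x, y') ∈ GLv n k),
      (univ.filter (fun x' => x' ∈ O.OX c ∧ (x'.1 \ x0.1).card = 1)).card ≤ (k + 1) * n := by
    rw [mul_sum]
    refine le_trans (sum_le_card_nsmul _ _ n (fun x0 _ => hl.a5 c x0)) (le_of_eq ?_)
    rw [card_dn, smul_eq_mul]
  calc t ^ 27 * ∑ x ∈ univ.filter (fun x => (x, y') ∈ GLv n k),
        ∑ y ∈ univ.filter (fun y => (x, y) ∈ GLv n k), eB (GLv n k) (O.OX c) {y}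
      ≤ t ^ 27 * ∑ x ∈ univ.filter (fun x => (x, y') ∈ GLv n k), ((if x ∈ O.OX c then n else 0)
        + (univ.filter (fun x' => x' ∈ O.OX c ∧ (x'.1 \ x.1).card = 1)).card) :=
        Nat.mul_le_mul_left _ (sum_le_sum (fun x _ => h1 x))
    _ = t ^ 27 * ∑ x ∈ univ.filter (fun x => (x, y') ∈ GLv n k), (if x ∈ O.OX c then n else 0)
        + t ^ 27 * ∑ x0 ∈ univ.filter (fun x => (x, y') ∈ GLv n k),
          (univ.filter (fun x' => x' ∈ O.OX c ∧ (x'.1 \ x0.1).card = 1)).card := by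
        rw [sum_add_distrib, Nat.mul_add]
    _ ≤ t ^ 27 * (t * n) + (k + 1) * n := Nat.add_le_add (Nat.mul_le_mul_left _ h3) h5
    _ = _ := by ring

theorem twoX (O : Outer (Lv n k) (Lv n (k + 1)) (Fin K)) (hl : OutLoc t O) (c : Fin K)
    (x' : Lv n k) :
    t ^ 27 * ∑ y ∈ univ.filter (fun y => (x', y) ∈ GLv n k), ∑ x ∈ univ.filter (fun x => (x, y) ∈ GLv n k),
      eB (GLv n k) {x} (O.OY c) ≤ t ^ 28 * (k + 1) + (n - k) * n := by
  have h1 : ∀ y0 : Lv n (k + 1), ∑ x ∈ univ.filter (fun x => (x, y0) ∈ GLv n k),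
      eB (GLv n k) {x} (O.OY c) ≤ (if y0 ∈ O.OY c then (k + 1) else 0)
        + (univ.filter (fun y' => y' ∈ O.OY c ∧ (y'.1 \ y0.1).card = 1)).card := by
    intro y0
    have h2 := two_abs (fun (y : Lv n (k + 1)) (x : Lv n k) => (x, y) ∈ GLv n k) y0 (O.OY c)
      (fun y' => (y'.1 \ y0.1).card = 1)
      (fun y hy x x' h3 h4 h5 h6 => Subtype.ext (Eq.trans
        (Eq.symm (in_eq hy ((mem_G _ _).1 h3) ((mem_G _ _).1 h4)).1)
        (in_eq hy ((mem_G _ _).1 h5) ((mem_G _ _).1 h6)).1))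
      (fun y hy x h3 h4 => (in_eq hy ((mem_G _ _).1 h3) ((mem_G _ _).1 h4)).2)
    rw [card_dn] at h2
    refine le_trans (le_of_eq ?_) h2
    refine sum_congr rfl (fun x _ => ?_)
    rw [eB_right]
    congr 1
    ext y
    simp only [mem_filter, mem_univ, true_and, mem_G]
  have h3 : ∑ y ∈ univ.filter (fun y => (x', y) ∈ GLv n k), (if y ∈ O.OY c then (k + 1) else 0)
      ≤ t * (k + 1) := by
    rw [← sum_filter, sum_const, smul_eq_mul]
    refine Nat.mul_le_mul_right (k + 1) (le_trans (card_le_card ?_) (hl.a2 c x'))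
    intro y hy
    have h4 := mem_filter.1 hy
    exact mem_filter.2 ⟨mem_univ _, h4.2, (mem_G _ _).1 (mem_filter.1 h4.1).2⟩
  have h5 : t ^ 27 * ∑ y0 ∈ univ.filter (fun y => (x', y) ∈ GLv n k),
      (univ.filter (fun y' => y' ∈ O.OY c ∧ (y'.1 \ y0.1).card = 1)).card ≤ (n - k) * n := by
    rw [mul_sum]
    refine le_trans (sum_le_card_nsmul _ _ n (fun y0 _ => hl.a6 c y0)) (le_of_eq ?_)
    rw [card_up, smul_eq_mul]
  calc t ^ 27 * ∑ y ∈ univ.filter (fun y => (x', y) ∈ GLv n k),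
        ∑ x ∈ univ.filter (fun x => (x, y) ∈ GLv n k), eB (GLv n k) {x} (O.OY c)
      ≤ t ^ 27 * ∑ y ∈ univ.filter (fun y => (x', y) ∈ GLv n k), ((if y ∈ O.OY c then (k + 1) else 0)
        + (univ.filter (fun y' => y' ∈ O.OY c ∧ (y'.1 \ y.1).card = 1)).card) :=
        Nat.mul_le_mul_left _ (sum_le_sum (fun y _ => h1 y))
    _ = t ^ 27 * ∑ y ∈ univ.filter (fun y => (x', y) ∈ GLv n k), (if y ∈ O.OY c then (k + 1) else 0)
        + t ^ 27 * ∑ y0 ∈ univ.filter (fun y => (x', y) ∈ GLv n k),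
          (univ.filter (fun y' => y' ∈ O.OY c ∧ (y'.1 \ y0.1).card = 1)).card := by
        rw [sum_add_distrib, Nat.mul_add]
    _ ≤ t ^ 27 * (t * (k + 1)) + (n - k) * n := Nat.add_le_add (Nat.mul_le_mul_left _ h3) h5
    _ = _ := by ring

end Pool.SCDO
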