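import Pool.Agent.Lib.SCDO.Defs
import Pool.Agent.Lib.SCDH.G01
import Pool.Agent.Lib.SCDH.C1
import Pool.Agent.Lib.SCDO.OK1
import Pool.Agent.Lib.SCDO.OK6
import Pool.Agent.Lib.SCDO.NU2

/-!
# Row OK7 (outer part of the symmetric chain decompositions)
o5Y and o6Y.
Recipe: smoothY with G = GLv n k, d = n - k, κ = k+1 (GLv_degX, GLv_degY), q = t^27.  o5Y: f y = eB G (OX c) {y} ≤ t (a1, eB_left), m1 = t, m2 = t^28 n + (k+1) n (twoY).  Multiply the claim by (k+1)(n-k) t:
need 2 (n-k) t^28 ≤ (k+1)(n-k) t and 4 (t^28 n + (k+1) n) ≤ (k+1)(n-k) t: true as k+1 ≥ t^50, 2(n-k) ≥ n, t ≥ 10^100.  o6Y: f = uY O ≤ t (a4), two-step sum: t^27 ∑_{x ⊆ y'} ∑_{y ⊇ x} uY ≤ (k+1) n (a8, k+1 sets x).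
-/

set_option linter.unusedSectionVars false
set_option linter.unusedVariables false

namespace Pool.SCDO

open Finset Pool.SCDH

variable {n k t K : ℕ}

private lemma ok7_arith (t P D n S m N : ℕ) (ht : 10 ^ 100 ≤ t) (hP : t ^ 50 ≤ P) (hD : n ≤ 2 * D)
    (hD0 : 0 < D) (h : t ^ 27 * (P * D * S) ≤ t ^ 27 * (2 * D * t * m) + 4 * (t ^ 28 * n + P * n) * N) :
    t ^ 26 * S ≤ m + N := by
  have ht16 : 16 ≤ t := le_trans (by norm_num) ht
  have ht0 : 0 < t := by omega
  have h28 : 8 * t ^ 28 ≤ P := by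
    have e1 : 8 * t ^ 28 ≤ t * t ^ 28 := Nat.mul_le_mul_right _ (by omega)
    have e2 : t * t ^ 28 = t ^ 29 := by ring
    have e3 : t ^ 29 ≤ t ^ 50 := Nat.pow_le_pow_right ht0 (by norm_num)
    omega
  have h27 : 2 * t ^ 27 ≤ P := by
    have e3 : t ^ 27 ≤ t ^ 28 := Nat.pow_le_pow_right ht0 (by norm_num)
    omega
  have hP0 : 0 < P := by
    have := Nat.pow_pos (n := 28) ht0
    omega
  have k1 : t ^ 27 * (2 * D * t * m) ≤ P * (D * t * m) := by
    calc t ^ 27 * (2 * D * t * m) = 2 * t ^ 27 * (D * t * m) := by ring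
      _ ≤ P * (D * t * m) := Nat.mul_le_mul_right _ h27
  have k2 : 4 * (t ^ 28 * n + P * n) ≤ P * D * t := by
    calc 4 * (t ^ 28 * n + P * n) = 4 * (t ^ 28 + P) * n := by ring
      _ ≤ 4 * (t ^ 28 + P) * (2 * D) := Nat.mul_le_mul_left _ hD
      _ = (8 * t ^ 28 + 8 * P) * D := by ring
      _ ≤ (P + 8 * P) * D := Nat.mul_le_mul_right _ (by omega)
      _ = P * D * 9 := by ring
      _ ≤ P * D * t := Nat.mul_le_mul_left _ (by omega)
  have k3 : 4 * (t ^ 28 * n + P * n) * N ≤ P * D * t * N := Nat.mul_le_mul_right _ k2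
  have hh : P * D * t * (t ^ 26 * S) ≤ P * D * t * (m + N) := by
    calc P * D * t * (t ^ 26 * S) = t ^ 27 * (P * D * S) := by ring
      _ ≤ t ^ 27 * (2 * D * t * m) + 4 * (t ^ 28 * n + P * n) * N := h
      _ ≤ P * (D * t * m) + P * D * t * N := Nat.add_le_add k1 k3
      _ = P * D * t * (m + N) := by ring
  exact Nat.le_of_mul_le_mul_left hh (by positivity)

theorem o5Y_of {ε : ℝ} (hB : Big ε t) (hR : Rng t n) (hk : t ^ 50 + 1 ≤ k) (hk2 : 2 * k + 1 ≤ n)
    (O : Outer (Lv n k) (Lv n (k + 1)) (Fin K)) (hl : OutLoc t O) (c : Fin K) (N : Finset (Lv n (k + 1))) :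
    t ^ 26 * eB (GLv n k) (O.OX c) N ≤ mY (GLv n k) N + N.card := by
  have ht := ob_t hB
  have hs := smoothY (GLv n k) (n - k) (k + 1) (GLv_degX n k) (GLv_degY n k)
    (fun y => eB (GLv n k) (O.OX c) {y}) t (t ^ 28 * n + (k + 1) * n) (t ^ 27)
    (fun y => by
      rw [eB_left]
      exact hl.a1 c y)
    (fun y' => twoY O hl c y') N
  rw [eB_sumY]
  exact ok7_arith t (k + 1) (n - k) n _ _ _ ht (by omega) (by omega) (by omega) hs

theorem o6Y_of {ε : ℝ} (hB : Big ε t) (hR : Rng t n) (hk : t ^ 50 + 1 ≤ k) (hk2 : 2 * k + 1 ≤ n)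
    (O : Outer (Lv n k) (Lv n (k + 1)) (Fin K)) (hl : OutLoc t O) (N : Finset (Lv n (k + 1))) :
    t ^ 26 * ∑ y ∈ N, uY O y ≤ mY (GLv n k) N + N.card := by
  have ht := ob_t hB
  have hs := smoothY (GLv n k) (n - k) (k + 1) (GLv_degX n k) (GLv_degY n k)
    (fun y => uY O y) t ((k + 1) * n) (t ^ 27) (fun y => hl.a4 y)
    (fun y' => by
      have hc : (univ.filter (fun x : Lv n k => (x, y') ∈ GLv n k)).card = k + 1 := by
        have h1 := GLv_degY n k y'
        unfold dgY at h1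
        rw [eB_left] at h1
        refine Eq.trans (congrArg card ?_) h1
        ext x
        simp [GLv]
      rw [mul_sum]
      calc ∑ x ∈ univ.filter (fun x : Lv n k => (x, y') ∈ GLv n k),
            t ^ 27 * ∑ y ∈ univ.filter (fun y => (x, y) ∈ GLv n k), uY O y
          ≤ ∑ x ∈ univ.filter (fun x : Lv n k => (x, y') ∈ GLv n k), n := by
            refine sum_le_sum (fun x _ => ?_)
            have h2 := hl.a8 x
            have h3 : (univ.filter (fun y => (x, y) ∈ GLv n k)) =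
                univ.filter (fun y : Lv n (k + 1) => x.1 ⊆ y.1) := by
              ext y
              simp [GLv]
            rw [h3]
            exact h2
        _ = (k + 1) * n := by rw [sum_const, hc, smul_eq_mul]) N
  refine ok7_arith t (k + 1) (n - k) n _ _ _ ht (by omega) (by omega) (by omega) (le_trans hs ?_)
  refine Nat.add_le_add_left (Nat.mul_le_mul_right _ (Nat.mul_le_mul_left _ ?_)) _
  exact Nat.le_add_left _ _

end Pool.SCDO
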