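import Pool.Agent.Lib.SCDO.Defs
import Pool.Agent.Lib.SCDH.G01
import Pool.Agent.Lib.SCDH.C1
import Pool.Agent.Lib.SCDO.OK2
import Pool.Agent.Lib.SCDO.OK6
import Pool.Agent.Lib.SCDO.NU2

/-!
# Row OK8 (outer part of the symmetric chain decompositions)
o5X and o6X.
Recipe: smoothX with G = GLv n k, d = n - k, κ = k+1, q = t^27.  o5X: f x = eB G {x} (OY c) ≤ t (a2, eB_right), m1 = t, m2 = t^28 (k+1) + (n-k) n (twoX); eB G A (OY c) = ∑_{x ∈ A} f x (eB_sumX).  Multiply the claim by (n-k) t: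
need 2 t^28 ≤ (n-k) t and 4 (t^28 (k+1) + (n-k) n) ≤ (n-k) t n (k+1 ≤ n-k).  o6X: f = uX O ≤ t^50+1 (a3), two-step sum t^27 ∑_{y ⊇ x'} ∑_{x ⊆ y} uX ≤ (n-k) n (a7): 2 t^27 (t^50+1) ≤ (n-k) t and 4 (n-k) n ≤ (n-k) t n.
-/

set_option linter.unusedSectionVars false
set_option linter.unusedVariables false

namespace Pool.SCDO

open Finset Pool.SCDH

variable {n k t K : ℕ}

private lemma ok8_pow (t n : ℕ) (ht : 10 ^ 100 ≤ t) (hR : Rng t n) (D : ℕ) (hD : n ≤ 2 * D) :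
    16 ≤ t ∧ 2 * t ^ 27 ≤ D ∧ t ^ 27 * (2 * (t ^ 50 + 1)) ≤ D ∧ 8 * t ^ 28 ≤ n := by
  have ht16 : 16 ≤ t := le_trans (by norm_num) ht
  have ht0 : 0 < t := by omega
  have e0 : 1 ≤ t ^ 27 := Nat.one_le_pow _ _ ht0
  have e1 : 1 ≤ t ^ 50 := Nat.one_le_pow _ _ ht0
  have e2 : 16 * t ^ 199 ≤ t ^ 200 := by
    calc 16 * t ^ 199 ≤ t * t ^ 199 := Nat.mul_le_mul_right _ ht16
      _ = t ^ 200 := by ring
  have e3 : t ^ 77 ≤ t ^ 199 := Nat.pow_le_pow_right ht0 (by norm_num)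
  have e4 : t ^ 27 ≤ t ^ 77 := Nat.pow_le_pow_right ht0 (by norm_num)
  have e5 : t ^ 28 ≤ t ^ 77 := Nat.pow_le_pow_right ht0 (by norm_num)
  have e6 : t ^ 27 * (2 * (t ^ 50 + 1)) = 2 * t ^ 77 + 2 * t ^ 27 := by ring
  have e7 := hR.1
  refine ⟨ht16, ?_, ?_, ?_⟩ <;> omega

private lemma ok8_arith1 (t P D n S m A : ℕ) (ht16 : 16 ≤ t) (h27 : 2 * t ^ 27 ≤ D)
    (h28 : 8 * t ^ 28 ≤ n) (hPD : P ≤ D) (hD0 : 0 < D)
    (h : t ^ 27 * (P * D * S) ≤ t ^ 27 * (2 * P * t * m) + 4 * (t ^ 28 * P + D * n) * A) :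
    t ^ 26 * (P * S) ≤ P * m + n * A := by
  have ht0 : 0 < t := by omega
  have k1 : t ^ 27 * (2 * P * t * m) ≤ D * (P * t * m) := by
    calc t ^ 27 * (2 * P * t * m) = 2 * t ^ 27 * (P * t * m) := by ring
      _ ≤ D * (P * t * m) := Nat.mul_le_mul_right _ h27
  have k2 : 4 * (t ^ 28 * P + D * n) ≤ D * t * n := by
    calc 4 * (t ^ 28 * P + D * n) ≤ 4 * (t ^ 28 * D + D * n) :=
          Nat.mul_le_mul_left _ (Nat.add_le_add_right (Nat.mul_le_mul_left _ hPD) _)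
      _ = (4 * t ^ 28 + 4 * n) * D := by ring
      _ ≤ (5 * n) * D := Nat.mul_le_mul_right _ (by omega)
      _ = D * 5 * n := by ring
      _ ≤ D * t * n := Nat.mul_le_mul_right _ (Nat.mul_le_mul_left _ (by omega))
  have k3 : 4 * (t ^ 28 * P + D * n) * A ≤ D * t * n * A := Nat.mul_le_mul_right _ k2
  have hh : D * t * (t ^ 26 * (P * S)) ≤ D * t * (P * m + n * A) := by
    calc D * t * (t ^ 26 * (P * S)) = t ^ 27 * (P * D * S) := by ring
      _ ≤ t ^ 27 * (2 * P * t * m) + 4 * (t ^ 28 * P + D * n) * A := h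
      _ ≤ D * (P * t * m) + D * t * n * A := Nat.add_le_add k1 k3
      _ = D * t * (P * m + n * A) := by ring
  exact Nat.le_of_mul_le_mul_left hh (by positivity)

private lemma ok8_arith2 (t P D n S m A : ℕ) (ht16 : 16 ≤ t)
    (h77 : t ^ 27 * (2 * (t ^ 50 + 1)) ≤ D) (hD0 : 0 < D)
    (h : t ^ 27 * (P * D * S) ≤ t ^ 27 * (2 * P * (t ^ 50 + 1) * m) + 4 * (D * n) * A) :
    t ^ 26 * (P * S) ≤ P * m + n * A := by
  have ht0 : 0 < t := by omega
  have k1 : t ^ 27 * (2 * P * (t ^ 50 + 1) * m) ≤ D * t * (P * m) := by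
    calc t ^ 27 * (2 * P * (t ^ 50 + 1) * m) = t ^ 27 * (2 * (t ^ 50 + 1)) * (P * m) := by ring
      _ ≤ D * (P * m) := Nat.mul_le_mul_right _ h77
      _ = D * 1 * (P * m) := by ring
      _ ≤ D * t * (P * m) := Nat.mul_le_mul_right _ (Nat.mul_le_mul_left _ (by omega))
  have k2 : 4 * (D * n) ≤ D * t * n := by
    calc 4 * (D * n) = D * 4 * n := by ring
      _ ≤ D * t * n := Nat.mul_le_mul_right _ (Nat.mul_le_mul_left _ (by omega))
  have k3 : 4 * (D * n) * A ≤ D * t * n * A := Nat.mul_le_mul_right _ k2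
  have hh : D * t * (t ^ 26 * (P * S)) ≤ D * t * (P * m + n * A) := by
    calc D * t * (t ^ 26 * (P * S)) = t ^ 27 * (P * D * S) := by ring
      _ ≤ t ^ 27 * (2 * P * (t ^ 50 + 1) * m) + 4 * (D * n) * A := h
      _ ≤ D * t * (P * m) + D * t * n * A := Nat.add_le_add k1 k3
      _ = D * t * (P * m + n * A) := by ring
  exact Nat.le_of_mul_le_mul_left hh (by positivity)

theorem o5X_of {ε : ℝ} (hB : Big ε t) (hR : Rng t n) (hk : t ^ 50 + 1 ≤ k) (hk2 : 2 * k + 1 ≤ n)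
    (O : Outer (Lv n k) (Lv n (k + 1)) (Fin K)) (hl : OutLoc t O) (c : Fin K) (A : Finset (Lv n k)) :
    t ^ 26 * ((k + 1) * eB (GLv n k) A (O.OY c)) ≤ (k + 1) * mX (GLv n k) A + n * A.card := by
  have ht := ob_t hB
  obtain ⟨p1, p2, p3, p4⟩ := ok8_pow t n ht hR (n - k) (by omega)
  have hs := smoothX (GLv n k) (n - k) (k + 1) (GLv_degX n k) (GLv_degY n k)
    (fun x => eB (GLv n k) {x} (O.OY c)) t (t ^ 28 * (k + 1) + (n - k) * n) (t ^ 27)
    (fun x => by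
      rw [eB_right]
      exact hl.a2 c x)
    (fun x' => twoX O hl c x') A
  rw [eB_sumX]
  exact ok8_arith1 t (k + 1) (n - k) n _ _ _ p1 p2 p4 (by omega) (by omega) hs

theorem o6X_of {ε : ℝ} (hB : Big ε t) (hR : Rng t n) (hk : t ^ 50 + 1 ≤ k) (hk2 : 2 * k + 1 ≤ n)
    (O : Outer (Lv n k) (Lv n (k + 1)) (Fin K)) (hl : OutLoc t O) (A : Finset (Lv n k)) :
    t ^ 26 * ((k + 1) * ∑ x ∈ A, uX O x) ≤ (k + 1) * mX (GLv n k) A + n * A.card := by
  have ht := ob_t hB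
  obtain ⟨p1, p2, p3, p4⟩ := ok8_pow t n ht hR (n - k) (by omega)
  have hs := smoothX (GLv n k) (n - k) (k + 1) (GLv_degX n k) (GLv_degY n k)
    (fun x => uX O x) (t ^ 50 + 1) ((n - k) * n) (t ^ 27) (fun x => hl.a3 x)
    (fun x' => by
      have hc : (univ.filter (fun y : Lv n (k + 1) => (x', y) ∈ GLv n k)).card = n - k := by
        have h1 := GLv_degX n k x'
        unfold dgX at h1
        rw [eB_right] at h1
        refine Eq.trans (congrArg card ?_) h1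
        ext y
        simp [GLv]
      rw [mul_sum]
      calc ∑ y ∈ univ.filter (fun y : Lv n (k + 1) => (x', y) ∈ GLv n k),
            t ^ 27 * ∑ x ∈ univ.filter (fun x => (x, y) ∈ GLv n k), uX O x
          ≤ ∑ y ∈ univ.filter (fun y : Lv n (k + 1) => (x', y) ∈ GLv n k), n := by
            refine sum_le_sum (fun y _ => ?_)
            have h2 := hl.a7 y
            have h3 : (univ.filter (fun x => (x, y) ∈ GLv n k)) =
                univ.filter (fun x : Lv n k => x.1 ⊆ y.1) := by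
              ext x
              simp [GLv]
            rw [h3]
            exact h2
        _ = (n - k) * n := by rw [sum_const, hc, smul_eq_mul]) A
  exact ok8_arith2 t (k + 1) (n - k) n _ _ _ p1 p3 (by omega) hs

end Pool.SCDO
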