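import Pool.Agent.Lib.SCDO.Defs
import Pool.Agent.Lib.SCDH.G01
import Pool.Agent.Lib.SCDH.C1

/-!
# Row OK3 (outer part of the symmetric chain decompositions)
Hexagons: a sparse set of edges is a small part of every boundary.
-/

set_option linter.unusedSectionVars false
set_option linter.unusedVariables false

namespace Pool.SCDO

open Finset Pool.SCDH

section raw

variable {n k m1 m2 m3 m4 : ℕ}

private abbrev Pr (n : ℕ) : Type := Finset (Fin n) × Finset (Fin n)

private def g1 (τ : (_ : Pr n) × (Fin n × Fin n)) : Pr n := (τ.1.1, insert τ.2.2 τ.1.1)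
private def g2 (τ : (_ : Pr n) × (Fin n × Fin n)) : Pr n := (τ.1.2.erase τ.2.1, τ.1.2)
private def g3 (τ : (_ : Pr n) × (Fin n × Fin n)) : Pr n :=
  (insert τ.2.2 (τ.1.1.erase τ.2.1), insert τ.2.2 τ.1.1)
private def g4 (τ : (_ : Pr n) × (Fin n × Fin n)) : Pr n :=
  (τ.1.2.erase τ.2.1, insert τ.2.2 (τ.1.2.erase τ.2.1))
private def g5 (τ : (_ : Pr n) × (Fin n × Fin n)) : Pr n :=
  (insert τ.2.2 (τ.1.1.erase τ.2.1), insert τ.2.2 (τ.1.2.erase τ.2.1))

private theorem core (U G : Finset (Pr n)) (sd : Finset (Fin n) → Bool)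
    (hG : ∀ x y, (x, y) ∈ G ↔ x.card = k ∧ y.card = k + 1 ∧ x ⊆ y) (hU : U ⊆ G)
    (h1 : ∀ x, (U.filter (fun e => e.1 = x)).card ≤ m1)
    (h2 : ∀ y, (U.filter (fun e => e.2 = y)).card ≤ m2)
    (h3 : ∀ y, y.card = k + 1 → (U.filter (fun e => e.1 ⊆ y)).card ≤ m3)
    (h4 : ∀ x, x.card = k → (U.filter (fun e => x ⊆ e.2)).card ≤ m4) :
    k * (n - k - 1) * (U.filter (fun e => sd e.1 ≠ sd e.2)).card ≤
      (k * m1 + (n - k - 1) * m2 + m3 + m4 + k * m4) *
        (G.filter (fun e => sd e.1 ≠ sd e.2)).card := by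
  classical
  set BU := U.filter (fun e => sd e.1 ≠ sd e.2) with hBU
  set BG := G.filter (fun e => sd e.1 ≠ sd e.2) with hBG
  set T : Finset ((_ : Pr n) × (Fin n × Fin n)) := BU.sigma (fun e => e.1 ×ˢ e.2ᶜ) with hT
  have hmem : ∀ τ ∈ T, τ.1 ∈ U ∧ sd τ.1.1 ≠ sd τ.1.2 ∧ τ.2.1 ∈ τ.1.1 ∧ τ.2.2 ∉ τ.1.2 ∧
      τ.1.1.card = k ∧ τ.1.2.card = k + 1 ∧ τ.1.1 ⊆ τ.1.2 := by
    intro τ hτ
    rw [hT, Finset.mem_sigma, hBU, mem_filter, mem_product, mem_compl] at hτ
    obtain ⟨⟨a, b⟩, c, d⟩ := hτ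
    have := (hG τ.1.1 τ.1.2).1 (hU a)
    exact ⟨a, b, c, d, this.1, this.2.1, this.2.2⟩
  have hTc : T.card = k * (n - k - 1) * BU.card := by
    rw [hT, Finset.card_sigma]
    have : ∀ e ∈ BU, (e.1 ×ˢ e.2ᶜ).card = k * (n - k - 1) := by
      intro e he
      have h := (hG e.1 e.2).1 (hU (mem_filter.1 he).1)
      rw [card_product, card_compl, Fintype.card_fin, h.1, h.2.1, Nat.sub_sub]
    rw [sum_congr rfl this, sum_const, smul_eq_mul, mul_comm]
  -- the sets
  have hfib : ∀ (g : (_ : Pr n) × (Fin n × Fin n) → Pr n) (c : ℕ),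
      (∀ f ∈ BG, (T.filter (fun τ => g τ = f)).card ≤ c) →
      (T.filter (fun τ => g τ ∈ BG)).card ≤ c * BG.card := by
    intro g c hc
    apply Finset.card_le_mul_card_image_of_maps_to (f := g)
    · intro τ hτ
      exact (mem_filter.1 hτ).2
    · intro f hf
      refine le_trans (card_le_card ?_) (hc f hf)
      intro τ hτ
      rw [mem_filter, mem_filter] at hτ
      exact mem_filter.2 ⟨hτ.1.1, hτ.2⟩
  have hsub : T ⊆ T.filter (fun τ => g1 τ ∈ BG) ∪ (T.filter (fun τ => g2 τ ∈ BG) ∪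
      (T.filter (fun τ => g3 τ ∈ BG) ∪ (T.filter (fun τ => g4 τ ∈ BG) ∪
        T.filter (fun τ => g5 τ ∈ BG)))) := by
    intro τ hτ
    obtain ⟨ha, hb, hp, hq, hc1, hc2, hs⟩ := hmem τ hτ
    obtain ⟨⟨x, y⟩, ⟨p, b⟩⟩ := τ
    simp only at ha hb hp hq hc1 hc2 hs
    have hbx : b ∉ x := fun h => hq (hs h)
    have hpy : p ∈ y := hs hp
    have hbp : b ≠ p := fun h => hq (h ▸ hpy)
    have hbxe : b ∉ x.erase p := fun h => hbx (mem_of_mem_erase h)
    have hbye : b ∉ y.erase p := fun h => hq (mem_of_mem_erase h)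
    have c1 : (insert b x).card = k + 1 := by rw [card_insert_of_notMem hbx, hc1]
    have c2 : (y.erase p).card = k := by rw [card_erase_of_mem hpy, hc2]; rfl
    have c3 : (insert b (x.erase p)).card = k := by
      rw [card_insert_of_notMem hbxe, card_erase_of_mem hp, hc1]
      have : 0 < x.card := card_pos.2 ⟨p, hp⟩
      omega
    have c4 : (insert b (y.erase p)).card = k + 1 := by
      rw [card_insert_of_notMem hbye, c2]
    have e1 : (x, insert b x) ∈ G := (hG _ _).2 ⟨hc1, c1, subset_insert _ _⟩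
    have e2 : (y.erase p, y) ∈ G := (hG _ _).2 ⟨c2, hc2, erase_subset _ _⟩
    have e3 : (insert b (x.erase p), insert b x) ∈ G :=
      (hG _ _).2 ⟨c3, c1, insert_subset_insert _ (erase_subset _ _)⟩
    have e4 : (y.erase p, insert b (y.erase p)) ∈ G := (hG _ _).2 ⟨c2, c4, subset_insert _ _⟩
    have e5 : (insert b (x.erase p), insert b (y.erase p)) ∈ G :=
      (hG _ _).2 ⟨c3, c4, insert_subset_insert _ (erase_subset_erase _ hs)⟩
    simp only [mem_union, mem_filter, hτ, true_and, hBG, g1, g2, g3, g4, g5]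
    by_contra hcon
    push Not at hcon
    obtain ⟨n1, n2, n3, n4, n5⟩ := hcon
    have q1 := n1 e1
    have q2 := n2 e2
    have q3 := n3 e3
    have q4 := n4 e4
    have q5 := n5 e5
    apply hb
    rw [q1, ← q3, q5, ← q4, q2]
  have hle : T.card ≤ (T.filter (fun τ => g1 τ ∈ BG)).card + ((T.filter (fun τ => g2 τ ∈ BG)).card +
      ((T.filter (fun τ => g3 τ ∈ BG)).card + ((T.filter (fun τ => g4 τ ∈ BG)).card +
        (T.filter (fun τ => g5 τ ∈ BG)).card))) := by
    refine (card_le_card hsub).trans ?_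
    refine (card_union_le _ _).trans (Nat.add_le_add_left ?_ _)
    refine (card_union_le _ _).trans (Nat.add_le_add_left ?_ _)
    refine (card_union_le _ _).trans (Nat.add_le_add_left ?_ _)
    exact card_union_le _ _
  have b1 : (T.filter (fun τ => g1 τ ∈ BG)).card ≤ (k * m1) * BG.card := by
    apply hfib
    rintro ⟨x', y'⟩ hf
    have hf' := (hG x' y').1 (mem_filter.1 hf).1
    have : (T.filter (fun τ => g1 τ = (x', y'))).card ≤ (x' ×ˢ U.filter (fun e => e.1 = x')).card := by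
      apply card_le_card_of_injOn (fun τ => (τ.2.1, τ.1))
      · intro τ hτ
        rw [mem_coe, mem_filter] at hτ
        obtain ⟨ha, hb, hp, hq, hc1, hc2, hs⟩ := hmem τ hτ.1
        have h5 := congrArg Prod.fst hτ.2
        simp only [g1] at h5
        simp only [coe_product, Set.mem_prod, mem_coe, mem_filter]
        exact ⟨h5 ▸ hp, ha, h5⟩
      · intro τ hτ τ' hτ' heq
        rw [mem_coe, mem_filter] at hτ hτ'
        obtain ⟨ha, hb, hp, hq, hc1, hc2, hs⟩ := hmem τ hτ.1
        obtain ⟨ha', hb', hp', hq', hc1', hc2', hs'⟩ := hmem τ' hτ'.1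
        obtain ⟨⟨x, y⟩, ⟨p, b⟩⟩ := τ
        obtain ⟨⟨x2, y2⟩, ⟨p2, b2⟩⟩ := τ'
        simp only [g1, Prod.mk.injEq] at heq hτ hτ' hp hq hs hp' hq' hs'
        obtain ⟨rfl, rfl, rfl⟩ := heq
        have hb1 : b ∉ x := fun h => hq (hs h)
        have hb2 : b2 ∉ x := fun h => hq' (hs h)
        have : b = b2 := by
          have h6 : b ∈ insert b2 x := by
            rw [hτ'.2.2, ← hτ.2.2]; exact mem_insert_self _ _
          rcases mem_insert.1 h6 with h | h
          · exact h
          · exact absurd h hb1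
        rw [this]
    refine this.trans ?_
    rw [card_product, hf'.1]
    exact Nat.mul_le_mul_left _ (h1 x')
  have b2 : (T.filter (fun τ => g2 τ ∈ BG)).card ≤ ((n - k - 1) * m2) * BG.card := by
    apply hfib
    rintro ⟨x', y'⟩ hf
    have hf' := (hG x' y').1 (mem_filter.1 hf).1
    have : (T.filter (fun τ => g2 τ = (x', y'))).card ≤ (y'ᶜ ×ˢ U.filter (fun e => e.2 = y')).card := by
      apply card_le_card_of_injOn (fun τ => (τ.2.2, τ.1))
      · intro τ hτ
        rw [mem_coe, mem_filter] at hτ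
        obtain ⟨ha, hb, hp, hq, hc1, hc2, hs⟩ := hmem τ hτ.1
        have h5 := congrArg Prod.snd hτ.2
        simp only [g2] at h5
        simp only [coe_product, Set.mem_prod, mem_coe, mem_filter, mem_compl]
        exact ⟨h5 ▸ hq, ha, h5⟩
      · intro τ hτ τ' hτ' heq
        rw [mem_coe, mem_filter] at hτ hτ'
        obtain ⟨ha, hb, hp, hq, hc1, hc2, hs⟩ := hmem τ hτ.1
        obtain ⟨ha', hb', hp', hq', hc1', hc2', hs'⟩ := hmem τ' hτ'.1
        obtain ⟨⟨x, y⟩, ⟨p, b⟩⟩ := τ
        obtain ⟨⟨x2, y2⟩, ⟨p2, b2⟩⟩ := τ'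
        simp only [g2, Prod.mk.injEq] at heq hτ hτ' hp hq hs hp' hq' hs'
        obtain ⟨rfl, rfl, rfl⟩ := heq
        have hp1 : p ∈ y := hs hp
        have : p = p2 := by
          by_contra hne
          have h6 : p ∈ y.erase p2 := mem_erase.2 ⟨hne, hp1⟩
          rw [hτ'.2.1, ← hτ.2.1] at h6
          exact (mem_erase.1 h6).1 rfl
        rw [this]
    refine this.trans ?_
    rw [card_product, card_compl, Fintype.card_fin, hf'.2.1, Nat.sub_sub]
    exact Nat.mul_le_mul_left _ (h2 y')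
  have b3 : (T.filter (fun τ => g3 τ ∈ BG)).card ≤ m3 * BG.card := by
    apply hfib
    rintro ⟨x', y'⟩ hf
    have hf' := (hG x' y').1 (mem_filter.1 hf).1
    refine le_trans ?_ (h3 y' hf'.2.1)
    apply card_le_card_of_injOn (fun τ => τ.1)
    · intro τ hτ
      rw [mem_coe, mem_filter] at hτ
      obtain ⟨ha, hb, hp, hq, hc1, hc2, hs⟩ := hmem τ hτ.1
      have h5 := congrArg Prod.snd hτ.2
      simp only [g3] at h5
      simp only [coe_filter, Set.mem_setOf_eq]
      refine ⟨ha, ?_⟩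
      rw [← h5]
      exact subset_insert _ _
    · intro τ hτ τ' hτ' heq
      rw [mem_coe, mem_filter] at hτ hτ'
      obtain ⟨ha, hb, hp, hq, hc1, hc2, hs⟩ := hmem τ hτ.1
      obtain ⟨ha', hb', hp', hq', hc1', hc2', hs'⟩ := hmem τ' hτ'.1
      obtain ⟨⟨x, y⟩, ⟨p, b⟩⟩ := τ
      obtain ⟨⟨x2, y2⟩, ⟨p2, b2⟩⟩ := τ'
      simp only [g3, Prod.mk.injEq] at heq hτ hτ' hp hq hs hp' hq' hs'
      obtain ⟨rfl, rfl⟩ := heq
      have hb1 : b ∉ x := fun h => hq (hs h)
      have hb2 : b2 ∉ x := fun h => hq' (hs h)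
      have e1 : b = b2 := by
        have h6 : b ∈ insert b2 x := by
          rw [hτ'.2.2, ← hτ.2.2]; exact mem_insert_self _ _
        rcases mem_insert.1 h6 with h | h
        · exact h
        · exact absurd h hb1
      subst e1
      have e2 : p = p2 := by
        by_contra hne
        have h6 : p ∈ insert b (x.erase p2) := mem_insert_of_mem (mem_erase.2 ⟨hne, hp⟩)
        rw [hτ'.2.1, ← hτ.2.1] at h6
        rcases mem_insert.1 h6 with h | h
        · exact hb1 (h ▸ hp)
        · exact (mem_erase.1 h).1 rfl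
      rw [e2]
  have b4 : (T.filter (fun τ => g4 τ ∈ BG)).card ≤ m4 * BG.card := by
    apply hfib
    rintro ⟨x', y'⟩ hf
    have hf' := (hG x' y').1 (mem_filter.1 hf).1
    refine le_trans ?_ (h4 x' hf'.1)
    apply card_le_card_of_injOn (fun τ => τ.1)
    · intro τ hτ
      rw [mem_coe, mem_filter] at hτ
      obtain ⟨ha, hb, hp, hq, hc1, hc2, hs⟩ := hmem τ hτ.1
      have h5 := congrArg Prod.fst hτ.2
      simp only [g4] at h5
      simp only [coe_filter, Set.mem_setOf_eq]
      refine ⟨ha, ?_⟩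
      rw [← h5]
      exact erase_subset _ _
    · intro τ hτ τ' hτ' heq
      rw [mem_coe, mem_filter] at hτ hτ'
      obtain ⟨ha, hb, hp, hq, hc1, hc2, hs⟩ := hmem τ hτ.1
      obtain ⟨ha', hb', hp', hq', hc1', hc2', hs'⟩ := hmem τ' hτ'.1
      obtain ⟨⟨x, y⟩, ⟨p, b⟩⟩ := τ
      obtain ⟨⟨x2, y2⟩, ⟨p2, b2⟩⟩ := τ'
      simp only [g4, Prod.mk.injEq] at heq hτ hτ' hp hq hs hp' hq' hs'
      obtain ⟨rfl, rfl⟩ := heq
      have hp1 : p ∈ y := hs hp
      have e1 : p = p2 := by
        by_contra hne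
        have h6 : p ∈ y.erase p2 := mem_erase.2 ⟨hne, hp1⟩
        rw [hτ'.2.1, ← hτ.2.1] at h6
        exact (mem_erase.1 h6).1 rfl
      subst e1
      have e2 : b = b2 := by
        have h6 : b ∈ insert b2 (y.erase p) := by
          rw [hτ'.2.2, ← hτ.2.2]; exact mem_insert_self _ _
        rcases mem_insert.1 h6 with h | h
        · exact h
        · exact absurd (mem_of_mem_erase h) hq
      rw [e2]
  have b5 : (T.filter (fun τ => g5 τ ∈ BG)).card ≤ (k * m4) * BG.card := by
    apply hfib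
    rintro ⟨x', y'⟩ hf
    have hf' := (hG x' y').1 (mem_filter.1 hf).1
    have : (T.filter (fun τ => g5 τ = (x', y'))).card ≤
        (x'.sigma (fun b => U.filter (fun e => y'.erase b ⊆ e.2))).card := by
      apply card_le_card_of_injOn (fun τ => (⟨τ.2.2, τ.1⟩ : (_ : Fin n) × Pr n))
      · intro τ hτ
        rw [mem_coe, mem_filter] at hτ
        obtain ⟨ha, hb, hp, hq, hc1, hc2, hs⟩ := hmem τ hτ.1
        have h5 := congrArg Prod.fst hτ.2
        have h6 := congrArg Prod.snd hτ.2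
        simp only [g5] at h5 h6
        rw [mem_coe, Finset.mem_sigma, mem_filter]
        refine ⟨?_, ha, ?_⟩
        · rw [← h5]; exact mem_insert_self _ _
        · simp only
          rw [← h6]
          intro a ha2
          rw [mem_erase, mem_insert] at ha2
          rcases ha2.2 with h | h
          · exact absurd h ha2.1
          · exact mem_of_mem_erase h
      · intro τ hτ τ' hτ' heq
        rw [mem_coe, mem_filter] at hτ hτ'
        obtain ⟨ha, hb, hp, hq, hc1, hc2, hs⟩ := hmem τ hτ.1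
        obtain ⟨ha', hb', hp', hq', hc1', hc2', hs'⟩ := hmem τ' hτ'.1
        obtain ⟨⟨x, y⟩, ⟨p, b⟩⟩ := τ
        obtain ⟨⟨x2, y2⟩, ⟨p2, b2⟩⟩ := τ'
        simp only [g5, Prod.mk.injEq] at hτ hτ' hp hq hs hp' hq' hs'
        simp only [Sigma.mk.injEq, heq_eq_eq, Prod.mk.injEq] at heq
        obtain ⟨rfl, rfl, rfl⟩ := heq
        have hb1 : b ∉ x := fun h => hq (hs h)
        have e2 : p = p2 := by
          by_contra hne
          have h6 : p ∈ insert b (x.erase p2) := mem_insert_of_mem (mem_erase.2 ⟨hne, hp⟩)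
          rw [hτ'.2.1, ← hτ.2.1] at h6
          rcases mem_insert.1 h6 with h | h
          · exact hb1 (h ▸ hp)
          · exact (mem_erase.1 h).1 rfl
        rw [e2]
    refine this.trans ?_
    rw [Finset.card_sigma]
    refine (sum_le_sum (g := fun _ => m4) ?_).trans ?_
    · intro b hb
      apply h4
      rw [card_erase_of_mem (hf'.2.2 hb), hf'.2.1]; rfl
    · rw [sum_const, smul_eq_mul, hf'.1]
  rw [← hTc]
  refine hle.trans ?_
  calc _ ≤ (k * m1) * BG.card + (((n - k - 1) * m2) * BG.card + (m3 * BG.card + (m4 * BG.card +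
        (k * m4) * BG.card))) :=
        Nat.add_le_add b1 (Nat.add_le_add b2 (Nat.add_le_add b3 (Nat.add_le_add b4 b5)))
    _ = _ := by ring

end raw

private theorem bd_eq {n k : ℕ} (Γ : Finset (Lv n k × Lv n (k + 1))) (A : Finset (Lv n k))
    (N : Finset (Lv n (k + 1))) :
    bd Γ A N = (Γ.filter (fun e => decide (e.1 ∈ A) ≠ decide (e.2 ∈ N))).card := by
  classical
  unfold bd eB
  rw [← card_union_of_disjoint]
  · congr 1
    ext e
    simp only [mem_union, mem_filter, mem_compl, ne_eq, decide_eq_decide]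
    tauto
  · rw [Finset.disjoint_left]
    intro e h1 h2
    rw [mem_filter] at h1 h2
    exact (mem_compl.1 h2.2.1) h1.2.1

theorem hexagon {n k : ℕ} (hk : 1 ≤ k) (hk2 : 2 * k + 1 ≤ n) (U : Finset (Lv n k × Lv n (k + 1)))
    (hU : U ⊆ GLv n k) (m1 m2 m3 m4 : ℕ) (h1 : ∀ x, dgX U x ≤ m1) (h2 : ∀ y, dgY U y ≤ m2)
    (h3 : ∀ y : Lv n (k + 1), ∑ x ∈ univ.filter (fun x : Lv n k => x.1 ⊆ y.1), dgX U x ≤ m3)
    (h4 : ∀ x : Lv n k, ∑ y ∈ univ.filter (fun y : Lv n (k + 1) => x.1 ⊆ y.1), dgY U y ≤ m4)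
    (A : Finset (Lv n k)) (N : Finset (Lv n (k + 1))) :
    k * (n - k - 1) * bd U A N ≤ (k * m1 + (n - k - 1) * m2 + m3 + m4 + k * m4) * bd (GLv n k) A N := by
  classical
  have hinj : Function.Injective (fun e : Lv n k × Lv n (k + 1) => (e.1.1, e.2.1)) := by
    intro e e' h
    simp only [Prod.mk.injEq] at h
    exact Prod.ext (Subtype.ext h.1) (Subtype.ext h.2)
  set sd : Finset (Fin n) → Bool := fun s =>
    if h : s.card = k then decide ((⟨s, h⟩ : Lv n k) ∈ A)
    else if h : s.card = k + 1 then decide ((⟨s, h⟩ : Lv n (k + 1)) ∈ N) else false with hsd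
  have hsdX : ∀ x : Lv n k, sd x.1 = decide (x ∈ A) := by
    intro x
    simp only [hsd, x.2, dif_pos]
  have hsdY : ∀ y : Lv n (k + 1), sd y.1 = decide (y ∈ N) := by
    intro y
    have : ¬ (y.1.card = k) := by rw [y.2]; omega
    simp only [hsd, this, dif_neg, not_false_eq_true]
    simp only [y.2, dif_pos]
  set raw : Finset (Lv n k × Lv n (k + 1)) → Finset (Finset (Fin n) × Finset (Fin n)) :=
    fun Γ => Γ.image (fun e => (e.1.1, e.2.1)) with hraw
  have hbd : ∀ Γ : Finset (Lv n k × Lv n (k + 1)),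
      bd Γ A N = ((raw Γ).filter (fun e => sd e.1 ≠ sd e.2)).card := by
    intro Γ
    rw [bd_eq, hraw]
    simp only
    rw [filter_image, card_image_of_injective _ hinj]
    congr 1
    apply filter_congr
    intro e _
    rw [hsdX, hsdY]
  rw [hbd, hbd]
  have hcount : ∀ (Γ : Finset (Lv n k × Lv n (k + 1))) (q : Finset (Fin n) × Finset (Fin n) → Prop)
      [DecidablePred q], ((raw Γ).filter q).card = (Γ.filter (fun e => q (e.1.1, e.2.1))).card := by
    intro Γ q _
    rw [hraw]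
    simp only
    rw [filter_image, card_image_of_injective _ hinj]
  have hdX : ∀ x : Lv n k, dgX U x = (U.filter (fun e => e.1 = x)).card := by
    intro x
    unfold dgX eB
    congr 1
    ext e
    simp
  have hdY : ∀ y : Lv n (k + 1), dgY U y = (U.filter (fun e => e.2 = y)).card := by
    intro y
    unfold dgY eB
    congr 1
    ext e
    simp
  apply core (raw U) (raw (GLv n k)) sd
  · intro x y
    rw [hraw]
    simp only [mem_image, GLv, mem_filter, mem_univ, true_and, Prod.mk.injEq]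
    constructor
    · rintro ⟨e, he, rfl, rfl⟩
      exact ⟨e.1.2, e.2.2, he⟩
    · rintro ⟨a, b, c⟩
      exact ⟨(⟨x, a⟩, ⟨y, b⟩), c, rfl, rfl⟩
  · exact image_subset_image hU
  · intro x
    rw [hcount]
    by_cases hx : x.card = k
    · refine le_trans (le_of_eq ?_) (h1 ⟨x, hx⟩)
      rw [hdX]
      congr 1
      apply filter_congr
      intro e _
      exact ⟨fun h => Subtype.ext h, fun h => congrArg Subtype.val h⟩
    · rw [filter_false_of_mem]
      · simp
      · intro e _ h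
        exact hx (h ▸ e.1.2)
  · intro y
    rw [hcount]
    by_cases hy : y.card = k + 1
    · refine le_trans (le_of_eq ?_) (h2 ⟨y, hy⟩)
      rw [hdY]
      congr 1
      apply filter_congr
      intro e _
      exact ⟨fun h => Subtype.ext h, fun h => congrArg Subtype.val h⟩
    · rw [filter_false_of_mem]
      · simp
      · intro e _ h
        exact hy (h ▸ e.2.2)
  · intro y hy
    rw [hcount]
    refine le_trans (le_of_eq ?_) (h3 ⟨y, hy⟩)
    rw [sum_congr rfl (fun x _ => hdX x)]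
    rw [card_eq_sum_card_fiberwise (f := fun e => e.1)
      (t := univ.filter (fun x : Lv n k => x.1 ⊆ y))]
    · apply sum_congr rfl
      intro x hx
      congr 1
      ext e
      simp only [mem_filter, mem_univ, true_and] at hx ⊢
      constructor
      · rintro ⟨⟨a, b⟩, c⟩; exact ⟨a, c⟩
      · rintro ⟨a, c⟩; exact ⟨⟨a, by rw [c]; exact hx⟩, c⟩
    · intro e he
      simp only [coe_filter, Set.mem_setOf_eq, mem_univ, true_and] at he ⊢
      exact he.2
  · intro x hx
    rw [hcount]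
    refine le_trans (le_of_eq ?_) (h4 ⟨x, hx⟩)
    rw [sum_congr rfl (fun y _ => hdY y)]
    rw [card_eq_sum_card_fiberwise (f := fun e => e.2)
      (t := univ.filter (fun y : Lv n (k + 1) => x ⊆ y.1))]
    · apply sum_congr rfl
      intro y hy
      congr 1
      ext e
      simp only [mem_filter, mem_univ, true_and] at hy ⊢
      constructor
      · rintro ⟨⟨a, b⟩, c⟩; exact ⟨a, c⟩
      · rintro ⟨a, c⟩; exact ⟨⟨a, by rw [c]; exact hy⟩, c⟩
    · intro e he
      simp only [coe_filter, Set.mem_setOf_eq, mem_univ, true_and] at he ⊢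
      exact he.2

end Pool.SCDO
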