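import Pool.Agent.Lib.SCDO.Defs
import Pool.Agent.Lib.SCDH.G01
import Pool.Agent.Lib.SCDH.C1
import Pool.Agent.Lib.SCDO.OK3
import Pool.Agent.Lib.SCDO.NU2

/-!
# Row OK9 (outer part of the symmetric chain decompositions)
o7.
Recipe: U = O.U ⊆ GLv n k (OutFm.sub); dgX U x ≤ uX O x (edge (x,y) ↦ a colour c with x ∈ OX c, y = mu c x: inject the edges at x into colours), dgY U y ≤ uY O y (mem, and for each colour at most one x by inj).
hexagon with m1 = t^50+1, m2 = t, m3, m4 = n / t^27 (a7, a8; Nat division): total T ≤ k(t^50+1) + n t + 2 n/t^27 + k n/t^27 and 2T ≤ k (n-k-1) (k ≥ t^50+1, n-k-1 ≥ n/4, n ≥ t^200).  Cancel k(n-k-1) > 0.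
-/

set_option linter.unusedSectionVars false
set_option linter.unusedVariables false

namespace Pool.SCDO

open Finset Pool.SCDH

variable {n k t K : ℕ}

private lemma ok9_mem (O : Outer (Lv n k) (Lv n (k + 1)) (Fin K)) (e : Lv n k × Lv n (k + 1)) :
    e ∈ O.U ↔ ∃ c, e.1 ∈ O.OX c ∧ e.2 = O.mu c e.1 := by
  unfold Outer.U
  simp

private lemma ok9_sub {ω : ℕ} (O : Outer (Lv n k) (Lv n (k + 1)) (Fin K)) (hf : OutFm ω O) :
    O.U ⊆ GLv n k := by
  intro e he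
  obtain ⟨c, hx, hy⟩ := (ok9_mem O e).1 he
  unfold GLv
  rw [Finset.mem_filter]
  refine ⟨Finset.mem_univ _, ?_⟩
  rw [hy]
  exact hf.sub c _ hx

private lemma ok9_X (O : Outer (Lv n k) (Lv n (k + 1)) (Fin K)) (x : Lv n k) :
    dgX O.U x ≤ uX O x := by
  unfold dgX eB uX
  refine Finset.card_le_card_of_forall_subsingleton
    (fun e c => e.1 ∈ O.OX c ∧ e.2 = O.mu c e.1) ?_ ?_
  · intro e he
    rw [Finset.mem_filter, Finset.mem_singleton] at he
    obtain ⟨heU, hex, -⟩ := he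
    obtain ⟨c, h1, h2⟩ := (ok9_mem O e).1 heU
    refine ⟨c, ?_, h1, h2⟩
    rw [Finset.mem_filter]
    exact ⟨Finset.mem_univ _, hex ▸ h1⟩
  · rintro c - e ⟨he, -, h2⟩ e' ⟨he', -, h2'⟩
    rw [Finset.mem_filter, Finset.mem_singleton] at he he'
    have h3 : e.1 = e'.1 := he.2.1.trans he'.2.1.symm
    refine Prod.ext h3 ?_
    rw [h2, h2', h3]

private lemma ok9_Y {ω : ℕ} (O : Outer (Lv n k) (Lv n (k + 1)) (Fin K)) (hf : OutFm ω O)
    (y : Lv n (k + 1)) : dgY O.U y ≤ uY O y := by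
  unfold dgY eB uY
  refine Finset.card_le_card_of_forall_subsingleton
    (fun e c => e.1 ∈ O.OX c ∧ e.2 = O.mu c e.1) ?_ ?_
  · intro e he
    rw [Finset.mem_filter, Finset.mem_singleton] at he
    obtain ⟨heU, -, hey⟩ := he
    obtain ⟨c, h1, h2⟩ := (ok9_mem O e).1 heU
    refine ⟨c, ?_, h1, h2⟩
    rw [Finset.mem_filter]
    refine ⟨Finset.mem_univ _, ?_⟩
    rw [← hey, h2]
    exact hf.mem c _ h1
  · rintro c - e ⟨he, h1, h2⟩ e' ⟨he', h1', h2'⟩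
    rw [Finset.mem_filter, Finset.mem_singleton] at he he'
    have h3 : e.2 = e'.2 := he.2.2.trans he'.2.2.symm
    have h4 : O.mu c e.1 = O.mu c e'.1 := by rw [← h2, ← h2', h3]
    exact Prod.ext (hf.inj c h1 h1' h4) h3

private lemma ok9_num {k M n t m3 m4 : ℕ} (ht : 10 ^ 100 ≤ t) (hn : t ^ 200 ≤ n)
    (hk : t ^ 50 + 1 ≤ k) (hM : n ≤ 2 * M + 1) (h3 : t ^ 27 * m3 ≤ n) (h4 : t ^ 27 * m4 ≤ n) :
    2 * (k * (t ^ 50 + 1) + M * t + m3 + m4 + k * m4) ≤ k * M := by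
  have ht1 : 1 ≤ t := le_trans (by norm_num) ht
  have ht48 : 1000 ≤ t := le_trans (by norm_num) ht
  have p27 : 1000 ≤ t ^ 27 := le_trans ht48 (Nat.le_self_pow (by norm_num) t)
  have p50 : 1000 * t ≤ t ^ 50 := by
    calc 1000 * t ≤ t * t := Nat.mul_le_mul_right _ ht48
      _ = t ^ 2 := by ring
      _ ≤ t ^ 50 := Nat.pow_le_pow_right ht1 (by norm_num)
  have p50' : 1 ≤ t ^ 50 := Nat.one_le_pow _ _ ht1
  have p51 : 1000 * t ^ 50 ≤ t ^ 200 := by
    calc 1000 * t ^ 50 ≤ t * t ^ 50 := Nat.mul_le_mul_right _ ht48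
      _ = t ^ 51 := by ring
      _ ≤ t ^ 200 := Nat.pow_le_pow_right ht1 (by norm_num)
  have hM1 : 400 * t ^ 50 ≤ M := by omega
  have hM2 : n ≤ 3 * M := by omega
  have a1 : 100 * (k * (t ^ 50 + 1)) ≤ k * M := by
    calc 100 * (k * (t ^ 50 + 1)) = k * (100 * (t ^ 50 + 1)) := by ring
      _ ≤ k * M := Nat.mul_le_mul_left _ (by omega)
  have a2 : 100 * (M * t) ≤ k * M := by
    calc 100 * (M * t) = (100 * t) * M := by ring
      _ ≤ k * M := Nat.mul_le_mul_right _ (by omega)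
  have b3 : 1000 * m3 ≤ 3 * M := by
    calc 1000 * m3 ≤ t ^ 27 * m3 := Nat.mul_le_mul_right _ p27
      _ ≤ 3 * M := h3.trans hM2
  have b4 : 1000 * m4 ≤ 3 * M := by
    calc 1000 * m4 ≤ t ^ 27 * m4 := Nat.mul_le_mul_right _ p27
      _ ≤ 3 * M := h4.trans hM2
  have hMk : M ≤ k * M := Nat.le_mul_of_pos_left _ (by omega)
  have a3 : 100 * m3 ≤ k * M := by omega
  have a4 : 100 * m4 ≤ k * M := by omega
  have a5 : 100 * (k * m4) ≤ k * M := by
    calc 100 * (k * m4) = k * (100 * m4) := by ring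
      _ ≤ k * M := Nat.mul_le_mul_left _ (by omega)
  omega

theorem o7_of {ε : ℝ} (hB : Big ε t) (hR : Rng t n) (hk : t ^ 50 + 1 ≤ k) (hk2 : 2 * k + 1 ≤ n)
    (O : Outer (Lv n k) (Lv n (k + 1)) (Fin K)) (ω : ℕ) (hf : OutFm ω O) (hl : OutLoc t O)
    (A : Finset (Lv n k)) (N : Finset (Lv n (k + 1))) :
    2 * bd O.U A N ≤ bd (GLv n k) A N := by
  have ht := ob_t hB
  have ht1 : 1 ≤ t := le_trans (by norm_num) ht
  have hp27 : 0 < t ^ 27 := Nat.pow_pos (by omega)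
  have hk1 : 1 ≤ k := le_trans (by omega) hk
  have h3 : ∀ y : Lv n (k + 1), ∑ x ∈ univ.filter (fun x : Lv n k => x.1 ⊆ y.1), dgX O.U x ≤ n / t ^ 27 := by
    intro y
    rw [Nat.le_div_iff_mul_le hp27, mul_comm]
    refine le_trans (Nat.mul_le_mul_left _ (Finset.sum_le_sum fun x _ => ok9_X O x)) (hl.a7 y)
  have h4 : ∀ x : Lv n k, ∑ y ∈ univ.filter (fun y : Lv n (k + 1) => x.1 ⊆ y.1), dgY O.U y ≤ n / t ^ 27 := by
    intro x
    rw [Nat.le_div_iff_mul_le hp27, mul_comm]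
    refine le_trans (Nat.mul_le_mul_left _ (Finset.sum_le_sum fun y _ => ok9_Y O hf y)) (hl.a8 x)
  have hhex := hexagon hk1 hk2 O.U (ok9_sub O hf) (t ^ 50 + 1) t (n / t ^ 27) (n / t ^ 27)
    (fun x => (ok9_X O x).trans (hl.a3 x)) (fun y => (ok9_Y O hf y).trans (hl.a4 y)) h3 h4 A N
  have hdiv : t ^ 27 * (n / t ^ 27) ≤ n := Nat.mul_div_le _ _
  have hnum := ok9_num (k := k) (M := n - k - 1) ht hR.1 hk (by omega) hdiv hdiv
  have hkM : 0 < k * (n - k - 1) := Nat.mul_pos (by omega) (by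
    have : 3 ≤ n := by
      have h2 : t ^ 200 ≤ n := hR.1
      have h3 : t ≤ t ^ 200 := Nat.le_self_pow (by norm_num) t
      have h4 : 3 ≤ 10 ^ 100 := by norm_num
      omega
    omega)
  refine Nat.le_of_mul_le_mul_left ?_ hkM
  calc k * (n - k - 1) * (2 * bd O.U A N) = 2 * (k * (n - k - 1) * bd O.U A N) := by ring
    _ ≤ 2 * ((k * (t ^ 50 + 1) + (n - k - 1) * t + n / t ^ 27 + n / t ^ 27 + k * (n / t ^ 27)) *
        bd (GLv n k) A N) := Nat.mul_le_mul_left _ hhex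
    _ = (2 * (k * (t ^ 50 + 1) + (n - k - 1) * t + n / t ^ 27 + n / t ^ 27 + k * (n / t ^ 27))) *
        bd (GLv n k) A N := by ring
    _ ≤ _ := Nat.mul_le_mul_right _ hnum

end Pool.SCDO
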