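import Pool.Agent.Lib.SCDO.Defs
import Pool.Agent.Lib.SCDH.G01
import Pool.Agent.Lib.SCDH.C1
import Pool.Agent.Lib.SCDO.OK7
import Pool.Agent.Lib.SCDO.OK8
import Pool.Agent.Lib.SCDO.OK9
import Pool.Agent.Lib.SCDO.OK10

/-!
# Row OK11 (outer part of the symmetric chain decompositions)
OutOK from the local conditions.
Recipe: rewrite H.G = GLv n k.  adj from OutFm.sub; mem, inj, cX, cY, dis from OutFm; om: om_of.  o3Y, o3X: a1, a2 with eB_left, eB_right (t^26 · t ≤ t^50 ≤ k+1, ≤ n).  o4X: a3 (t^26 (t^50+1) ≤ n), o4Y: a4.  o5X.. o6Y: OK7, OK8; o7: OK9.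
-/

set_option linter.unusedSectionVars false
set_option linter.unusedVariables false

namespace Pool.SCDO

open Finset Pool.SCDH

variable {n k t K : ℕ}

theorem out_ok {ε : ℝ} (hB : Big ε t) (hR : Rng t n) (hk : t ^ 50 + 1 ≤ k) (hk2 : 2 * k + 1 ≤ n)
    (H : Host (Lv n k) (Lv n (k + 1)) n (n - k) (k + 1)) (hH : H.G = GLv n k)
    (O : Outer (Lv n k) (Lv n (k + 1)) (Fin K)) (hf : OutFm (n.choose (k0 t)) O) (hl : OutLoc t O) :
    OutOK H t (n.choose (k0 t)) O := by
  have ht : 10 ^ 100 ≤ t := ob_t hB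
  have ht1 : 1 ≤ t := le_trans (Nat.one_le_pow _ _ (by norm_num)) ht
  have ht2 : 2 ≤ t := le_trans (by norm_num) ht
  have h27 : t ^ 26 * t ≤ t ^ 50 := by
    rw [← pow_succ]
    exact Nat.pow_le_pow_right ht1 (by norm_num)
  have h200 : t ^ 26 * (t ^ 50 + 1) ≤ n := by
    refine le_trans ?_ hR.1
    calc t ^ 26 * (t ^ 50 + 1) ≤ t ^ 26 * (t ^ 50 * t) := by
          refine Nat.mul_le_mul_left _ ?_
          have h1 : 1 ≤ t ^ 50 := Nat.one_le_pow _ _ ht1
          calc t ^ 50 + 1 ≤ t ^ 50 * 2 := by omega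
            _ ≤ t ^ 50 * t := Nat.mul_le_mul_left _ ht2
      _ = t ^ 77 := by ring
      _ ≤ t ^ 200 := Nat.pow_le_pow_right ht1 (by norm_num)
  refine
    { adj := ?_
      mem := hf.mem
      inj := hf.inj
      cX := hf.cX
      cY := hf.cY
      om := om_of hB hR hk hk2
      dis := hf.dis
      o3Y := ?_
      o3X := ?_
      o4X := ?_
      o4Y := ?_
      o5X := ?_
      o5Y := ?_
      o6X := ?_
      o6Y := ?_
      o7 := ?_ }
  · intro c x hx
    rw [hH]
    exact Finset.mem_filter.2 ⟨Finset.mem_univ _, hf.sub c x hx⟩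
  · intro c y
    rw [hH, eB_left]
    have h1 := Nat.mul_le_mul_left (t ^ 26) (hl.a1 c y)
    omega
  · intro c x
    rw [hH, eB_right]
    have h1 := Nat.mul_le_mul_left (t ^ 26) (hl.a2 c x)
    omega
  · intro x
    exact (Nat.mul_le_mul_left (t ^ 26) (hl.a3 x)).trans h200
  · intro y
    have h1 := Nat.mul_le_mul_left (t ^ 26) (hl.a4 y)
    omega
  · intro c A
    rw [hH]
    exact o5X_of hB hR hk hk2 O hl c A
  · intro c N
    rw [hH]
    exact o5Y_of hB hR hk hk2 O hl c N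
  · intro A
    rw [hH]
    exact o6X_of hB hR hk hk2 O hl A
  · intro N
    rw [hH]
    exact o6Y_of hB hR hk hk2 O hl N
  · intro A N
    rw [hH]
    exact o7_of hB hR hk hk2 O _ hf hl A N

end Pool.SCDO
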