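import Pool.Agent.Lib.SCDO.Defs
import Pool.Agent.Lib.SCDO.NU2

/-!
# Row OK4 (outer part of the symmetric chain decompositions)
Local conditions at height 0.
Recipe (k = k0+1, h = 0, w c · 0 = first vertices).  Every count is a count of indices i (map x ↦ the i with w c i h = x).  a1: Sp.down.  a2: y = w c i 1 ⊇ x: the i with w c i 0 = x (at most one, Sp.inj) and the others (F3, < t).
a3: Sp.mult (c ↦ (c,i)).  a4: uY y ≤ number of (c,i) with w c i 1 = y ⊆ any A ⊇ y with one more element (F1 at height 1, < t).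
a5: Sp.near (t^27 ≤ t^28).  a6: groups g = a/t^90 ≤ n/t^90 of the element a of w c i 1 \ y: F6: ≤ t (n/t^90 + 1), and t^28 (n/t^90 + 1) ≤ n.  a7: sum = number of (c,i) with w c i 0 ⊆ y ≤ (k0+2)(k0+1) (mult for each of the
k0+2 sets x ⊆ y).  a8: sum ≤ number of (c,i) with x ⊆ w c i 1, in groups of the element of w c i 1 \ x: F5: ≤ t (n/t^90+1).
-/

set_option linter.unusedSectionVars false
set_option linter.unusedVariables false

namespace Pool.SCDO

open Finset Pool.SCDH

variable {n t K : ℕ}

private theorem group_count {ι : Type} (S : Finset ι) (U : ι → Finset (Fin n)) (T t : ℕ)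
    (hU : ∀ i ∈ S, (U i).card = 1)
    (h : ∀ g, g ≤ n → (S.filter (fun i => ∀ a ∈ U i, (a : ℕ) / T = g)).card < t) :
    S.card ≤ (n / T + 1) * t := by
  classical
  have hsub : S ⊆ (range (n / T + 1)).biUnion
      (fun g => S.filter (fun i => ∀ a ∈ U i, (a : ℕ) / T = g)) := by
    intro i hi
    obtain ⟨a, ha⟩ := card_eq_one.1 (hU i hi)
    rw [mem_biUnion]
    refine ⟨(a : ℕ) / T, ?_, ?_⟩
    · rw [mem_range]
      exact Nat.lt_succ_of_le (Nat.div_le_div_right a.2.le)
    · rw [mem_filter]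
      refine ⟨hi, fun b hb => ?_⟩
      rw [ha, mem_singleton] at hb
      rw [hb]
  calc S.card ≤ _ := card_le_card hsub
    _ ≤ (range (n / T + 1)).card * t := by
        apply card_biUnion_le_card_mul
        intro g hg
        rw [mem_range] at hg
        exact (h g (le_trans (Nat.lt_succ_iff.1 hg) (Nat.div_le_self _ _))).le
    _ = _ := by rw [card_range]

private theorem num1 (ht : 10 ^ 100 ≤ t) (hn : t ^ 200 ≤ n) (c : ℕ) (hc : c ≤ (n / t ^ 90 + 1) * t) :
    t ^ 27 * c ≤ n := by
  have h0 : 2 ≤ t := le_trans (by norm_num) ht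
  have h1 : t ^ 90 * (n / t ^ 90) ≤ n := Nat.mul_div_le n (t ^ 90)
  have h2 : 2 * t ^ 28 ≤ t ^ 90 := by
    calc 2 * t ^ 28 ≤ t ^ 62 * t ^ 28 := by
          apply Nat.mul_le_mul_right
          calc 2 ≤ t := h0
            _ = t ^ 1 := (pow_one t).symm
            _ ≤ t ^ 62 := Nat.pow_le_pow_right (by omega) (by norm_num)
      _ = t ^ 90 := by rw [← pow_add]
  have h3 : t ^ 90 ≤ t ^ 200 := Nat.pow_le_pow_right (by omega) (by norm_num)
  have h4 : t ^ 27 * c ≤ t ^ 28 * (n / t ^ 90) + t ^ 28 := by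
    calc t ^ 27 * c ≤ t ^ 27 * ((n / t ^ 90 + 1) * t) := Nat.mul_le_mul_left _ hc
      _ = t ^ 28 * (n / t ^ 90) + t ^ 28 := by ring
  have h5 : 2 * t ^ 28 * (n / t ^ 90) ≤ t ^ 90 * (n / t ^ 90) := Nat.mul_le_mul_right _ h2
  have h6 : 2 * t ^ 28 * (n / t ^ 90) = 2 * (t ^ 28 * (n / t ^ 90)) := by ring
  omega

theorem outLoc_zero {ε : ℝ} (hB : Big ε t) (hR : Rng t n) (w : Fin K → Lv n (k0 t) → ℕ → Finset (Fin n))
    (hw : Sp n t K w) (O : Outer (Lv n (k0 t + 1 + 0)) (Lv n (k0 t + 1 + 0 + 1)) (Fin K))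
    (hO : Fits w 0 O) : OutLoc t O := by
  classical
  have ht := ob_t hB
  obtain ⟨hn, hN1, hN2⟩ := ob_NN hB hR
  have hnt : t ^ 200 ≤ n := hR.1
  have ht1 : 2 ≤ t := le_trans (by norm_num) ht
  have hNN : 10 ≤ NN n t := by
    have h1 : t ^ 1 ≤ t ^ 200 := Nat.pow_le_pow_right (by omega) (by norm_num)
    rw [pow_one] at h1
    have h2 : 20 ≤ t := le_trans (by norm_num) ht
    omega
  have hcX : ∀ c (P : Finset (Fin n) → Prop) [DecidablePred P],
      (univ.filter (fun x : Lv n (k0 t + 1 + 0) => x ∈ O.OX c ∧ P x.1)).card ≤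
        (univ.filter (fun i => P (w c i 0))).card := by
    intro c P _
    have hsub : (univ.filter (fun x : Lv n (k0 t + 1 + 0) => x ∈ O.OX c ∧ P x.1)).image
        Subtype.val ⊆ (univ.filter (fun i => P (w c i 0))).image (fun i => w c i 0) := by
      intro v hv
      rw [mem_image] at hv
      obtain ⟨x, hx, rfl⟩ := hv
      rw [mem_filter] at hx
      obtain ⟨i, hi⟩ := (hO.OX c x).1 hx.2.1
      rw [mem_image]
      exact ⟨i, mem_filter.2 ⟨mem_univ _, by rw [hi]; exact hx.2.2⟩, hi⟩
    have h1 := card_le_card hsub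
    rw [card_image_of_injective _ Subtype.val_injective] at h1
    exact h1.trans card_image_le
  have hcY : ∀ c (P : Finset (Fin n) → Prop) [DecidablePred P],
      (univ.filter (fun y : Lv n (k0 t + 1 + 0 + 1) => y ∈ O.OY c ∧ P y.1)).card ≤
        (univ.filter (fun i => P (w c i 1))).card := by
    intro c P _
    have hsub : (univ.filter (fun y : Lv n (k0 t + 1 + 0 + 1) => y ∈ O.OY c ∧ P y.1)).image
        Subtype.val ⊆ (univ.filter (fun i => P (w c i 1))).image (fun i => w c i 1) := by
      intro v hv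
      rw [mem_image] at hv
      obtain ⟨x, hx, rfl⟩ := hv
      rw [mem_filter] at hx
      obtain ⟨i, hi⟩ := (hO.OY c x).1 hx.2.1
      rw [mem_image]
      exact ⟨i, mem_filter.2 ⟨mem_univ _, by rw [hi]; exact hx.2.2⟩, hi⟩
    have h1 := card_le_card hsub
    rw [card_image_of_injective _ Subtype.val_injective] at h1
    exact h1.trans card_image_le
  have huX : ∀ x, uX O x ≤
      (univ.filter (fun i : Fin K × Lv n (k0 t) => w i.1 i.2 0 = x.1)).card := by
    intro x
    have hsub : (univ.filter (fun c => x ∈ O.OX c)) ⊆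
        (univ.filter (fun i : Fin K × Lv n (k0 t) => w i.1 i.2 0 = x.1)).image Prod.fst := by
      intro c hc
      rw [mem_filter] at hc
      obtain ⟨i, hi⟩ := (hO.OX c x).1 hc.2
      rw [mem_image]
      exact ⟨(c, i), mem_filter.2 ⟨mem_univ _, hi⟩, rfl⟩
    exact (card_le_card hsub).trans card_image_le
  have huY : ∀ y, uY O y ≤
      (univ.filter (fun i : Fin K × Lv n (k0 t) => w i.1 i.2 1 = y.1)).card := by
    intro y
    have hsub : (univ.filter (fun c => y ∈ O.OY c)) ⊆
        (univ.filter (fun i : Fin K × Lv n (k0 t) => w i.1 i.2 1 = y.1)).image Prod.fst := by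
      intro c hc
      rw [mem_filter] at hc
      obtain ⟨i, hi⟩ := (hO.OY c y).1 hc.2
      rw [mem_image]
      exact ⟨(c, i), mem_filter.2 ⟨mem_univ _, hi⟩, rfl⟩
    exact (card_le_card hsub).trans card_image_le
  refine ⟨?_, ?_, ?_, ?_, ?_, ?_, ?_, ?_⟩
  · -- a1
    intro c y
    exact (hcX c (fun s => s ⊆ y.1)).trans (hw.down c y.1 y.2)
  · -- a2
    intro c x
    refine (hcY c (fun s => x.1 ⊆ s)).trans ?_
    have h1 : (univ.filter (fun i => x.1 ⊆ w c i 1)) ⊆
        (univ.filter (fun i => x.1 ⊆ w c i 1 ∧ w c i 0 ≠ x.1)) ∪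
          (univ.filter (fun i => w c i 0 = x.1)) := by
      intro i hi
      rw [mem_filter] at hi
      rw [mem_union, mem_filter, mem_filter]
      by_cases h : w c i 0 = x.1
      · exact Or.inr ⟨mem_univ _, h⟩
      · exact Or.inl ⟨mem_univ _, hi.2, h⟩
    have h2 : (univ.filter (fun i => w c i 0 = x.1)).card ≤ 1 := by
      rw [card_le_one]
      intro i hi j hj
      rw [mem_filter] at hi hj
      exact hw.inj c 0 (by omega) (hi.2.trans hj.2.symm)
    have h3 := hw.F3 c x.1 x.2
    have h4 := (card_le_card h1).trans (card_union_le _ _)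
    omega
  · -- a3
    intro x
    exact (huX x).trans (hw.mult x.1)
  · -- a4
    intro y
    have hyc : y.1.card = k0 t + 2 := y.2
    obtain ⟨A, hyA, hA⟩ := Finset.exists_superset_card_eq (s := y.1) (n := k0 t + 3)
      (by omega) (by rw [Fintype.card_fin]; omega)
    have h1 := hw.F1 1 A le_rfl (by omega) (by rw [hA])
    have h2 : (univ.filter (fun i : Fin K × Lv n (k0 t) => w i.1 i.2 1 = y.1)) ⊆
        (univ.filter (fun i : Fin K × Lv n (k0 t) => w i.1 i.2 1 ⊆ A)) := by
      intro i hi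
      rw [mem_filter] at hi ⊢
      exact ⟨mem_univ _, by rw [hi.2]; exact hyA⟩
    have h3 := (huY y).trans (card_le_card h2)
    omega
  · -- a5
    intro c x
    have h1 := hcX c (fun s => (s \ x.1).card = 1)
    have h2 := hw.near c x.1 x.2
    calc _ ≤ t ^ 27 * (univ.filter (fun i => (w c i 0 \ x.1).card = 1)).card :=
          Nat.mul_le_mul_left _ h1
      _ ≤ t ^ 28 * (univ.filter (fun i => (w c i 0 \ x.1).card = 1)).card :=
          Nat.mul_le_mul_right _ (Nat.pow_le_pow_right (by omega) (by norm_num))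
      _ ≤ n := h2
  · -- a6
    intro c y
    apply num1 ht hnt
    refine (hcY c (fun s => (s \ y.1).card = 1)).trans ?_
    apply group_count _ (fun i => w c i 1 \ y.1)
    · intro i hi
      rw [mem_filter] at hi
      exact hi.2
    · intro g hg
      have h1 := hw.F6 c g y.1 hg y.2
      rw [filter_filter]
      exact h1
  · -- a7
    intro y
    have hyc : y.1.card = k0 t + 2 := y.2
    have h1 : (univ.filter (fun x : Lv n (k0 t + 1 + 0) => x.1 ⊆ y.1)).card ≤ k0 t + 2 := by
      have hsub : (univ.filter (fun x : Lv n (k0 t + 1 + 0) => x.1 ⊆ y.1)).image Subtype.val ⊆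
          powersetCard (k0 t + 1) y.1 := by
        intro v hv
        rw [mem_image] at hv
        obtain ⟨x, hx, rfl⟩ := hv
        rw [mem_filter] at hx
        rw [mem_powersetCard]
        exact ⟨hx.2, x.2⟩
      have h2 := card_le_card hsub
      rw [card_image_of_injective _ Subtype.val_injective, card_powersetCard, hyc] at h2
      have h3 : (k0 t + 2).choose (k0 t + 1) = k0 t + 2 := Nat.choose_succ_self_right (k0 t + 1)
      omega
    have h2 : ∑ x ∈ univ.filter (fun x : Lv n (k0 t + 1 + 0) => x.1 ⊆ y.1), uX O x ≤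
        (k0 t + 2) * (k0 t + 1) := by
      calc _ ≤ (univ.filter (fun x : Lv n (k0 t + 1 + 0) => x.1 ⊆ y.1)).card • (k0 t + 1) :=
            sum_le_card_nsmul _ _ _ (fun x _ => (huX x).trans (hw.mult x.1))
        _ ≤ _ := by
            rw [smul_eq_mul]
            exact Nat.mul_le_mul_right _ h1
    have h3 : k0 t + 2 ≤ t ^ 51 := by
      have h4 : t ^ 51 = t * t ^ 50 := by ring
      have h5 : 2 * t ^ 50 ≤ t * t ^ 50 := Nat.mul_le_mul_right _ ht1
      have h6 : t ^ 1 ≤ t ^ 50 := Nat.pow_le_pow_right (by omega) (by norm_num)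
      rw [pow_one] at h6
      show t ^ 50 + 2 ≤ t ^ 51
      omega
    calc _ ≤ t ^ 27 * ((k0 t + 2) * (k0 t + 1)) := Nat.mul_le_mul_left _ h2
      _ ≤ t ^ 27 * (t ^ 51 * t ^ 51) :=
          Nat.mul_le_mul_left _ (Nat.mul_le_mul h3 (by omega))
      _ = t ^ 129 := by rw [← pow_add, ← pow_add]
      _ ≤ t ^ 200 := Nat.pow_le_pow_right (by omega) (by norm_num)
      _ ≤ n := hnt
  · -- a8
    intro x
    have hxc : x.1.card = k0 t + 1 := x.2
    apply num1 ht hnt
    have h1 : ∑ y ∈ univ.filter (fun y : Lv n (k0 t + 1 + 0 + 1) => x.1 ⊆ y.1), uY O y ≤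
        (univ.filter (fun i : Fin K × Lv n (k0 t) => x.1 ⊆ w i.1 i.2 1)).card := by
      calc _ ≤ ∑ y ∈ univ.filter (fun y : Lv n (k0 t + 1 + 0 + 1) => x.1 ⊆ y.1),
            (univ.filter (fun i : Fin K × Lv n (k0 t) => w i.1 i.2 1 = y.1)).card :=
            sum_le_sum (fun y _ => huY y)
        _ = ((univ.filter (fun y : Lv n (k0 t + 1 + 0 + 1) => x.1 ⊆ y.1)).biUnion
            (fun y => univ.filter (fun i : Fin K × Lv n (k0 t) => w i.1 i.2 1 = y.1))).card := by
            rw [card_biUnion]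
            intro y _ y' _ hyy
            refine Finset.disjoint_left.2 ?_
            intro i hi hi'
            rw [mem_filter] at hi hi'
            exact hyy (Subtype.ext (hi.2.symm.trans hi'.2))
        _ ≤ _ := by
            apply card_le_card
            intro i hi
            rw [mem_biUnion] at hi
            obtain ⟨y, hy, hi⟩ := hi
            rw [mem_filter] at hy hi ⊢
            exact ⟨mem_univ _, by rw [hi.2]; exact hy.2⟩
    refine h1.trans ?_
    apply group_count _ (fun i => w i.1 i.2 1 \ x.1)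
    · intro i hi
      rw [mem_filter] at hi
      have h2 := hw.card i.1 i.2 1 (by omega)
      have h3 := card_sdiff_add_card_eq_card hi.2
      show (w i.1 i.2 1 \ x.1).card = 1
      omega
    · intro g hg
      have h1 := hw.F5 g x.1 hg hxc
      rw [filter_filter]
      exact h1

end Pool.SCDO
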