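import Pool.Agent.Lib.SCDO.Defs
import Pool.Agent.Lib.SCDO.NU2

/-!
# Row OK5 (outer part of the symmetric chain decompositions)
Local conditions at height h ≥ 1.
Recipe: every count is a count of indices i (map x ↦ the i with w c i h = x).  a1: F1 at h with A = y.  a2: F2 at h+1 with A = x.  a3: F1 at h with A = insert a x.  a4: F1 at h+1 with A = insert a y (h+1 ≤ ..., 2(h+1) ≤ N+1; y ≠ univ).
a5: h ≥ 2: F4 at h (t · t^27 ≤ n); h = 1: F6 in groups g = a/t^90 ≤ n/t^90: ≤ t (n/t^90+1).  a6: F4 at h+1 ≥ 2.  a7: sum ≤ number of (c,i) with w c i h ⊆ y: F1.  a8: sum ≤ number of (c,i) with x ⊆ w c i (h+1): F2 at h+1.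
-/

set_option linter.unusedSectionVars false
set_option linter.unusedVariables false

namespace Pool.SCDO

open Finset Pool.SCDH

variable {n t K : ℕ}

private theorem ok5_le {α β : Type*} (S : Finset α) (T : Finset β) (R : α → β → Prop)
    (hex : ∀ a ∈ S, ∃ b ∈ T, R a b) (hu : ∀ a a' b, R a b → R a' b → a = a') : S.card ≤ T.card := by
  classical
  refine card_le_card_of_forall_subsingleton R hex ?_
  intro b _ a ha a' ha'
  exact hu a a' b ha.2 ha'.2

private theorem ok5_exists_notin {m : ℕ} (A : Finset (Fin n)) (hA : A.card = m) (hm : m < n) :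
    ∃ a, a ∉ A := by
  by_contra hcon
  push Not at hcon
  have : A = univ := by
    ext a; simp [hcon a]
  rw [this] at hA
  simp at hA
  omega

private theorem ok5_sum {α C : Type*} [Fintype C] [DecidableEq α] (S : Finset α) (T : C → Finset α) :
    ∑ x ∈ S, (univ.filter (fun c => x ∈ T c)).card =
      ((S ×ˢ (univ : Finset C)).filter (fun p => p.1 ∈ T p.2)).card := by
  classical
  rw [card_filter, sum_product]
  refine sum_congr rfl fun x _ => ?_
  rw [card_filter]

theorem outLoc_pos {ε : ℝ} (hB : Big ε t) (hR : Rng t n) (w : Fin K → Lv n (k0 t) → ℕ → Finset (Fin n))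
    (hw : Sp n t K w) (h : ℕ) (h1 : 1 ≤ h) (hh : 2 * h + 1 ≤ NN n t)
    (O : Outer (Lv n (k0 t + 1 + h)) (Lv n (k0 t + 1 + h + 1)) (Fin K))
    (hO : Fits w h O) : OutLoc t O := by
  have ht := ob_t hB
  obtain ⟨hn, hN1, hN2⟩ := ob_NN hB hR
  have hR1 : t ^ 200 ≤ n := hR.1
  have ht1 : 1 ≤ t := le_trans (by norm_num) ht
  have ht2 : 2 ≤ t := le_trans (by norm_num) ht
  have hnt : t ^ 28 ≤ n := le_trans (Nat.pow_le_pow_right ht1 (by norm_num)) hR1
  have hnt' : t ^ 27 * t ≤ n := by rw [← pow_succ]; exact hnt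
  have key : ∀ s : ℕ, s ≤ t → t ^ 27 * s ≤ n := fun s hs => le_trans (Nat.mul_le_mul_left _ hs) hnt'
  have hyn : k0 t + 1 + h + 1 < n := by omega
  have hxn : k0 t + 1 + h < n := by omega
  constructor
  · -- a1
    intro c y
    refine le_trans (ok5_le _ (univ.filter (fun i : Fin K × Lv n (k0 t) => w i.1 i.2 h ⊆ y.1))
      (fun x i => i.1 = c ∧ w i.1 i.2 h = x.1) ?_ ?_) (le_of_lt (hw.F1 h y.1 h1 (by omega) (by
        rw [y.2]; omega)))
    · intro x hx
      rw [mem_filter] at hx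
      obtain ⟨i, hi⟩ := (hO.OX c x).1 hx.2.1
      refine ⟨(c, i), ?_, rfl, hi⟩
      rw [mem_filter]
      exact ⟨mem_univ _, by simpa [hi] using hx.2.2⟩
    · rintro x x' i ⟨_, h2⟩ ⟨_, h3⟩
      exact Subtype.ext (h2.symm.trans h3)
  · -- a2
    intro c x
    refine le_trans (ok5_le _ (univ.filter (fun i : Fin K × Lv n (k0 t) => x.1 ⊆ w i.1 i.2 (h + 1)))
      (fun y i => i.1 = c ∧ w i.1 i.2 (h + 1) = y.1) ?_ ?_)
      (le_of_lt (hw.F2 (h + 1) x.1 (by omega) (by omega) (by rw [x.2]; omega)))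
    · intro y hy
      rw [mem_filter] at hy
      obtain ⟨i, hi⟩ := (hO.OY c y).1 hy.2.1
      refine ⟨(c, i), ?_, rfl, hi⟩
      rw [mem_filter]
      exact ⟨mem_univ _, by simpa [hi] using hy.2.2⟩
    · rintro x x' i ⟨_, h2⟩ ⟨_, h3⟩
      exact Subtype.ext (h2.symm.trans h3)
  · -- a3
    intro x
    obtain ⟨a, ha⟩ := ok5_exists_notin x.1 x.2 hxn
    have hc : (insert a x.1).card = k0 t + 2 + h := by
      rw [card_insert_of_notMem ha, x.2]; omega
    have h3 := hw.F1 h (insert a x.1) h1 (by omega) hc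
    have h4 : uX O x ≤ (univ.filter (fun i : Fin K × Lv n (k0 t) => w i.1 i.2 h ⊆ insert a x.1)).card := by
      refine ok5_le _ _ (fun c i => i.1 = c) ?_ ?_
      · intro c hc
        rw [mem_filter] at hc
        obtain ⟨i, hi⟩ := (hO.OX c x).1 hc.2
        refine ⟨(c, i), ?_, rfl⟩
        rw [mem_filter]
        refine ⟨mem_univ _, ?_⟩
        show w c i h ⊆ insert a x.1
        rw [hi]
        exact subset_insert _ _
      · rintro c c' i h5 h6
        exact h5.symm.trans h6
    have h5 : t ≤ t ^ 50 := by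
      calc t = t ^ 1 := (pow_one t).symm
        _ ≤ t ^ 50 := Nat.pow_le_pow_right ht1 (by norm_num)
    omega
  · -- a4
    intro y
    obtain ⟨a, ha⟩ := ok5_exists_notin y.1 y.2 hyn
    have hc : (insert a y.1).card = k0 t + 2 + (h + 1) := by
      rw [card_insert_of_notMem ha, y.2]; omega
    have h3 := hw.F1 (h + 1) (insert a y.1) (by omega) (by omega) hc
    have h4 : uY O y ≤ (univ.filter (fun i : Fin K × Lv n (k0 t) =>
        w i.1 i.2 (h + 1) ⊆ insert a y.1)).card := by
      refine ok5_le _ _ (fun c i => i.1 = c) ?_ ?_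
      · intro c hc
        rw [mem_filter] at hc
        obtain ⟨i, hi⟩ := (hO.OY c y).1 hc.2
        refine ⟨(c, i), ?_, rfl⟩
        rw [mem_filter]
        refine ⟨mem_univ _, ?_⟩
        show w c i (h + 1) ⊆ insert a y.1
        rw [hi]
        exact subset_insert _ _
      · rintro c c' i h5 h6
        exact h5.symm.trans h6
    omega
  · -- a5
    intro c x
    rcases Nat.lt_or_ge h 2 with hh2 | hh2
    · -- h = 1
      have hh1 : h = 1 := by omega
      subst hh1
      set B : Finset (Lv n (k0 t)) := univ.filter (fun i => (w c i 1 \ x.1).card = 1) with hBdef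
      have h4 : (univ.filter (fun x' => x' ∈ O.OX c ∧ (x'.1 \ x.1).card = 1)).card ≤ B.card := by
        refine ok5_le _ _ (fun x' i => w c i 1 = x'.1) ?_ ?_
        · intro x' hx'
          rw [mem_filter] at hx'
          obtain ⟨i, hi⟩ := (hO.OX c x').1 hx'.2.1
          refine ⟨i, ?_, hi⟩
          rw [hBdef, mem_filter]
          exact ⟨mem_univ _, by rw [hi]; exact hx'.2.2⟩
        · intro x1 x2 i h5 h6
          exact Subtype.ext (h5.symm.trans h6)
      have h5 : B ⊆ (range (n / t ^ 90 + 1)).biUnion (fun g => univ.filter (fun i =>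
          (w c i 1 \ x.1).card = 1 ∧ ∀ a ∈ w c i 1 \ x.1, (a : ℕ) / t ^ 90 = g)) := by
        intro i hi
        rw [hBdef, mem_filter] at hi
        obtain ⟨a, ha⟩ := card_eq_one.1 hi.2
        rw [mem_biUnion]
        refine ⟨(a : ℕ) / t ^ 90, ?_, ?_⟩
        · rw [mem_range]
          exact Nat.lt_succ_of_le (Nat.div_le_div_right (le_of_lt a.2))
        · rw [mem_filter]
          refine ⟨mem_univ _, hi.2, ?_⟩
          intro b hb
          rw [ha, mem_singleton] at hb
          rw [hb]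
      have h6 : B.card ≤ (n / t ^ 90 + 1) * t := by
        refine le_trans (card_le_card h5) (le_trans card_biUnion_le ?_)
        refine le_trans (sum_le_card_nsmul _ _ t ?_) ?_
        · intro g hg
          rw [mem_range] at hg
          refine le_of_lt (hw.F6 c g x.1 ?_ ?_)
          · exact le_trans (Nat.le_of_lt_succ hg) (Nat.div_le_self _ _)
          · rw [x.2]
        · rw [card_range, smul_eq_mul]
      have hq : 1 ≤ n / t ^ 90 := by
        rw [Nat.one_le_div_iff (Nat.pow_pos ht1)]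
        exact le_trans (Nat.pow_le_pow_right ht1 (by norm_num)) hR1
      have h7 : t ^ 27 * ((n / t ^ 90 + 1) * t) ≤ n := by
        calc t ^ 27 * ((n / t ^ 90 + 1) * t) ≤ t ^ 27 * ((n / t ^ 90 + n / t ^ 90) * t) := by gcongr
          _ = t ^ 28 * 2 * (n / t ^ 90) := by ring
          _ ≤ t ^ 28 * t * (n / t ^ 90) := by gcongr
          _ = t ^ 29 * (n / t ^ 90) := by ring
          _ ≤ t ^ 90 * (n / t ^ 90) :=
              Nat.mul_le_mul_right _ (Nat.pow_le_pow_right ht1 (by norm_num))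
          _ ≤ n := Nat.mul_div_le _ _
      exact le_trans (Nat.mul_le_mul_left _ (le_trans h4 h6)) h7
    · refine key _ (le_trans (ok5_le _ (univ.filter (fun i => (w c i h \ x.1).card = 1))
        (fun x' i => w c i h = x'.1) ?_ ?_) (le_of_lt (hw.F4 c h x.1 hh2 (by omega) x.2)))
      · intro x' hx'
        rw [mem_filter] at hx'
        obtain ⟨i, hi⟩ := (hO.OX c x').1 hx'.2.1
        refine ⟨i, ?_, hi⟩
        rw [mem_filter]
        exact ⟨mem_univ _, by rw [hi]; exact hx'.2.2⟩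
      · intro x1 x2 i h5 h6
        exact Subtype.ext (h5.symm.trans h6)
  · -- a6
    intro c y
    refine key _ (le_trans (ok5_le _ (univ.filter (fun i => (w c i (h + 1) \ y.1).card = 1))
      (fun y' i => w c i (h + 1) = y'.1) ?_ ?_)
      (le_of_lt (hw.F4 c (h + 1) y.1 (by omega) (by omega) (by rw [y.2]; omega))))
    · intro x' hx'
      rw [mem_filter] at hx'
      obtain ⟨i, hi⟩ := (hO.OY c x').1 hx'.2.1
      refine ⟨i, ?_, hi⟩
      rw [mem_filter]
      exact ⟨mem_univ _, by rw [hi]; exact hx'.2.2⟩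
    · intro x1 x2 i h5 h6
      exact Subtype.ext (h5.symm.trans h6)
  · -- a7
    intro y
    refine key _ (le_trans ?_ (le_of_lt (hw.F1 h y.1 h1 (by omega) (by rw [y.2]; omega))))
    have h3 := ok5_sum (univ.filter (fun x : Lv n (k0 t + 1 + h) => x.1 ⊆ y.1)) O.OX
    have h4 : ∑ x ∈ univ.filter (fun x : Lv n (k0 t + 1 + h) => x.1 ⊆ y.1), uX O x =
      (((univ.filter (fun x : Lv n (k0 t + 1 + h) => x.1 ⊆ y.1)) ×ˢ (univ : Finset (Fin K))).filter
        (fun p => p.1 ∈ O.OX p.2)).card := h3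
    rw [h4]
    refine ok5_le _ _ (fun p i => p.2 = i.1 ∧ w i.1 i.2 h = p.1.1) ?_ ?_
    · rintro ⟨x, c⟩ hp
      rw [mem_filter, mem_product, mem_filter] at hp
      obtain ⟨i, hi⟩ := (hO.OX c x).1 hp.2
      refine ⟨(c, i), ?_, rfl, hi⟩
      rw [mem_filter]
      refine ⟨mem_univ _, ?_⟩
      show w c i h ⊆ y.1
      rw [hi]
      exact hp.1.1.2
    · rintro ⟨x, c⟩ ⟨x', c'⟩ i ⟨h5, h6⟩ ⟨h7, h8⟩
      have h9 : x = x' := Subtype.ext (h6.symm.trans h8)
      have h10 : c = c' := h5.trans h7.symm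
      rw [h9, h10]
  · -- a8
    intro x
    refine key _ (le_trans ?_ (le_of_lt (hw.F2 (h + 1) x.1 (by omega) (by omega) (by rw [x.2]; omega))))
    have h3 := ok5_sum (univ.filter (fun y : Lv n (k0 t + 1 + h + 1) => x.1 ⊆ y.1)) O.OY
    have h4 : ∑ y ∈ univ.filter (fun y : Lv n (k0 t + 1 + h + 1) => x.1 ⊆ y.1), uY O y =
      (((univ.filter (fun y : Lv n (k0 t + 1 + h + 1) => x.1 ⊆ y.1)) ×ˢ (univ : Finset (Fin K))).filter
        (fun p => p.1 ∈ O.OY p.2)).card := h3
    rw [h4]
    refine ok5_le _ _ (fun p i => p.2 = i.1 ∧ w i.1 i.2 (h + 1) = p.1.1) ?_ ?_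
    · rintro ⟨y, c⟩ hp
      rw [mem_filter, mem_product, mem_filter] at hp
      obtain ⟨i, hi⟩ := (hO.OY c y).1 hp.2
      refine ⟨(c, i), ?_, rfl, hi⟩
      rw [mem_filter]
      refine ⟨mem_univ _, ?_⟩
      show x.1 ⊆ w c i (h + 1)
      rw [hi]
      exact hp.1.1.2
    · rintro ⟨x, c⟩ ⟨x', c'⟩ i ⟨h5, h6⟩ ⟨h7, h8⟩
      have h9 : x = x' := Subtype.ext (h6.symm.trans h8)
      have h10 : c = c' := h5.trans h7.symm
      rw [h9, h10]

end Pool.SCDO
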