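import Pool.Agent.Lib.SCDO.OK0
import Pool.Agent.Lib.SCDO.OK4
import Pool.Agent.Lib.SCDO.OK5
import Pool.Agent.Lib.SCDO.OK11

/-!
# Row OK12 (outer part of the symmetric chain decompositions)
Outer data at every height.
Recipe: fits_exists, outFm_of_fits, outLoc_zero / outLoc_pos (cases h = 0), out_ok with k = k0 t + 1 + h (2k+1 ≤ n by ob_NN).
-/

set_option linter.unusedSectionVars false
set_option linter.unusedVariables false

namespace Pool.SCDO

open Finset Pool.SCDH

variable {n t K : ℕ}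

theorem out_all {ε : ℝ} (hB : Big ε t) (hR : Rng t n) (w : Fin K → Lv n (k0 t) → ℕ → Finset (Fin n))
    (hw : Sp n t K w) (h : ℕ) (hh : 2 * h + 1 ≤ NN n t)
    (H : Host (Lv n (k0 t + 1 + h)) (Lv n (k0 t + 1 + h + 1)) n (n - (k0 t + 1 + h)) (k0 t + 1 + h + 1))
    (hH : H.G = GLv n (k0 t + 1 + h)) :
    ∃ O : Outer (Lv n (k0 t + 1 + h)) (Lv n (k0 t + 1 + h + 1)) (Fin K),
      Fits w h O ∧ OutOK H t (n.choose (k0 t)) O := by
  obtain ⟨O, hO⟩ := fits_exists hB hR w hw h hh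
  have hf := outFm_of_fits hB hR w hw h hh O hO
  have hl : OutLoc t O := by
    rcases Nat.eq_zero_or_pos h with h0 | h0
    · subst h0
      exact outLoc_zero hB hR w hw O hO
    · exact outLoc_pos hB hR w hw h h0 hh O hO
  have hk : t ^ 50 + 1 ≤ k0 t + 1 + h := Nat.le_add_right _ _
  have hk2 : 2 * (k0 t + 1 + h) + 1 ≤ n := by
    have := (ob_NN hB hR).1
    omega
  exact ⟨O, hO, out_ok hB hR hk hk2 H hH O hf hl⟩

end Pool.SCDO
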