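import Pool.Agent.Lib.SCDO.Defs
import Pool.Agent.Lib.SCDO.AS2
import Pool.Agent.Lib.SCDO.OK12
import Pool.Agent.Lib.SCDH.C5

/-!
# Row AS4 (outer part of the symmetric chain decompositions)
One inner step.
Recipe: k = k0+1+h; H from levelHost_exists (k ≥ t^50 ≥ 200, n ≥ 40000, 2k+1 ≤ n); O, O' from out_all for w false, w true (2h+1 ≤ N).  π c := ζ' c; y ∈ O.OY c iff y = w false c x (h+1) for some x iff (hi, and ζ' c injective; both sets have
card C(n,k0)) ζ' c y ∈ O'.OY c.  hL gives M, M'.  u c := M c; τ c a := the a' with M' c a' = ζ' c (M c a) (LvOut.im; unique by inj'); it is injective, hence an Equiv (Equiv.ofBijective, Finite.injective_iff_bijective).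
fam_step: (τ c a) ⊆ M' c (τ c a) = ζ' c (u c a); h1 = dis; h2: M' c (τ c a) = M' c' (τ c' a') and τ c a = τ c' a' contradict dis'.  Invariant: if y.1 = w false c x h then y ∈ OX c, M c y = mu c y = w false c x (h+1), ζ' c of it =
w true c x (h+1) = mu' c (w true c x h) = M' c (w true c x h).
-/

set_option linter.unusedSectionVars false
set_option linter.unusedVariables false

namespace Pool.SCDO

open Finset Pool.SCDH

variable {n t K : ℕ}

theorem inner_step {ε : ℝ} (hB : Big ε t) (hR : Rng t n) (h : ℕ) (hh : 2 * h + 2 ≤ NN n t)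
    (ζ0 : Fin K → Lv n (k0 t) ≃ Lv n (k0 t)) (w : Bool → Fin K → Lv n (k0 t) → ℕ → Finset (Fin n))
    (hO : OSys n t K ζ0 w) (hL : LevelThm t n K (k0 t + 1 + h))
    (C : Fin K → Set (List (Finset (Fin n)))) (ζ' : Fin K → Lv n (k0 t + 1 + h + 1) ≃ Lv n (k0 t + 1 + h + 1))
    (hC : Fam n (k0 t + 1 + h + 1) K C ζ')
    (hi : ∀ c x y, w false c x (h + 1) = y.1 → (ζ' c y).1 = w true c x (h + 1)) :
    ∃ (C' : Fin K → Set (List (Finset (Fin n)))) (ζ : Fin K → Lv n (k0 t + 1 + h) ≃ Lv n (k0 t + 1 + h)),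
      Fam n (k0 t + 1 + h) K C' ζ ∧ ∀ c x y, w false c x h = y.1 → (ζ c y).1 = w true c x h := by
  classical
  obtain ⟨hn1, hn2, hn3⟩ := ob_NN hB hR
  have ht := ob_t hB
  have ht1 : 1 ≤ t := le_trans (by norm_num) ht
  have hk0 : t ≤ k0 t := by
    unfold k0
    exact Nat.le_self_pow (by norm_num) t
  have hnt : t ≤ n := le_trans (Nat.le_self_pow (by norm_num) t) hR.1
  have hbig : 40000 ≤ t := le_trans (by norm_num) ht
  have hk200 : 200 ≤ k0 t + 1 + h := by omega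
  have hk2 : 2 * (k0 t + 1 + h) + 1 ≤ n := by omega
  have hk3 : 2 * (k0 t + 1 + h + 1) ≤ n := by omega
  have hn4 : 40000 ≤ n := by omega
  obtain ⟨H, hH⟩ := levelHost_exists n (k0 t + 1 + h) hk200 hk2 hn4
  obtain ⟨O, hF, hOK⟩ := out_all hB hR (w false) (hO.sp false) h (by omega) H hH
  obtain ⟨O', hF', hOK'⟩ := out_all hB hR (w true) (hO.sp true) h (by omega) H hH
  have hsub : ∀ c y, y ∈ O.OY c → ζ' c y ∈ O'.OY c := by
    intro c y hy
    obtain ⟨i, hi1⟩ := (hF.OY c y).1 hy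
    exact (hF'.OY c (ζ' c y)).2 ⟨i, (hi c i y hi1).symm⟩
  have hπ : ∀ c y, y ∈ O.OY c ↔ ζ' c y ∈ O'.OY c := by
    intro c y
    refine ⟨hsub c y, fun hy => ?_⟩
    have h1 : (O.OY c).image (ζ' c) ⊆ O'.OY c := by
      intro z hz
      obtain ⟨y', hy', rfl⟩ := mem_image.1 hz
      exact hsub c y' hy'
    have h2 : (O.OY c).image (ζ' c) = O'.OY c := by
      refine eq_of_subset_of_card_le h1 ?_
      rw [card_image_of_injective _ (ζ' c).injective, hOK.cY, hOK'.cY]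
    rw [← h2] at hy
    obtain ⟨y', hy', he⟩ := mem_image.1 hy
    rw [← (ζ' c).injective he]
    exact hy'
  obtain ⟨M, M', hM⟩ := hL (n.choose (k0 t)) H hH O O' hOK hOK' ζ' hπ
  have hex : ∀ c a, ∃ a', M' c a' = ζ' c (M c a) := fun c a => (hM.im c (M c a)).1 ⟨a, rfl⟩
  choose τ0 hτ0 using hex
  have hinj : ∀ c, Function.Injective (τ0 c) := by
    intro c a b hab
    have h1 := hτ0 c a
    have h2 := hτ0 c b
    rw [hab, h2] at h1
    exact hM.inj c ((ζ' c).injective h1.symm)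
  obtain ⟨τ, hτ⟩ : ∃ τ : Fin K → Lv n (k0 t + 1 + h) ≃ Lv n (k0 t + 1 + h), ∀ c a, τ c a = τ0 c a :=
    ⟨fun c => Equiv.ofBijective (τ0 c) (Finite.injective_iff_bijective.1 (hinj c)), fun c a => rfl⟩
  have hτ1 : ∀ c a, M' c (τ c a) = ζ' c (M c a) := fun c a => by rw [hτ]; exact hτ0 c a
  obtain ⟨C', hC'⟩ := fam_step hk3 hC M τ hM.inj hM.sub (fun c a => by
      rw [← hτ1]; exact hM.sub' c _) (fun c c' a hc => hM.dis c c' a hc) (fun c c' a a' hc he hτe => by
      rw [← hτ1, ← hτ1, ← hτe] at he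
      exact hM.dis' c c' _ hc he)
  refine ⟨C', τ, hC', fun c x y hy => ?_⟩
  have hcard := (hO.sp true).card c x h (by omega)
  obtain ⟨y', hy'⟩ : ∃ y' : Lv n (k0 t + 1 + h), y'.1 = w true c x h := ⟨⟨w true c x h, hcard⟩, rfl⟩
  have hm1 : M c y = O.mu c y := hM.mu c y ((hF.OX c y).2 ⟨x, hy⟩)
  have hm2 : (O.mu c y).1 = w false c x (h + 1) := hF.mu c x y hy
  have hm3 : (ζ' c (M c y)).1 = w true c x (h + 1) := hi c x (M c y) (by rw [hm1, hm2])
  have hm4 : M' c y' = O'.mu c y' := hM.mu' c y' ((hF'.OX c y').2 ⟨x, hy'.symm⟩)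
  have hm5 : (O'.mu c y').1 = w true c x (h + 1) := hF'.mu c x y' hy'.symm
  have hm6 : M' c (τ c y) = M' c y' := by
    rw [hτ1, hm4]
    exact Subtype.ext (by rw [hm3, hm5])
  rw [hM.inj' c hm6, hy']

end Pool.SCDO
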