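import Pool.Agent.Lib.SCDO.Defs
import Pool.Agent.Lib.SCDO.NU2

/-!
# Row AS5 (outer part of the symmetric chain decompositions)
The middle, n even.
Recipe: good_even (m = k0+1+h) for every colour, Good.linkEquiv; a chain has all members of card m (Good.mem_card: between m and n-m = m), so its first and last element are equal (ChainCond.eq_of_card): (ζ y)ᶜ = y.
No edges, so dis is trivial.  Invariant: NN n t = 2h, OSys.opp with h' = h.
-/

set_option linter.unusedSectionVars false
set_option linter.unusedVariables false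

namespace Pool.SCDO

open Finset Pool.SCDH Pool.MP_0ccee8_co.Lib

variable {n t K : ℕ}

theorem base_even (h : ℕ) (hn : n = 2 * (k0 t + 1 + h))
    (ζ0 : Fin K → Lv n (k0 t) ≃ Lv n (k0 t)) (w : Bool → Fin K → Lv n (k0 t) → ℕ → Finset (Fin n))
    (hO : OSys n t K ζ0 w) :
    ∃ (C : Fin K → Set (List (Finset (Fin n)))) (ζ : Fin K → Lv n (k0 t + 1 + h) ≃ Lv n (k0 t + 1 + h)),
      Fam n (k0 t + 1 + h) K C ζ ∧ ∀ c x y, w false c x h = y.1 → (ζ c y).1 = w true c x h := by
  obtain ⟨C, hC, hE⟩ := good_even (n := n) (m := k0 t + 1 + h) hn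
  obtain ⟨ζ, hζ⟩ := hC.linkEquiv (by omega)
  refine ⟨fun _ => C, fun _ => ζ, ⟨fun _ => hC, fun _ y => hζ y, fun c c' _ S T h => (hE S T h).elim⟩, ?_⟩
  intro c x y hy
  obtain ⟨ch, hch, h1, h2⟩ := hζ y
  have h3 : y.1 = ((ζ y).1)ᶜ := (hC.chain ch hch).eq_of_card (mem_of_head? h1) (mem_of_getLast? h2) (by
    rw [y.2, card_compl, Fintype.card_fin, (ζ y).2]
    omega)
  show (ζ y).1 = _
  have h4 := hO.opp c x h h (by unfold NN; omega)
  rw [h4, hy, h3, compl_compl]

end Pool.SCDO
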