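import Pool.Agent.Lib.SCDO.Defs
import Pool.Agent.Lib.SCDO.NU2
import Pool.Agent.Lib.SCDO.OK12
import Pool.Agent.Lib.SCDH.C5

/-!
# Row AS6 (outer part of the symmetric chain decompositions)
The middle, n odd.
Recipe: m = k0+1+h, NN n t = 2h+1.  H, O, O' as in AS4 (out_all at h).  π c: some permutation of Lv n (m+1) with y ∈ O.OY c ↔ π c y ∈ O'.OY c (both sets have the same card: cY; extend a bijection, e.g. Equiv.subtypeCongr / Equiv.extendSubtype).
hL gives M; M c is injective between sets of equal card (C(n,m) = C(n,m+1), Nat.choose_symm_half-like; Fintype.card_finset_len), so an Equiv f c; good_odd for every c; its chains are [a, f c a]: for the links use that the proof of good_odd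
gives the chains {[a, f a]} — restate: from Good and the edges: the chain through a contains the edge (a, f c a)?  Simplest: define C c := {[a.1, (f c a).1]} directly and reprove (copy the proof of good_odd), link ζ c a := (f c a)ᶜ
(card n-(m+1) = m), an Equiv.  dis: (f c a) ≠ (f c' a).  Invariant: a.1 = w false c x h: f c a = mu c a = w false c x (h+1) and (w false c x (h+1))ᶜ = w true c x h by OSys.opp ((h+1)+h = N).
-/

set_option linter.unusedSectionVars false
set_option linter.unusedVariables false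

namespace Pool.SCDO

open Finset Pool.SCDH Pool.MP_0ccee8_co.Lib

variable {n t K : ℕ}

private lemma edge_pair {n : ℕ} {a b S T : Finset (Fin n)} (h : [S, T] <:+: [a, b]) :
    S = a ∧ T = b := by
  rcases pair_infix_cons.1 h with ⟨h1, h2⟩ | h1
  · simp only [List.head?_cons, Option.some.injEq] at h2
    exact ⟨h1, h2.symm⟩
  · have := h1.length_le
    simp at this

private lemma good_pairs {n m : ℕ} (hn : n = 2 * m + 1) (M : Lv n m → Lv n (m + 1))
    (hs : ∀ x, x.1 ⊆ (M x).1) (hi : Function.Injective M) (hsur : Function.Surjective M) :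
    Good n m {l | ∃ a : Lv n m, l = [a.1, (M a).1]} := by
  refine ⟨?_, ?_, ?_⟩
  · rintro c ⟨a, rfl⟩
    refine ⟨a.1, (M a).1, rfl, rfl, ?_, a.2.ge⟩
    rw [a.2, (M a).2]
    omega
  · rintro c ⟨a, rfl⟩ S T hST
    obtain ⟨rfl, rfl⟩ := edge_pair hST
    exact ⟨hs a, by rw [a.2, (M a).2]⟩
  · intro S h1 h2
    rcases Nat.eq_or_lt_of_le h1 with h3 | h3
    · refine ⟨[S, (M ⟨S, h3.symm⟩).1], ⟨⟨⟨S, h3.symm⟩, rfl⟩, by simp⟩, ?_⟩
      rintro c ⟨⟨a, rfl⟩, hSc⟩
      have h4 : S = a.1 := by
        simp only [List.mem_cons, List.not_mem_nil, or_false] at hSc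
        rcases hSc with h | h
        · exact h
        · have h5 := (M a).2
          rw [← h] at h5
          omega
      subst h4
      rfl
    · have h4 : S.card = m + 1 := by omega
      obtain ⟨a, ha⟩ := hsur ⟨S, h4⟩
      have ha' : (M a).1 = S := by rw [ha]
      refine ⟨[a.1, (M a).1], ⟨⟨a, rfl⟩, by simp [ha']⟩, ?_⟩
      rintro c ⟨⟨b, rfl⟩, hSc⟩
      have h5 : S = (M b).1 := by
        simp only [List.mem_cons, List.not_mem_nil, or_false] at hSc
        rcases hSc with h | h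
        · have h5 := b.2
          rw [← h] at h5
          omega
        · exact h
      have h6 : b = a := hi (Subtype.ext (by rw [← h5, ha']))
      rw [h6]

private lemma exists_pi {α : Type} [Fintype α] [DecidableEq α] (A B : Finset α)
    (h : A.card = B.card) : ∃ π : α ≃ α, ∀ y, y ∈ A ↔ π y ∈ B := by
  have e : {x // x ∈ A} ≃ {x // x ∈ B} := Finset.equivOfCardEq h
  refine ⟨Equiv.extendSubtype e, fun y => ?_⟩
  constructor
  · intro hy
    exact Equiv.extendSubtype_mem e y hy
  · intro hy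
    by_contra hcon
    exact Equiv.extendSubtype_not_mem e y hcon hy

theorem base_odd {ε : ℝ} (hB : Big ε t) (hR : Rng t n) (h : ℕ) (hn : n = 2 * (k0 t + 1 + h) + 1)
    (ζ0 : Fin K → Lv n (k0 t) ≃ Lv n (k0 t)) (w : Bool → Fin K → Lv n (k0 t) → ℕ → Finset (Fin n))
    (hO : OSys n t K ζ0 w) (hL : LevelThm t n K (k0 t + 1 + h)) :
    ∃ (C : Fin K → Set (List (Finset (Fin n)))) (ζ : Fin K → Lv n (k0 t + 1 + h) ≃ Lv n (k0 t + 1 + h)),
      Fam n (k0 t + 1 + h) K C ζ ∧ ∀ c x y, w false c x h = y.1 → (ζ c y).1 = w true c x h := by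
  have ht := ob_t hB
  have ht1 : t ≤ t ^ 50 := Nat.le_self_pow (by norm_num) t
  have hbig : 40000 ≤ k0 t := by
    unfold k0
    have : 40000 ≤ 10 ^ 100 := by norm_num
    omega
  have hN : NN n t = 2 * h + 1 := by
    unfold NN
    omega
  obtain ⟨H, hH⟩ := levelHost_exists n (k0 t + 1 + h) (by omega) (by omega) (by omega)
  obtain ⟨O, hF, hOK⟩ := out_all hB hR (w false) (hO.sp false) h (by omega) H hH
  obtain ⟨O', hF', hOK'⟩ := out_all hB hR (w true) (hO.sp true) h (by omega) H hH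
  have hπ : ∀ c, ∃ π : Lv n (k0 t + 1 + h + 1) ≃ Lv n (k0 t + 1 + h + 1),
      ∀ y, y ∈ O.OY c ↔ π y ∈ O'.OY c := fun c =>
    exists_pi (O.OY c) (O'.OY c) (by rw [hOK.cY c, hOK'.cY c])
  choose π hπ' using hπ
  obtain ⟨M, M', hM⟩ := hL (n.choose (k0 t)) H hH O O' hOK hOK' π hπ'
  have hcard : Fintype.card (Lv n (k0 t + 1 + h)) = Fintype.card (Lv n (k0 t + 1 + h + 1)) := by
    rw [Fintype.card_finset_len, Fintype.card_finset_len, Fintype.card_fin]
    rw [← Nat.choose_symm (show k0 t + 1 + h ≤ n by omega)]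
    congr 1
    omega
  have hsur : ∀ c, Function.Surjective (M c) := fun c =>
    ((Fintype.bijective_iff_injective_and_card (M c)).mpr ⟨hM.inj c, hcard⟩).2
  have hcc : ∀ c (a : Lv n (k0 t + 1 + h)), (((M c a).1)ᶜ).card = k0 t + 1 + h := by
    intro c a
    rw [card_compl, Fintype.card_fin, (M c a).2]
    omega
  have hinj : ∀ c, Function.Injective
      (fun a : Lv n (k0 t + 1 + h) => (⟨((M c a).1)ᶜ, hcc c a⟩ : Lv n (k0 t + 1 + h))) := by
    intro c a b hab
    simp only [Subtype.mk.injEq, compl_inj_iff] at hab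
    exact hM.inj c (Subtype.ext hab)
  refine ⟨fun c => {l | ∃ a : Lv n (k0 t + 1 + h), l = [a.1, (M c a).1]},
    fun c => Equiv.ofBijective _ (Finite.injective_iff_bijective.1 (hinj c)), ⟨?_, ?_, ?_⟩, ?_⟩
  · intro c
    exact good_pairs hn (M c) (hM.sub c) (hM.inj c) (hsur c)
  · intro c y
    refine ⟨[y.1, (M c y).1], ⟨y, rfl⟩, rfl, ?_⟩
    simp
  · rintro c c' hne S T ⟨l, ⟨a, rfl⟩, h1⟩ ⟨l', ⟨b, rfl⟩, h2⟩
    obtain ⟨rfl, rfl⟩ := edge_pair h1
    obtain ⟨h3, h4⟩ := edge_pair h2
    have h5 : a = b := Subtype.ext h3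
    subst h5
    exact hM.dis c c' a hne (Subtype.ext h4)
  · intro c x y hxy
    have h1 : y ∈ O.OX c := (hF.OX c y).mpr ⟨x, hxy⟩
    have h2 := hM.mu c y h1
    have h3 := hF.mu c x y hxy
    have h4 := hO.opp c x (h + 1) h (by omega)
    show ((M c y).1)ᶜ = w true c x h
    rw [h2, h3, h4]

end Pool.SCDO
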