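import Mathlib

/-!
# Row HA1 (outer part of the symmetric chain decompositions)
Sequential Hall: injective choices for all colours, one colour after the other.
Recipe: if `C → X → Y` is empty then C and X are nonempty and Y is empty, but h1 and hcl (the class of c
contains c, so 1 ≤ D) give an element of Y.  Otherwise induct on a finset T of processed colours
(Finset.induction_on): statement ∃ f : C → X → Y with the three properties for all colours in T.  New colour c:
allowed x = {y | r c x y ∧ ∀ c' ∈ T, f c' x ≠ y}.  A removed y has y = f c' x, r c' x y and r c x y, so cl c' = cl c
by h3: at most D - 1 removed (c itself is in its class and not in T), so ≥ d + 1 allowed y at every x; every y is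
allowed for ≤ d of the x (h2).  Hall: Finset.all_card_le_biUnion_card_iff_exists_injective, double counting of
the allowed pairs (x,y), x ∈ A: |A|(d+1) ≤ d |N(A)|.  Update f at c (Function.update).
-/

set_option linter.unusedSectionVars false
set_option linter.unusedVariables false

namespace Pool.SCDO

open Finset

theorem hall_seq {X Y C S : Type} [Fintype X] [DecidableEq X] [Fintype Y] [DecidableEq Y]
    [Fintype C] [DecidableEq C] [DecidableEq S] (d D : ℕ) (cl : C → S)
    (hcl : ∀ s, (univ.filter (fun c => cl c = s)).card ≤ D)
    (r : C → X → Y → Prop) [∀ c x y, Decidable (r c x y)]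
    (h1 : ∀ c x, d + D ≤ (univ.filter (fun y => r c x y)).card)
    (h2 : ∀ c y, (univ.filter (fun x => r c x y)).card ≤ d)
    (h3 : ∀ c c' x y, r c x y → r c' x y → cl c = cl c') :
    ∃ f : C → X → Y, (∀ c, Function.Injective (f c)) ∧ (∀ c x, r c x (f c x)) ∧
      ∀ c c' x, c ≠ c' → f c x ≠ f c' x := by
  have hD : ∀ c : C, 1 ≤ D := by
    intro c
    have := hcl (cl c)
    have h0 : 0 < (univ.filter (fun c' => cl c' = cl c)).card :=
      Finset.card_pos.mpr ⟨c, by simp⟩
    omega
  by_cases hne : Nonempty (C → X → Y)
  · obtain ⟨f0⟩ := hne
    have key : ∀ T : Finset C, ∃ f : C → X → Y, (∀ c ∈ T, Function.Injective (f c)) ∧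
        (∀ c ∈ T, ∀ x, r c x (f c x)) ∧
        (∀ c ∈ T, ∀ c' ∈ T, ∀ x, c ≠ c' → f c x ≠ f c' x) := by
      intro T
      induction T using Finset.induction_on with
      | empty => exact ⟨f0, by simp, by simp, by simp⟩
      | insert c T hc ih =>
        obtain ⟨f, hf1, hf2, hf3⟩ := ih
        let A : X → Finset Y := fun x => univ.filter (fun y => r c x y ∧ ∀ c' ∈ T, f c' x ≠ y)
        have hA : ∀ x, d + 1 ≤ (A x).card := by
          intro x
          have hsub : (univ.filter (fun y => r c x y)) ⊆
              A x ∪ (((univ.filter (fun c' => cl c' = cl c)).erase c).image (fun c' => f c' x)) := by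
            intro y hy
            have hy' : r c x y := by simpa using hy
            by_cases hcase : ∀ c' ∈ T, f c' x ≠ y
            · apply Finset.mem_union_left
              simp only [A, Finset.mem_filter, Finset.mem_univ, true_and]
              exact ⟨hy', hcase⟩
            · apply Finset.mem_union_right
              push Not at hcase
              obtain ⟨c', hc', he⟩ := hcase
              rw [Finset.mem_image]
              refine ⟨c', ?_, he⟩
              rw [Finset.mem_erase]
              refine ⟨?_, ?_⟩
              · rintro rfl
                exact hc hc'
              · simp only [Finset.mem_filter, Finset.mem_univ, true_and]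
                have h4 := hf2 c' hc' x
                rw [he] at h4
                exact h3 c' c x y h4 hy'
          have hcard := Finset.card_le_card hsub
          have hun := Finset.card_union_le (A x)
            (((univ.filter (fun c' => cl c' = cl c)).erase c).image (fun c' => f c' x))
          have him := Finset.card_image_le (s := (univ.filter (fun c' => cl c' = cl c)).erase c)
            (f := fun c' => f c' x)
          have her : ((univ.filter (fun c' => cl c' = cl c)).erase c).card =
              (univ.filter (fun c' => cl c' = cl c)).card - 1 :=
            Finset.card_erase_of_mem (by simp)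
          have h5 := hcl (cl c)
          have h6 := h1 c x
          have h7 := hD c
          omega
        have hHall : ∃ g : X → Y, Function.Injective g ∧ ∀ x, g x ∈ A x := by
          rw [← Finset.all_card_le_biUnion_card_iff_exists_injective]
          intro s
          have hdc : ∑ x ∈ s, (A x).card =
              ∑ y ∈ s.biUnion A, (s.filter (fun x => y ∈ A x)).card := by
            have h8 := Finset.sum_card_bipartiteAbove_eq_sum_card_bipartiteBelow
              (s := s) (t := s.biUnion A) (fun x y => y ∈ A x)
            have h9 : ∀ x ∈ s, (Finset.bipartiteAbove (fun x y => y ∈ A x) (s.biUnion A) x) = A x := by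
              intro x hx
              ext y
              simp only [Finset.mem_bipartiteAbove, Finset.mem_biUnion]
              constructor
              · rintro ⟨_, h⟩; exact h
              · intro h; exact ⟨⟨x, hx, h⟩, h⟩
            calc ∑ x ∈ s, (A x).card
                = ∑ x ∈ s, (Finset.bipartiteAbove (fun x y => y ∈ A x) (s.biUnion A) x).card :=
                  Finset.sum_congr rfl (fun x hx => by rw [h9 x hx])
              _ = _ := h8
          have hlow : s.card * (d + 1) ≤ ∑ x ∈ s, (A x).card := by
            rw [← smul_eq_mul]
            exact Finset.card_nsmul_le_sum s _ _ (fun x _ => hA x)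
          have hupp : ∑ y ∈ s.biUnion A, (s.filter (fun x => y ∈ A x)).card ≤
              (s.biUnion A).card * d := by
            rw [← smul_eq_mul]
            apply Finset.sum_le_card_nsmul
            intro y _
            refine le_trans (Finset.card_le_card ?_) (h2 c y)
            intro x hx
            simp only [A, Finset.mem_filter, Finset.mem_univ, true_and] at hx ⊢
            exact hx.2.1
          have h10 : s.card * (d + 1) ≤ (s.biUnion A).card * (d + 1) := by
            calc s.card * (d + 1) ≤ (s.biUnion A).card * d := by
                  rw [hdc] at hlow; exact le_trans hlow hupp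
              _ ≤ (s.biUnion A).card * (d + 1) := Nat.mul_le_mul_left _ (Nat.le_succ d)
          exact Nat.le_of_mul_le_mul_right h10 (Nat.succ_pos d)
        obtain ⟨g, hg1, hg2⟩ := hHall
        have hg3 : ∀ x, r c x (g x) ∧ ∀ c' ∈ T, f c' x ≠ g x := by
          intro x
          have := hg2 x
          simpa [A] using this
        have hne' : ∀ c' ∈ T, c' ≠ c := by
          intro c' hc' he
          rw [he] at hc'
          exact hc hc'
        refine ⟨Function.update f c g, ?_, ?_, ?_⟩
        · intro c1 hc1
          rcases Finset.mem_insert.mp hc1 with rfl | hc1
          · rw [Function.update_self]; exact hg1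
          · rw [Function.update_of_ne (hne' c1 hc1)]; exact hf1 c1 hc1
        · intro c1 hc1 x
          rcases Finset.mem_insert.mp hc1 with rfl | hc1
          · rw [Function.update_self]; exact (hg3 x).1
          · rw [Function.update_of_ne (hne' c1 hc1)]; exact hf2 c1 hc1 x
        · intro c1 hc1 c2 hc2 x h12
          rcases Finset.mem_insert.mp hc1 with he1 | hd1
          · subst he1
            rcases Finset.mem_insert.mp hc2 with he2 | hd2
            · exact absurd he2.symm h12
            · rw [Function.update_self, Function.update_of_ne (hne' c2 hd2)]
              exact fun h => (hg3 x).2 c2 hd2 h.symm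
          · rcases Finset.mem_insert.mp hc2 with he2 | hd2
            · subst he2
              rw [Function.update_self, Function.update_of_ne (hne' c1 hd1)]
              exact (hg3 x).2 c1 hd1
            · rw [Function.update_of_ne (hne' c1 hd1), Function.update_of_ne (hne' c2 hd2)]
              exact hf3 c1 hd1 c2 hd2 x h12
    obtain ⟨f, hf1, hf2, hf3⟩ := key univ
    exact ⟨f, fun c => hf1 c (mem_univ c), fun c => hf2 c (mem_univ c),
      fun c c' x h => hf3 c (mem_univ c) c' (mem_univ c') x h⟩
  · have hemp : ∀ (c : C) (x : X), False := by
      intro c x
      have hY : ∀ y : Y, False := fun y => hne ⟨fun _ _ => y⟩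
      have h6 := h1 c x
      have h7 := hD c
      have h8 : (univ.filter (fun y => r c x y)).card = 0 := by
        rw [Finset.card_eq_zero, Finset.eq_empty_iff_forall_notMem]
        intro y _
        exact hY y
      omega
    exact ⟨fun c x => (hemp c x).elim, fun c x _ _ => (hemp c x).elim,
      fun c x => (hemp c x).elim, fun c _ x _ => (hemp c x).elim⟩

end Pool.SCDO
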