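import Pool.Agent.Lib.SCDO.Defs
import Pool.Agent.Lib.SCDO.HA1

/-!
# Row OS1 (outer part of the symmetric chain decompositions)
One explicit step below the junction level: low elements are added at the bottom, high elements at the top.
Recipe: Q = {a | 2 a < n} has ≥ n/2 elements, Qᶜ has n/2 (floor).  hall_seq with X = Lv n j, Y = Lv n (j+1), C = Fin K,
one class (S = Unit, D = K), d = j + 1, r c x y := x.1 ⊆ y.1 ∧ y.1 \ x.1 ⊆ Q \ (x.1 ∪ (ζ c x).1).  deg of x = |Q \ (x ∪ ζx)|
≥ |Q| - 2j ≥ j + 1 + K (y = insert a x); deg of y ≤ j + 1 (x = y.erase a).  This gives u.  The same with Qᶜ and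
(ζ c).symm x in the place of ζ c x gives v.  Last claim: u c x = x + a, a ∈ Q, a ∉ x ∪ ζx; v c (ζ c x) = ζx + b, b ∈ Qᶜ, b ∉ x ∪ ζx.
-/

set_option linter.unusedSectionVars false
set_option linter.unusedVariables false

namespace Pool.SCDO

open Finset Pool.SCDH

private theorem one {n j K : ℕ} (Q : Finset (Fin n)) (W : Fin K → Lv n j → Finset (Fin n))
    (hW : ∀ c x, (W c x).card ≤ 2 * j) (hWx : ∀ c x, x.1 ⊆ W c x) (hQ : 3 * j + 1 + K ≤ Q.card) :
    ∃ f : Fin K → Lv n j → Lv n (j + 1), (∀ c, Function.Injective (f c)) ∧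
      (∀ c x, x.1 ⊆ (f c x).1 ∧ (f c x).1 \ x.1 ⊆ Q \ W c x) ∧
      ∀ c c' x, c ≠ c' → f c x ≠ f c' x := by
  refine hall_seq (j + 1) K (fun _ : Fin K => ()) ?_
    (fun c (x : Lv n j) (y : Lv n (j + 1)) => x.1 ⊆ y.1 ∧ y.1 \ x.1 ⊆ Q \ W c x) ?_ ?_ ?_
  · intro s
    refine (Finset.card_le_univ _).trans ?_
    rw [Fintype.card_fin]
  · intro c x
    have h1 : j + 1 + K ≤ (Q \ W c x).card := by
      have := Finset.le_card_sdiff (W c x) Q
      have := hW c x
      omega
    refine h1.trans ?_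
    refine (Finset.card_le_card_of_injOn (fun a => insert a x.1) ?_ ?_).trans
      (Finset.card_image_le (s := univ.filter (fun y : Lv n (j + 1) =>
        x.1 ⊆ y.1 ∧ y.1 \ x.1 ⊆ Q \ W c x)) (f := fun y => y.1))
    · intro a ha
      rw [Finset.mem_coe, Finset.mem_sdiff] at ha
      have hax : a ∉ x.1 := fun h => ha.2 (hWx c x h)
      rw [Finset.mem_coe, Finset.mem_image]
      refine ⟨⟨insert a x.1, by rw [Finset.card_insert_of_notMem hax, x.2]⟩, ?_, rfl⟩
      rw [Finset.mem_filter]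
      refine ⟨Finset.mem_univ _, Finset.subset_insert _ _, ?_⟩
      intro b hb
      rw [Finset.mem_sdiff, Finset.mem_insert] at hb
      have hba : b = a := hb.1.resolve_right hb.2
      rw [hba, Finset.mem_sdiff]
      exact ha
    · intro a ha b hb hab
      rw [Finset.mem_coe, Finset.mem_sdiff] at ha hb
      have hax : a ∉ x.1 := fun h => ha.2 (hWx c x h)
      have h2 : a ∈ insert b x.1 := by
        rw [← show insert a x.1 = insert b x.1 from hab]
        exact Finset.mem_insert_self _ _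
      exact (Finset.mem_insert.1 h2).resolve_right hax
  · intro c y
    have h1 : (univ.filter (fun x : Lv n j => x.1 ⊆ y.1 ∧ y.1 \ x.1 ⊆ Q \ W c x)).card
        ≤ (y.1.image (fun a => y.1.erase a)).card := by
      refine Finset.card_le_card_of_injOn (fun x => x.1) ?_ ?_
      · intro x hx
        rw [Finset.mem_coe, Finset.mem_filter] at hx
        have hs := hx.2.1
        have h3 : (y.1 \ x.1).card = 1 := by
          rw [Finset.card_sdiff_of_subset hs, x.2, y.2]
          omega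
        obtain ⟨a, ha⟩ := Finset.card_eq_one.1 h3
        rw [Finset.mem_coe, Finset.mem_image]
        refine ⟨a, ?_, ?_⟩
        · have : a ∈ y.1 \ x.1 := by rw [ha]; exact Finset.mem_singleton_self _
          exact (Finset.mem_sdiff.1 this).1
        · show y.1.erase a = x.1
          rw [← Finset.sdiff_singleton_eq_erase, ← ha, Finset.sdiff_sdiff_eq_self hs]
      · intro x _ x' _ h
        exact Subtype.ext h
    refine h1.trans (Finset.card_image_le.trans ?_)
    rw [y.2]
  · intro c c' x y _ _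
    rfl

private theorem cardQ (n : ℕ) : n ≤ 2 * (univ.filter (fun a : Fin n => 2 * (a : ℕ) < n)).card ∧
    n ≤ 2 * (univ.filter (fun a : Fin n => 2 * (a : ℕ) < n))ᶜ.card + 1 := by
  have h0 : (univ.filter (fun a : Fin n => 2 * (a : ℕ) < n)).card = min n ((n + 1) / 2) := by
    rw [← Fin.card_filter_val_lt]
    congr 1
    ext a
    simp only [Finset.mem_filter, Finset.mem_univ, true_and]
    omega
  have h1 : (univ.filter (fun a : Fin n => 2 * (a : ℕ) < n)).card
      + (univ.filter (fun a : Fin n => 2 * (a : ℕ) < n))ᶜ.card = n := by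
    rw [Finset.card_add_card_compl, Fintype.card_fin]
  omega

theorem step_up {n j K : ℕ} (hj : 2 * K + 6 * j + 4 ≤ n)
    (ζ : Fin K → Lv n j ≃ Lv n j) (hζ : ∀ c x, Disjoint x.1 (ζ c x).1) :
    ∃ u v : Fin K → Lv n j → Lv n (j + 1),
      (∀ c, Function.Injective (u c)) ∧ (∀ c, Function.Injective (v c)) ∧
      (∀ c x, x.1 ⊆ (u c x).1) ∧ (∀ c x, x.1 ⊆ (v c x).1) ∧
      (∀ c c' x, c ≠ c' → u c x ≠ u c' x) ∧ (∀ c c' x, c ≠ c' → v c x ≠ v c' x) ∧
      ∀ c x, Disjoint (u c x).1 (v c (ζ c x)).1 := by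
  obtain ⟨hQ1, hQ2⟩ := cardQ n
  set Q := univ.filter (fun a : Fin n => 2 * (a : ℕ) < n) with hQ
  obtain ⟨u, hu1, hu2, hu3⟩ := one Q (fun c x => x.1 ∪ (ζ c x).1)
    (fun c x => (Finset.card_union_le _ _).trans (by rw [x.2, (ζ c x).2]; omega))
    (fun c x => Finset.subset_union_left) (by omega)
  obtain ⟨v, hv1, hv2, hv3⟩ := one Qᶜ (fun c x => x.1 ∪ ((ζ c).symm x).1)
    (fun c x => (Finset.card_union_le _ _).trans (by rw [x.2, ((ζ c).symm x).2]; omega))
    (fun c x => Finset.subset_union_left) (by omega)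
  refine ⟨u, v, hu1, hv1, fun c x => (hu2 c x).1, fun c x => (hv2 c x).1, hu3, hv3, fun c x => ?_⟩
  rw [Finset.disjoint_left]
  intro a hau hav
  have h1 := (hu2 c x).2
  have h2 := (hv2 c (ζ c x)).2
  rw [Equiv.symm_apply_apply] at h2
  have hd := Finset.disjoint_left.1 (hζ c x)
  by_cases hax : a ∈ x.1
  · by_cases haz : a ∈ (ζ c x).1
    · exact hd hax haz
    · have h3 := h2 (Finset.mem_sdiff.2 ⟨hav, haz⟩)
      rw [Finset.mem_sdiff, Finset.mem_union] at h3
      exact h3.2 (Or.inr hax)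
  · have h3 := h1 (Finset.mem_sdiff.2 ⟨hau, hax⟩)
    rw [Finset.mem_sdiff, Finset.mem_union] at h3
    by_cases haz : a ∈ (ζ c x).1
    · exact h3.2 (Or.inr haz)
    · have h4 := h2 (Finset.mem_sdiff.2 ⟨hav, haz⟩)
      rw [Finset.mem_sdiff, Finset.mem_compl] at h4
      exact h4.1 h3.1

end Pool.SCDO
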