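import Mathlib

/-!
# Row HA2 (outer part of the symmetric chain decompositions)
A perfect matching when all degrees are at least half.
Recipe: Hall (Finset.all_card_le_biUnion_card_iff_exists_injective on the subtype A, or Finset.exists_... ).  For S ⊆ A nonempty:
if 2|S| ≤ |A| then |N(S)| ≥ |B|/2 ≥ |S| by h1; if 2|S| > |A| then every y ∈ B has a neighbour in S by h2
(|S| + deg y > |A|), so N(S) = B.  An injection between finite sets of equal card is bijective.
-/

set_option linter.unusedSectionVars false
set_option linter.unusedVariables false

namespace Pool.SCDO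

open Finset

theorem hall_half {X Y : Type} [DecidableEq X] [DecidableEq Y] (A : Finset X) (B : Finset Y)
    (hAB : A.card = B.card) (r : X → Y → Prop) [∀ x y, Decidable (r x y)]
    (h1 : ∀ x ∈ A, B.card ≤ 2 * (B.filter (fun y => r x y)).card)
    (h2 : ∀ y ∈ B, A.card ≤ 2 * (A.filter (fun x => r x y)).card) :
    ∃ f : A ≃ B, ∀ x : A, r x.1 (f x).1 := by
  classical
  have hall : ∀ s : Finset A, s.card ≤ (s.biUnion fun x : A => B.filter fun y => r x.1 y).card := by
    intro s
    rcases s.eq_empty_or_nonempty with rfl | ⟨x, hx⟩
    · simp
    have hsA : (s.image Subtype.val).card = s.card := card_image_of_injective _ Subtype.val_injective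
    have hsub : s.image Subtype.val ⊆ A := by
      intro z hz
      obtain ⟨w, _, rfl⟩ := mem_image.1 hz
      exact w.2
    have hle : s.card ≤ A.card := by rw [← hsA]; exact card_le_card hsub
    by_cases hc : 2 * s.card ≤ A.card
    · have h3 : (B.filter fun y => r x.1 y) ⊆ s.biUnion fun x : A => B.filter fun y => r x.1 y :=
        subset_biUnion_of_mem (fun x : A => B.filter fun y => r x.1 y) hx
      have h4 := card_le_card h3
      have h5 := h1 x.1 x.2
      omega
    · have h3 : B ⊆ s.biUnion fun x : A => B.filter fun y => r x.1 y := by
        intro y hy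
        have h4 := h2 y hy
        have h5 : ((s.image Subtype.val) ∩ (A.filter fun x => r x y)).Nonempty := by
          by_contra hne
          rw [not_nonempty_iff_eq_empty] at hne
          have h6 := card_union_add_card_inter (s.image Subtype.val) (A.filter fun x => r x y)
          rw [hne, card_empty] at h6
          have h7 : (s.image Subtype.val ∪ A.filter fun x => r x y).card ≤ A.card :=
            card_le_card (union_subset hsub (filter_subset _ _))
          omega
        obtain ⟨z, hz⟩ := h5
        rw [mem_inter, mem_image, mem_filter] at hz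
        obtain ⟨⟨w, hw, hwz⟩, _, hr⟩ := hz
        rw [mem_biUnion]
        refine ⟨w, hw, mem_filter.2 ⟨hy, ?_⟩⟩
        rw [hwz]
        exact hr
      have h4 := card_le_card h3
      omega
  obtain ⟨f, hf, hfr⟩ := (all_card_le_biUnion_card_iff_exists_injective
    (fun x : A => B.filter fun y => r x.1 y)).1 hall
  have hfB : ∀ x : A, f x ∈ B := fun x => (mem_filter.1 (hfr x)).1
  let g : A → B := fun x => ⟨f x, hfB x⟩
  have hg : Function.Injective g := by
    intro a b hab
    exact hf (congrArg Subtype.val hab)
  have hbij : Function.Bijective g := by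
    rw [Fintype.bijective_iff_injective_and_card]
    refine ⟨hg, ?_⟩
    rw [Fintype.card_coe, Fintype.card_coe, hAB]
  exact ⟨Equiv.ofBijective g hbij, fun x => (mem_filter.1 (hfr x)).2⟩

end Pool.SCDO
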