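import Pool.Agent.Lib.SCDO.Defs
import Pool.Agent.Lib.SCDO.HA2

/-!
# Row OS2 (outer part of the symmetric chain decompositions)
Linking the new-born chains.
-/

set_option linter.unusedSectionVars false
set_option linter.unusedVariables false

namespace Pool.SCDO

open Finset Pool.SCDH

private theorem os2_card_lv (n k : ℕ) : Fintype.card (Lv n k) = n.choose k := by
  rw [Fintype.card_subtype]
  have : (univ.filter (fun s : Finset (Fin n) => s.card = k)) = (univ : Finset (Fin n)).powersetCard k := by
    ext s; simp [Finset.mem_powersetCard]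
  rw [this, Finset.card_powersetCard]; simp

private theorem os2_meet {n j : ℕ} (y : Lv n (j + 1)) :
    ((univ : Finset (Lv n (j + 1))).filter (fun w => ¬ Disjoint y.1 w.1)).card
      ≤ (j + 1) * (n - 1).choose j := by
  classical
  have hsub : ((univ : Finset (Lv n (j + 1))).filter (fun w => ¬ Disjoint y.1 w.1))
      ⊆ y.1.biUnion (fun a => (univ : Finset (Lv n (j + 1))).filter (fun w => a ∈ w.1)) := by
    intro w hw
    rw [mem_filter, Finset.not_disjoint_iff] at hw
    obtain ⟨a, ha, hb⟩ := hw.2
    exact mem_biUnion.2 ⟨a, ha, by simp [hb]⟩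
  refine (card_le_card hsub).trans ?_
  refine (card_biUnion_le_card_mul _ _ ((n - 1).choose j) ?_).trans ?_
  · intro a ha
    have hinj : ((univ : Finset (Lv n (j + 1))).filter (fun w => a ∈ w.1)).card
        ≤ (((univ : Finset (Fin n)).erase a).powersetCard j).card := by
      refine card_le_card_of_injOn (fun w => w.1.erase a) ?_ ?_
      · intro w hw
        have hw : a ∈ w.1 := by simpa using hw
        rw [Finset.mem_coe, Finset.mem_powersetCard]
        refine ⟨Finset.erase_subset_erase _ (subset_univ _), ?_⟩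
        rw [card_erase_of_mem hw, w.2]; rfl
      · intro w hw w' hw' h
        have hw : a ∈ w.1 := by simpa using hw
        have hw' : a ∈ w'.1 := by simpa using hw'
        have h' : w.1.erase a = w'.1.erase a := h
        apply Subtype.ext
        rw [← insert_erase hw, ← insert_erase hw', h']
    rw [card_powersetCard, card_erase_of_mem (mem_univ a), card_univ, Fintype.card_fin] at hinj
    exact hinj
  · rw [y.2]

private theorem os2_num {n j : ℕ} (hj : 8 * (j + 1) ^ 2 ≤ n) :
    8 * ((j + 1) * (n - 1).choose j) ≤ n.choose (j + 1) ∧ 7 * n.choose j ≤ n.choose (j + 1) := by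
  have hn : 1 ≤ n := by
    have : 0 < 8 * (j + 1) ^ 2 := by positivity
    omega
  obtain ⟨m, rfl⟩ : ∃ m, n = m + 1 := ⟨n - 1, by omega⟩
  constructor
  · have h1 : (m + 1) * m.choose j = (m + 1).choose (j + 1) * (j + 1) :=
      Nat.add_one_mul_choose_eq m j
    have h2 : (m + 1) * (8 * ((j + 1) * m.choose j)) ≤ (m + 1) * (m + 1).choose (j + 1) := by
      calc (m + 1) * (8 * ((j + 1) * m.choose j))
          = 8 * (j + 1) * ((m + 1) * m.choose j) := by ring
        _ = 8 * (j + 1) ^ 2 * (m + 1).choose (j + 1) := by rw [h1]; ring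
        _ ≤ (m + 1) * (m + 1).choose (j + 1) := Nat.mul_le_mul_right _ hj
    have := Nat.le_of_mul_le_mul_left h2 (Nat.succ_pos m)
    simpa using this
  · have h1 := Nat.choose_succ_right_eq (m + 1) j
    have h3 : 7 * (j + 1) ≤ (m + 1) - j := by
      have : 8 * (j + 1) ≤ 8 * (j + 1) ^ 2 := by nlinarith
      omega
    have h2 : (j + 1) * (7 * (m + 1).choose j) ≤ (j + 1) * (m + 1).choose (j + 1) := by
      calc (j + 1) * (7 * (m + 1).choose j) = (m + 1).choose j * (7 * (j + 1)) := by ring
        _ ≤ (m + 1).choose j * ((m + 1) - j) := Nat.mul_le_mul_left _ h3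
        _ = (j + 1) * (m + 1).choose (j + 1) := by rw [← h1]; ring
    exact Nat.le_of_mul_le_mul_left h2 (Nat.succ_pos j)

theorem pair_new {n j : ℕ} (hj : 8 * (j + 1) ^ 2 ≤ n) (ζ : Lv n j ≃ Lv n j)
    (u v : Lv n j → Lv n (j + 1)) (hu : Function.Injective u) (hv : Function.Injective v)
    (huv : ∀ x, Disjoint (u x).1 (v (ζ x)).1) :
    ∃ ζ' : Lv n (j + 1) ≃ Lv n (j + 1), (∀ x, ζ' (u x) = v (ζ x)) ∧ ∀ y, Disjoint y.1 (ζ' y).1 := by
  classical
  obtain ⟨hn1, hn2⟩ := os2_num hj
  set A : Finset (Lv n (j + 1)) := (univ.image u)ᶜ with hA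
  set B : Finset (Lv n (j + 1)) := (univ.image v)ᶜ with hB
  have hcA : A.card = n.choose (j + 1) - n.choose j := by
    rw [hA, card_compl, card_image_of_injective _ hu, card_univ, os2_card_lv, os2_card_lv]
  have hcB : B.card = n.choose (j + 1) - n.choose j := by
    rw [hB, card_compl, card_image_of_injective _ hv, card_univ, os2_card_lv, os2_card_lv]
  have key : ∀ (C : Finset (Lv n (j + 1))) (y : Lv n (j + 1)),
      C.card = n.choose (j + 1) - n.choose j →
      C.card ≤ 2 * (C.filter (fun w => Disjoint y.1 w.1)).card := by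
    intro C y hC
    have h1 := card_filter_add_card_filter_not (s := C) (fun w : Lv n (j + 1) => Disjoint y.1 w.1)
    have h2 : (C.filter (fun w => ¬ Disjoint y.1 w.1)).card ≤ (j + 1) * (n - 1).choose j :=
      (card_le_card (filter_subset_filter _ (subset_univ C))).trans (os2_meet y)
    omega
  obtain ⟨f, hf⟩ := hall_half A B (hcA.trans hcB.symm) (fun y w => Disjoint y.1 w.1)
    (fun y hy => key B y hcB)
    (fun w hw => by
      have := key A w hcA
      simpa only [disjoint_comm] using this)
  -- the pieces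
  let p : Lv n (j + 1) → Prop := fun y => y ∈ Set.range u
  let q : Lv n (j + 1) → Prop := fun y => y ∈ Set.range v
  let e1 : {y // p y} ≃ {y // q y} :=
    (Equiv.ofInjective u hu).symm.trans (ζ.trans (Equiv.ofInjective v hv))
  have hpA : ∀ y, ¬ p y ↔ y ∈ A := by
    intro y; simp [p, hA]
  have hqB : ∀ y, ¬ q y ↔ y ∈ B := by
    intro y; simp [q, hB]
  let e2 : {y // ¬ p y} ≃ {y // ¬ q y} :=
    (Equiv.subtypeEquivRight hpA).trans (f.trans (Equiv.subtypeEquivRight hqB).symm)
  refine ⟨(Equiv.sumCompl p).symm.trans ((Equiv.sumCongr e1 e2).trans (Equiv.sumCompl q)), ?_, ?_⟩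
  · intro x
    have hx : p (u x) := ⟨x, rfl⟩
    simp only [Equiv.trans_apply]
    rw [Equiv.sumCompl_symm_apply_of_pos hx]
    simp only [Equiv.sumCongr_apply, Sum.map_inl, Equiv.sumCompl_apply_inl]
    have : (Equiv.ofInjective u hu).symm ⟨u x, hx⟩ = x := by
      exact Equiv.ofInjective_symm_apply hu x
    simp only [e1, Equiv.trans_apply, this]
    rfl
  · intro y
    by_cases hy : p y
    · obtain ⟨x, rfl⟩ := hy
      have hx : p (u x) := ⟨x, rfl⟩
      simp only [Equiv.trans_apply]
      rw [Equiv.sumCompl_symm_apply_of_pos hx]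
      simp only [Equiv.sumCongr_apply, Sum.map_inl, Equiv.sumCompl_apply_inl]
      have : (Equiv.ofInjective u hu).symm ⟨u x, hx⟩ = x := by
        exact Equiv.ofInjective_symm_apply hu x
      simp only [e1, Equiv.trans_apply, this]
      exact huv x
    · simp only [Equiv.trans_apply]
      rw [Equiv.sumCompl_symm_apply_of_neg hy]
      simp only [Equiv.sumCongr_apply, Sum.map_inr, Equiv.sumCompl_apply_inr]
      exact hf ⟨y, (hpA y).1 hy⟩

end Pool.SCDO
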