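import Pool.Agent.Lib.SCDO.Defs
import Pool.Agent.Lib.SCDO.OS1
import Pool.Agent.Lib.SCDO.OS2
import Pool.Agent.Lib.SCDO.AS2

/-!
# Row OS3 (outer part of the symmetric chain decompositions)
The zone below the junction level: explicit links ζ at level k such that every family on the levels k..n-k
with these links extends to the levels 0..n.
Recipe: induction on k.  k = 0: ζ = Equiv.refl (the only element of Lv n 0 is ∅), C' = C.  Step: ζ from the induction
hypothesis at k, (u, v) from step_up (6 * k + 4 ≤ ...), for every c choose ζ' c from pair_new.  Given C with Fam n (k+1) K C ζ',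
apply fam_step with u and τ = ζ: (ζ c x) ⊆ v c (ζ c x) = ζ' c (u c x); h2: ζ' c (u c a) = v c (ζ c a), so equality with equal
ζ-values contradicts the last-but-one property of v.  Then the induction hypothesis.
-/

set_option linter.unusedSectionVars false
set_option linter.unusedVariables false

namespace Pool.SCDO

open Finset Pool.SCDH

theorem oz_exists {n k K : ℕ} (h1 : 2 * K + 6 * k + 4 ≤ n) (h2 : 8 * (k + 1) ^ 2 ≤ n) :
    ∃ ζ : Fin K → Lv n k ≃ Lv n k, (∀ c x, Disjoint x.1 (ζ c x).1) ∧
      ∀ C : Fin K → Set (List (Finset (Fin n))), Fam n k K C ζ →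
        ∃ (C' : Fin K → Set (List (Finset (Fin n)))) (ζ' : Fin K → Lv n 0 ≃ Lv n 0), Fam n 0 K C' ζ' := by
  induction k with
  | zero =>
    refine ⟨fun _ => Equiv.refl _, ?_, fun C hC => ⟨C, _, hC⟩⟩
    intro c x
    have hx : x.1 = ∅ := Finset.card_eq_zero.1 x.2
    rw [hx]
    exact Finset.disjoint_empty_left _
  | succ k ih =>
    have h3 : 8 * (k + 1) ^ 2 ≤ n := by nlinarith
    obtain ⟨ζ, hζ, hext⟩ := ih (by omega) h3
    obtain ⟨u, v, hu, hv, hus, hvs, hud, hvd, huv⟩ := step_up (j := k) (by omega) ζ hζ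
    have hp : ∀ c, ∃ ζ' : Lv n (k + 1) ≃ Lv n (k + 1), (∀ x, ζ' (u c x) = v c (ζ c x)) ∧
        ∀ y, Disjoint y.1 (ζ' y).1 := fun c => pair_new h3 (ζ c) (u c) (v c) (hu c) (hv c) (huv c)
    choose ζ' hζ'1 hζ'2 using hp
    refine ⟨ζ', hζ'2, ?_⟩
    intro C hC
    obtain ⟨C', hC'⟩ := fam_step (by nlinarith) hC u ζ hu hus
      (fun c a => by rw [hζ'1]; exact hvs c _) hud
      (fun c c' a a' hcc heq => by
        rw [hζ'1, hζ'1] at heq
        intro h4
        rw [h4] at heq
        exact hvd c c' _ hcc heq)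
    exact hext C' hC'

end Pool.SCDO
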