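import Pool.Agent.Lib.MP_5fcc10_co.LLL

/-!
# Row FS3 (outer part of the symmetric chain decompositions)
Local lemma with support sizes.
Recipe: lll with D = S * R + 1: the j with supp j not disjoint from supp i are in the union over v ∈ supp i of {j | v ∈ supp j}.
-/

set_option linter.unusedSectionVars false
set_option linter.unusedVariables false

namespace Pool.SCDO

open Finset Pool.Agent.SK

theorem lll_cnt {V κ ι : Type} [Fintype V] [DecidableEq V] [Fintype κ] [Nonempty κ] [Fintype ι]
    [DecidableEq ι] (A : ι → (V → κ) → Prop) (supp : ι → Finset V) (hdep : ∀ i, Dep (A i) (supp i))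
    (p : ℝ) (S R : ℕ) (hp : ∀ i, P (A i) ≤ p) (hS : ∀ i, (supp i).card ≤ S)
    (hR : ∀ v, (univ.filter (fun i => v ∈ supp i)).card ≤ R) (h : 4 * p * (S * R + 1) ≤ 1) :
    ∃ ψ : V → κ, ∀ i, ¬ A i ψ := by
  classical
  refine lll A supp hdep p (S * R + 1) (by omega) hp ?_ (by push_cast; exact h)
  intro i
  have h1 : (univ.filter fun j => ¬ Disjoint (supp i) (supp j)) ⊆
      (supp i).biUnion fun v => univ.filter fun j => v ∈ supp j := by
    intro j hj
    rw [mem_filter] at hj
    obtain ⟨v, hv, hv'⟩ := not_disjoint_iff.1 hj.2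
    exact mem_biUnion.2 ⟨v, hv, mem_filter.2 ⟨mem_univ _, hv'⟩⟩
  have h2 : ((supp i).biUnion fun v => univ.filter fun j => v ∈ supp j).card ≤ (supp i).card * R :=
    card_biUnion_le_card_mul _ _ _ fun v _ => hR v
  have h3 : (supp i).card * R ≤ S * R := Nat.mul_le_mul_right R (hS i)
  have h4 := card_le_card h1
  omega

end Pool.SCDO
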