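import Pool.Agent.Lib.MP_5fcc10_co.LLL

/-!
# Row FS2 (outer part of the symmetric chain decompositions)
Lower tail of a binomial variable.
Recipe: tail_bound with I = ∅... precisely: I = univ or B, blk v = {v}, T v φ = (if φ v = s then 1 else 0) - 1/(M+1) (if you take I = univ then mix I φ ψ = φ),
|T| ≤ 1, mean 0 (E_coord), second moment ≤ 1/(M+1), Vt = |B|/(M+1), deviation a with a * 1 ≤ 2 Vt.  If B = ∅ then a ≤ 0 and the event
0 < 0 - a is impossible for a = 0.
-/

set_option linter.unusedSectionVars false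
set_option linter.unusedVariables false

namespace Pool.SCDO

open Finset Pool.Agent.SK

theorem binom_lower {V : Type} [Fintype V] [DecidableEq V] {M : ℕ} (B : Finset V) (s : Fin (M + 1))
    (a : ℝ) (ha : 0 ≤ a) (ha1 : a * (M + 1) ≤ B.card) :
    P (fun φ : V → Fin (M + 1) => ((B.filter (fun v => φ v = s)).card : ℝ) < (B.card : ℝ) / (M + 1) - a)
      ≤ 2 * Real.exp (-(a ^ 2 * (M + 1) / (4 * B.card))) := by
  classical
  rcases B.eq_empty_or_nonempty with hB | hB
  · subst hB
    simp only [card_empty, Nat.cast_zero] at ha1 ⊢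
    have hM : (0:ℝ) < (M:ℝ) + 1 := by positivity
    have ha0 : a = 0 := by
      by_contra hne
      have : 0 < a := lt_of_le_of_ne ha (Ne.symm hne)
      nlinarith [mul_pos this hM]
    have h1 : P (fun φ : V → Fin (M + 1) =>
        (((∅ : Finset V).filter (fun v => φ v = s)).card : ℝ) < (0:ℝ) / (M + 1) - a) ≤ 0 := by
      have h2 : P (fun φ : V → Fin (M + 1) =>
        (((∅ : Finset V).filter (fun v => φ v = s)).card : ℝ) < (0:ℝ) / (M + 1) - a)
          ≤ P (fun _ : V → Fin (M + 1) => False) := by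
        refine P_mono (fun φ h => ?_)
        simp [ha0] at h
      have h3 : P (fun _ : V → Fin (M + 1) => False) = 0 := by
        unfold P
        simp only [if_false]
        exact E_const 0
      linarith
    have h4 : (0:ℝ) ≤ 2 * Real.exp (-(a ^ 2 * ((M:ℝ) + 1) / (4 * 0))) := by positivity
    exact h1.trans h4
  have hcB : (0:ℝ) < B.card := by exact_mod_cast Finset.card_pos.2 hB
  have hM : (0:ℝ) < (M:ℝ) + 1 := by positivity
  have hM1 : (1:ℝ) ≤ (M:ℝ) + 1 := by linarith [(Nat.cast_nonneg M : (0:ℝ) ≤ M)]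
  set q : ℝ := 1 / ((M:ℝ) + 1) with hq
  have hq0 : 0 < q := by positivity
  have hq1 : q ≤ 1 := by rw [hq, div_le_one hM]; exact hM1
  let T : V → (V → Fin (M + 1)) → ℝ := fun v φ => (if φ v = s then (1:ℝ) else 0) - q
  have hmix : ∀ (b : V) (φ ψ : V → Fin (M + 1)), T b (mix univ φ ψ) = T b φ := by
    intro b φ ψ
    simp only [T, mix_in (mem_univ b)]
  have hEi : ∀ b : V, E (fun φ : V → Fin (M + 1) => if φ b = s then (1:ℝ) else 0) = q := by
    intro b
    rw [E_coord b (fun c : Fin (M + 1) => if c = s then (1:ℝ) else 0)]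
    simp [hq]
  have hmean : ∀ b ∈ B, ∀ ψ, E (fun φ => T b (mix univ φ ψ)) = 0 := by
    intro b _ ψ
    rw [E_congr (fun φ => hmix b φ ψ)]
    change E (fun φ : V → Fin (M + 1) => (if φ b = s then (1:ℝ) else 0) - q) = 0
    rw [E_sub (fun φ : V → Fin (M + 1) => if φ b = s then (1:ℝ) else 0) (fun _ => q), E_const,
      hEi, sub_self]
  have hvar : ∀ b ∈ B, ∀ ψ, E (fun φ => (T b (mix univ φ ψ)) ^ 2) ≤ q := by
    intro b _ ψ
    rw [E_congr (fun φ => by rw [hmix b φ ψ])]
    have h1 : ∀ φ : V → Fin (M + 1), (T b φ) ^ 2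
        ≤ (1 - 2 * q) * (if φ b = s then (1:ℝ) else 0) + q ^ 2 := by
      intro φ
      simp only [T]
      split_ifs <;> nlinarith
    refine (E_mono h1).trans ?_
    rw [E_add (fun φ : V → Fin (M + 1) => (1 - 2 * q) * (if φ b = s then (1:ℝ) else 0)) (fun _ => q ^ 2),
      E_const, E_mul_left, hEi]
    nlinarith
  have htb := tail_bound (V := V) (κ := Fin (M + 1)) univ B (fun v => {v})
    (fun b _ c _ hbc => by simpa using hbc) T
    (fun b _ ψ φ φ' h => by
      simp only [hmix]
      simp only [T]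
      rw [h b (mem_singleton_self b)])
    1 (fun b _ ψ => by
      simp only [T]
      split_ifs <;> rw [abs_le] <;> constructor <;> linarith)
    hmean (fun _ _ => q) hvar (B.card * q) (by positivity) (fun ψ => by simp)
    a ha (by
      have : a ≤ B.card * q := by
        rw [hq, mul_one_div, le_div_iff₀ hM]; exact ha1
      nlinarith [mul_pos hcB hq0])
  refine le_trans (P_mono (fun φ h => ?_)) (htb.trans (le_of_eq ?_))
  · have hs : ∑ b ∈ B, T b φ = ((B.filter (fun v => φ v = s)).card : ℝ) - B.card * q := by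
      simp only [T, sum_sub_distrib, sum_const, nsmul_eq_mul, sum_boole]
    rw [hs]
    have h5 : ((B.filter (fun v => φ v = s)).card : ℝ) - B.card * q < -a := by
      have : (B.card : ℝ) / (M + 1) = B.card * q := by rw [hq, mul_one_div]
      linarith
    rw [lt_abs]
    right
    linarith
  · congr 2
    rw [hq]
    field_simp

end Pool.SCDO
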