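import Pool.Agent.Lib.SCDO.Defs
import Pool.Agent.Lib.SCDO.FS2
import Pool.Agent.Lib.SCDO.NU2

/-!
# Row FS4 (outer part of the symmetric chain decompositions)
Class degrees of a vertex of level k0.
Recipe: binom_lower with B' = B.image (u, ·) (same card) and a = (ε/4) |B|/(M+1).  |B|/(M+1) ≥ (1+ε/2) D0 and
(1 - ε/4)(1 + ε/2) D0 ≥ (1 + ε/8) D0 ≥ D0 + k0 + 1, because ε D0/8 = (ε t) t^50/8 ≥ k0 + 1.  The bound is
2 exp(-ε² |B| / (64 (M+1))) ≤ 2 exp(-ε² D0/64) and ε² D0 = (ε t)² t^49 ≥ 10^200 t^49.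
-/

set_option linter.unusedSectionVars false
set_option linter.unusedVariables false

namespace Pool.SCDO

open Finset Pool.SCDH Pool.Agent.SK

theorem ev1_prob {ε : ℝ} {t n M : ℕ} (hB : Big ε t) (u : Lv n (k0 t)) (B : Finset (Fin n))
    (hq : (1 + ε / 2) * D0 t * (M + 1) ≤ B.card) (s : Fin (M + 1)) :
    P (fun φ : Lv n (k0 t) × Fin n → Fin (M + 1) =>
      (B.filter (fun a => φ (u, a) = s)).card < D0 t + k0 t + 1) ≤ Real.exp (-(t : ℝ)) := by
  have ht : (10 : ℝ) ^ 100 ≤ t := by exact_mod_cast ob_t hB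
  have hb1 := hB.b1
  have he0 := hB.e0
  have he1 := hB.e1
  have hD : (D0 t : ℝ) = (t : ℝ) ^ 51 := by unfold D0; push_cast; rfl
  have hk : (k0 t : ℝ) = (t : ℝ) ^ 50 := by unfold k0; push_cast; rfl
  have hM : (0 : ℝ) < (M : ℝ) + 1 := by positivity
  have ht1 : (1 : ℝ) ≤ t := le_trans (by norm_num) ht
  have ht0 : (0 : ℝ) < t := by linarith
  have hbM : (1 + ε / 2) * (t : ℝ) ^ 51 ≤ (B.card : ℝ) / (M + 1) := by
    rw [le_div_iff₀ hM]
    rw [hD] at hq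
    exact hq
  have hεD : (10 : ℝ) ^ 100 * (t : ℝ) ^ 50 ≤ ε * (t : ℝ) ^ 51 := by
    have h1 : ε * (t : ℝ) ^ 51 = ε * t * (t : ℝ) ^ 50 := by ring
    rw [h1]
    exact mul_le_mul_of_nonneg_right hb1 (by positivity)
  have ht50 : (1 : ℝ) ≤ (t : ℝ) ^ 50 := one_le_pow₀ ht1
  -- the mean minus the deviation
  have hmean : (t : ℝ) ^ 51 + (t : ℝ) ^ 50 + 1 ≤ (1 - ε / 4) * ((B.card : ℝ) / (M + 1)) := by
    have h1 : (1 - ε / 4) * ((1 + ε / 2) * (t : ℝ) ^ 51) ≤ (1 - ε / 4) * ((B.card : ℝ) / (M + 1)) :=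
      mul_le_mul_of_nonneg_left hbM (by linarith)
    refine le_trans ?_ h1
    have h2 : (1 - ε / 4) * ((1 + ε / 2) * (t : ℝ) ^ 51) =
        (t : ℝ) ^ 51 + (1 / 4 - ε / 8) * (ε * (t : ℝ) ^ 51) := by ring
    have h3 : 1 / 8 * ((10 : ℝ) ^ 100 * (t : ℝ) ^ 50) ≤ (1 / 4 - ε / 8) * (ε * (t : ℝ) ^ 51) := by
      have h4 : 1 / 8 * (ε * (t : ℝ) ^ 51) ≤ (1 / 4 - ε / 8) * (ε * (t : ℝ) ^ 51) :=
        mul_le_mul_of_nonneg_right (by linarith) (by positivity)
      linarith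
    have h5 : (16 : ℝ) * (t : ℝ) ^ 50 ≤ (10 : ℝ) ^ 100 * (t : ℝ) ^ 50 :=
      mul_le_mul_of_nonneg_right (by norm_num) (by positivity)
    linarith
  have hb0 : (0 : ℝ) < (B.card : ℝ) / (M + 1) := by
    refine lt_of_lt_of_le ?_ hbM
    positivity
  set B' : Finset (Lv n (k0 t) × Fin n) := B.image (fun a => (u, a)) with hB'
  have hinj : Function.Injective (fun a : Fin n => (u, a)) := fun a a' h => (Prod.mk.inj h).2
  have hc : B'.card = B.card := Finset.card_image_of_injective _ hinj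
  have hcpos : (0 : ℝ) < B.card := by
    by_contra hcon
    have h1 : (B.card : ℝ) = 0 := le_antisymm (not_lt.1 hcon) (by positivity)
    rw [h1, zero_div] at hb0
    exact lt_irrefl _ hb0
  have h1 := binom_lower B' s (ε / 4 * ((B.card : ℝ) / (M + 1))) (by positivity) (by
    rw [hc, mul_assoc, div_mul_cancel₀ _ hM.ne']
    nlinarith)
  refine (P_mono ?_).trans (h1.trans ?_)
  · intro φ hφ
    have hf : B'.filter (fun v => φ v = s) = (B.filter (fun a => φ (u, a) = s)).image (fun a => (u, a)) := by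
      rw [hB', Finset.filter_image]
    rw [hf, Finset.card_image_of_injective _ hinj, hc]
    have h2 : ((B.filter (fun a => φ (u, a) = s)).card : ℝ) < (D0 t : ℝ) + k0 t + 1 := by
      exact_mod_cast hφ
    rw [hD, hk] at h2
    refine lt_of_lt_of_le h2 ?_
    linarith
  · rw [hc]
    have h2 : (ε / 4 * ((B.card : ℝ) / (M + 1))) ^ 2 * (M + 1) / (4 * B.card) =
        ε ^ 2 / 64 * ((B.card : ℝ) / (M + 1)) := by
      field_simp
      ring
    rw [h2]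
    have h3 : (t : ℝ) + 1 ≤ ε ^ 2 / 64 * ((B.card : ℝ) / (M + 1)) := by
      have h4 : ε ^ 2 / 64 * (t : ℝ) ^ 51 ≤ ε ^ 2 / 64 * ((B.card : ℝ) / (M + 1)) := by
        refine mul_le_mul_of_nonneg_left ?_ (by positivity)
        refine le_trans ?_ hbM
        nlinarith [pow_pos ht0 51]
      refine le_trans ?_ h4
      have h5 : ε ^ 2 / 64 * (t : ℝ) ^ 51 = (ε * t) ^ 2 * (t : ℝ) ^ 49 / 64 := by ring
      rw [h5]
      have h6 : ((10 : ℝ) ^ 100) ^ 2 ≤ (ε * t) ^ 2 := pow_le_pow_left₀ (by positivity) hb1 2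
      have h7 : (t : ℝ) ≤ (t : ℝ) ^ 49 := by
        have := pow_le_pow_right₀ ht1 (show 1 ≤ 49 by norm_num)
        simpa using this
      have h8 : ((10 : ℝ) ^ 100) ^ 2 * (t : ℝ) ≤ (ε * t) ^ 2 * (t : ℝ) ^ 49 :=
        mul_le_mul h6 h7 ht0.le (by positivity)
      have h9 : (128 : ℝ) * t ≤ ((10 : ℝ) ^ 100) ^ 2 * (t : ℝ) :=
        mul_le_mul_of_nonneg_right (by norm_num) ht0.le
      linarith
    have h4 : Real.exp (-(ε ^ 2 / 64 * ((B.card : ℝ) / (M + 1)))) ≤ Real.exp (-((t : ℝ) + 1)) :=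
      Real.exp_le_exp.2 (by linarith)
    have h5 : Real.exp (-((t : ℝ) + 1)) = Real.exp (-(t : ℝ)) * Real.exp (-1) := by
      rw [← Real.exp_add]; congr 1; ring
    have h6 : 2 * Real.exp (-1) ≤ 1 := by
      rw [Real.exp_neg]
      have := Real.add_one_le_exp (1 : ℝ)
      have h7 : (0 : ℝ) < Real.exp 1 := Real.exp_pos 1
      rw [mul_inv_le_iff₀ h7]
      linarith
    have h7 : 0 < Real.exp (-(t : ℝ)) := Real.exp_pos _
    rw [h5] at h4
    nlinarith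

end Pool.SCDO
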