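import Pool.Agent.Lib.MP_5fcc10_co.LLL

/-!
# Row FS1 (outer part of the symmetric chain decompositions)
Many of several independent events: P(at least m of them) ≤ (e μ / m)^m.
Recipe: union bound over the m-subsets of B (P_exists over B.powersetCard m): P ≤ ∑_{|T|=m} ∏_{b ∈ T} P(A b) (P of the event that all b ∈ T hold is the product:
E_prod with indicators), and m! ∑_{|T|=m} ∏ ≤ (∑_b P(A b))^m (induct on B, or Mathlib's Finset.prod_powersetCard / esymm), and m^m / m! ≤ e^m
(Real.pow_div_factorial_le_exp).  Alternatively exponential moments: E ∏_b (1 + (e^λ - 1) 1_{A b}) ≤ exp((e^λ - 1) μ) with e^λ = m/μ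
(if m ≤ μ the right side is ≥ 1, P_le_one; if μ = 0 every P(A b) = 0).
-/

set_option linter.unusedSectionVars false
set_option linter.unusedVariables false

namespace Pool.SCDO

open Finset Pool.Agent.SK

theorem many_hits {V κ β : Type} [Fintype V] [DecidableEq V] [Fintype κ] [Nonempty κ] [DecidableEq β]
    (B : Finset β) (blk : β → Finset V)
    (hdisj : ∀ b ∈ B, ∀ c ∈ B, b ≠ c → Disjoint (blk b) (blk c))
    (A : β → (V → κ) → Prop) (hA : ∀ b ∈ B, Dep (A b) (blk b)) (μ : ℝ) (hμ : ∑ b ∈ B, P (A b) ≤ μ)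
    (m : ℕ) (hm : 1 ≤ m) :
    P (fun φ => m ≤ {b | b ∈ B ∧ A b φ}.ncard) ≤ (Real.exp 1 * μ / m) ^ m := by
  classical
  have hμ0 : 0 ≤ μ := (sum_nonneg fun b _ => P_nonneg _).trans hμ
  have hm0 : (0:ℝ) < m := by exact_mod_cast hm
  have hcard : ∀ φ : V → κ, {b | b ∈ B ∧ A b φ}.ncard = (B.filter (fun b => A b φ)).card := by
    intro φ
    rw [← Set.ncard_coe_finset]
    congr 1
    ext b
    simp
  rcases hμ0.eq_or_lt with h0 | hpos
  · have hz : P (fun φ => ∃ b ∈ B, A b φ) ≤ 0 := (P_exists B A).trans (by rw [← h0] at hμ; exact hμ)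
    have h1 : P (fun φ => m ≤ {b | b ∈ B ∧ A b φ}.ncard) ≤ P (fun φ => ∃ b ∈ B, A b φ) := by
      refine P_mono (fun φ h => ?_)
      rw [hcard] at h
      have : (B.filter (fun b => A b φ)).Nonempty := by
        rw [← Finset.card_pos]; omega
      obtain ⟨b, hb⟩ := this
      rw [mem_filter] at hb
      exact ⟨b, hb.1, hb.2⟩
    have h2 : (0:ℝ) ≤ (Real.exp 1 * μ / m) ^ m := by positivity
    linarith
  by_cases hle : (m:ℝ) ≤ μ
  · refine (P_le_one _).trans (one_le_pow₀ ?_)
    rw [le_div_iff₀ hm0]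
    nlinarith [Real.add_one_le_exp (1:ℝ)]
  push Not at hle
  have hr : 1 < (m:ℝ) / μ := by rw [lt_div_iff₀ hpos]; linarith
  set r : ℝ := (m:ℝ) / μ with hrdef
  have hr0 : 0 < r := by linarith
  have key : P (fun φ => m ≤ {b | b ∈ B ∧ A b φ}.ncard)
      ≤ E (fun φ => (r ^ m)⁻¹ * ∏ b ∈ B, (1 + (r - 1) * (if A b φ then (1:ℝ) else 0))) := by
    refine E_mono (fun φ => ?_)
    have hprod : ∏ b ∈ B, (1 + (r - 1) * (if A b φ then (1:ℝ) else 0))
        = r ^ (B.filter (fun b => A b φ)).card := by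
      rw [← prod_const, prod_filter]
      refine prod_congr rfl (fun b _ => ?_)
      split_ifs <;> ring
    rw [hprod]
    simp only [hcard]
    split_ifs with h
    · rw [← div_eq_inv_mul, le_div_iff₀ (by positivity), one_mul]
      exact pow_le_pow_right₀ hr.le h
    · positivity
  refine key.trans ?_
  rw [E_mul_left, E_prod B blk hdisj (fun b φ => 1 + (r - 1) * (if A b φ then (1:ℝ) else 0))]
  · have h1 : ∏ b ∈ B, E (fun φ : V → κ => 1 + (r - 1) * (if A b φ then (1:ℝ) else 0))
        ≤ Real.exp ((r - 1) * μ) := by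
      calc ∏ b ∈ B, E (fun φ : V → κ => 1 + (r - 1) * (if A b φ then (1:ℝ) else 0))
          ≤ ∏ b ∈ B, Real.exp ((r - 1) * P (A b)) := by
            refine prod_le_prod (fun b _ => E_nonneg (fun φ => ?_)) (fun b hb => ?_)
            · split_ifs <;> linarith
            · rw [E_add (fun _ => (1:ℝ)), E_const, E_mul_left]
              have := Real.add_one_le_exp ((r - 1) * P (A b))
              have hP : P (A b) = E (fun φ => if A b φ then (1:ℝ) else 0) := rfl
              rw [← hP]
              linarith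
        _ = Real.exp ((r - 1) * ∑ b ∈ B, P (A b)) := by rw [mul_sum, Real.exp_sum]
        _ ≤ Real.exp ((r - 1) * μ) := by
            apply Real.exp_le_exp.2
            exact mul_le_mul_of_nonneg_left hμ (by linarith)
    have h2 : (r - 1) * μ = m - μ := by
      rw [hrdef]; field_simp
    have h3 : Real.exp ((r - 1) * μ) ≤ Real.exp 1 ^ m := by
      rw [h2, ← Real.exp_nat_mul, mul_one]
      apply Real.exp_le_exp.2
      linarith
    calc (r ^ m)⁻¹ * ∏ b ∈ B, E (fun φ : V → κ => 1 + (r - 1) * (if A b φ then (1:ℝ) else 0))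
        ≤ (r ^ m)⁻¹ * Real.exp 1 ^ m := by
          refine mul_le_mul_of_nonneg_left (h1.trans h3) (by positivity)
      _ = (Real.exp 1 * μ / m) ^ m := by
          rw [← inv_pow, ← mul_pow, hrdef]
          congr 1
          field_simp
  · intro b hb φ ψ h
    have := hA b hb φ ψ h
    simp only [this]

end Pool.SCDO
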