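import Pool.Agent.Lib.SCDO.Defs
import Pool.Agent.Lib.SCDO.FS1

/-!
# Row FS5 (outer part of the symmetric chain decompositions)
The random sets V_s.
Recipe: `Vs φ s v` depends only on the labels in blkV v (which has ≤ k0+1 elements: e.1 = v.erase e.2); blkV v, blkV v' are disjoint for v ≠ v'.
P(Vs φ s v) ≤ ∑_{e ∈ blkV v} P(φ e = s) = |blkV v|/(M+1) (E_coord).  Vs_many: many_hits with blk = blkV, μ = |W|(k0+1)/(M+1).
-/

set_option linter.unusedSectionVars false
set_option linter.unusedVariables false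

namespace Pool.SCDO

open Finset Pool.SCDH Pool.Agent.SK

private lemma fs5_mem {n t : ℕ} (v : Finset (Fin n)) (e : Lv n (k0 t) × Fin n) :
    e ∈ blkV (t := t) v ↔ e.2 ∉ e.1.1 ∧ insert e.2 e.1.1 = v := by
  classical
  unfold blkV
  rw [mem_filter]
  exact ⟨fun h => h.2, fun h => ⟨mem_univ _, h⟩⟩

theorem blkV_card {n t : ℕ} (v : Finset (Fin n)) (hv : v.card = k0 t + 1) :
    (blkV (t := t) v).card ≤ k0 t + 1 := by
  classical
  rw [← hv]
  refine card_le_card_of_injOn (fun e => e.2) ?_ ?_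
  · intro e he
    have h := (fs5_mem v e).1 he
    have : e.2 ∈ v := by
      rw [← h.2]
      exact mem_insert_self _ _
    exact this
  · intro e he e' he' hee
    have h := (fs5_mem v e).1 he
    have h' := (fs5_mem v e').1 he'
    have h2 : e.2 = e'.2 := hee
    have h1 : e.1.1 = e'.1.1 := by
      have : (insert e.2 e.1.1).erase e.2 = (insert e'.2 e'.1.1).erase e'.2 := by
        rw [h.2, h'.2, h2]
      rwa [erase_insert h.1, erase_insert h'.1] at this
    exact Prod.ext (Subtype.ext h1) h2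

theorem Vs_dep {n t M : ℕ} (s : Fin (M + 1)) (v : Finset (Fin n)) :
    Dep (fun φ : Lv n (k0 t) × Fin n → Fin (M + 1) => Vs φ s v) (blkV v) := by
  intro φ ψ h
  apply propext
  constructor
  · rintro ⟨u, a, ha, hv, hs⟩
    refine ⟨u, a, ha, hv, ?_⟩
    rw [← h (u, a) ((fs5_mem v (u, a)).2 ⟨ha, hv⟩)]
    exact hs
  · rintro ⟨u, a, ha, hv, hs⟩
    refine ⟨u, a, ha, hv, ?_⟩
    rw [h (u, a) ((fs5_mem v (u, a)).2 ⟨ha, hv⟩)]
    exact hs

private lemma fs5_one {n t M : ℕ} (s : Fin (M + 1)) (e : Lv n (k0 t) × Fin n) :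
    P (fun φ : Lv n (k0 t) × Fin n → Fin (M + 1) => φ e = s) = 1 / ((M : ℝ) + 1) := by
  classical
  have h := E_coord (V := Lv n (k0 t) × Fin n) (κ := Fin (M + 1)) e
    (fun a => if a = s then (1 : ℝ) else 0)
  have h2 : P (fun φ : Lv n (k0 t) × Fin n → Fin (M + 1) => φ e = s)
      = E (fun φ : Lv n (k0 t) × Fin n → Fin (M + 1) => if φ e = s then (1 : ℝ) else 0) := by
    unfold P
    refine E_congr (fun φ => ?_)
    by_cases hh : φ e = s
    · rw [if_pos hh, if_pos hh]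
    · rw [if_neg hh, if_neg hh]
  rw [h2, h, sum_ite_eq' univ s, if_pos (mem_univ _), Fintype.card_fin]
  push_cast
  rfl

theorem Vs_many {n t M : ℕ} (s : Fin (M + 1)) (W : Finset (Finset (Fin n)))
    (hW : ∀ v ∈ W, v.card = k0 t + 1) (m : ℕ) (hm : 1 ≤ m) :
    P (fun φ : Lv n (k0 t) × Fin n → Fin (M + 1) => m ≤ {v | v ∈ W ∧ Vs φ s v}.ncard)
      ≤ (Real.exp 1 * (W.card * (k0 t + 1) / (M + 1)) / m) ^ m := by
  classical
  have hM : (0 : ℝ) < (M : ℝ) + 1 := by positivity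
  have hP : ∀ v ∈ W, P (fun φ : Lv n (k0 t) × Fin n → Fin (M + 1) => Vs φ s v)
      ≤ ((k0 t : ℝ) + 1) / ((M : ℝ) + 1) := by
    intro v hv
    have h1 : P (fun φ : Lv n (k0 t) × Fin n → Fin (M + 1) => Vs φ s v)
        ≤ P (fun φ : Lv n (k0 t) × Fin n → Fin (M + 1) => ∃ e ∈ blkV (t := t) v, φ e = s) := by
      refine P_mono ?_
      rintro φ ⟨u, a, ha, hv, hs⟩
      exact ⟨(u, a), (fs5_mem v (u, a)).2 ⟨ha, hv⟩, hs⟩
    have h2 := P_exists (V := Lv n (k0 t) × Fin n) (κ := Fin (M + 1)) (blkV (t := t) v)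
      (fun e φ => φ e = s)
    have h3 : ∑ e ∈ blkV (t := t) v,
        P (fun φ : Lv n (k0 t) × Fin n → Fin (M + 1) => φ e = s)
        = ((blkV (t := t) v).card : ℝ) * (1 / ((M : ℝ) + 1)) := by
      rw [sum_congr rfl (fun e _ => fs5_one s e), sum_const, nsmul_eq_mul]
    have h4 : ((blkV (t := t) v).card : ℝ) ≤ (k0 t : ℝ) + 1 := by
      exact_mod_cast blkV_card v (hW v hv)
    refine (h1.trans (h2.trans h3.le)).trans ?_
    rw [mul_one_div]
    exact div_le_div_of_nonneg_right h4 hM.le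
  have hd : ∀ b ∈ W, ∀ c ∈ W, b ≠ c → Disjoint (blkV (t := t) b) (blkV (t := t) c) := by
    intro b _ c _ hbc
    rw [Finset.disjoint_left]
    intro e he he'
    exact hbc (((fs5_mem b e).1 he).2.symm.trans ((fs5_mem c e).1 he').2)
  refine many_hits (V := Lv n (k0 t) × Fin n) (κ := Fin (M + 1)) W (fun v => blkV (t := t) v) hd
    (fun v φ => Vs φ s v) (fun b _ => Vs_dep s b) _ ?_ m hm
  refine (sum_le_sum hP).trans ?_
  rw [sum_const, nsmul_eq_mul, mul_div_assoc]

end Pool.SCDO
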