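import Pool.Agent.Lib.SCDO.Defs
import Pool.Agent.Lib.SCDO.FS5
import Pool.Agent.Lib.SCDO.NU2

/-!
# Row FS6 (outer part of the symmetric chain decompositions)
Two local events for V_s.
Recipe: ev2: W = y.powersetCard (k0+1), |W| = k0+2; t < ncard implies t ≤ ncard; Vs_many with m = t: e (k0+2)(k0+1)/((M+1) t) ≤ e^(-1), because (M+1) ≥ t^148, k0 = t^50.
ev3: W = {v' | card k0+1, |v' \ v| = 1}, |W| ≤ (k0+1) n (v' = insert a (v.erase b)); n < t^28 * ncard implies m ≤ ncard with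
m = n / t^28 + 1 ≥ t^172; e (k0+1)² n /((M+1) m) ≤ e (k0+1)² t^28/t^148 ≤ e^(-1), and e^(-m) ≤ e^(-t).
-/

set_option linter.unusedSectionVars false
set_option linter.unusedVariables false

namespace Pool.SCDO

open Finset Pool.SCDH Pool.Agent.SK

/-- a power with small basis -/
private lemma fs6_pow {a : ℝ} (h0 : 0 ≤ a) (h1 : 9 * a ≤ 1) (m : ℕ) :
    (Real.exp 1 * a) ^ m ≤ Real.exp (-(m : ℝ)) := by
  have he : Real.exp 1 < 3 := lt_trans Real.exp_one_lt_d9 (by norm_num)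
  have he0 := Real.exp_pos 1
  have h2 : Real.exp 1 * a ≤ Real.exp (-1) := by
    rw [Real.exp_neg, ← one_div, le_div_iff₀ he0]
    calc Real.exp 1 * a * Real.exp 1 = (Real.exp 1 * Real.exp 1) * a := by ring
      _ ≤ (3 * 3) * a := by gcongr
      _ ≤ 1 := by linarith
  calc (Real.exp 1 * a) ^ m ≤ (Real.exp (-1)) ^ m := pow_le_pow_left₀ (by positivity) h2 m
    _ = Real.exp (-(m : ℝ)) := by
      rw [← Real.exp_nat_mul]; ring_nf

private lemma fs6_num {ε : ℝ} {t : ℕ} (hB : Big ε t) : (10 : ℝ) ^ 100 ≤ t ∧ (k0 t : ℝ) = (t : ℝ) ^ 50 ∧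
    (k0 t : ℝ) + 1 ≤ 2 * (t : ℝ) ^ 50 ∧ (k0 t : ℝ) + 2 ≤ 2 * (t : ℝ) ^ 50 := by
  have ht : (10 : ℝ) ^ 100 ≤ t := by
    have := ob_t hB
    exact_mod_cast this
  have ht1 : (2 : ℝ) ≤ t := le_trans (by norm_num) ht
  have hk : (k0 t : ℝ) = (t : ℝ) ^ 50 := by unfold k0; push_cast; rfl
  have h50 : (t : ℝ) ≤ (t : ℝ) ^ 50 := le_self_pow₀ (by linarith) (by norm_num)
  refine ⟨ht, hk, ?_, ?_⟩ <;> rw [hk] <;> linarith

theorem ev2_prob {ε : ℝ} {t n M : ℕ} (hB : Big ε t) (hM : t ^ 148 ≤ M + 1) (s : Fin (M + 1))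
    (y : Finset (Fin n)) (hy : y.card = k0 t + 2) :
    P (fun φ : Lv n (k0 t) × Fin n → Fin (M + 1) =>
      t < {v | v.card = k0 t + 1 ∧ v ⊆ y ∧ Vs φ s v}.ncard) ≤ Real.exp (-(t : ℝ)) := by
  obtain ⟨ht, hk, hk1, hk2⟩ := fs6_num hB
  have ht1 : 1 ≤ t := by
    have := ob_t hB
    omega
  have ht0 : (0 : ℝ) < t := by exact_mod_cast ht1
  have hMr : (t : ℝ) ^ 148 ≤ (M : ℝ) + 1 := by exact_mod_cast hM
  have hM0 : (0 : ℝ) < (M : ℝ) + 1 := by positivity
  have hW : (y.powersetCard (k0 t + 1)).card = k0 t + 2 := by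
    rw [card_powersetCard, hy, Nat.choose_succ_self_right (k0 t + 1)]
  have h1 := Vs_many (t := t) (M := M) s (y.powersetCard (k0 t + 1))
    (fun v hv => (mem_powersetCard.1 hv).2) t ht1
  refine le_trans (P_mono (fun φ hφ => ?_)) (h1.trans ?_)
  · have h2 : {v | v.card = k0 t + 1 ∧ v ⊆ y ∧ Vs φ s v}
        = {v | v ∈ y.powersetCard (k0 t + 1) ∧ Vs φ s v} := by
      ext v
      simp only [Set.mem_setOf_eq, mem_powersetCard]
      tauto
    rw [← h2]
    exact le_of_lt hφ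
  · rw [hW]
    have e1 : Real.exp 1 * (((k0 t + 2 : ℕ) : ℝ) * ((k0 t : ℝ) + 1) / ((M : ℝ) + 1)) / (t : ℝ)
        = Real.exp 1 * ((((k0 t : ℝ) + 2) * ((k0 t : ℝ) + 1)) / (((M : ℝ) + 1) * t)) := by
      push_cast
      field_simp
    rw [e1]
    refine fs6_pow (by positivity) ?_ t
    rw [← mul_div_assoc, div_le_one (by positivity)]
    calc 9 * (((k0 t : ℝ) + 2) * ((k0 t : ℝ) + 1)) ≤ 9 * ((2 * (t : ℝ) ^ 50) * (2 * (t : ℝ) ^ 50)) := by
          gcongr
      _ = 36 * (t : ℝ) ^ 100 := by ring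
      _ ≤ t * (t : ℝ) ^ 100 := by
          have : (36 : ℝ) ≤ t := le_trans (by norm_num) ht
          gcongr
      _ = (t : ℝ) ^ 101 := by ring
      _ ≤ (t : ℝ) ^ 149 := pow_le_pow_right₀ (by exact_mod_cast ht1) (by norm_num)
      _ = (t : ℝ) ^ 148 * t := by ring
      _ ≤ ((M : ℝ) + 1) * t := by gcongr

private lemma fs6_card {n : ℕ} (k : ℕ) (v : Finset (Fin n)) (hv : v.card = k) :
    (univ.filter (fun v' : Finset (Fin n) => v'.card = k ∧ (v' \ v).card = 1)).card ≤ k * n := by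
  classical
  have h1 : univ.filter (fun v' : Finset (Fin n) => v'.card = k ∧ (v' \ v).card = 1)
      ⊆ (v ×ˢ (univ : Finset (Fin n))).image (fun p => insert p.2 (v.erase p.1)) := by
    intro v' hv'
    obtain ⟨hc, hd⟩ := (mem_filter.1 hv').2
    obtain ⟨a, ha⟩ := card_eq_one.1 hd
    have h2 : (v \ v').card = 1 := by
      have e1 := card_sdiff_add_card_inter v' v
      have e2 := card_sdiff_add_card_inter v v'
      rw [inter_comm] at e2
      omega
    obtain ⟨b, hb⟩ := card_eq_one.1 h2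
    have hav : a ∈ v' ∧ a ∉ v := by
      have : a ∈ v' \ v := by rw [ha]; exact mem_singleton_self a
      exact mem_sdiff.1 this
    have hbv : b ∈ v ∧ b ∉ v' := by
      have : b ∈ v \ v' := by rw [hb]; exact mem_singleton_self b
      exact mem_sdiff.1 this
    refine mem_image.2 ⟨(b, a), mem_product.2 ⟨hbv.1, mem_univ _⟩, ?_⟩
    ext z
    simp only [mem_insert, mem_erase]
    constructor
    · rintro (rfl | ⟨hz1, hz2⟩)
      · exact hav.1
      · by_contra hz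
        have : z ∈ v \ v' := mem_sdiff.2 ⟨hz2, hz⟩
        rw [hb, mem_singleton] at this
        exact hz1 this
    · intro hz
      by_cases hzv : z ∈ v
      · right
        refine ⟨?_, hzv⟩
        rintro rfl
        exact hbv.2 hz
      · left
        have : z ∈ v' \ v := mem_sdiff.2 ⟨hz, hzv⟩
        rw [ha, mem_singleton] at this
        exact this
  refine (card_le_card h1).trans (card_image_le.trans ?_)
  rw [card_product, hv, card_univ, Fintype.card_fin]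

theorem ev3_prob {ε : ℝ} {t n M : ℕ} (hB : Big ε t) (hR : Rng t n) (hM : t ^ 148 ≤ M + 1)
    (s : Fin (M + 1)) (v : Finset (Fin n)) (hv : v.card = k0 t + 1) :
    P (fun φ : Lv n (k0 t) × Fin n → Fin (M + 1) =>
      n < t ^ 28 * {v' | v'.card = k0 t + 1 ∧ (v' \ v).card = 1 ∧ Vs φ s v'}.ncard)
      ≤ Real.exp (-(t : ℝ)) := by
  classical
  obtain ⟨ht, hk, hk1, hk2⟩ := fs6_num hB
  have ht1 : 1 ≤ t := by
    have := ob_t hB
    omega
  have ht0 : (0 : ℝ) < t := by exact_mod_cast ht1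
  have hMr : (t : ℝ) ^ 148 ≤ (M : ℝ) + 1 := by exact_mod_cast hM
  have hM0 : (0 : ℝ) < (M : ℝ) + 1 := by positivity
  obtain ⟨m, hm⟩ : ∃ m, m = n / t ^ 28 + 1 := ⟨_, rfl⟩
  have hm1 : 1 ≤ m := by rw [hm]; exact Nat.le_add_left 1 _
  have hT : 0 < t ^ 28 := by positivity
  have hmn : n < t ^ 28 * m := by
    rw [hm]
    exact Nat.lt_mul_div_succ n hT
  have hmt : t ≤ m := by
    have h1 : t ^ 28 * t ≤ n := by
      calc t ^ 28 * t = t ^ 29 := by ring
        _ ≤ t ^ 200 := Nat.pow_le_pow_right ht1 (by norm_num)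
        _ ≤ n := hR.1
    have h2 : t ≤ n / t ^ 28 := by
      rw [Nat.le_div_iff_mul_le hT]
      linarith
    omega
  have hm0 : (0 : ℝ) < m := by exact_mod_cast hm1
  have hmn' : (n : ℝ) ≤ (t : ℝ) ^ 28 * m := by exact_mod_cast hmn.le
  obtain ⟨W, hWd⟩ : ∃ W : Finset (Finset (Fin n)),
      W = univ.filter (fun v' : Finset (Fin n) => v'.card = k0 t + 1 ∧ (v' \ v).card = 1) := ⟨_, rfl⟩
  have hW : W.card ≤ (k0 t + 1) * n := by rw [hWd]; exact fs6_card _ v hv
  have hWr : (W.card : ℝ) ≤ ((k0 t : ℝ) + 1) * n := by exact_mod_cast hW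
  have h1 := Vs_many (t := t) (M := M) s W
    (fun v' hv' => by rw [hWd] at hv'; exact ((mem_filter.1 hv').2).1) m hm1
  refine le_trans (P_mono (fun φ hφ => ?_)) (h1.trans ?_)
  · have h2 : {v' | v'.card = k0 t + 1 ∧ (v' \ v).card = 1 ∧ Vs φ s v'}
        = {v' | v' ∈ W ∧ Vs φ s v'} := by
      ext v'
      simp only [Set.mem_setOf_eq, hWd, mem_filter, mem_univ, true_and]
      tauto
    rw [← h2]
    have h3 : n / t ^ 28 < {v' | v'.card = k0 t + 1 ∧ (v' \ v).card = 1 ∧ Vs φ s v'}.ncard := by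
      rw [Nat.div_lt_iff_lt_mul hT, mul_comm]
      exact hφ
    omega
  · have e1 : Real.exp 1 * ((W.card : ℝ) * ((k0 t : ℝ) + 1) / ((M : ℝ) + 1)) / (m : ℝ)
        = Real.exp 1 * (((W.card : ℝ) * ((k0 t : ℝ) + 1)) / (((M : ℝ) + 1) * m)) := by
      field_simp
    rw [e1]
    refine (fs6_pow (by positivity) ?_ m).trans ?_
    · rw [← mul_div_assoc, div_le_one (by positivity)]
      calc 9 * ((W.card : ℝ) * ((k0 t : ℝ) + 1))
          ≤ 9 * (((2 * (t : ℝ) ^ 50) * ((t : ℝ) ^ 28 * m)) * (2 * (t : ℝ) ^ 50)) := by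
            have : (W.card : ℝ) ≤ (2 * (t : ℝ) ^ 50) * ((t : ℝ) ^ 28 * m) :=
              hWr.trans (mul_le_mul hk1 hmn' (Nat.cast_nonneg _) (by positivity))
            gcongr
        _ = 36 * ((t : ℝ) ^ 128 * m) := by ring
        _ ≤ t * ((t : ℝ) ^ 128 * m) := by
            have : (36 : ℝ) ≤ t := le_trans (by norm_num) ht
            gcongr
        _ = (t : ℝ) ^ 129 * m := by ring
        _ ≤ (t : ℝ) ^ 148 * m := by
            have : (t : ℝ) ^ 129 ≤ (t : ℝ) ^ 148 := pow_le_pow_right₀ (by exact_mod_cast ht1) (by norm_num)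
            gcongr
        _ ≤ ((M : ℝ) + 1) * m := by gcongr
    · apply Real.exp_le_exp.2
      have : (t : ℝ) ≤ m := by exact_mod_cast hmt
      linarith

end Pool.SCDO
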