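import Pool.Agent.Lib.SCDO.Defs
import Pool.Agent.Lib.SCDO.FS3
import Pool.Agent.Lib.SCDO.FS4
import Pool.Agent.Lib.SCDO.FS6

/-!
# Row FS7 (outer part of the symmetric chain decompositions)
Good classes exist.
-/

set_option linter.unusedSectionVars false
set_option linter.unusedVariables false

namespace Pool.SCDO

open Finset Pool.SCDH Pool.Agent.SK

private def sp1 {n t : ℕ} (u : Lv n (k0 t)) : Finset (Lv n (k0 t) × Fin n) :=
  univ.filter (fun e => e.1 = u)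

private def sp2 {n t : ℕ} (y : Finset (Fin n)) : Finset (Lv n (k0 t) × Fin n) :=
  univ.filter (fun e => e.2 ∉ e.1.1 ∧ insert e.2 e.1.1 ⊆ y)

private def sp3 {n t : ℕ} (v : Finset (Fin n)) : Finset (Lv n (k0 t) × Fin n) :=
  univ.filter (fun e => e.2 ∉ e.1.1 ∧ (insert e.2 e.1.1 \ v).card = 1)

private lemma card_le_image {n k : ℕ} {S : Finset (Lv n k × Fin n)} {β : Type} [Fintype β]
    (g : β → Finset (Fin n) × Fin n) (h : ∀ e ∈ S, ∃ b, g b = (e.1.1, e.2)) :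
    S.card ≤ Fintype.card β := by
  have h1 : (S.image (fun e => (e.1.1, e.2))).card = S.card := by
    refine card_image_of_injective _ ?_
    rintro ⟨u, a⟩ ⟨u', a'⟩ heq
    have h2 := Prod.ext_iff.1 heq
    exact Prod.ext (Subtype.ext h2.1) h2.2
  rw [← h1]
  have h3 : S.image (fun e => (e.1.1, e.2)) ⊆ univ.image g := by
    intro p hp
    obtain ⟨e, he, rfl⟩ := mem_image.1 hp
    obtain ⟨b, hb⟩ := h e he
    exact mem_image.2 ⟨b, mem_univ _, hb⟩
  exact (card_le_card h3).trans (card_image_le.trans (le_of_eq (card_univ)))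

private lemma card_le_image2 {n k M : ℕ} {S : Finset (Fin (M + 1) × Lv n k)} {β : Type} [Fintype β]
    (g : β → Finset (Fin n)) (h : ∀ p ∈ S, ∃ b, g b = p.2.1) :
    S.card ≤ (M + 1) * Fintype.card β := by
  have h1 : (S.image (fun p => (p.1, p.2.1))).card = S.card := by
    refine card_image_of_injective _ ?_
    rintro ⟨s, u⟩ ⟨s', u'⟩ heq
    have h2 := Prod.ext_iff.1 heq
    exact Prod.ext h2.1 (Subtype.ext h2.2)
  rw [← h1]
  have h3 : S.image (fun p => (p.1, p.2.1)) ⊆ (univ : Finset (Fin (M + 1))) ×ˢ univ.image g := by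
    intro p hp
    obtain ⟨e, he, rfl⟩ := mem_image.1 hp
    obtain ⟨b, hb⟩ := h e he
    exact mem_product.2 ⟨mem_univ _, mem_image.2 ⟨b, mem_univ _, hb⟩⟩
  refine (card_le_card h3).trans ?_
  rw [card_product, card_univ, Fintype.card_fin]
  exact Nat.mul_le_mul_left _ (card_image_le.trans (le_of_eq card_univ))

/-- two sets of the same size with one element in the difference -/
private lemma near_eq {n : ℕ} {v v' : Finset (Fin n)} (hc : v'.card = v.card)
    (h : (v' \ v).card = 1) : ∃ b c, v' = insert c (v.erase b) ∧ v = insert b (v'.erase c) := by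
  have h2 : (v \ v').card = 1 := by
    have h3 := card_sdiff_add_card_inter v' v
    have h4 := card_sdiff_add_card_inter v v'
    rw [inter_comm v v'] at h4
    omega
  obtain ⟨c, hcc⟩ := card_eq_one.1 h
  obtain ⟨b, hb⟩ := card_eq_one.1 h2
  have hc1 : ∀ x, (x ∈ v' ∧ x ∉ v) ↔ x = c := fun x => by
    rw [← mem_sdiff, hcc, mem_singleton]
  have hb1 : ∀ x, (x ∈ v ∧ x ∉ v') ↔ x = b := fun x => by
    rw [← mem_sdiff, hb, mem_singleton]
  refine ⟨b, c, ?_, ?_⟩
  · ext x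
    rw [mem_insert, mem_erase]
    have h5 := hc1 x
    have h6 := hb1 x
    have h7 := (hb1 b).2 rfl
    constructor
    · intro hx
      by_cases hxv : x ∈ v
      · refine Or.inr ⟨?_, hxv⟩
        rintro rfl
        exact h7.2 hx
      · exact Or.inl (h5.1 ⟨hx, hxv⟩)
    · rintro (hx | ⟨hx, hxv⟩)
      · exact (h5.2 hx).1
      · by_contra hcon
        exact hx (h6.1 ⟨hxv, hcon⟩)
  · ext x
    rw [mem_insert, mem_erase]
    have h5 := hc1 x
    have h6 := hb1 x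
    have h7 := (hc1 c).2 rfl
    constructor
    · intro hx
      by_cases hxv : x ∈ v'
      · refine Or.inr ⟨?_, hxv⟩
        rintro rfl
        exact h7.2 hx
      · exact Or.inl (h6.1 ⟨hx, hxv⟩)
    · rintro (hx | ⟨hx, hxv⟩)
      · exact (h6.2 hx).1
      · by_contra hcon
        exact hx (h5.1 ⟨hxv, hcon⟩)

private lemma sp1_card {n t : ℕ} (u : Lv n (k0 t)) : (sp1 u).card ≤ n := by
  have h := card_le_image (S := sp1 u) (β := Fin n) (fun a => (u.1, a)) (by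
    rintro ⟨u', a⟩ he
    have h1 := (mem_filter.1 he).2
    exact ⟨a, by rw [← h1]⟩)
  rwa [Fintype.card_fin] at h

private lemma sp2_card {n t : ℕ} (y : Finset (Fin n)) (hy : y.card = k0 t + 2) :
    (sp2 (t := t) y).card ≤ n * n := by
  have h := card_le_image (S := sp2 (t := t) y) (β := Fin n × Fin n)
    (fun p => ((y.erase p.2).erase p.1, p.1)) (by
    rintro ⟨u, a⟩ he
    obtain ⟨h1, h2⟩ := (mem_filter.1 he).2
    change a ∉ u.1 at h1
    change insert a u.1 ⊆ y at h2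
    have h3 : (insert a u.1).card = k0 t + 1 := by rw [card_insert_of_notMem h1, u.2]
    have h4 : (y \ insert a u.1).card = 1 := by
      rw [card_sdiff_of_subset h2, hy, h3]
      omega
    obtain ⟨b, hb⟩ := card_eq_one.1 h4
    refine ⟨(a, b), Prod.ext ?_ rfl⟩
    change (y.erase b).erase a = u.1
    have h5 : y.erase b = insert a u.1 := by
      rw [erase_eq, ← hb, Finset.sdiff_sdiff_eq_self h2]
    rw [h5, erase_insert h1])
  rwa [Fintype.card_prod, Fintype.card_fin] at h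

private lemma sp3_card {n t : ℕ} (v : Finset (Fin n)) (hv : v.card = k0 t + 1) :
    (sp3 (t := t) v).card ≤ n * (n * n) := by
  have h := card_le_image (S := sp3 (t := t) v) (β := Fin n × Fin n × Fin n)
    (fun p => ((insert p.2.2 (v.erase p.2.1)).erase p.1, p.1)) (by
    rintro ⟨u, a⟩ he
    obtain ⟨h1, h2⟩ := (mem_filter.1 he).2
    change a ∉ u.1 at h1
    change (insert a u.1 \ v).card = 1 at h2
    have h3 : (insert a u.1).card = v.card := by rw [card_insert_of_notMem h1, u.2, hv]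
    obtain ⟨b, c, hbc, -⟩ := near_eq h3 h2
    refine ⟨(a, b, c), Prod.ext ?_ rfl⟩
    change (insert c (v.erase b)).erase a = u.1
    rw [← hbc, erase_insert h1])
  rwa [Fintype.card_prod, Fintype.card_prod, Fintype.card_fin] at h

private lemma r1_card {n t K : ℕ} (e : Lv n (k0 t) × Fin n) :
    ((univ : Finset (Fin K × Lv n (k0 t))).filter (fun i => e ∈ sp1 i.2)).card ≤ K := by
  have h1 : (univ : Finset (Fin K × Lv n (k0 t))).filter (fun i => e ∈ sp1 i.2)
      ⊆ (univ : Finset (Fin K)).image (fun c => (c, e.1)) := by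
    rintro ⟨c, u⟩ hp
    have h2 := (mem_filter.1 (mem_filter.1 hp).2).2
    exact mem_image.2 ⟨c, mem_univ _, Prod.ext rfl h2⟩
  refine (card_le_card h1).trans (card_image_le.trans ?_)
  rw [card_univ, Fintype.card_fin]

private lemma r2_card {n t M : ℕ} (e : Lv n (k0 t) × Fin n) :
    ((univ : Finset (Fin (M + 1) × Lv n (k0 t + 2))).filter (fun i => e ∈ sp2 (t := t) i.2.1)).card
      ≤ (M + 1) * n := by
  have h := card_le_image2 (S := (univ : Finset (Fin (M + 1) × Lv n (k0 t + 2))).filter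
    (fun i => e ∈ sp2 (t := t) i.2.1)) (β := Fin n) (fun b => insert b (insert e.2 e.1.1)) (by
    rintro ⟨s, y⟩ hp
    obtain ⟨h1, h2⟩ := (mem_filter.1 (mem_filter.1 hp).2).2
    have h3 : (insert e.2 e.1.1).card = k0 t + 1 := by rw [card_insert_of_notMem h1, e.1.2]
    have h4 : (y.1 \ insert e.2 e.1.1).card = 1 := by
      rw [card_sdiff_of_subset h2, y.2, h3]
      omega
    obtain ⟨b, hb⟩ := card_eq_one.1 h4
    refine ⟨b, ?_⟩
    change insert b (insert e.2 e.1.1) = y.1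
    rw [← sdiff_union_of_subset h2, hb]
    rfl)
  rwa [Fintype.card_fin] at h

private lemma r3_card {n t M : ℕ} (e : Lv n (k0 t) × Fin n) :
    ((univ : Finset (Fin (M + 1) × Lv n (k0 t + 1))).filter (fun i => e ∈ sp3 (t := t) i.2.1)).card
      ≤ (M + 1) * (n * n) := by
  have h := card_le_image2 (S := (univ : Finset (Fin (M + 1) × Lv n (k0 t + 1))).filter
    (fun i => e ∈ sp3 (t := t) i.2.1)) (β := Fin n × Fin n)
    (fun b => insert b.1 ((insert e.2 e.1.1).erase b.2)) (by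
    rintro ⟨s, v⟩ hp
    obtain ⟨h1, h2⟩ := (mem_filter.1 (mem_filter.1 hp).2).2
    have h3 : (insert e.2 e.1.1).card = v.1.card := by rw [card_insert_of_notMem h1, e.1.2, v.2]
    obtain ⟨b, c, -, hbc⟩ := near_eq h3 h2
    exact ⟨(b, c), hbc.symm⟩)
  rwa [Fintype.card_prod, Fintype.card_fin] at h

private lemma Vs_congr {n t M : ℕ} {φ ψ : Lv n (k0 t) × Fin n → Fin (M + 1)} {s : Fin (M + 1)}
    {v : Finset (Fin n)} (h : ∀ u : Lv n (k0 t), ∀ a, a ∉ u.1 → insert a u.1 = v →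
      φ (u, a) = ψ (u, a)) (hv : Vs φ s v) : Vs ψ s v := by
  obtain ⟨u, a, ha, hva, hs⟩ := hv
  exact ⟨u, a, ha, hva, by rw [← h u a ha hva]; exact hs⟩

private lemma fs7_num {ε : ℝ} {t n : ℕ} (hB : Big ε t) (hR : Rng t n) :
    4 * Real.exp (-(t : ℝ)) * (((n ^ 3 : ℕ) : ℝ) * ((3 * n ^ 3 : ℕ) : ℝ) + 1) ≤ 1 := by
  have ht : 10 ^ 100 ≤ t := ob_t hB
  have ht1 : (1024 : ℝ) ≤ t := by
    have : 1024 ≤ t := le_trans (by norm_num) ht
    exact_mod_cast this
  have hn1 : (1 : ℝ) ≤ n := by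
    have h1 : 1 ≤ t ^ 200 := Nat.one_le_pow _ _ (le_trans (Nat.one_le_pow _ _ (by norm_num)) ht)
    exact_mod_cast h1.trans hR.1
  have hn2 : (n : ℝ) ≤ 2 * t ^ 200 := by
    have := hR.2.le
    exact_mod_cast this
  have h1 : ((n ^ 3 : ℕ) : ℝ) * ((3 * n ^ 3 : ℕ) : ℝ) + 1 ≤ 4 * (n : ℝ) ^ 6 := by
    push_cast
    have h2 : (1 : ℝ) ≤ (n : ℝ) ^ 6 := one_le_pow₀ hn1
    have h3 : (n : ℝ) ^ 3 * (3 * (n : ℝ) ^ 3) = 3 * (n : ℝ) ^ 6 := by ring
    rw [h3]
    linarith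
  have h4 : (n : ℝ) ^ 6 ≤ (2 * (t : ℝ) ^ 200) ^ 6 := pow_le_pow_left₀ (by linarith) hn2 6
  have h5 : (2 * (t : ℝ) ^ 200) ^ 6 = 64 * (t : ℝ) ^ 1200 := by
    rw [mul_pow, ← pow_mul]
    norm_num
  have h6 : (t : ℝ) ^ 1201 ≤ Real.exp t := ob_exp hB 1201 (by norm_num)
  have h7 : 1024 * (t : ℝ) ^ 1200 ≤ (t : ℝ) ^ 1201 := by
    rw [pow_succ (t : ℝ) 1200, mul_comm]
    exact mul_le_mul_of_nonneg_left ht1 (by positivity)
  have h8 : 0 < Real.exp (-(t : ℝ)) := Real.exp_pos _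
  have h9 : Real.exp (-(t : ℝ)) * Real.exp t = 1 := by
    rw [← Real.exp_add]
    simp
  have h10 : 4 * (((n ^ 3 : ℕ) : ℝ) * ((3 * n ^ 3 : ℕ) : ℝ) + 1) ≤ Real.exp t := by
    rw [h5] at h4
    linarith
  calc 4 * Real.exp (-(t : ℝ)) * (((n ^ 3 : ℕ) : ℝ) * ((3 * n ^ 3 : ℕ) : ℝ) + 1)
      = Real.exp (-(t : ℝ)) * (4 * (((n ^ 3 : ℕ) : ℝ) * ((3 * n ^ 3 : ℕ) : ℝ) + 1)) := by ring
    _ ≤ Real.exp (-(t : ℝ)) * Real.exp t := mul_le_mul_of_nonneg_left h10 h8.le
    _ = 1 := h9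

theorem classes_exist {ε : ℝ} {t n K M : ℕ} (hB : Big ε t) (hR : Rng t n) (hKn : K ≤ n)
    (hM1 : t ^ 148 ≤ M + 1) (hM2 : M + 1 ≤ n) (cl : Fin K → Fin (M + 1))
    (Bs : Fin K → Lv n (k0 t) → Finset (Fin n))
    (hBs : ∀ c u, (1 + ε / 2) * D0 t * (M + 1) ≤ (Bs c u).card) :
    ∃ φ : Lv n (k0 t) × Fin n → Fin (M + 1),
      (∀ c u, D0 t + k0 t + 1 ≤ ((Bs c u).filter (fun a => φ (u, a) = cl c)).card) ∧
      (∀ (s : Fin (M + 1)) (y : Finset (Fin n)), y.card = k0 t + 2 →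
        {v | v.card = k0 t + 1 ∧ v ⊆ y ∧ Vs φ s v}.ncard ≤ t) ∧
      ∀ (s : Fin (M + 1)) (v : Finset (Fin n)), v.card = k0 t + 1 →
        t ^ 28 * {v' | v'.card = k0 t + 1 ∧ (v' \ v).card = 1 ∧ Vs φ s v'}.ncard ≤ n := by
  have ht : 10 ^ 100 ≤ t := ob_t hB
  have hn1 : 1 ≤ n := by
    have h1 : 1 ≤ t ^ 200 := Nat.one_le_pow _ _ (le_trans (Nat.one_le_pow _ _ (by norm_num)) ht)
    exact h1.trans hR.1
  let A : (Fin K × Lv n (k0 t)) ⊕ ((Fin (M + 1) × Lv n (k0 t + 2)) ⊕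
      (Fin (M + 1) × Lv n (k0 t + 1))) → (Lv n (k0 t) × Fin n → Fin (M + 1)) → Prop := fun i =>
    match i with
    | .inl q => fun φ => ((Bs q.1 q.2).filter (fun a => φ (q.2, a) = cl q.1)).card
        < D0 t + k0 t + 1
    | .inr (.inl q) => fun φ =>
        t < {v | v.card = k0 t + 1 ∧ v ⊆ q.2.1 ∧ Vs φ q.1 v}.ncard
    | .inr (.inr q) => fun φ =>
        n < t ^ 28 * {v' | v'.card = k0 t + 1 ∧ (v' \ q.2.1).card = 1 ∧ Vs φ q.1 v'}.ncard
  let supp : (Fin K × Lv n (k0 t)) ⊕ ((Fin (M + 1) × Lv n (k0 t + 2)) ⊕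
      (Fin (M + 1) × Lv n (k0 t + 1))) → Finset (Lv n (k0 t) × Fin n) := fun i =>
    match i with
    | .inl q => sp1 q.2
    | .inr (.inl q) => sp2 q.2.1
    | .inr (.inr q) => sp3 q.2.1
  have hdep : ∀ i, Dep (A i) (supp i) := by
    rintro (⟨c, u⟩ | ⟨s, y⟩ | ⟨s, v⟩)
    · intro φ ψ h
      have h1 : (Bs c u).filter (fun a => φ (u, a) = cl c)
          = (Bs c u).filter (fun a => ψ (u, a) = cl c) := by
        refine filter_congr fun a _ => ?_
        rw [h (u, a) (mem_filter.2 ⟨mem_univ _, rfl⟩)]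
      change (((Bs c u).filter (fun a => φ (u, a) = cl c)).card < D0 t + k0 t + 1)
        = (((Bs c u).filter (fun a => ψ (u, a) = cl c)).card < D0 t + k0 t + 1)
      rw [h1]
    · intro φ ψ h
      have h2 : ∀ v : Finset (Fin n), v ⊆ y.1 → ∀ u : Lv n (k0 t), ∀ a, a ∉ u.1 →
          insert a u.1 = v → φ (u, a) = ψ (u, a) := by
        intro v hv u a ha hva
        refine h (u, a) (mem_filter.2 ⟨mem_univ _, ha, ?_⟩)
        change insert a u.1 ⊆ y.1
        rw [hva]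
        exact hv
      have h1 : {v | v.card = k0 t + 1 ∧ v ⊆ y.1 ∧ Vs φ s v}
          = {v | v.card = k0 t + 1 ∧ v ⊆ y.1 ∧ Vs ψ s v} := by
        ext v
        constructor
        · rintro ⟨h3, h4, h5⟩
          exact ⟨h3, h4, Vs_congr (h2 v h4) h5⟩
        · rintro ⟨h3, h4, h5⟩
          exact ⟨h3, h4, Vs_congr (fun u a ha hva => (h2 v h4 u a ha hva).symm) h5⟩
      change (t < {v | v.card = k0 t + 1 ∧ v ⊆ y.1 ∧ Vs φ s v}.ncard)
        = (t < {v | v.card = k0 t + 1 ∧ v ⊆ y.1 ∧ Vs ψ s v}.ncard)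
      rw [h1]
    · intro φ ψ h
      have h2 : ∀ v' : Finset (Fin n), (v' \ v.1).card = 1 → ∀ u : Lv n (k0 t), ∀ a, a ∉ u.1 →
          insert a u.1 = v' → φ (u, a) = ψ (u, a) := by
        intro v' hv u a ha hva
        refine h (u, a) (mem_filter.2 ⟨mem_univ _, ha, ?_⟩)
        change (insert a u.1 \ v.1).card = 1
        rw [hva]
        exact hv
      have h1 : {v' | v'.card = k0 t + 1 ∧ (v' \ v.1).card = 1 ∧ Vs φ s v'}
          = {v' | v'.card = k0 t + 1 ∧ (v' \ v.1).card = 1 ∧ Vs ψ s v'} := by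
        ext v'
        constructor
        · rintro ⟨h3, h4, h5⟩
          exact ⟨h3, h4, Vs_congr (h2 v' h4) h5⟩
        · rintro ⟨h3, h4, h5⟩
          exact ⟨h3, h4, Vs_congr (fun u a ha hva => (h2 v' h4 u a ha hva).symm) h5⟩
      change (n < t ^ 28 * {v' | v'.card = k0 t + 1 ∧ (v' \ v.1).card = 1 ∧ Vs φ s v'}.ncard)
        = (n < t ^ 28 * {v' | v'.card = k0 t + 1 ∧ (v' \ v.1).card = 1 ∧ Vs ψ s v'}.ncard)
      rw [h1]
  have hp : ∀ i, P (A i) ≤ Real.exp (-(t : ℝ)) := by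
    rintro (⟨c, u⟩ | ⟨s, y⟩ | ⟨s, v⟩)
    · exact ev1_prob hB u (Bs c u) (hBs c u) (cl c)
    · exact ev2_prob hB hM1 s y.1 y.2
    · exact ev3_prob hB hR hM1 s v.1 v.2
  have hS : ∀ i, (supp i).card ≤ n ^ 3 := by
    rintro (⟨c, u⟩ | ⟨s, y⟩ | ⟨s, v⟩)
    · refine (sp1_card u).trans ?_
      calc n = n ^ 1 := (pow_one n).symm
        _ ≤ n ^ 3 := Nat.pow_le_pow_right hn1 (by norm_num)
    · refine (sp2_card y.1 y.2).trans ?_
      calc n * n = n ^ 2 := by ring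
        _ ≤ n ^ 3 := Nat.pow_le_pow_right hn1 (by norm_num)
    · refine (sp3_card v.1 v.2).trans (le_of_eq ?_)
      ring
  have hRR : ∀ e, (univ.filter (fun i => e ∈ supp i)).card ≤ 3 * n ^ 3 := by
    intro e
    have h1 : univ.filter (fun i => e ∈ supp i)
        ⊆ (((univ : Finset (Fin K × Lv n (k0 t))).filter (fun i => e ∈ sp1 i.2)).image Sum.inl)
          ∪ ((((univ : Finset (Fin (M + 1) × Lv n (k0 t + 2))).filter
              (fun i => e ∈ sp2 (t := t) i.2.1)).image (fun q => Sum.inr (Sum.inl q)))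
            ∪ (((univ : Finset (Fin (M + 1) × Lv n (k0 t + 1))).filter
              (fun i => e ∈ sp3 (t := t) i.2.1)).image (fun q => Sum.inr (Sum.inr q)))) := by
      rintro (q | q | q) hq
      · have h2 : e ∈ sp1 q.2 := (mem_filter.1 hq).2
        exact mem_union_left _ (mem_image.2 ⟨q, mem_filter.2 ⟨mem_univ _, h2⟩, rfl⟩)
      · have h2 : e ∈ sp2 (t := t) q.2.1 := (mem_filter.1 hq).2
        exact mem_union_right _ (mem_union_left _
          (mem_image.2 ⟨q, mem_filter.2 ⟨mem_univ _, h2⟩, rfl⟩))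
      · have h2 : e ∈ sp3 (t := t) q.2.1 := (mem_filter.1 hq).2
        exact mem_union_right _ (mem_union_right _
          (mem_image.2 ⟨q, mem_filter.2 ⟨mem_univ _, h2⟩, rfl⟩))
    refine (card_le_card h1).trans ?_
    refine (card_union_le _ _).trans ?_
    refine (Nat.add_le_add (card_image_le.trans (r1_card e)) ((card_union_le _ _).trans
      (Nat.add_le_add (card_image_le.trans (r2_card e))
        (card_image_le.trans (r3_card e))))).trans ?_
    have h3 : K ≤ n ^ 3 := hKn.trans (by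
      calc n = n ^ 1 := (pow_one n).symm
        _ ≤ n ^ 3 := Nat.pow_le_pow_right hn1 (by norm_num))
    have h4 : (M + 1) * n ≤ n ^ 3 := (Nat.mul_le_mul_right n hM2).trans (by
      calc n * n = n ^ 2 := by ring
        _ ≤ n ^ 3 := Nat.pow_le_pow_right hn1 (by norm_num))
    have h5 : (M + 1) * (n * n) ≤ n ^ 3 := (Nat.mul_le_mul_right (n * n) hM2).trans
      (le_of_eq (by ring))
    omega
  obtain ⟨ψ, hψ⟩ := lll_cnt A supp hdep (Real.exp (-(t : ℝ))) (n ^ 3) (3 * n ^ 3) hp hS hRR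
    (fs7_num hB hR)
  refine ⟨ψ, ?_, ?_, ?_⟩
  · intro c u
    exact not_lt.1 (hψ (Sum.inl (c, u)))
  · intro s y hy
    exact not_lt.1 (hψ (Sum.inr (Sum.inl (s, ⟨y, hy⟩))))
  · intro s v hv
    exact not_lt.1 (hψ (Sum.inr (Sum.inr (s, ⟨v, hv⟩))))

end Pool.SCDO
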