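import Pool.Agent.Lib.SCDO.Defs

/-!
# Row NU0 (outer part of the symmetric chain decompositions)
Number of classes of the first outer step.
Recipe: M + 1 := ⌊(1/2 - 3ε/4) n / D0⌋ (natural floor).  1/2 - 3ε/4 ≥ 1/8 as ε ≤ 1/2; t ≥ 10^100 (ε t ≥ 10^100, ε ≤ 1/2); t^200 ≤ n.
(M+1) D0 ≥ (1/2 - 3ε/4) n - D0 ≥ (1/2 - ε) n because ε n/4 ≥ (ε t) t^199/4 ≥ D0 = t^51.  t^148 ≤ n/(8 D0) - 1.
(1 + ε/2) D0 (M+1) ≤ (1 + ε/2)(1/2 - 3ε/4) n ≤ (1/2 - ε/2) n ≤ n/2 - 2 k0 - 2 ≤ q, as ε n/2 ≥ 2 k0 + 2, k0 = t^50.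
-/

set_option linter.unusedSectionVars false
set_option linter.unusedVariables false

namespace Pool.SCDO

open Finset Pool.SCDH

theorem M_exists {ε : ℝ} {t n K : ℕ} (hB : Big ε t) (hR : Rng t n) (hK : (K : ℝ) ≤ (1 / 2 - ε) * n) :
    ∃ M : ℕ, t ^ 148 ≤ M + 1 ∧ K ≤ (M + 1) * D0 t ∧ M + 1 ≤ n ∧
      ∀ q : ℕ, n ≤ 2 * q + 4 * k0 t + 4 → (1 + ε / 2) * D0 t * (M + 1) ≤ q := by
  obtain ⟨e0, e1, b1, -⟩ := hB
  have hT0 : (0 : ℝ) ≤ t := Nat.cast_nonneg t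
  have hT16 : (100 : ℝ) ≤ t := by
    have h1 : ε * t ≤ 1 / 2 * (t : ℝ) := mul_le_mul_of_nonneg_right e1 hT0
    have h2 : (10 : ℝ) ^ 100 ≤ 1 / 2 * (t : ℝ) := b1.trans h1
    have h3 : (50 : ℝ) ≤ (10 : ℝ) ^ 100 := by norm_num
    linarith
  have hT1 : (1 : ℝ) ≤ t := by linarith
  have hTpos : (0 : ℝ) < t := by linarith
  have hN : (t : ℝ) ^ 200 ≤ n := by exact_mod_cast hR.1
  have hNpos : (0 : ℝ) < n := lt_of_lt_of_le (by positivity) hN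
  have hDr : ((D0 t : ℕ) : ℝ) = (t : ℝ) ^ 51 := by unfold D0; push_cast; ring
  have hk : ((k0 t : ℕ) : ℝ) = (t : ℝ) ^ 50 := by unfold k0; push_cast; ring
  set D : ℝ := (t : ℝ) ^ 51 with hD
  have hDpos : 0 < D := by positivity
  have hD1 : 1 ≤ D := one_le_pow₀ hT1
  set A : ℝ := (1 / 2 - 3 * ε / 4) * n with hA
  have hA8 : (n : ℝ) / 8 ≤ A := by
    have h1 : (1 / 8 : ℝ) * n ≤ (1 / 2 - 3 * ε / 4) * n :=
      mul_le_mul_of_nonneg_right (by linarith) hNpos.le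
    linarith
  have hA2 : A ≤ (n : ℝ) / 2 := by
    have h1 : (1 / 2 - 3 * ε / 4) * n ≤ (1 / 2 : ℝ) * n :=
      mul_le_mul_of_nonneg_right (by linarith) hNpos.le
    linarith
  have hA0 : 0 ≤ A := by linarith
  -- `ε n ≥ 10 ^ 100 t ^ 199 ≥ 8 D`
  have heN : 8 * D ≤ ε * n := by
    have h1 : ε * (t : ℝ) ^ 200 ≤ ε * n := mul_le_mul_of_nonneg_left hN e0.le
    have h2 : ε * (t : ℝ) ^ 200 = (ε * t) * (t : ℝ) ^ 199 := by ring
    have h3 : (10 : ℝ) ^ 100 * (t : ℝ) ^ 199 ≤ (ε * t) * (t : ℝ) ^ 199 :=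
      mul_le_mul_of_nonneg_right b1 (by positivity)
    have h4 : D ≤ (t : ℝ) ^ 199 := pow_le_pow_right₀ hT1 (by norm_num)
    have h5 : (8 : ℝ) * D ≤ (10 : ℝ) ^ 100 * (t : ℝ) ^ 199 :=
      mul_le_mul (by norm_num) h4 hDpos.le (by positivity)
    linarith
  set F : ℕ := ⌊A / D⌋₊ with hF
  have hF1 : (F : ℝ) ≤ A / D := Nat.floor_le (div_nonneg hA0 hDpos.le)
  have hF2 : A / D < F + 1 := Nat.lt_floor_add_one _
  have hF3 : (F : ℝ) * D ≤ A := by rwa [le_div_iff₀ hDpos] at hF1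
  have hF4 : A < (F + 1) * D := by rwa [div_lt_iff₀ hDpos] at hF2
  have hbig : (t : ℝ) ^ 148 ≤ F := by
    have h1 : ((t : ℝ) ^ 148 + 1) * D ≤ A := by
      have h2 : ((t : ℝ) ^ 148 + 1) ≤ 2 * (t : ℝ) ^ 148 := by
        have : (1 : ℝ) ≤ (t : ℝ) ^ 148 := one_le_pow₀ hT1
        linarith
      have h3 : ((t : ℝ) ^ 148 + 1) * D ≤ (2 * (t : ℝ) ^ 148) * D :=
        mul_le_mul_of_nonneg_right h2 hDpos.le
      have h4 : (2 * (t : ℝ) ^ 148) * D = 2 * (t : ℝ) ^ 199 := by rw [hD]; ring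
      have h5 : 16 * (t : ℝ) ^ 199 ≤ (t : ℝ) ^ 200 := by
        have h6 : (t : ℝ) ^ 200 = t * (t : ℝ) ^ 199 := by ring
        rw [h6]
        exact mul_le_mul_of_nonneg_right (by linarith) (by positivity)
      linarith
    have h7 : ((t : ℝ) ^ 148 + 1) * D < (F + 1) * D := lt_of_le_of_lt h1 hF4
    have h8 := lt_of_mul_lt_mul_right h7 hDpos.le
    linarith
  have hFpos : 1 ≤ F := by
    have h1 : (1 : ℝ) ≤ (t : ℝ) ^ 148 := one_le_pow₀ hT1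
    have h2 : (1 : ℝ) ≤ F := h1.trans hbig
    exact_mod_cast h2
  have hFM : F - 1 + 1 = F := by omega
  have hFMr : ((F - 1 : ℕ) : ℝ) + 1 = F := by
    have : ((F - 1 + 1 : ℕ) : ℝ) = F := by rw [hFM]
    push_cast at this
    exact this
  refine ⟨F - 1, ?_, ?_, ?_, ?_⟩
  · rw [hFM]
    exact_mod_cast hbig
  · rw [hFM]
    have h1 : (K : ℝ) ≤ F * ((D0 t : ℕ) : ℝ) := by
      rw [hDr]
      have h2 : A = (1 / 2 - ε) * n + (ε * n) / 4 := by rw [hA]; ring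
      have h3 : A < F * D + D := by linarith
      linarith
    exact_mod_cast h1
  · rw [hFM]
    have h1 : (F : ℝ) ≤ n := by
      have h2 : A / D ≤ A := div_le_self hA0 hD1
      linarith
    exact_mod_cast h1
  · intro q hq
    rw [hFMr, hDr]
    have h1 : (n : ℝ) ≤ 2 * q + 4 * (t : ℝ) ^ 50 + 4 := by
      rw [← hk]
      exact_mod_cast hq
    have h2 : (1 + ε / 2) * D * F ≤ (1 + ε / 2) * A := by
      have h3 : (1 + ε / 2) * (F * D) ≤ (1 + ε / 2) * A :=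
        mul_le_mul_of_nonneg_left hF3 (by linarith)
      linarith
    have h4 : (1 + ε / 2) * A ≤ (1 / 2 - ε / 2) * n := by
      have h5 : (1 + ε / 2) * A = (1 / 2 - ε / 2) * n - (3 * ε ^ 2 / 8) * n := by
        rw [hA]; ring
      have h6 : 0 ≤ (3 * ε ^ 2 / 8) * (n : ℝ) := by positivity
      linarith
    have h7 : 2 * (t : ℝ) ^ 50 + 2 ≤ 4 * D := by
      have h8 : (t : ℝ) ^ 50 ≤ D := pow_le_pow_right₀ hT1 (by norm_num)
      linarith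
    linarith

end Pool.SCDO
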