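import Pool.Agent.Lib.SCDO.Defs
import Pool.Agent.Lib.SCDO.HA1
import Pool.Agent.Lib.SCDO.FS7
import Pool.Agent.Lib.SCDO.NU0

/-!
# Row FS8 (outer part of the symmetric chain decompositions)
The first outer step.
-/

set_option linter.unusedSectionVars false
set_option linter.unusedVariables false

namespace Pool.SCDO

open Finset Pool.SCDH

private theorem ins_inj {n : ℕ} {a b : Fin n} {u : Finset (Fin n)} (ha : a ∉ u)
    (h : insert a u = insert b u) : a = b := by
  have h1 : a ∈ insert b u := by rw [← h]; exact mem_insert_self _ _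
  rcases mem_insert.1 h1 with h2 | h2
  · exact h2
  · exact absurd h2 ha

theorem first_step {ε : ℝ} {t n K : ℕ} (hB : Big ε t) (hR : Rng t n) (hK : (K : ℝ) ≤ (1 / 2 - ε) * n)
    (Q : Finset (Fin n)) (hQ : n ≤ 2 * Q.card + 1)
    (f : Fin K → Lv n (k0 t) → Finset (Fin n)) (hf : ∀ c u, (f c u).card ≤ k0 t) :
    ∃ a : Fin K → Lv n (k0 t) → Fin n,
      (∀ c u, a c u ∈ Q ∧ a c u ∉ u.1 ∧ a c u ∉ f c u) ∧
      (∀ c c' u, c ≠ c' → a c u ≠ a c' u) ∧
      Start n t K (fun c u => insert (a c u) u.1) := by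
  classical
  obtain ⟨M, hM1, hM2, hM3, hM4⟩ := M_exists hB hR hK
  have ht : 0 < t := by
    rcases Nat.eq_zero_or_pos t with h | h
    · have h1 := hB.b1
      rw [h] at h1
      norm_num at h1
    · exact h
  have hD0 : 0 < D0 t := Nat.pow_pos ht
  have hKn : K ≤ n := by
    have h1 : (K : ℝ) ≤ n := by
      refine hK.trans ?_
      have h2 := hB.e0
      have h3 : (0 : ℝ) ≤ n := Nat.cast_nonneg n
      nlinarith
    exact_mod_cast h1
  set cl : Fin K → Fin (M + 1) := fun c => ⟨c.1 / D0 t, by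
    apply Nat.div_lt_of_lt_mul
    rw [mul_comm]
    exact lt_of_lt_of_le c.2 hM2⟩ with hcl
  have hfib : ∀ s, (univ.filter (fun c => cl c = s)).card ≤ D0 t := by
    intro s
    have : (univ.filter (fun c => cl c = s)).card ≤ (range (D0 t)).card := by
      apply card_le_card_of_injOn (fun c => c.1 % D0 t)
      · intro c _
        rw [mem_coe, mem_range]
        exact Nat.mod_lt _ hD0
      · intro c hc c' hc' h
        rw [mem_coe, mem_filter] at hc hc'
        have h1 : cl c = cl c' := hc.2.trans hc'.2.symm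
        have h2 : c.1 / D0 t = c'.1 / D0 t := congrArg Fin.val h1
        simp only at h
        apply Fin.ext
        rw [← Nat.div_add_mod c.1 (D0 t), ← Nat.div_add_mod c'.1 (D0 t), h2, h]
    rwa [card_range] at this
  set Bs : Fin K → Lv n (k0 t) → Finset (Fin n) := fun c u => (Q \ u.1) \ f c u with hBs
  have hBcard : ∀ c u, (1 + ε / 2) * D0 t * (M + 1) ≤ (Bs c u).card := by
    intro c u
    apply hM4
    have h1 : (Q \ u.1).card - (f c u).card ≤ (Bs c u).card := le_card_sdiff _ _
    have h2 : Q.card - u.1.card ≤ (Q \ u.1).card := le_card_sdiff _ _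
    have h3 := hf c u
    have h4 := u.2
    omega
  obtain ⟨φ, p1, p2, p3⟩ := classes_exist hB hR hKn hM1 hM3 cl Bs hBcard
  set r : Fin K → Lv n (k0 t) → Lv n (k0 t + 1) → Prop := fun c u v =>
    ∃ a ∈ Bs c u, insert a u.1 = v.1 ∧ φ (u, a) = cl c with hr
  have hnot : ∀ c u a, a ∈ Bs c u → a ∈ Q ∧ a ∉ u.1 ∧ a ∉ f c u := by
    intro c u a ha
    rw [hBs] at ha
    simp only [mem_sdiff] at ha
    exact ⟨ha.1.1, ha.1.2, ha.2⟩
  obtain ⟨g, g1, g2, g3⟩ := hall_seq (k0 t + 1) (D0 t) cl hfib r (by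
    intro c u
    have h1 := p1 c u
    refine le_trans (by omega) (le_trans h1 ?_)
    apply card_le_card_of_forall_subsingleton (fun a (y : Lv n (k0 t + 1)) => insert a u.1 = y.1)
    · intro a ha
      rw [mem_filter] at ha
      have h2 := hnot c u a ha.1
      refine ⟨⟨insert a u.1, by rw [card_insert_of_notMem h2.2.1, u.2]⟩, ?_, rfl⟩
      rw [mem_filter]
      exact ⟨mem_univ _, a, ha.1, rfl, ha.2⟩
    · intro y _ a ha b hb
      have ha' : a ∈ (Bs c u).filter (fun a => φ (u, a) = cl c) ∧ insert a u.1 = y.1 := ha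
      have hb' : b ∈ (Bs c u).filter (fun a => φ (u, a) = cl c) ∧ insert b u.1 = y.1 := hb
      exact ins_inj (hnot c u a (mem_filter.1 ha'.1).1).2.1 (ha'.2.trans hb'.2.symm)) (by
    intro c y
    refine le_trans ?_ (le_of_eq y.2)
    apply card_le_card_of_forall_subsingleton (fun (x : Lv n (k0 t)) b => y.1.erase b = x.1)
    · intro x hx
      rw [mem_filter] at hx
      obtain ⟨_, a, ha, h1, _⟩ := hx
      have h2 := hnot c x a ha
      refine ⟨a, by rw [← h1]; exact mem_insert_self _ _, ?_⟩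
      rw [← h1, erase_insert h2.2.1]
    · intro b _ x hx x' hx'
      exact Subtype.ext (hx.2.symm.trans hx'.2)) (by
    intro c c' x y h h'
    obtain ⟨a, ha, h1, h2⟩ := h
    obtain ⟨a', ha', h1', h2'⟩ := h'
    have h3 : a = a' := ins_inj (hnot c x a ha).2.1 (h1.trans h1'.symm)
    subst h3
    exact h2.symm.trans h2')
  have g2' : ∀ c u, ∃ a, a ∈ Bs c u ∧ insert a u.1 = (g c u).1 ∧ φ (u, a) = cl c := by
    intro c u
    obtain ⟨a, ha⟩ := g2 c u
    exact ⟨a, ha⟩
  choose a ha1 ha2 ha3 using g2'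
  have hz : ∀ c u, insert (a c u) u.1 = (g c u).1 := ha2
  have hV : ∀ c u, Vs φ (cl c) (insert (a c u) u.1) := fun c u =>
    ⟨u, a c u, (hnot c u _ (ha1 c u)).2.1, rfl, ha3 c u⟩
  have hdist : ∀ c c' u, c ≠ c' → a c u ≠ a c' u := by
    intro c c' u hne h
    apply g3 c c' u hne
    apply Subtype.ext
    rw [← hz, ← hz, h]
  have hinj : ∀ c, Function.Injective (fun u => insert (a c u) u.1) := by
    intro c u u' h
    simp only at h
    rw [hz, hz] at h
    exact g1 c (Subtype.ext h)
  refine ⟨a, fun c u => hnot c u _ (ha1 c u), hdist, ⟨?_, hinj, ?_, ?_, ?_⟩⟩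
  · intro c u
    rw [hz, (g c u).2]
  · intro v
    by_cases hv : v.card = k0 t + 1
    · refine le_trans ?_ (le_of_eq hv)
      apply card_le_card_of_forall_subsingleton
        (fun (i : Fin K × Lv n (k0 t)) b => v.erase b = i.2.1)
      · intro i hi
        rw [mem_filter] at hi
        have h1 := hi.2
        refine ⟨a i.1 i.2, by rw [← h1]; exact mem_insert_self _ _, ?_⟩
        rw [← h1, erase_insert (hnot i.1 i.2 _ (ha1 i.1 i.2)).2.1]
      · intro b _ i hi i' hi'
        have e1 : i.2 = i'.2 := Subtype.ext (hi.2.symm.trans hi'.2)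
        obtain ⟨c, u⟩ := i
        obtain ⟨c', u'⟩ := i'
        simp only at e1
        subst e1
        have h1 : insert (a c u) u.1 = v := (mem_filter.1 hi.1).2
        have h2 : insert (a c' u) u.1 = v := (mem_filter.1 hi'.1).2
        have h3 : a c u = a c' u := ins_inj (hnot c u _ (ha1 c u)).2.1 (h1.trans h2.symm)
        have h4 : c = c' := by
          by_contra hne
          exact hdist c c' u hne h3
        rw [h4]
    · rw [filter_false_of_mem]
      · simp
      · intro i _ h
        apply hv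
        rw [← h, hz, (g i.1 i.2).2]
  · intro c y hy
    refine le_trans ?_ (p2 (cl c) y hy)
    rw [← card_image_of_injective _ (hinj c), ← Set.ncard_coe_finset]
    apply Set.ncard_le_ncard _ (Set.toFinite _)
    intro v hv
    rw [mem_coe, mem_image] at hv
    obtain ⟨u, hu, rfl⟩ := hv
    rw [mem_filter] at hu
    refine ⟨by rw [hz, (g c u).2], hu.2, hV c u⟩
  · intro c v hv
    refine le_trans (Nat.mul_le_mul_left _ ?_) (p3 (cl c) v hv)
    rw [← card_image_of_injective _ (hinj c), ← Set.ncard_coe_finset]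
    apply Set.ncard_le_ncard _ (Set.toFinite _)
    intro v' hv'
    rw [mem_coe, mem_image] at hv'
    obtain ⟨u, hu, rfl⟩ := hv'
    rw [mem_filter] at hu
    refine ⟨by rw [hz, (g c u).2], hu.2, hV c u⟩

end Pool.SCDO
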