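import Pool.Agent.Lib.SCDO.Defs
import Pool.Agent.Lib.SCDO.FS8
import Pool.Agent.Lib.SCDO.NU2

/-!
# Row FS9 (outer part of the symmetric chain decompositions)
Both ends of the outer chains.
Recipe: Q = {a | 2 a < n}.  a from first_step with Q and f c x = ζ c x; b from first_step with Qᶜ and f c u = (ζ c).symm u.
z false c x = insert (a c x) x, z true c x = insert (b c (ζ c x)) (ζ c x) (disjoint: a ∈ Q, b ∈ Qᶜ, hζ).  Start for z true: reindex by the bijection ζ c
(for `mult` reindex pairs (c,x) ↦ (c, ζ c x)).  e: enumerate (z false ∪ z true)ᶜ, of card n - 2(k0+1) = NN n t, by Finset.orderEmbOfFin.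
-/

set_option linter.unusedSectionVars false
set_option linter.unusedVariables false

namespace Pool.SCDO

open Finset Pool.SCDH

private lemma Fin.card_filter_univ_eq_range_filter_card_fs9 {n : ℕ} :
    (univ.filter (fun a : Fin n => 2 * (a : ℕ) < n)).card
      = ((Finset.range n).filter (fun a => 2 * a < n)).card := by
  refine card_bij (fun a _ => (a : ℕ)) ?_ ?_ ?_
  · intro a ha
    rw [mem_filter] at ha ⊢
    exact ⟨mem_range.2 a.2, ha.2⟩
  · intro a _ b _ h
    exact Fin.ext h
  · intro k hk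
    rw [mem_filter, mem_range] at hk
    exact ⟨⟨k, hk.1⟩, mem_filter.2 ⟨mem_univ _, hk.2⟩, rfl⟩

private lemma fs9_reindex {n t K : ℕ} (ζ : Fin K → Lv n (k0 t) ≃ Lv n (k0 t))
    (z : Fin K → Lv n (k0 t) → Finset (Fin n)) (h : Start n t K z) :
    Start n t K (fun c x => z c (ζ c x)) where
  card := fun c x => h.card c _
  inj := fun c => (h.inj c).comp (ζ c).injective
  mult := by
    intro v
    refine le_trans (card_le_card_of_injOn (fun i => (i.1, ζ i.1 i.2)) ?_ ?_) (h.mult v)
    · intro i hi
      simp only [coe_filter, mem_univ, true_and, Set.mem_ofPred_eq] at hi ⊢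
      exact hi
    · rintro ⟨c, x⟩ _ ⟨c', x'⟩ _ he
      obtain ⟨h1, h2⟩ := Prod.mk.inj he
      simp only at h1 h2
      subst h1
      rw [(ζ c).injective h2]
  down := by
    intro c y hy
    refine le_trans (card_le_card_of_injOn (fun x => ζ c x) ?_ ((ζ c).injective.injOn)) (h.down c y hy)
    intro i hi
    simp only [coe_filter, mem_univ, true_and, Set.mem_ofPred_eq] at hi ⊢
    exact hi
  near := by
    intro c v hv
    refine le_trans (Nat.mul_le_mul_left _ ?_) (h.near c v hv)
    refine card_le_card_of_injOn (fun x => ζ c x) ?_ ((ζ c).injective.injOn)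
    intro i hi
    simp only [coe_filter, mem_univ, true_and, Set.mem_ofPred_eq] at hi ⊢
    exact hi

theorem sys_exists {ε : ℝ} {t n K : ℕ} (hB : Big ε t) (hR : Rng t n) (hK : (K : ℝ) ≤ (1 / 2 - ε) * n)
    (ζ : Fin K → Lv n (k0 t) ≃ Lv n (k0 t)) (hζ : ∀ c x, Disjoint x.1 (ζ c x).1) :
    ∃ S : Sys n t K, (∀ c x, x.1 ⊆ S.z false c x) ∧ (∀ c x, (ζ c x).1 ⊆ S.z true c x) ∧
      (∀ c c' x, c ≠ c' → S.z false c x ≠ S.z false c' x) ∧
      ∀ c c' x x', c ≠ c' → S.z true c x = S.z true c' x' → ζ c x ≠ ζ c' x' := by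
  classical
  obtain ⟨Q, hQ⟩ : ∃ Q : Finset (Fin n), Q = univ.filter (fun a : Fin n => 2 * (a : ℕ) < n) := ⟨_, rfl⟩
  obtain ⟨hQ1, hQ2⟩ : n ≤ 2 * Q.card + 1 ∧ n ≤ 2 * Qᶜ.card + 1 := by
    have h1 : Q.card = (n + 1) / 2 := by
      rw [hQ]
      have h2 : (univ.filter (fun a : Fin n => 2 * (a : ℕ) < n)).card
          = ((Finset.range n).filter (fun a => 2 * a < n)).card := by
        rw [← Fin.card_filter_univ_eq_range_filter_card_fs9]
      rw [h2]
      have h3 : (Finset.range n).filter (fun a => 2 * a < n) = Finset.range ((n + 1) / 2) := by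
        ext a
        simp only [mem_filter, mem_range]
        omega
      rw [h3, card_range]
    have h2 : Qᶜ.card = n - Q.card := by rw [card_compl, Fintype.card_fin]
    omega
  obtain ⟨a, ha1, ha2, ha3⟩ := first_step hB hR hK Q hQ1 (fun c x => (ζ c x).1)
    (fun c x => (ζ c x).2.le)
  obtain ⟨b, hb1, hb2, hb3⟩ := first_step hB hR hK Qᶜ hQ2 (fun c u => ((ζ c).symm u).1)
    (fun c x => ((ζ c).symm x).2.le)
  have hins : ∀ (u : Finset (Fin n)) (p q : Fin n), p ∉ u → q ∉ u → insert p u = insert q u → p = q := by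
    intro u p q hp hq h
    have h1 : p ∈ insert q u := h ▸ mem_insert_self p u
    rcases mem_insert.1 h1 with h2 | h2
    · exact h2
    · exact absurd h2 hp
  obtain ⟨z, hz⟩ : ∃ z : Bool → Fin K → Lv n (k0 t) → Finset (Fin n),
      z = fun s c x => if s then insert (b c (ζ c x)) (ζ c x).1 else insert (a c x) x.1 := ⟨_, rfl⟩
  have hzf : ∀ c x, z false c x = insert (a c x) x.1 := fun c x => by rw [hz]; rfl
  have hzt : ∀ c x, z true c x = insert (b c (ζ c x)) (ζ c x).1 := fun c x => by rw [hz]; rfl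
  have hdisj : ∀ c x, Disjoint (z false c x) (z true c x) := by
    intro c x
    rw [hzf, hzt]
    have h1 := ha1 c x
    have h2 := hb1 c (ζ c x)
    rw [Equiv.symm_apply_apply] at h2
    rw [disjoint_insert_left, disjoint_insert_right, mem_insert, not_or]
    refine ⟨⟨?_, h1.2.2⟩, h2.2.2, hζ c x⟩
    intro h3
    have h4 := mem_compl.1 h2.1
    rw [← h3] at h4
    exact h4 h1.1
  have hcf : ∀ c x, (z false c x).card = k0 t + 1 := by
    intro c x
    rw [hzf]
    exact ha3.card c x
  have hct : ∀ c x, (z true c x).card = k0 t + 1 := by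
    intro c x
    rw [hzt]
    exact hb3.card c (ζ c x)
  have hcc : ∀ c x, ((z false c x ∪ z true c x)ᶜ).card = NN n t := by
    intro c x
    rw [card_compl, Fintype.card_fin, card_union_of_disjoint (hdisj c x), hcf, hct]
    unfold NN
    congr 1
    ring
  have hst : ∀ s, Start n t K (z s) := by
    intro s
    cases s with
    | false =>
      have h1 : z false = fun c x => insert (a c x) x.1 := by
        funext c x
        exact hzf c x
      rw [h1]
      exact ha3
    | true =>
      have h1 : z true = fun c x => insert (b c (ζ c x)) (ζ c x).1 := by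
        funext c x
        exact hzt c x
      rw [h1]
      exact fs9_reindex ζ (fun c u => insert (b c u) u.1) hb3
  refine ⟨⟨z, fun c x => (Finset.orderEmbOfFin _ (hcc c x)), hst, hdisj, fun c x => ?_, fun c x => ?_⟩,
    fun c x => ?_, fun c x => ?_, fun c c' x hc => ?_, fun c c' x x' hc he hu => ?_⟩
  · exact (Finset.orderEmbOfFin _ (hcc c x)).injective
  · ext i
    rw [mem_image]
    have h1 := Finset.range_orderEmbOfFin _ (hcc c x)
    constructor
    · rintro ⟨j, _, rfl⟩
      exact Finset.orderEmbOfFin_mem _ (hcc c x) j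
    · intro hi
      have h2 : i ∈ Set.range (Finset.orderEmbOfFin _ (hcc c x)) := by
        rw [h1]
        exact hi
      obtain ⟨j, hj⟩ := h2
      exact ⟨j, mem_univ _, hj⟩
  · show x.1 ⊆ z false c x
    rw [hzf]
    exact subset_insert _ _
  · show (ζ c x).1 ⊆ z true c x
    rw [hzt]
    exact subset_insert _ _
  · show z false c x ≠ z false c' x
    rw [hzf, hzf]
    intro h
    exact ha2 c c' x hc (hins _ _ _ (ha1 c x).2.1 (ha1 c' x).2.1 h)
  · have he' : z true c x = z true c' x' := he
    rw [hzt, hzt, ← hu] at he'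
    have h1 := (hb1 c (ζ c x)).2.1
    have h2 := (hb1 c' (ζ c x)).2.1
    exact hb2 c c' (ζ c x) hc (hins _ _ _ h1 h2 he')

end Pool.SCDO
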