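import Pool.Agent.Lib.SCDO.Defs

/-!
# Row CT (outer part of the symmetric chain decompositions)
Neighbourhoods of a set.
Recipe: A = insert a v (a ∉ v); A = v.erase b; A = insert a (v.erase b) with b ∈ v, a ∉ v (from |v \ A| = 1 and |A| = |v|).  Bound the ncard by the card of an image of univ, of univ ×ˢ univ
(Set.ncard_le_ncard with toFinite, Finset.card_image_le).  ct4: v = insert a A with a/q = g: at most q values of a.
-/

set_option linter.unusedSectionVars false
set_option linter.unusedVariables false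

namespace Pool.SCDO

open Finset Pool.SCDH

private theorem ct_le {n : ℕ} {κ : Type} [DecidableEq κ] (S : Set (Finset (Fin n))) (T : Finset κ)
    (f : κ → Finset (Fin n)) (h : ∀ A ∈ S, ∃ a ∈ T, f a = A) : S.ncard ≤ T.card := by
  have h1 : S ⊆ ((T.image f : Finset (Finset (Fin n))) : Set (Finset (Fin n))) := by
    intro A hA
    obtain ⟨a, ha, hf⟩ := h A hA
    exact Finset.mem_coe.2 (Finset.mem_image.2 ⟨a, ha, hf⟩)
  calc S.ncard ≤ ((T.image f : Finset (Finset (Fin n))) : Set (Finset (Fin n))).ncard :=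
        Set.ncard_le_ncard h1 (Finset.finite_toSet _)
    _ = (T.image f).card := Set.ncard_coe_finset _
    _ ≤ T.card := Finset.card_image_le

private theorem ct_ins {n : ℕ} {v A : Finset (Fin n)} (h : v ⊆ A) (hc : A.card = v.card + 1) :
    ∃ a, a ∉ v ∧ A \ v = {a} ∧ insert a v = A := by
  have h1 : (A \ v).card = 1 := by
    rw [Finset.card_sdiff_of_subset h]; omega
  obtain ⟨a, ha⟩ := Finset.card_eq_one.1 h1
  have h2 : a ∈ A \ v := ha ▸ Finset.mem_singleton_self a
  refine ⟨a, (Finset.mem_sdiff.1 h2).2, ha, ?_⟩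
  rw [← Finset.sdiff_union_of_subset h, ha]
  rfl

private theorem ct_swap {n : ℕ} {v A : Finset (Fin n)} (h : (v \ A).card = 1)
    (hc : A.card = v.card) : ∃ b ∈ v, ∃ a, v \ A = {b} ∧ A \ v = {a} ∧ insert a (v.erase b) = A := by
  have h1 : (A \ v).card = 1 := by
    have := Finset.card_sdiff_add_card_inter A v
    have h3 := Finset.card_sdiff_add_card_inter v A
    rw [Finset.inter_comm] at h3
    omega
  obtain ⟨a, ha⟩ := Finset.card_eq_one.1 h1
  obtain ⟨b, hb⟩ := Finset.card_eq_one.1 h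
  have h2 : b ∈ v \ A := hb ▸ Finset.mem_singleton_self b
  refine ⟨b, (Finset.mem_sdiff.1 h2).1, a, hb, ha, ?_⟩
  ext x
  have hxa : x ∈ A \ v ↔ x = a := by rw [ha]; exact Finset.mem_singleton
  have hxb : x ∈ v \ A ↔ x = b := by rw [hb]; exact Finset.mem_singleton
  rw [Finset.mem_sdiff] at hxa hxb
  rw [Finset.mem_insert, Finset.mem_erase]
  constructor
  · rintro (h5 | ⟨h5, h6⟩)
    · exact (hxa.2 h5).1
    · by_contra h7
      exact h5 (hxb.1 ⟨h6, h7⟩)
  · intro h5
    by_cases h6 : x ∈ v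
    · refine Or.inr ⟨fun h7 => (hxb.2 h7).2 h5, h6⟩
    · exact Or.inl (hxa.1 ⟨h5, h6⟩)

private theorem ct_div {n : ℕ} (q g : ℕ) (hq : 1 ≤ q) :
    ((Finset.univ : Finset (Fin n)).filter (fun a : Fin n => (a : ℕ) / q = g)).card ≤ q := by
  have h1 : ((Finset.univ : Finset (Fin n)).filter (fun a : Fin n => (a : ℕ) / q = g)).card
      ≤ (Finset.Ico (q * g) (q * g + q)).card := by
    refine Finset.card_le_card_of_injOn (fun a : Fin n => (a : ℕ)) ?_ ?_
    · intro a ha
      have h2 : (a : ℕ) / q = g := (Finset.mem_filter.1 (Finset.mem_coe.1 ha)).2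
      have h3 := Nat.div_add_mod (a : ℕ) q
      have h4 := Nat.mod_lt (a : ℕ) (show q > 0 by omega)
      rw [h2] at h3
      have h5 : q * g ≤ (a : ℕ) := by omega
      have h6 : (a : ℕ) < q * g + q := by omega
      exact Finset.mem_coe.2 (Finset.mem_Ico.2 ⟨h5, h6⟩)
    · intro a _ b _ hab
      exact Fin.ext hab
  rw [Nat.card_Ico] at h1
  omega

theorem ct1 {n : ℕ} (v : Finset (Fin n)) :
    {A : Finset (Fin n) | v ⊆ A ∧ A.card = v.card + 1}.ncard ≤ n := by
  refine (ct_le _ (Finset.univ : Finset (Fin n)) (fun a => insert a v) ?_).trans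
    (le_of_eq (by simp))
  rintro A ⟨h1, h2⟩
  obtain ⟨a, _, _, h3⟩ := ct_ins h1 h2
  exact ⟨a, Finset.mem_univ _, h3⟩

theorem ct2 {n : ℕ} (v : Finset (Fin n)) :
    {A : Finset (Fin n) | A ⊆ v ∧ v.card = A.card + 1}.ncard ≤ v.card := by
  refine ct_le _ v (fun a => v.erase a) ?_
  rintro A ⟨h1, h2⟩
  obtain ⟨a, h4, _, h3⟩ := ct_ins h1 h2
  refine ⟨a, h3 ▸ Finset.mem_insert_self a A, ?_⟩
  rw [← h3, Finset.erase_insert h4]

theorem ct3 {n : ℕ} (v : Finset (Fin n)) :
    {A : Finset (Fin n) | (v \ A).card = 1 ∧ A.card = v.card}.ncard ≤ v.card * n ∧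
    {A : Finset (Fin n) | (A \ v).card = 1 ∧ A.card = v.card}.ncard ≤ v.card * n := by
  have h0 : {A : Finset (Fin n) | (v \ A).card = 1 ∧ A.card = v.card}.ncard ≤ v.card * n := by
    refine (ct_le _ (v ×ˢ (Finset.univ : Finset (Fin n)))
      (fun p => insert p.2 (v.erase p.1)) ?_).trans (le_of_eq (by
        rw [Finset.card_product, Finset.card_univ, Fintype.card_fin]))
    rintro A ⟨h1, h2⟩
    obtain ⟨b, hb, a, _, _, h3⟩ := ct_swap h1 h2
    exact ⟨(b, a), Finset.mem_product.2 ⟨hb, Finset.mem_univ _⟩, h3⟩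
  refine ⟨h0, ?_⟩
  have h1 : {A : Finset (Fin n) | (A \ v).card = 1 ∧ A.card = v.card}
      = {A : Finset (Fin n) | (v \ A).card = 1 ∧ A.card = v.card} := by
    ext A
    simp only [Set.mem_ofPred_eq]
    have h2 := Finset.card_sdiff_add_card_inter A v
    have h3 := Finset.card_sdiff_add_card_inter v A
    rw [Finset.inter_comm] at h3
    constructor
    · rintro ⟨h4, h5⟩
      exact ⟨by omega, h5⟩
    · rintro ⟨h4, h5⟩
      exact ⟨by omega, h5⟩
  rw [h1]
  exact h0

theorem ct4 {n : ℕ} (q g : ℕ) (A : Finset (Fin n)) (hq : 1 ≤ q) :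
    {v : Finset (Fin n) | A ⊆ v ∧ v.card = A.card + 1 ∧ ∀ a ∈ v \ A, (a : ℕ) / q = g}.ncard ≤ q ∧
    {v : Finset (Fin n) | (v \ A).card = 1 ∧ v.card = A.card ∧
      ∀ a ∈ v \ A, (a : ℕ) / q = g}.ncard ≤ A.card * q := by
  constructor
  · refine (ct_le _ ((Finset.univ : Finset (Fin n)).filter (fun a : Fin n => (a : ℕ) / q = g))
      (fun a => insert a A) ?_).trans (ct_div q g hq)
    rintro v ⟨h1, h2, h3⟩
    obtain ⟨a, _, h5, h4⟩ := ct_ins h1 h2
    exact ⟨a, Finset.mem_filter.2 ⟨Finset.mem_univ _,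
      h3 a (h5 ▸ Finset.mem_singleton_self a)⟩, h4⟩
  · refine (ct_le _ (A ×ˢ ((Finset.univ : Finset (Fin n)).filter (fun a : Fin n => (a : ℕ) / q = g)))
      (fun p => insert p.2 (A.erase p.1)) ?_).trans (by
        rw [Finset.card_product]
        exact Nat.mul_le_mul_left _ (ct_div q g hq))
    rintro v ⟨h1, h2, h3⟩
    have h1' : (A \ v).card = 1 := by
      have h4 := Finset.card_sdiff_add_card_inter A v
      have h5 := Finset.card_sdiff_add_card_inter v A
      rw [Finset.inter_comm] at h5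
      omega
    obtain ⟨b, hb, a, _, h5, h4⟩ := ct_swap h1' h2
    exact ⟨(b, a), Finset.mem_product.2 ⟨hb, Finset.mem_filter.2 ⟨Finset.mem_univ _,
      h3 a (h5 ▸ Finset.mem_singleton_self a)⟩⟩, h4⟩

end Pool.SCDO
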