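import Pool.Agent.Lib.SCDO.Defs

/-!
# Row PB1 (outer part of the symmetric chain decompositions)
Prefixes of a uniform permutation.
Recipe: Equiv.Perm (Fin N) acts transitively on the sets B of card h (extend a bijection B ≃ B₀ to a permutation, e.g. Equiv.extendSubtype or
Finset-card arguments), and pre (τ * σ) h = (pre σ h).image τ, so the number of σ with prefix B does not depend on B; sum over the C(N,h) sets of card h
(powersetCard) is N!.  The same for flags B ⊆ B': there are C(N,h)(N-h) of them.
-/

set_option linter.unusedSectionVars false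
set_option linter.unusedVariables false

namespace Pool.SCDO

open Finset Pool.SCDH

private lemma card_lt {N h : ℕ} (hh : h ≤ N) :
    (univ.filter (fun j : Fin N => (j : ℕ) < h)).card = h := by
  have : (univ.filter (fun j : Fin N => (j : ℕ) < h)).card = (range h).card := by
    refine card_bij (fun j _ => (j : ℕ)) ?_ ?_ ?_
    · intro j hj
      exact mem_range.mpr (mem_filter.mp hj).2
    · intro j _ j' _ he
      exact Fin.ext he
    · intro k hk
      have hk' := mem_range.mp hk
      exact ⟨⟨k, by omega⟩, mem_filter.mpr ⟨mem_univ _, hk'⟩, rfl⟩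
  rw [this, card_range]

private lemma pre_mul {N : ℕ} (τ σ : Equiv.Perm (Fin N)) (h : ℕ) :
    pre (τ * σ) h = (pre σ h).image τ := by
  unfold pre
  rw [image_image]
  rfl

private lemma exists_perm {N : ℕ} (B B' : Finset (Fin N)) (h : B.card = B'.card) :
    ∃ τ : Equiv.Perm (Fin N), B.image τ = B' := by
  have e : {x // x ∈ B} ≃ {x // x ∈ B'} := Finset.equivOfCardEq h
  refine ⟨Equiv.extendSubtype e, ?_⟩
  apply eq_of_subset_of_card_le
  · intro x hx
    rw [mem_image] at hx
    obtain ⟨b, hb, rfl⟩ := hx
    rw [Equiv.extendSubtype_apply_of_mem e b hb]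
    exact (e ⟨b, hb⟩).2
  · rw [card_image_of_injective _ (Equiv.injective _), h]

private lemma image_inj_iff {N : ℕ} (τ : Equiv.Perm (Fin N)) (B C : Finset (Fin N)) :
    B.image τ = C.image τ ↔ B = C :=
  ⟨fun h => image_injective τ.injective h, fun h => by rw [h]⟩

theorem pre_card {N : ℕ} (σ : Equiv.Perm (Fin N)) (h : ℕ) (hh : h ≤ N) : (pre σ h).card = h := by
  unfold pre
  rw [card_image_of_injective _ σ.injective, card_lt hh]

theorem pre_mono {N : ℕ} (σ : Equiv.Perm (Fin N)) {h h' : ℕ} (hh : h ≤ h') : pre σ h ⊆ pre σ h' := by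
  unfold pre
  refine image_subset_image ?_
  intro j hj
  rw [mem_filter] at hj ⊢
  exact ⟨hj.1, by omega⟩

theorem perm_pre {N h : ℕ} (hh : h ≤ N) (B : Finset (Fin N)) (hB : B.card = h) :
    (univ.filter (fun σ : Equiv.Perm (Fin N) => pre σ h = B)).card * N.choose h = N.factorial := by
  have h1 : (univ : Finset (Equiv.Perm (Fin N))).card =
      ∑ C ∈ powersetCard h (univ : Finset (Fin N)),
        (univ.filter (fun σ : Equiv.Perm (Fin N) => pre σ h = C)).card := by
    refine card_eq_sum_card_fiberwise ?_
    intro σ _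
    rw [mem_coe, mem_powersetCard]
    exact ⟨subset_univ _, pre_card σ h hh⟩
  have h2 : ∀ C ∈ powersetCard h (univ : Finset (Fin N)),
      (univ.filter (fun σ : Equiv.Perm (Fin N) => pre σ h = C)).card =
        (univ.filter (fun σ : Equiv.Perm (Fin N) => pre σ h = B)).card := by
    intro C hC
    obtain ⟨τ, hτ⟩ := exists_perm C B (by rw [(mem_powersetCard.mp hC).2, hB])
    refine card_equiv (Equiv.mulLeft τ) fun σ => ?_
    rw [mem_filter, mem_filter, Equiv.coe_mulLeft, pre_mul, ← hτ, image_inj_iff]
    simp
  rw [sum_congr rfl h2, sum_const, card_powersetCard, card_univ, card_univ, Fintype.card_perm,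
    Fintype.card_fin, smul_eq_mul] at h1
  rw [h1, mul_comm]

theorem perm_pre2 {N h : ℕ} (hh : h + 1 ≤ N) (B B' : Finset (Fin N)) (hB : B.card = h)
    (hB' : B'.card = h + 1) (hBB : B ⊆ B') :
    (univ.filter (fun σ : Equiv.Perm (Fin N) => pre σ h = B ∧ pre σ (h + 1) = B')).card *
      (N.choose h * (N - h)) = N.factorial := by
  have h0 := perm_pre (by omega : h ≤ N) B hB
  have hex : ∀ C : Finset (Fin N), C.card = h + 1 → B ⊆ C → ∃ a, a ∉ B ∧ C = insert a B := by
    intro C hC hBC
    have h1 : (C \ B).card = 1 := by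
      rw [card_sdiff_of_subset hBC, hC, hB]; omega
    obtain ⟨a, ha⟩ := card_eq_one.mp h1
    have h2 : a ∈ C \ B := by rw [ha]; exact mem_singleton_self a
    refine ⟨a, (mem_sdiff.mp h2).2, ?_⟩
    rw [insert_eq, ← ha, sdiff_union_of_subset hBC]
  obtain ⟨a, haB, haB'⟩ := hex B' hB' hBB
  have h1 : (univ.filter (fun σ : Equiv.Perm (Fin N) => pre σ h = B)).card =
      ∑ C ∈ (Bᶜ).image (fun b => insert b B),
        ((univ.filter (fun σ : Equiv.Perm (Fin N) => pre σ h = B)).filter
          (fun σ => pre σ (h + 1) = C)).card := by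
    refine card_eq_sum_card_fiberwise ?_
    intro σ hσ
    have hσ' := (mem_filter.mp (mem_coe.mp hσ)).2
    rw [mem_coe, mem_image]
    obtain ⟨b, hb, hb'⟩ := hex (pre σ (h + 1)) (pre_card σ (h + 1) hh)
      (by rw [← hσ']; exact pre_mono σ (by omega))
    exact ⟨b, mem_compl.mpr hb, hb'.symm⟩
  have h2 : ∀ C ∈ (Bᶜ).image (fun b => insert b B),
      ((univ.filter (fun σ : Equiv.Perm (Fin N) => pre σ h = B)).filter
          (fun σ => pre σ (h + 1) = C)).card =
        (univ.filter (fun σ : Equiv.Perm (Fin N) => pre σ h = B ∧ pre σ (h + 1) = B')).card := by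
    intro C hC
    rw [mem_image] at hC
    obtain ⟨b, hb, hb'⟩ := hC
    rw [mem_compl] at hb
    rw [filter_filter]
    have e1 : B.image (Equiv.swap a b) = B := by
      apply eq_of_subset_of_card_le
      · intro x hx
        rw [mem_image] at hx
        obtain ⟨y, hy, rfl⟩ := hx
        have n1 : y ≠ a := fun h' => haB (by rw [← h']; exact hy)
        have n2 : y ≠ b := fun h' => hb (by rw [← h']; exact hy)
        rw [Equiv.swap_apply_of_ne_of_ne n1 n2]
        exact hy
      · rw [card_image_of_injective _ (Equiv.injective _)]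
    have e2 : C.image (Equiv.swap a b) = B' := by
      rw [← hb', haB', image_insert, e1, Equiv.swap_apply_right]
    refine card_equiv (Equiv.mulLeft (Equiv.swap a b)) fun σ => ?_
    have e3 : (pre σ h).image (Equiv.swap a b) = B ↔ pre σ h = B := by
      conv_lhs => rhs; rw [← e1]
      exact image_inj_iff _ _ _
    rw [mem_filter, mem_filter, Equiv.coe_mulLeft, pre_mul, pre_mul, ← e2, e3, image_inj_iff]
    simp
  rw [sum_congr rfl h2, sum_const, smul_eq_mul] at h1
  have h3 : ((Bᶜ).image (fun b => insert b B)).card = N - h := by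
    rw [card_image_of_injOn, card_compl, Fintype.card_fin, hB]
    intro b hb b' hb' he
    have hb1 := mem_compl.mp (mem_coe.mp hb)
    have h4 : b ∈ insert b' B := by
      have : b ∈ insert b B := mem_insert_self b B
      rw [show insert b B = insert b' B from he] at this
      exact this
    rcases mem_insert.mp h4 with h5 | h5
    · exact h5
    · exact absurd h5 hb1
  rw [h3] at h1
  rw [← h0, h1]
  ring

end Pool.SCDO
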