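import Pool.Agent.Lib.SCDO.Defs
import Pool.Agent.Lib.SCDO.PB1

/-!
# Row VF (outer part of the symmetric chain decompositions)
Facts about the vertices of the outer chains.
Recipe: V s i σ h = z s i ∪ e(pre (sg s σ) h), the image of e is disjoint from z false i and z true i (erng).  V_opp: with s = false, σ: the first h values of σ and
the first h' values of (revPerm.trans σ), i.e. the last h' values of σ, partition Fin N; z false ∪ z true ∪ range e = univ (erng).
-/

set_option linter.unusedSectionVars false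
set_option linter.unusedVariables false

namespace Pool.SCDO

open Finset Pool.SCDH

variable {n t K : ℕ}

private lemma vf_mem_pre {N : ℕ} (τ : Equiv.Perm (Fin N)) (h : ℕ) (j : Fin N) :
    j ∈ pre τ h ↔ ((τ.symm j : Fin N) : ℕ) < h := by
  unfold pre
  rw [mem_image]
  constructor
  · rintro ⟨l, hl, rfl⟩
    rw [mem_filter] at hl
    rw [Equiv.symm_apply_apply]
    exact hl.2
  · intro hj
    exact ⟨τ.symm j, mem_filter.2 ⟨mem_univ _, hj⟩, Equiv.apply_symm_apply _ _⟩

private lemma vf_e_notMem (S : Sys n t K) (s : Bool) (i : Fin K × Lv n (k0 t)) (j : Fin (NN n t)) :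
    S.e i.1 i.2 j ∉ S.z s i.1 i.2 := by
  have h1 : S.e i.1 i.2 j ∈ univ.image (S.e i.1 i.2) := mem_image_of_mem _ (mem_univ j)
  rw [S.erng i.1 i.2, mem_compl, mem_union] at h1
  cases s
  · exact fun h => h1 (Or.inl h)
  · exact fun h => h1 (Or.inr h)

theorem V_card (S : Sys n t K) (s : Bool) (i : Fin K × Lv n (k0 t)) (σ : Equiv.Perm (Fin (NN n t)))
    (h : ℕ) (hh : h ≤ NN n t) : (S.V s i σ h).card = k0 t + 1 + h := by
  unfold Sys.V
  rw [card_union_of_disjoint, card_image_of_injective _ (S.einj i.1 i.2), pre_card _ h hh,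
    (S.st s).card]
  rw [disjoint_left]
  intro a ha ha'
  rw [mem_image] at ha'
  obtain ⟨j, -, rfl⟩ := ha'
  exact vf_e_notMem S s i j ha

theorem V_zero (S : Sys n t K) (s : Bool) (i : Fin K × Lv n (k0 t)) (σ : Equiv.Perm (Fin (NN n t))) :
    S.V s i σ 0 = S.z s i.1 i.2 := by
  have h1 : pre (sg s σ) 0 = ∅ := by
    rw [eq_empty_iff_forall_notMem]
    intro j hj
    rw [vf_mem_pre] at hj
    exact absurd hj (Nat.not_lt_zero _)
  unfold Sys.V
  rw [h1, image_empty, union_empty]

theorem V_mono (S : Sys n t K) (s : Bool) (i : Fin K × Lv n (k0 t)) (σ : Equiv.Perm (Fin (NN n t)))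
    {h h' : ℕ} (hh : h ≤ h') : S.V s i σ h ⊆ S.V s i σ h' :=
  union_subset_union (subset_refl _) (image_subset_image (pre_mono _ hh))

theorem V_opp (S : Sys n t K) (i : Fin K × Lv n (k0 t)) (σ : Equiv.Perm (Fin (NN n t)))
    (h h' : ℕ) (hh : h + h' = NN n t) : S.V true i σ h' = (S.V false i σ h)ᶜ := by
  have hd := S.disj i.1 i.2
  rw [disjoint_left] at hd
  have himg : ∀ (τ : Equiv.Perm (Fin (NN n t))) (l : ℕ) (j : Fin (NN n t)),
      S.e i.1 i.2 j ∈ (pre τ l).image (S.e i.1 i.2) ↔ ((τ.symm j : Fin (NN n t)) : ℕ) < l := by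
    intro τ l j
    rw [← vf_mem_pre τ l j]
    exact mem_image.trans ⟨fun ⟨j', h1, h2⟩ => (S.einj i.1 i.2 h2) ▸ h1, fun h1 => ⟨j, h1, rfl⟩⟩
  have hnot : ∀ (τ : Equiv.Perm (Fin (NN n t))) (l : ℕ) (s : Bool) (a : Fin n),
      a ∈ S.z s i.1 i.2 → a ∉ (pre τ l).image (S.e i.1 i.2) := by
    intro τ l s a ha h1
    rw [mem_image] at h1
    obtain ⟨j, -, rfl⟩ := h1
    exact vf_e_notMem S s i j ha
  ext a
  unfold Sys.V
  rw [mem_compl, mem_union, mem_union]
  by_cases h1 : a ∈ S.z true i.1 i.2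
  · have h2 : a ∉ S.z false i.1 i.2 := fun h2 => hd h2 h1
    exact ⟨fun _ h3 => h3.elim h2 (hnot _ _ true a h1), fun _ => Or.inl h1⟩
  · by_cases h2 : a ∈ S.z false i.1 i.2
    · exact ⟨fun h3 => absurd (h3.resolve_left h1) (hnot _ _ false a h2),
        fun h3 => absurd (Or.inl h2) h3⟩
    · have h3 : a ∈ univ.image (S.e i.1 i.2) := by
        rw [S.erng i.1 i.2, mem_compl, mem_union]
        rintro (h4 | h4)
        · exact h2 h4
        · exact h1 h4
      rw [mem_image] at h3
      obtain ⟨j, -, rfl⟩ := h3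
      have h5 : S.e i.1 i.2 j ∈ S.z true i.1 i.2 ∨
          S.e i.1 i.2 j ∈ (pre (sg true σ) h').image (S.e i.1 i.2) ↔
            (((sg true σ).symm j : Fin (NN n t)) : ℕ) < h' := by
        rw [← himg]
        exact ⟨fun h4 => h4.resolve_left h1, Or.inr⟩
      have h6 : S.e i.1 i.2 j ∈ S.z false i.1 i.2 ∨
          S.e i.1 i.2 j ∈ (pre (sg false σ) h).image (S.e i.1 i.2) ↔
            (((sg false σ).symm j : Fin (NN n t)) : ℕ) < h := by
        rw [← himg]
        exact ⟨fun h4 => h4.resolve_left h2, Or.inr⟩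
      rw [h5, h6]
      have h7 : (sg false σ).symm j = σ.symm j := rfl
      have h8 : (sg true σ).symm j = Fin.rev (σ.symm j) := rfl
      rw [h7, h8, Fin.val_rev]
      have h9 := (σ.symm j).isLt
      omega

end Pool.SCDO
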