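import Pool.Agent.Lib.SCDO.Defs
import Pool.Agent.Lib.SCDO.VF
import Pool.Agent.Lib.SCDO.CT
import Pool.Agent.Lib.SCDO.NU2

/-!
# Row CN1 (outer part of the symmetric chain decompositions)
Number of regions of kinds 1, 2, 3 hit by one chain.
Recipe: sum_P_le: exchange sum and expectation: E of the number of ρ with Hit ρ (φ i) (E_sum, E_mono, E_const).  Kinds 1, 2: for each s (2) and h (n+1, only those with h ≤ N matter: 2h ≤ N+1, and h ≤ N because N ≥ 2) the set A is in ct1 resp. ct2 of V s i σ h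
(V_card), ≤ n; kind 3: c = i.1, A in ct2 of V s i σ 1.  2(n+1)n ≤ (n+1)^4.
-/

set_option linter.unusedSectionVars false
set_option linter.unusedVariables false

namespace Pool.SCDO

open Finset Pool.SCDH Pool.Agent.SK

private theorem cn_fib {α β : Type} [Fintype α] [Fintype β] (S : Set (α × β)) (m : ℕ)
    (h : ∀ a, {b | (a, b) ∈ S}.ncard ≤ m) : S.ncard ≤ Fintype.card α * m := by
  classical
  rw [Set.ncard_eq_toFinset_card' S]
  have h1 := Finset.card_le_mul_card_image_of_maps_to (f := (Prod.fst : α × β → α))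
    (s := S.toFinset) (t := Finset.univ) (fun _ _ => Finset.mem_univ _) m (fun a _ => by
      refine le_trans ?_ (h a)
      rw [Set.ncard_eq_toFinset_card' {b | (a, b) ∈ S}]
      refine Finset.card_le_card_of_injOn (Prod.snd : α × β → β) ?_ ?_
      · rintro ⟨a', b⟩ hp
        have h2 := Finset.mem_filter.1 (Finset.mem_coe.1 hp)
        have h3 : (a', b) ∈ S := Set.mem_toFinset.1 h2.1
        have h4 : a' = a := h2.2
        subst h4
        exact Finset.mem_coe.2 (Set.mem_toFinset.2 h3)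
      · rintro ⟨a1, b1⟩ hp ⟨a2, b2⟩ hq hpq
        have h2 := (Finset.mem_filter.1 (Finset.mem_coe.1 hp)).2
        have h3 := (Finset.mem_filter.1 (Finset.mem_coe.1 hq)).2
        have h4 : a1 = a2 := Eq.trans h2 (Eq.symm h3)
        have h5 : b1 = b2 := hpq
        rw [h4, h5])
  rw [Finset.card_univ, Nat.mul_comm] at h1
  exact h1

theorem sum_P_le {V κ R : Type} [Fintype V] [DecidableEq V] [Fintype κ] [Nonempty κ] [Fintype R]
    (Hit : R → κ → Prop) (i : V) (m : ℕ) (h : ∀ σ, {ρ | Hit ρ σ}.ncard ≤ m) :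
    ∑ ρ, P (fun φ : V → κ => Hit ρ (φ i)) ≤ m := by
  classical
  unfold P
  rw [← E_sum]
  refine le_trans (E_mono (g := fun _ => (m : ℝ)) (fun φ => ?_)) (le_of_eq (E_const _))
  have h1 := h (φ i)
  rw [Set.ncard_eq_toFinset_card'] at h1
  rw [Finset.sum_boole]
  refine Nat.cast_le.2 (le_trans (Finset.card_le_card ?_) h1)
  intro ρ hρ
  exact Set.mem_toFinset.2 (Finset.mem_filter.1 hρ).2

variable {n t K : ℕ}

private theorem cn_num (n : ℕ) : 2 * ((n + 1) * n) ≤ (n + 1) ^ 4 := by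
  rcases Nat.eq_zero_or_pos n with h | h
  · subst h; simp
  · have h1 : 2 ≤ n + 1 := by omega
    calc 2 * ((n + 1) * n) ≤ (n + 1) * ((n + 1) * (n + 1)) :=
          Nat.mul_le_mul h1 (Nat.mul_le_mul_left _ (Nat.le_succ n))
      _ = (n + 1) ^ 3 := by ring
      _ ≤ (n + 1) ^ 4 := Nat.pow_le_pow_right (by omega) (by omega)

theorem cnt1 {ε : ℝ} (hB : Big ε t) (hR : Rng t n) (S : Sys n t K) (i : Fin K × Lv n (k0 t))
    (σ : Equiv.Perm (Fin (NN n t))) : {ρ | S.Hit1 ρ i σ}.ncard ≤ (n + 1) ^ 4 := by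
  refine le_trans ?_ (cn_num n)
  refine le_trans (cn_fib _ ((n + 1) * n) (fun s => ?_)) (le_of_eq (by rw [Fintype.card_bool]))
  refine le_trans (cn_fib _ n (fun h => ?_)) (le_of_eq (by rw [Fintype.card_fin]))
  refine le_trans (Set.ncard_le_ncard ?_ (Set.toFinite _)) (ct1 (S.V s i σ h))
  rintro A ⟨h1, h2, h3, h4⟩
  have h5 := V_card S s i σ (h : ℕ) (by simp only at h1 h2; omega)
  refine ⟨h4, ?_⟩
  simp only at h3
  omega

theorem cnt2 {ε : ℝ} (hB : Big ε t) (hR : Rng t n) (S : Sys n t K) (i : Fin K × Lv n (k0 t))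
    (σ : Equiv.Perm (Fin (NN n t))) : {ρ | S.Hit2 ρ i σ}.ncard ≤ (n + 1) ^ 4 := by
  refine le_trans ?_ (cn_num n)
  refine le_trans (cn_fib _ ((n + 1) * n) (fun s => ?_)) (le_of_eq (by rw [Fintype.card_bool]))
  refine le_trans (cn_fib _ n (fun h => ?_)) (le_of_eq (by rw [Fintype.card_fin]))
  refine le_trans (Set.ncard_le_ncard ?_ (Set.toFinite _))
    (le_trans (ct2 (S.V s i σ h)) (card_finset_fin_le _))
  rintro A ⟨h1, h2, h3, h4⟩
  have h5 := V_card S s i σ (h : ℕ) (by simp only at h1 h2; omega)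
  refine ⟨h4, ?_⟩
  simp only at h3
  omega

theorem cnt3 {ε : ℝ} (hB : Big ε t) (hR : Rng t n) (S : Sys n t K) (i : Fin K × Lv n (k0 t))
    (σ : Equiv.Perm (Fin (NN n t))) : {ρ | S.Hit3 ρ i σ}.ncard ≤ (n + 1) ^ 4 := by
  have hN := ob_NN hB hR
  have ht := ob_t hB
  have h0 : 1 ≤ NN n t := by
    have h1 : 1 ≤ t ^ 200 := Nat.one_le_pow _ _ (lt_of_lt_of_le (by norm_num) ht)
    have h2 := hN.2.1
    omega
  refine le_trans ?_ (cn_num n)
  refine le_trans (cn_fib _ ((n + 1) * n) (fun s => ?_)) (le_of_eq (by rw [Fintype.card_bool]))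
  refine le_trans ?_ (Nat.le_mul_of_pos_left n (Nat.succ_pos n))
  refine le_trans ?_ (le_trans (ct2 (S.V s i σ 1)) (card_finset_fin_le _))
  refine Set.ncard_le_ncard_of_injOn (Prod.snd : Fin K × Finset (Fin n) → Finset (Fin n)) ?_ ?_
    (Set.toFinite _)
  · rintro ⟨c, A⟩ ⟨h1, h2, h3, h4⟩
    have h5 := V_card S s i σ 1 h0
    refine ⟨h3, ?_⟩
    simp only at h2 ⊢
    omega
  · rintro ⟨c, A⟩ ⟨h1, h2, h3, h4⟩ ⟨c', A'⟩ ⟨h1', h2', h3', h4'⟩ hA
    have h6 : A = A' := hA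
    have h7 : c = c' := Eq.trans (Eq.symm h1) h1'
    rw [h6, h7]

end Pool.SCDO
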