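import Pool.Agent.Lib.SCDO.Defs
import Pool.Agent.Lib.SCDO.VF
import Pool.Agent.Lib.SCDO.CT
import Pool.Agent.Lib.SCDO.NU2

/-!
# Row CN2 (outer part of the symmetric chain decompositions)
Number of regions of kinds 4, 5, 6 hit by one chain.
Recipe: kind 4: c = i.1, s (2), h (n+1), A in the first set of ct3 for V s i σ h: ≤ n·n.  kind 5: s, g (n+1), A in ct2 of V s i σ 1.  kind 6: c = i.1, s, g (n+1), A in ct3 of V s i σ 1: ≤ n·n.
2(n+1)n² ≤ (n+1)^4 (n ≥ 1... n ≥ t^200 ≥ 2).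
-/

set_option linter.unusedSectionVars false
set_option linter.unusedVariables false

namespace Pool.SCDO

open Finset Pool.SCDH Pool.Agent.SK

private theorem cn2_fib {α β : Type} [Fintype α] [Fintype β] (R : Set (α × β)) (m : ℕ)
    (h : ∀ a, {b | (a, b) ∈ R}.ncard ≤ m) : R.ncard ≤ Fintype.card α * m := by
  classical
  have h1 : R.ncard = (univ.filter (fun p : α × β => p ∈ R)).card := by
    rw [← Set.ncard_coe_finset]; congr 1; ext p; simp
  rw [h1, Finset.card_eq_sum_card_fiberwise (f := Prod.fst) (t := (univ : Finset α))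
    (fun x _ => Finset.mem_coe.2 (Finset.mem_univ _))]
  calc ∑ a : α, ((univ.filter (fun p : α × β => p ∈ R)).filter (fun p => p.1 = a)).card
      ≤ ∑ a : α, m := by
        refine Finset.sum_le_sum (fun a _ => ?_)
        refine le_trans ?_ (h a)
        have h2 : {b | (a, b) ∈ R}.ncard = (univ.filter (fun b : β => (a, b) ∈ R)).card := by
          rw [← Set.ncard_coe_finset]; congr 1; ext p; simp
        rw [h2]
        refine Finset.card_le_card_of_injOn Prod.snd ?_ ?_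
        · rintro ⟨a', b⟩ hp
          simp only [Finset.coe_filter, Finset.mem_filter, Finset.mem_univ, true_and,
            Set.mem_setOf_eq] at hp ⊢
          obtain ⟨hp1, rfl⟩ := hp
          exact hp1
        · rintro ⟨a', b⟩ hp ⟨a'', b'⟩ hp' hbb
          simp only [Finset.coe_filter, Finset.mem_filter, Finset.mem_univ, true_and,
            Set.mem_setOf_eq] at hp hp'
          obtain ⟨-, rfl⟩ := hp
          obtain ⟨-, rfl⟩ := hp'
          simp only at hbb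
          rw [hbb]
    _ = Fintype.card α * m := by simp

private theorem cn2_two {n : ℕ} (R : Set (Bool × Fin (n + 1) × Finset (Fin n))) (m : ℕ)
    (h : ∀ s g, {A | (s, g, A) ∈ R}.ncard ≤ m) : R.ncard ≤ 2 * ((n + 1) * m) := by
  have h1 := cn2_fib R ((n + 1) * m) (fun s => by
    have h2 := cn2_fib {b | (s, b) ∈ R} m (fun g => h s g)
    simpa using h2)
  simpa using h1

private theorem cn2_three {n K : ℕ} (R : Set (Bool × Fin K × Fin (n + 1) × Finset (Fin n)))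
    (c : Fin K) (m : ℕ) (hc : ∀ ρ ∈ R, c = ρ.2.1)
    (h : ∀ s g, {A | (s, c, g, A) ∈ R}.ncard ≤ m) : R.ncard ≤ 2 * ((n + 1) * m) := by
  classical
  refine le_trans ?_ (cn2_two {q : Bool × Fin (n + 1) × Finset (Fin n) | (q.1, c, q.2.1, q.2.2) ∈ R}
    m (fun s g => h s g))
  refine Set.ncard_le_ncard_of_injOn (fun ρ => (ρ.1, ρ.2.2.1, ρ.2.2.2)) ?_ ?_ (Set.toFinite _)
  · rintro ⟨s, c', g, A⟩ hρ
    have := hc _ hρ
    simp only at this
    subst this
    exact hρ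
  · rintro ⟨s, c', g, A⟩ hρ ⟨s', c'', g', A'⟩ hρ' he
    have h1 := hc _ hρ
    have h2 := hc _ hρ'
    simp only at h1 h2
    subst h1
    subst h2
    simp only [Prod.mk.injEq] at he
    obtain ⟨rfl, rfl, rfl⟩ := he
    rfl

private theorem cn2_num (n : ℕ) : 2 * ((n + 1) * (n * n)) ≤ (n + 1) ^ 4 ∧
    2 * ((n + 1) * n) ≤ (n + 1) ^ 4 := by
  constructor
  · nlinarith [Nat.zero_le n, Nat.zero_le (n * n), Nat.zero_le (n * n * n),
      Nat.zero_le (n * n * n * n)]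
  · nlinarith [Nat.zero_le n, Nat.zero_le (n * n), Nat.zero_le (n * n * n),
      Nat.zero_le (n * n * n * n)]

private theorem cn2_le {n : ℕ} (V : Finset (Fin n)) : V.card ≤ n := by
  simpa using Finset.card_le_univ V

variable {n t K : ℕ}

private theorem cn2_NN {ε : ℝ} (hB : Big ε t) (hR : Rng t n) : 1 ≤ NN n t := by
  have h1 := ob_t hB
  have h2 := (ob_NN hB hR).2.1
  have h3 : 1 ≤ t ^ 200 := Nat.one_le_pow _ _ (by omega)
  omega

theorem cnt4 {ε : ℝ} (hB : Big ε t) (hR : Rng t n) (S : Sys n t K) (i : Fin K × Lv n (k0 t))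
    (σ : Equiv.Perm (Fin (NN n t))) : {ρ | S.Hit4 ρ i σ}.ncard ≤ (n + 1) ^ 4 := by
  refine le_trans (cn2_three _ i.1 (n * n) (fun ρ hρ => hρ.1) (fun s g => ?_)) (cn2_num n).1
  refine le_trans ?_ (Nat.mul_le_mul_right n (cn2_le (S.V s i σ g)))
  by_cases hg : 2 ≤ (g : ℕ) ∧ 2 * (g : ℕ) ≤ NN n t + 1
  · refine le_trans (Set.ncard_le_ncard ?_ (Set.toFinite _)) (ct3 (S.V s i σ g)).1
    rintro A ⟨-, h1, h2, h3, h4⟩
    simp only at h1 h2 h3 h4
    refine ⟨h4, ?_⟩
    rw [V_card S s i σ g (by omega)]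
    exact h3
  · have : {A | (s, i.1, g, A) ∈ {ρ | S.Hit4 ρ i σ}} = ∅ := by
      ext A
      simp only [Set.mem_setOf_eq, Set.mem_empty_iff_false, iff_false]
      rintro ⟨-, h1, h2, -, -⟩
      exact hg ⟨h1, h2⟩
    rw [this]
    simp

theorem cnt5 {ε : ℝ} (hB : Big ε t) (hR : Rng t n) (S : Sys n t K) (i : Fin K × Lv n (k0 t))
    (σ : Equiv.Perm (Fin (NN n t))) : {ρ | S.Hit5 ρ i σ}.ncard ≤ (n + 1) ^ 4 := by
  refine le_trans (cn2_two _ n (fun s g => ?_)) (cn2_num n).2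
  refine le_trans ?_ (cn2_le (S.V s i σ 1))
  refine le_trans (Set.ncard_le_ncard ?_ (Set.toFinite _)) (ct2 (S.V s i σ 1))
  rintro A ⟨h1, h2, h3⟩
  simp only at h1 h2 h3
  refine ⟨h2, ?_⟩
  rw [V_card S s i σ 1 (cn2_NN hB hR), h1]

theorem cnt6 {ε : ℝ} (hB : Big ε t) (hR : Rng t n) (S : Sys n t K) (i : Fin K × Lv n (k0 t))
    (σ : Equiv.Perm (Fin (NN n t))) : {ρ | S.Hit6 ρ i σ}.ncard ≤ (n + 1) ^ 4 := by
  refine le_trans (cn2_three _ i.1 (n * n) (fun ρ hρ => hρ.1) (fun s g => ?_)) (cn2_num n).1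
  refine le_trans ?_ (Nat.mul_le_mul_right n (cn2_le (S.V s i σ 1)))
  refine le_trans (Set.ncard_le_ncard ?_ (Set.toFinite _)) (ct3 (S.V s i σ 1)).1
  rintro A ⟨-, h1, h2, h3⟩
  simp only at h1 h2 h3
  refine ⟨h2, ?_⟩
  rw [V_card S s i σ 1 (cn2_NN hB hR), h1]

end Pool.SCDO
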