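import Pool.Agent.Lib.SCDO.Defs
import Pool.Agent.Lib.SCDO.NU2

/-!
# Row NU1 (outer part of the symmetric chain decompositions)
Ratio of binomial coefficients.
Recipe: a.ascFactorial: C(k0+1+h, k0+1) h! = (k0+2).ascFactorial h (C(k0+1+h,k0+1) = C(k0+1+h,h); Nat.ascFactorial_eq_factorial_mul_choose), C(N,h) h! = (N-h+1).ascFactorial h.
Split off the first m factors (Nat.ascFactorial ... add, or ascFactorial as a product): (k0+2).asc m ≤ (k0+4)^m ≤ (2 t^50)^m, (N-h+1).asc m ≥ (N-h+1)^m ≥ (t^200/4)^m because 2h ≤ N+1 and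
t^200 ≤ 2N; the remaining factors k0+1+j ≤ N-h+j.  t^(150m-1) (2 t^50)^m = 2^m t^(200m-1) ≤ (t^200/4)^m as 8^m ≤ t.
-/

set_option linter.unusedSectionVars false
set_option linter.unusedVariables false

namespace Pool.SCDO

open Finset Pool.SCDH

private lemma first_factors {t a b m : ℕ} (ht : 512 ≤ t) (hm1 : 1 ≤ m) (hm3 : m ≤ 3)
    (hb : b + 2 ≤ 2 * t ^ 50) (ha : t ^ 200 ≤ 4 * a) :
    t ^ (150 * m - 1) * ∏ i ∈ range m, (b + i) ≤ ∏ i ∈ range m, (a + i) := by
  have h1 : ∏ i ∈ range m, (b + i) ≤ (2 * t ^ 50) ^ m := by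
    calc ∏ i ∈ range m, (b + i) ≤ ∏ _i ∈ range m, (2 * t ^ 50) := by
          refine Finset.prod_le_prod (fun i _ => Nat.zero_le _) fun i hi => ?_
          have := Finset.mem_range.mp hi
          omega
      _ = (2 * t ^ 50) ^ m := by rw [Finset.prod_const, Finset.card_range]
  have h2 : (t ^ 200) ^ m ≤ 4 ^ m * ∏ i ∈ range m, (a + i) := by
    calc (t ^ 200) ^ m = ∏ _i ∈ range m, t ^ 200 := by rw [Finset.prod_const, Finset.card_range]
      _ ≤ ∏ i ∈ range m, (4 * (a + i)) := by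
          refine Finset.prod_le_prod (fun i _ => Nat.zero_le _) fun i hi => ?_
          omega
      _ = 4 ^ m * ∏ i ∈ range m, (a + i) := by
          rw [Finset.prod_mul_distrib, Finset.prod_const, Finset.card_range]
  have h3 : 8 ^ m ≤ t := by
    calc 8 ^ m ≤ 8 ^ 3 := Nat.pow_le_pow_right (by norm_num) hm3
      _ = 512 := by norm_num
      _ ≤ t := ht
  have h4 : 4 ^ m * (t ^ (150 * m - 1) * ∏ i ∈ range m, (b + i)) ≤
      4 ^ m * ∏ i ∈ range m, (a + i) := by
    refine le_trans ?_ h2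
    calc 4 ^ m * (t ^ (150 * m - 1) * ∏ i ∈ range m, (b + i))
        ≤ 4 ^ m * (t ^ (150 * m - 1) * (2 * t ^ 50) ^ m) :=
          Nat.mul_le_mul_left _ (Nat.mul_le_mul_left _ h1)
      _ = 8 ^ m * (t ^ (150 * m - 1) * (t ^ 50) ^ m) := by
          rw [mul_pow]
          have : 8 ^ m = 4 ^ m * 2 ^ m := by rw [← mul_pow]; norm_num
          rw [this]; ring
      _ ≤ t * (t ^ (150 * m - 1) * (t ^ 50) ^ m) := Nat.mul_le_mul_right _ h3
      _ = (t ^ 200) ^ m := by
          rw [← pow_mul, ← pow_mul, ← pow_add, ← pow_succ']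
          congr 1
          omega
  exact Nat.le_of_mul_le_mul_left h4 (by positivity)

theorem phi_le {ε : ℝ} {t n h m : ℕ} (hB : Big ε t) (hR : Rng t n) (hm1 : 1 ≤ m) (hm3 : m ≤ 3)
    (hmh : m ≤ h) (hh : 2 * h ≤ NN n t + 1) :
    t ^ (150 * m - 1) * (k0 t + 1 + h).choose (k0 t + 1) ≤ (NN n t).choose h := by
  have ht0 := ob_t hB
  have ht : 512 ≤ t := le_trans (by norm_num) ht0
  obtain ⟨-, hN, -⟩ := ob_NN hB hR
  have hT : 512 ≤ t ^ 50 := ht.trans (Nat.le_self_pow (by norm_num) t)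
  have hT4 : 4 * (t ^ 50 + 4) ≤ t ^ 200 := by
    have e : t ^ 200 = t ^ 50 * t ^ 150 := by rw [← pow_add]
    have h1 : 512 ≤ t ^ 150 := ht.trans (Nat.le_self_pow (by norm_num) t)
    rw [e]
    have h2 : t ^ 50 * 512 ≤ t ^ 50 * t ^ 150 := Nat.mul_le_mul_left _ h1
    omega
  unfold k0
  generalize NN n t = N at hh hN
  have hhN : h ≤ N := by omega
  -- ascending factorials
  have e1 : (t ^ 50 + 1 + h).choose (t ^ 50 + 1) = (t ^ 50 + 1 + h).choose h := by
    rw [← Nat.choose_symm_add]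
  have e2 := Nat.ascFactorial_eq_factorial_mul_choose (t ^ 50 + 1) h
  have e3 := Nat.ascFactorial_eq_factorial_mul_choose (N - h) h
  rw [Nat.sub_add_cancel hhN] at e3
  rw [Nat.ascFactorial_eq_prod_range] at e2 e3
  have key : t ^ (150 * m - 1) * ∏ i ∈ range h, (t ^ 50 + 1 + 1 + i) ≤
      ∏ i ∈ range h, (N - h + 1 + i) := by
    have ha : t ^ 200 ≤ 4 * (N - h + 1) := by omega
    have hab : t ^ 50 + 1 + 1 ≤ N - h + 1 := by omega
    generalize N - h + 1 = a at ha hab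
    obtain ⟨r, rfl⟩ := Nat.exists_eq_add_of_le hmh
    rw [Finset.prod_range_add, Finset.prod_range_add, ← mul_assoc]
    refine Nat.mul_le_mul (first_factors ht hm1 hm3 (by omega) ha) ?_
    refine Finset.prod_le_prod (fun i _ => Nat.zero_le _) fun i _ => ?_
    omega
  rw [e2, e3] at key
  rw [e1]
  have h5 : h.factorial * (t ^ (150 * m - 1) * (t ^ 50 + 1 + h).choose h) ≤
      h.factorial * N.choose h := by
    refine le_trans (le_of_eq ?_) key
    ring
  exact Nat.le_of_mul_le_mul_left h5 (Nat.factorial_pos h)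

end Pool.SCDO
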