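import Pool.Agent.Lib.SCDO.Defs
import Pool.Agent.Lib.SCDO.PB1
import Pool.Agent.Lib.SCDO.VF

/-!
# Row PB3 (outer part of the symmetric chain decompositions)
Probabilities of vertices and edges of one outer chain.
-/

set_option linter.unusedSectionVars false
set_option linter.unusedVariables false

namespace Pool.SCDO

open Finset Pool.SCDH Pool.Agent.SK

variable {n t K : ℕ}

theorem P_label (i : Fin K × Lv n (k0 t)) (F : Equiv.Perm (Fin (NN n t)) → Prop) [DecidablePred F] :
    P (fun φ : Lbo n t K => F (φ i)) = ((univ.filter F).card : ℝ) / ((NN n t).factorial : ℝ) := by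
  have h1 := E_coord (V := Fin K × Lv n (k0 t)) (κ := Equiv.Perm (Fin (NN n t))) i
    (fun σ => if F σ then (1 : ℝ) else 0)
  unfold P
  have h2 : E (fun φ : Lbo n t K => if F (φ i) then (1 : ℝ) else 0)
      = ((univ.filter F).card : ℝ) / ((NN n t).factorial : ℝ) := by
    rw [h1, Finset.sum_boole, Fintype.card_perm, Fintype.card_fin]
  rw [← h2]
  refine E_congr (fun φ => ?_)
  congr

private theorem pb3_sg {N : ℕ} (s : Bool) (Q : Equiv.Perm (Fin N) → Prop) [DecidablePred Q] :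
    (univ.filter (fun σ => Q (sg s σ))).card = (univ.filter Q).card := by
  cases s
  · simp [sg]
  · refine Finset.card_bij (fun σ _ => sg true σ) ?_ ?_ ?_
    · intro σ hσ
      rw [mem_filter] at hσ ⊢
      exact ⟨mem_univ _, hσ.2⟩
    · intro σ _ τ _ h
      simp only [sg, if_true] at h
      ext j
      have := congrArg (fun ρ : Equiv.Perm (Fin N) => ρ (Fin.revPerm.symm j)) h
      simpa using congrArg Fin.val this
    · intro τ hτ
      refine ⟨Fin.revPerm.symm.trans τ, ?_, ?_⟩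
      · rw [mem_filter] at hτ ⊢
        refine ⟨mem_univ _, ?_⟩
        have h1 : sg true (Fin.revPerm.symm.trans τ) = τ := by
          simp only [sg, if_true]
          ext j
          simp
        rw [h1]
        exact hτ.2
      · simp only [sg, if_true]
        ext j
        simp

/-- the free directions are not in the starting vertices -/
private theorem pb3_e_notMem (S : Sys n t K) (s : Bool) (i : Fin K × Lv n (k0 t)) (j : Fin (NN n t)) :
    S.e i.1 i.2 j ∉ S.z s i.1 i.2 := by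
  have h1 : S.e i.1 i.2 j ∈ (S.z false i.1 i.2 ∪ S.z true i.1 i.2)ᶜ := by
    rw [← S.erng i.1 i.2]
    exact mem_image_of_mem _ (mem_univ j)
  rw [mem_compl, mem_union, not_or] at h1
  cases s
  · exact h1.1
  · exact h1.2

/-- the prefix is determined by the vertex -/
private theorem pb3_pre (S : Sys n t K) (s : Bool) (i : Fin K × Lv n (k0 t)) (h : ℕ)
    (σ : Equiv.Perm (Fin (NN n t))) (v : Finset (Fin n)) (hv : S.V s i σ h = v) :
    pre (sg s σ) h = univ.filter (fun j => S.e i.1 i.2 j ∈ v) := by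
  ext j
  rw [mem_filter, ← hv]
  unfold Sys.V
  rw [mem_union, mem_image]
  constructor
  · intro hj
    exact ⟨mem_univ _, Or.inr ⟨j, hj, rfl⟩⟩
  · rintro ⟨-, hj | ⟨j', hj', hjj⟩⟩
    · exact absurd hj (pb3_e_notMem S s i j)
    · rw [← S.einj i.1 i.2 hjj]
      exact hj'

private theorem pb3_z_sub (S : Sys n t K) (s : Bool) (i : Fin K × Lv n (k0 t)) (h : ℕ)
    (σ : Equiv.Perm (Fin (NN n t))) : S.z s i.1 i.2 ⊆ S.V s i σ h := by
  unfold Sys.V
  exact subset_union_left

private theorem pb3_false (A : Lbo n t K → Prop) (hA : ∀ φ, ¬ A φ) : P A = 0 := by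
  have h1 : P A = E (fun _ : Lbo n t K => (0 : ℝ)) := by
    unfold P
    refine E_congr (fun φ => ?_)
    rw [if_neg (hA φ)]
  rw [h1, E_const]

theorem V_prob (S : Sys n t K) (s : Bool) (i : Fin K × Lv n (k0 t)) (h : ℕ) (hh : h ≤ NN n t)
    (v : Finset (Fin n)) :
    P (fun φ : Lbo n t K => S.V s i (φ i) h = v)
      ≤ if S.z s i.1 i.2 ⊆ v then 1 / ((NN n t).choose h : ℝ) else 0 := by
  classical
  by_cases hz : S.z s i.1 i.2 ⊆ v
  swap
  · rw [if_neg hz]
    refine le_of_eq (pb3_false _ (fun φ hφ => hz ?_))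
    rw [← hφ]
    exact pb3_z_sub S s i h (φ i)
  rw [if_pos hz]
  set B : Finset (Fin (NN n t)) := univ.filter (fun j => S.e i.1 i.2 j ∈ v) with hBdef
  by_cases hB : B.card = h
  swap
  · have h0 : P (fun φ : Lbo n t K => S.V s i (φ i) h = v) = 0 := by
      refine pb3_false _ (fun φ hφ => hB ?_)
      rw [hBdef, ← pb3_pre S s i h (φ i) v hφ, pre_card _ h hh]
    rw [h0]
    positivity
  have h1 : P (fun φ : Lbo n t K => S.V s i (φ i) h = v)
      ≤ P (fun φ : Lbo n t K => pre (sg s (φ i)) h = B) :=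
    P_mono (fun φ hφ => pb3_pre S s i h (φ i) v hφ)
  refine h1.trans ?_
  rw [P_label i (fun σ => pre (sg s σ) h = B), pb3_sg s (fun σ => pre σ h = B)]
  have h2 := perm_pre hh B hB
  have h3 : (0 : ℝ) < ((NN n t).choose h : ℝ) := by exact_mod_cast Nat.choose_pos hh
  have h4 : (0 : ℝ) < ((NN n t).factorial : ℝ) := by exact_mod_cast Nat.factorial_pos _
  rw [div_le_div_iff₀ h4 h3]
  have h5 : ((univ.filter (fun σ : Equiv.Perm (Fin (NN n t)) => pre σ h = B)).card : ℝ)
      * ((NN n t).choose h : ℝ) = ((NN n t).factorial : ℝ) := by exact_mod_cast h2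
  rw [h5, one_mul]

theorem V_prob2 (S : Sys n t K) (s : Bool) (i : Fin K × Lv n (k0 t)) (h : ℕ) (hh : h + 1 ≤ NN n t)
    (v v' : Finset (Fin n)) :
    P (fun φ : Lbo n t K => S.V s i (φ i) h = v ∧ S.V s i (φ i) (h + 1) = v')
      ≤ if S.z s i.1 i.2 ⊆ v then 1 / (((NN n t).choose h : ℝ) * ((NN n t - h : ℕ) : ℝ)) else 0 := by
  classical
  by_cases hz : S.z s i.1 i.2 ⊆ v
  swap
  · rw [if_neg hz]
    refine le_of_eq (pb3_false _ (fun φ hφ => hz ?_))
    rw [← hφ.1]
    exact pb3_z_sub S s i h (φ i)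
  rw [if_pos hz]
  set B : Finset (Fin (NN n t)) := univ.filter (fun j => S.e i.1 i.2 j ∈ v) with hBdef
  set B' : Finset (Fin (NN n t)) := univ.filter (fun j => S.e i.1 i.2 j ∈ v') with hBdef'
  by_cases hB : B.card = h ∧ B'.card = h + 1 ∧ B ⊆ B'
  swap
  · have h0 : P (fun φ : Lbo n t K => S.V s i (φ i) h = v ∧ S.V s i (φ i) (h + 1) = v') = 0 := by
      refine pb3_false _ (fun φ hφ => hB ?_)
      have e1 := pb3_pre S s i h (φ i) v hφ.1
      have e2 := pb3_pre S s i (h + 1) (φ i) v' hφ.2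
      rw [hBdef, hBdef', ← e1, ← e2]
      exact ⟨pre_card _ h (by omega), pre_card _ (h + 1) hh, pre_mono _ (Nat.le_succ h)⟩
    rw [h0]
    positivity
  have h1 : P (fun φ : Lbo n t K => S.V s i (φ i) h = v ∧ S.V s i (φ i) (h + 1) = v')
      ≤ P (fun φ : Lbo n t K => pre (sg s (φ i)) h = B ∧ pre (sg s (φ i)) (h + 1) = B') :=
    P_mono (fun φ hφ => ⟨pb3_pre S s i h (φ i) v hφ.1, pb3_pre S s i (h + 1) (φ i) v' hφ.2⟩)
  refine h1.trans ?_
  rw [P_label i (fun σ => pre (sg s σ) h = B ∧ pre (sg s σ) (h + 1) = B'),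
    pb3_sg s (fun σ => pre σ h = B ∧ pre σ (h + 1) = B')]
  have h2 := perm_pre2 hh B B' hB.1 hB.2.1 hB.2.2
  have h3 : (0 : ℝ) < ((NN n t).choose h : ℝ) := by
    exact_mod_cast Nat.choose_pos (show h ≤ NN n t by omega)
  have h3' : (0 : ℝ) < ((NN n t - h : ℕ) : ℝ) := by
    have : 0 < NN n t - h := by omega
    exact_mod_cast this
  have h4 : (0 : ℝ) < ((NN n t).factorial : ℝ) := by exact_mod_cast Nat.factorial_pos _
  rw [div_le_div_iff₀ h4 (by positivity)]
  have h5 : ((univ.filter (fun σ : Equiv.Perm (Fin (NN n t)) => pre σ h = B ∧ pre σ (h + 1) = B')).card : ℝ)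
      * (((NN n t).choose h : ℝ) * ((NN n t - h : ℕ) : ℝ)) = ((NN n t).factorial : ℝ) := by exact_mod_cast h2
  rw [h5, one_mul]

end Pool.SCDO
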