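import Pool.Agent.Lib.SCDO.Defs
import Pool.Agent.Lib.SCDO.PB3

/-!
# Row PB5 (outer part of the symmetric chain decompositions)
Expected number of chains meeting a given chain.
Recipe: for i' ≠ i: P(V_i = V_i') = ∑_v P(V_i = v ∧ V_i' = v) = ∑_v P(V_i = v) P(V_i' = v) (P_indep, supports {i}, {i'}; only v with card k0+1+h occur, V_card) ≤ ∑_v P(V_i = v) [z i' ⊆ v]/C(N,h).
Sum over i' ∈ I first: ≤ ∑_v P(V_i = v) m / C(N,h) ≤ m/C(N,h) (∑_v P(V_i = v) = 1, or ≤ 1: E of a sum of indicators of disjoint events).  The same for edges with V_prob2.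
-/

set_option linter.unusedSectionVars false
set_option linter.unusedVariables false

namespace Pool.SCDO

open Finset Pool.SCDH Pool.Agent.SK

variable {n t K : ℕ}

private lemma pb5_aux {β : Type} (X : Fin K × Lv n (k0 t) → Equiv.Perm (Fin (NN n t)) → β)
    (i : Fin K × Lv n (k0 t)) (I : Finset (Fin K × Lv n (k0 t))) (hi : i ∉ I)
    (W : Finset β) (hW : ∀ σ, X i σ ∈ W) (M : ℝ) (hM : 0 ≤ M)
    (hX : ∀ b ∈ W, ∑ i' ∈ I, P (fun φ : Lbo n t K => X i' (φ i') = b) ≤ M) :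
    ∑ i' ∈ I, P (fun φ : Lbo n t K => X i (φ i) = X i' (φ i')) ≤ M := by
  classical
  have h1 : ∀ i' ∈ I, P (fun φ : Lbo n t K => X i (φ i) = X i' (φ i'))
      ≤ ∑ b ∈ W, P (fun φ : Lbo n t K => X i (φ i) = b) * P (fun φ : Lbo n t K => X i' (φ i') = b) := by
    intro i' hi'
    have hne : i ≠ i' := fun e => hi (e ▸ hi')
    have e1 : P (fun φ : Lbo n t K => X i (φ i) = X i' (φ i'))
        ≤ P (fun φ : Lbo n t K => ∃ b ∈ W, X i (φ i) = b ∧ X i' (φ i') = b) :=
      P_mono (fun φ hφ => ⟨X i (φ i), hW _, rfl, hφ.symm⟩)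
    refine e1.trans ((P_exists W
      (fun b (φ : Lbo n t K) => X i (φ i) = b ∧ X i' (φ i') = b)).trans ?_)
    refine sum_le_sum (fun b _ => le_of_eq ?_)
    have d1 : Dep (fun φ : Lbo n t K => if X i (φ i) = b then (1 : ℝ) else 0) {i} := by
      intro φ ψ h
      simp only [h i (mem_singleton_self i)]
    have d2 : Dep (fun φ : Lbo n t K => if X i' (φ i') = b then (1 : ℝ) else 0) {i'} := by
      intro φ ψ h
      simp only [h i' (mem_singleton_self i')]
    have hdis : Disjoint ({i} : Finset (Fin K × Lv n (k0 t))) {i'} := by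
      rw [disjoint_singleton]
      exact hne
    have e2 := E_mul d1 d2 hdis
    have e3 : ∀ A : Lbo n t K → Prop, P A = E (fun φ => if A φ then (1 : ℝ) else 0) := by
      intro A
      unfold P
      refine E_congr (fun φ => ?_)
      by_cases hA : A φ <;> simp [hA]
    rw [e3, e3, e3]
    refine Eq.trans ?_ e2
    refine E_congr (fun φ => ?_)
    by_cases hA : X i (φ i) = b <;> by_cases hB : X i' (φ i') = b <;> simp [hA, hB]
  refine (sum_le_sum h1).trans ?_
  rw [sum_comm]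
  have h2 : ∀ b ∈ W, (∑ i' ∈ I, P (fun φ : Lbo n t K => X i (φ i) = b) *
      P (fun φ : Lbo n t K => X i' (φ i') = b)) ≤ P (fun φ : Lbo n t K => X i (φ i) = b) * M := by
    intro b hb
    rw [← mul_sum]
    exact mul_le_mul_of_nonneg_left (hX b hb) (P_nonneg _)
  refine (sum_le_sum h2).trans ?_
  rw [← sum_mul]
  have h3 : ∑ b ∈ W, P (fun φ : Lbo n t K => X i (φ i) = b) ≤ 1 := by
    unfold P
    rw [← E_sum]
    refine le_trans (E_mono (g := fun _ => (1 : ℝ)) (fun φ => ?_))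
      (le_of_eq (E_const (V := Fin K × Lv n (k0 t)) (κ := Equiv.Perm (Fin (NN n t))) (1 : ℝ)))
    have : ∑ b ∈ W, (if X i (φ i) = b then (1 : ℝ) else 0) ≤ 1 := by
      rw [sum_ite_eq]
      split_ifs <;> norm_num
    refine le_trans (le_of_eq ?_) this
    refine sum_congr rfl (fun b _ => ?_)
    by_cases h : X i (φ i) = b <;> simp [h]
  calc (∑ b ∈ W, P (fun φ : Lbo n t K => X i (φ i) = b)) * M ≤ 1 * M :=
        mul_le_mul_of_nonneg_right h3 hM
    _ = M := one_mul M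

theorem meet_gen (S : Sys n t K) (s : Bool) (h : ℕ) (hh : h ≤ NN n t) (i : Fin K × Lv n (k0 t))
    (I : Finset (Fin K × Lv n (k0 t))) (hi : i ∉ I) (m : ℕ)
    (hm : ∀ v : Finset (Fin n), v.card = k0 t + 1 + h →
      (I.filter (fun i' => S.z s i'.1 i'.2 ⊆ v)).card ≤ m) :
    ∑ i' ∈ I, P (fun φ : Lbo n t K => S.V s i (φ i) h = S.V s i' (φ i') h)
      ≤ (m : ℝ) / ((NN n t).choose h : ℝ) := by
  classical
  refine pb5_aux (fun i σ => S.V s i σ h) i I hi (univ.filter (fun v => v.card = k0 t + 1 + h))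
    (fun σ => by simp [V_card S s i σ h hh]) _ (by positivity) ?_
  intro v hv
  have hv' : v.card = k0 t + 1 + h := (mem_filter.1 hv).2
  refine (sum_le_sum (fun i' _ => V_prob S s i' h hh v)).trans ?_
  rw [← sum_filter, sum_const, nsmul_eq_mul]
  have := hm v hv'
  calc ((I.filter (fun i' => S.z s i'.1 i'.2 ⊆ v)).card : ℝ) * (1 / ((NN n t).choose h : ℝ))
      ≤ (m : ℝ) * (1 / ((NN n t).choose h : ℝ)) :=
        mul_le_mul_of_nonneg_right (by exact_mod_cast this) (by positivity)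
    _ = (m : ℝ) / ((NN n t).choose h : ℝ) := by ring

theorem meet_gen2 (S : Sys n t K) (s : Bool) (h : ℕ) (hh : h + 1 ≤ NN n t)
    (i : Fin K × Lv n (k0 t)) (I : Finset (Fin K × Lv n (k0 t))) (hi : i ∉ I) (m : ℕ)
    (hm : ∀ v : Finset (Fin n), v.card = k0 t + 1 + h →
      (I.filter (fun i' => S.z s i'.1 i'.2 ⊆ v)).card ≤ m) :
    ∑ i' ∈ I, P (fun φ : Lbo n t K => S.V s i (φ i) h = S.V s i' (φ i') h ∧
        S.V s i (φ i) (h + 1) = S.V s i' (φ i') (h + 1))
      ≤ (m : ℝ) / (((NN n t).choose h : ℝ) * ((NN n t - h : ℕ) : ℝ)) := by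
  classical
  have key := pb5_aux (fun (i : Fin K × Lv n (k0 t)) (σ : Equiv.Perm (Fin (NN n t))) =>
      (S.V s i σ h, S.V s i σ (h + 1))) i I hi
    (univ.filter (fun v : Finset (Fin n) × Finset (Fin n) => v.1.card = k0 t + 1 + h))
    (fun σ => by simp [V_card S s i σ h (by omega)])
    ((m : ℝ) / (((NN n t).choose h : ℝ) * ((NN n t - h : ℕ) : ℝ))) (by positivity) ?_
  · refine le_trans (sum_le_sum (fun i' _ => P_mono (fun φ hφ => ?_))) key
    exact Prod.ext hφ.1 hφ.2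
  · rintro ⟨v, v'⟩ hv
    have hv' : v.card = k0 t + 1 + h := (mem_filter.1 hv).2
    have e1 : ∀ i' ∈ I, P (fun φ : Lbo n t K => (S.V s i' (φ i') h, S.V s i' (φ i') (h + 1)) = (v, v'))
        ≤ if S.z s i'.1 i'.2 ⊆ v then 1 / (((NN n t).choose h : ℝ) * ((NN n t - h : ℕ) : ℝ)) else 0 := by
      intro i' _
      refine (P_mono (fun φ hφ => ?_)).trans (V_prob2 S s i' h hh v v')
      exact ⟨(Prod.mk.inj hφ).1, (Prod.mk.inj hφ).2⟩
    refine (sum_le_sum e1).trans ?_
    rw [← sum_filter, sum_const, nsmul_eq_mul]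
    have := hm v hv'
    calc ((I.filter (fun i' => S.z s i'.1 i'.2 ⊆ v)).card : ℝ) *
          (1 / (((NN n t).choose h : ℝ) * ((NN n t - h : ℕ) : ℝ)))
        ≤ (m : ℝ) * (1 / (((NN n t).choose h : ℝ) * ((NN n t - h : ℕ) : ℝ))) :=
          mul_le_mul_of_nonneg_right (by exact_mod_cast this) (by positivity)
      _ = (m : ℝ) / (((NN n t).choose h : ℝ) * ((NN n t - h : ℕ) : ℝ)) := by ring

end Pool.SCDO
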