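import Pool.Agent.Lib.SCDO.Defs

/-!
# Row ZC (outer part of the symmetric chain decompositions)
Number of starting vertices below a set.
Recipe: cnt_col: x ↦ z s c x is injective (Start.inj) into v.powersetCard (k0+1) (Start.card).  cnt_all: fiberwise over the value u = z s c x in v.powersetCard (k0+1),
each value is taken ≤ k0+1 times (Start.mult) (Finset.card_le_mul_card_image or card_eq_sum_card_fiberwise).
-/

set_option linter.unusedSectionVars false
set_option linter.unusedVariables false

namespace Pool.SCDO

open Finset Pool.SCDH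

variable {n t K : ℕ}

theorem cnt_col (S : Sys n t K) (s : Bool) (c : Fin K) (v : Finset (Fin n)) :
    (univ.filter (fun x => S.z s c x ⊆ v)).card ≤ (v.card).choose (k0 t + 1) := by
  rw [← Finset.card_powersetCard]
  refine Finset.card_le_card_of_injOn (fun x => S.z s c x) ?_ ?_
  · intro x hx
    have hx' : S.z s c x ⊆ v := by simpa using hx
    exact Finset.mem_powersetCard.2 ⟨hx', (S.st s).card c x⟩
  · exact ((S.st s).inj c).injOn

theorem cnt_all (S : Sys n t K) (s : Bool) (v : Finset (Fin n)) :
    (univ.filter (fun i : Fin K × Lv n (k0 t) => S.z s i.1 i.2 ⊆ v)).card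
      ≤ (k0 t + 1) * (v.card).choose (k0 t + 1) := by
  rw [← Finset.card_powersetCard]
  refine Finset.card_le_mul_card_image_of_maps_to (f := fun i : Fin K × Lv n (k0 t) => S.z s i.1 i.2)
    ?_ _ ?_
  · intro i hi
    have hi' : S.z s i.1 i.2 ⊆ v := (Finset.mem_filter.1 hi).2
    exact Finset.mem_powersetCard.2 ⟨hi', (S.st s).card i.1 i.2⟩
  · intro u _
    refine le_trans (Finset.card_le_card ?_) ((S.st s).mult u)
    intro i hi
    rw [Finset.mem_filter] at hi ⊢
    exact ⟨Finset.mem_univ _, hi.2⟩

end Pool.SCDO
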