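import Pool.Agent.Lib.SCDO.Defs
import Pool.Agent.Lib.SCDO.PB5
import Pool.Agent.Lib.SCDO.ZC
import Pool.Agent.Lib.SCDO.NU1
import Pool.Agent.Lib.SCDO.NU2

/-!
# Row PB2 (outer part of the symmetric chain decompositions)
Forbidden meetings of two outer chains have small total probability.
-/

set_option linter.unusedSectionVars false
set_option linter.unusedVariables false
set_option exponentiation.threshold 1000

namespace Pool.SCDO

open Finset Pool.SCDH Pool.Agent.SK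

variable {n t K : ℕ}

private theorem pb2_T {ε : ℝ} (hB : Big ε t) : (10 : ℝ) ^ 100 ≤ (t : ℝ) := by
  exact_mod_cast ob_t hB

private theorem pb2_N {ε : ℝ} (hB : Big ε t) (hR : Rng t n) :
    (t : ℝ) ^ 200 ≤ 2 * (NN n t : ℝ) := by
  exact_mod_cast (ob_NN hB hR).2.1

private theorem pb2_first {ε : ℝ} (hB : Big ε t) (hR : Rng t n) (S : Sys n t K) (s : Bool)
    (i : Fin K × Lv n (k0 t)) (h : ℕ) (h1 : 1 ≤ h) (h2 : 2 * h ≤ NN n t + 1) :
    ∑ b ∈ univ.filter (fun b : Fin K × Lv n (k0 t) => i ≠ b ∧ i.1 = b.1),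
      P (fun φ : Lbo n t K => S.V s i (φ i) h = S.V s b (φ b) h)
      ≤ (if h = 1 then 2 / (t : ℝ) else 0) + 1 / (t : ℝ) ^ 299 := by
  classical
  have hT := pb2_T hB
  have hT1 : (1 : ℝ) ≤ (t : ℝ) := le_trans (by norm_num) hT
  have hT0 : (0 : ℝ) < (t : ℝ) := by linarith
  have hN := pb2_N hB hR
  have hNpos : (0 : ℝ) < (NN n t : ℝ) := by
    have : (0 : ℝ) < (t : ℝ) ^ 200 := by positivity
    linarith
  have hN1 : 1 ≤ NN n t := by
    have : 0 < NN n t := by exact_mod_cast hNpos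
    omega
  have hhN : h ≤ NN n t := by omega
  have hi : i ∉ univ.filter (fun b : Fin K × Lv n (k0 t) => i ≠ b ∧ i.1 = b.1) := by
    simp
  have hcnt : ∀ v : Finset (Fin n),
      ((univ.filter (fun b : Fin K × Lv n (k0 t) => i ≠ b ∧ i.1 = b.1)).filter
        (fun i' => S.z s i'.1 i'.2 ⊆ v)).card ≤ (univ.filter (fun x => S.z s i.1 x ⊆ v)).card := by
    intro v
    refine card_le_card_of_injOn (fun b => b.2) ?_ ?_
    · intro b hb
      simp only [coe_filter, mem_filter, mem_univ, true_and] at hb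
      have hb' : (i ≠ b ∧ i.1 = b.1) ∧ S.z s b.1 b.2 ⊆ v := hb
      show b.2 ∈ ((univ.filter (fun x => S.z s i.1 x ⊆ v) : Finset _) : Set _)
      rw [Finset.mem_coe, mem_filter]
      refine ⟨mem_univ _, ?_⟩
      rw [hb'.1.2]; exact hb'.2
    · intro b hb b' hb' hbb
      have h3 : (i ≠ b ∧ i.1 = b.1) ∧ S.z s b.1 b.2 ⊆ v := by simpa using hb
      have h4 : (i ≠ b' ∧ i.1 = b'.1) ∧ S.z s b'.1 b'.2 ⊆ v := by simpa using hb'
      exact Prod.ext (h3.1.2.symm.trans h4.1.2) hbb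
  by_cases hh1 : h = 1
  · subst hh1
    have := meet_gen S s 1 hN1 i _ hi t (fun v hv => (hcnt v).trans
      ((S.st s).down i.1 v (by rw [hv])))
    refine this.trans ?_
    rw [Nat.choose_one_right, if_pos rfl]
    have h5 : (t : ℝ) / (NN n t : ℝ) ≤ 2 / (t : ℝ) := by
      rw [div_le_div_iff₀ hNpos hT0]
      have h6 : (t : ℝ) * t ≤ (t : ℝ) ^ 200 := by
        calc (t : ℝ) * t = (t : ℝ) ^ 2 := by ring
          _ ≤ (t : ℝ) ^ 200 := pow_le_pow_right₀ hT1 (by norm_num)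
      linarith
    have h7 : (0 : ℝ) ≤ 1 / (t : ℝ) ^ 299 := by positivity
    linarith
  · have hh2 : 2 ≤ h := by omega
    have := meet_gen S s h hhN i _ hi ((k0 t + 1 + h).choose (k0 t + 1)) (fun v hv => (hcnt v).trans
      ((cnt_col S s i.1 v).trans (by rw [hv])))
    refine this.trans ?_
    rw [if_neg hh1, zero_add]
    have hphi := phi_le (m := 2) hB hR (by norm_num) (by norm_num) hh2 h2
    have hphi' : (t : ℝ) ^ 299 * ((k0 t + 1 + h).choose (k0 t + 1) : ℝ) ≤ ((NN n t).choose h : ℝ) := by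
      exact_mod_cast hphi
    have hc : (0 : ℝ) < ((NN n t).choose h : ℝ) := by
      exact_mod_cast Nat.choose_pos hhN
    rw [div_le_div_iff₀ hc (by positivity)]
    linarith

private theorem pb2_second {ε : ℝ} (hB : Big ε t) (hR : Rng t n) (S : Sys n t K) (s : Bool)
    (i : Fin K × Lv n (k0 t)) (h : ℕ) (h2 : 2 * h + 1 ≤ NN n t) :
    ∑ b ∈ univ.filter (fun b : Fin K × Lv n (k0 t) => i.1 ≠ b.1),
      P (fun φ : Lbo n t K => S.V s i (φ i) h = S.V s b (φ b) h ∧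
        S.V s i (φ i) (h + 1) = S.V s b (φ b) (h + 1))
      ≤ (if h = 0 then 4 / (t : ℝ) else 0) + 8 / (t : ℝ) ^ 299 := by
  classical
  have hT := pb2_T hB
  have hT1 : (1 : ℝ) ≤ (t : ℝ) := le_trans (by norm_num) hT
  have hT0 : (0 : ℝ) < (t : ℝ) := by linarith
  have hN := pb2_N hB hR
  have hNpos : (0 : ℝ) < (NN n t : ℝ) := by
    have : (0 : ℝ) < (t : ℝ) ^ 200 := by positivity
    linarith
  have hhN : h + 1 ≤ NN n t := by omega
  have hi : i ∉ univ.filter (fun b : Fin K × Lv n (k0 t) => i.1 ≠ b.1) := by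
    simp
  have hcnt : ∀ v : Finset (Fin n), v.card = k0 t + 1 + h →
      ((univ.filter (fun b : Fin K × Lv n (k0 t) => i.1 ≠ b.1)).filter
        (fun i' => S.z s i'.1 i'.2 ⊆ v)).card
        ≤ (k0 t + 1) * (k0 t + 1 + h).choose (k0 t + 1) := by
    intro v hv
    refine (card_le_card (filter_subset_filter _ (subset_univ _))).trans ?_
    have := cnt_all S s v
    rwa [hv] at this
  have := meet_gen2 S s h hhN i _ hi _ hcnt
  refine this.trans ?_
  have hk : ((k0 t + 1 : ℕ) : ℝ) ≤ 2 * (t : ℝ) ^ 50 := by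
    unfold k0
    push_cast
    have : (1 : ℝ) ≤ (t : ℝ) ^ 50 := one_le_pow₀ hT1
    linarith
  have hk0 : (0 : ℝ) ≤ ((k0 t + 1 : ℕ) : ℝ) := Nat.cast_nonneg _
  by_cases hh0 : h = 0
  · subst hh0
    rw [if_pos rfl]
    simp only [add_zero, Nat.choose_self, mul_one, Nat.choose_zero_right, Nat.cast_one, one_mul,
      Nat.sub_zero]
    have h5 : ((k0 t + 1 : ℕ) : ℝ) / (NN n t : ℝ) ≤ 4 / (t : ℝ) := by
      rw [div_le_div_iff₀ hNpos hT0]
      have h6 : (t : ℝ) ^ 50 * t ≤ (t : ℝ) ^ 200 := by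
        calc (t : ℝ) ^ 50 * t = (t : ℝ) ^ 51 := by ring
          _ ≤ (t : ℝ) ^ 200 := pow_le_pow_right₀ hT1 (by norm_num)
      nlinarith
    have h7 : (0 : ℝ) ≤ 8 / (t : ℝ) ^ 299 := by positivity
    linarith
  · rw [if_neg hh0, zero_add]
    have hphi := phi_le (m := 1) hB hR (by norm_num) (by norm_num) (by omega) (show 2 * h ≤ NN n t + 1 by omega)
    have hphi' : (t : ℝ) ^ 149 * ((k0 t + 1 + h).choose (k0 t + 1) : ℝ) ≤ ((NN n t).choose h : ℝ) := by
      exact_mod_cast hphi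
    have hc : (0 : ℝ) < ((NN n t).choose h : ℝ) := by
      exact_mod_cast Nat.choose_pos (show h ≤ NN n t by omega)
    have hNh : (t : ℝ) ^ 200 ≤ 4 * ((NN n t - h : ℕ) : ℝ) := by
      have : NN n t ≤ 2 * (NN n t - h) := by omega
      have h3 : (NN n t : ℝ) ≤ 2 * ((NN n t - h : ℕ) : ℝ) := by exact_mod_cast this
      linarith
    have hNh0 : (0 : ℝ) < ((NN n t - h : ℕ) : ℝ) := by
      have : (0 : ℝ) < (t : ℝ) ^ 200 := by positivity
      linarith
    rw [div_le_div_iff₀ (by positivity) (by positivity)]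
    push_cast
    have hC0 : (0 : ℝ) ≤ ((k0 t + 1 + h).choose (k0 t + 1) : ℝ) := Nat.cast_nonneg _
    have hk' : ((k0 t : ℝ) + 1) ≤ 2 * (t : ℝ) ^ 50 := by exact_mod_cast hk
    have hk0' : 0 ≤ ((k0 t : ℝ) + 1) := by positivity
    calc ((k0 t : ℝ) + 1) * ((k0 t + 1 + h).choose (k0 t + 1) : ℝ) * (t : ℝ) ^ 299
        ≤ 2 * (t : ℝ) ^ 50 * ((k0 t + 1 + h).choose (k0 t + 1) : ℝ) * (t : ℝ) ^ 299 := by
          gcongr
      _ = 2 * ((t : ℝ) ^ 149 * ((k0 t + 1 + h).choose (k0 t + 1) : ℝ)) * (t : ℝ) ^ 200 := by ring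
      _ ≤ 2 * ((NN n t).choose h : ℝ) * (4 * ((NN n t - h : ℕ) : ℝ)) := by
          gcongr
      _ = 8 * (((NN n t).choose h : ℝ) * ((NN n t - h : ℕ) : ℝ)) := by ring

private theorem pb2_symm (S : Sys n t K) (s : Bool) (h : Fin (n + 1)) (a b : Fin K × Lv n (k0 t))
    (φ : Lbo n t K) (hcl : S.Cl (s, h, a, b) φ) : S.Cl (s, h, b, a) φ := by
  obtain ⟨h1, h2⟩ := hcl
  refine ⟨fun e => h1 e.symm, ?_⟩
  rcases h2 with ⟨h3, h4, h5, h6⟩ | ⟨h3, h4, h5, h6⟩
  · exact Or.inl ⟨h3, h4, h5.symm, h6.symm⟩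
  · exact Or.inr ⟨h3, fun e => h4 e.symm, h5.symm, h6.symm⟩

private theorem pb2_one {ε : ℝ} (hB : Big ε t) (hR : Rng t n) (S : Sys n t K) (s : Bool)
    (i : Fin K × Lv n (k0 t)) (h : Fin (n + 1)) :
    ∑ b : Fin K × Lv n (k0 t), P (fun φ : Lbo n t K => S.Cl (s, h, i, b) φ)
      ≤ (if (h : ℕ) = 1 then 2 / (t : ℝ) else 0) + (if (h : ℕ) = 0 then 4 / (t : ℝ) else 0)
        + 9 / (t : ℝ) ^ 299 := by
  classical
  have hT := pb2_T hB
  have hT0 : (0 : ℝ) < (t : ℝ) := lt_of_lt_of_le (by norm_num) hT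
  have step : ∀ b : Fin K × Lv n (k0 t), P (fun φ : Lbo n t K => S.Cl (s, h, i, b) φ)
      ≤ (if (1 ≤ (h : ℕ) ∧ 2 * (h : ℕ) ≤ NN n t + 1) ∧ (i ≠ b ∧ i.1 = b.1) then
          P (fun φ : Lbo n t K => S.V s i (φ i) h = S.V s b (φ b) h) else 0)
        + (if 2 * (h : ℕ) + 1 ≤ NN n t ∧ i.1 ≠ b.1 then
          P (fun φ : Lbo n t K => S.V s i (φ i) h = S.V s b (φ b) h ∧
            S.V s i (φ i) ((h : ℕ) + 1) = S.V s b (φ b) ((h : ℕ) + 1)) else 0) := by
    intro b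
    by_cases c1 : (1 ≤ (h : ℕ) ∧ 2 * (h : ℕ) ≤ NN n t + 1) ∧ (i ≠ b ∧ i.1 = b.1)
    · have c2 : ¬ (2 * (h : ℕ) + 1 ≤ NN n t ∧ i.1 ≠ b.1) := fun hc => hc.2 c1.2.2
      rw [if_pos c1, if_neg c2, add_zero]
      refine P_mono (fun φ hφ => ?_)
      rcases hφ.2 with h3 | h3
      · exact h3.2.2.2
      · exact absurd c1.2.2 h3.2.1
    · rw [if_neg c1, zero_add]
      by_cases c2 : (2 * (h : ℕ) + 1 ≤ NN n t ∧ i.1 ≠ b.1)
      · rw [if_pos c2]
        refine P_mono (fun φ hφ => ?_)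
        rcases hφ.2 with h3 | h3
        · exact absurd h3.2.2.1 c2.2
        · exact h3.2.2
      · rw [if_neg c2]
        have : P (fun φ : Lbo n t K => S.Cl (s, h, i, b) φ) ≤ P (fun φ : Lbo n t K => False) := by
          refine P_mono (fun φ hφ => ?_)
          rcases hφ.2 with h3 | h3
          · exact c1 ⟨⟨h3.1, h3.2.1⟩, hφ.1, h3.2.2.1⟩
          · exact c2 ⟨h3.1, h3.2.1⟩
        refine this.trans (le_of_eq ?_)
        unfold P E
        simp
  refine (sum_le_sum (fun b _ => step b)).trans ?_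
  rw [sum_add_distrib]
  have e1 : ∑ b : Fin K × Lv n (k0 t),
      (if (1 ≤ (h : ℕ) ∧ 2 * (h : ℕ) ≤ NN n t + 1) ∧ (i ≠ b ∧ i.1 = b.1) then
          P (fun φ : Lbo n t K => S.V s i (φ i) h = S.V s b (φ b) h) else 0)
      ≤ (if (h : ℕ) = 1 then 2 / (t : ℝ) else 0) + 1 / (t : ℝ) ^ 299 := by
    by_cases c : 1 ≤ (h : ℕ) ∧ 2 * (h : ℕ) ≤ NN n t + 1
    · have := pb2_first hB hR S s i h c.1 c.2
      refine le_trans (le_of_eq ?_) this
      rw [sum_filter]
      refine sum_congr rfl (fun b _ => ?_)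
      simp only [c, true_and]
    · simp only [c, false_and, if_false, sum_const_zero]
      have h7 : (0 : ℝ) ≤ 1 / (t : ℝ) ^ 299 := by positivity
      have h8 : (0 : ℝ) ≤ (if (h : ℕ) = 1 then 2 / (t : ℝ) else 0) := by
        split_ifs <;> positivity
      linarith
  have e2 : ∑ b : Fin K × Lv n (k0 t),
      (if 2 * (h : ℕ) + 1 ≤ NN n t ∧ i.1 ≠ b.1 then
          P (fun φ : Lbo n t K => S.V s i (φ i) h = S.V s b (φ b) h ∧
            S.V s i (φ i) ((h : ℕ) + 1) = S.V s b (φ b) ((h : ℕ) + 1)) else 0)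
      ≤ (if (h : ℕ) = 0 then 4 / (t : ℝ) else 0) + 8 / (t : ℝ) ^ 299 := by
    by_cases c : 2 * (h : ℕ) + 1 ≤ NN n t
    · have := pb2_second hB hR S s i h c
      refine le_trans (le_of_eq ?_) this
      rw [sum_filter]
      refine sum_congr rfl (fun b _ => ?_)
      simp only [c, true_and]
    · simp only [c, false_and, if_false, sum_const_zero]
      have h7 : (0 : ℝ) ≤ 8 / (t : ℝ) ^ 299 := by positivity
      have h8 : (0 : ℝ) ≤ (if (h : ℕ) = 0 then 4 / (t : ℝ) else 0) := by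
        split_ifs <;> positivity
      linarith
  have e3 : 1 / (t : ℝ) ^ 299 + 8 / (t : ℝ) ^ 299 = 9 / (t : ℝ) ^ 299 := by ring
  linarith

private theorem pb2_ite (m a : ℕ) (c : ℝ) (hc : 0 ≤ c) :
    ∑ h : Fin m, (if (h : ℕ) = a then c else 0) ≤ c := by
  rw [Fin.sum_univ_eq_sum_range (fun h => if h = a then c else 0) m, Finset.sum_ite_eq']
  split_ifs
  · exact le_refl _
  · exact hc

theorem pairs_small {ε : ℝ} (hB : Big ε t) (hR : Rng t n) (S : Sys n t K) (i : Fin K × Lv n (k0 t)) :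
    ∑ p ∈ univ.filter (fun p : Bool × Fin (n + 1) × (Fin K × Lv n (k0 t)) × (Fin K × Lv n (k0 t)) =>
      p.2.2.1 = i ∨ p.2.2.2 = i), P (fun φ : Lbo n t K => S.Cl p φ) ≤ 1 / 100 := by
  classical
  have hT := pb2_T hB
  have hT1 : (1 : ℝ) ≤ (t : ℝ) := le_trans (by norm_num) hT
  have hT0 : (0 : ℝ) < (t : ℝ) := by linarith
  set f : Bool × Fin (n + 1) × (Fin K × Lv n (k0 t)) × (Fin K × Lv n (k0 t)) → ℝ :=
    fun p => P (fun φ : Lbo n t K => S.Cl p φ) with hf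
  have hf0 : ∀ p, 0 ≤ f p := fun p => P_nonneg _
  have h1 : ∑ p ∈ univ.filter (fun p : Bool × Fin (n + 1) × (Fin K × Lv n (k0 t)) ×
      (Fin K × Lv n (k0 t)) => p.2.2.1 = i ∨ p.2.2.2 = i), f p
      ≤ ∑ p, ((if p.2.2.1 = i then f p else 0) + (if p.2.2.2 = i then f p else 0)) := by
    rw [sum_filter]
    refine sum_le_sum (fun p _ => ?_)
    have := hf0 p
    by_cases c1 : p.2.2.1 = i <;> by_cases c2 : p.2.2.2 = i <;> simp [c1, c2, this]
  refine h1.trans ?_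
  rw [sum_add_distrib]
  have hsum : ∀ s : Bool, ∑ h : Fin (n + 1), ∑ b, f (s, h, i, b) ≤ 24 / (t : ℝ) := by
    intro s
    refine (sum_le_sum (fun h _ => pb2_one hB hR S s i h)).trans ?_
    rw [sum_add_distrib, sum_add_distrib]
    have a1 := pb2_ite (n + 1) 1 (2 / (t : ℝ)) (by positivity)
    have a2 := pb2_ite (n + 1) 0 (4 / (t : ℝ)) (by positivity)
    have a3 : ∑ _h : Fin (n + 1), 9 / (t : ℝ) ^ 299 ≤ 18 / (t : ℝ) := by
      rw [sum_const, card_univ, Fintype.card_fin, nsmul_eq_mul]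
      have hn : ((n + 1 : ℕ) : ℝ) ≤ 2 * (t : ℝ) ^ 200 := by
        have : n + 1 ≤ 2 * t ^ 200 := hR.2
        exact_mod_cast this
      rw [mul_div_assoc', div_le_div_iff₀ (by positivity) hT0]
      have h6 : (t : ℝ) ^ 201 ≤ (t : ℝ) ^ 299 := pow_le_pow_right₀ hT1 (by norm_num)
      calc ((n + 1 : ℕ) : ℝ) * 9 * (t : ℝ) ≤ (2 * (t : ℝ) ^ 200) * 9 * (t : ℝ) := by gcongr
        _ = 18 * (t : ℝ) ^ 201 := by ring
        _ ≤ 18 * (t : ℝ) ^ 299 := by linarith
    have e : 2 / (t : ℝ) + 4 / (t : ℝ) + 18 / (t : ℝ) = 24 / (t : ℝ) := by ring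
    linarith
  have s1 : ∑ p : Bool × Fin (n + 1) × (Fin K × Lv n (k0 t)) × (Fin K × Lv n (k0 t)),
      (if p.2.2.1 = i then f p else 0) ≤ 48 / (t : ℝ) := by
    rw [Fintype.sum_prod_type]
    have : ∀ s : Bool, ∑ q : Fin (n + 1) × (Fin K × Lv n (k0 t)) × (Fin K × Lv n (k0 t)),
        (if q.2.1 = i then f (s, q) else 0) = ∑ h : Fin (n + 1), ∑ b, f (s, h, i, b) := by
      intro s
      rw [Fintype.sum_prod_type]
      refine sum_congr rfl (fun h _ => ?_)
      rw [Fintype.sum_prod_type, sum_eq_single i]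
      · simp
      · intro a _ ha; simp [ha]
      · intro h'; exact absurd (mem_univ i) h'
    rw [sum_congr rfl (fun s _ => this s)]
    refine (sum_le_sum (fun s _ => hsum s)).trans ?_
    simp only [sum_const, card_univ, Fintype.card_bool, nsmul_eq_mul]
    rw [show ((2 : ℕ) : ℝ) * (24 / (t : ℝ)) = 48 / (t : ℝ) by push_cast; ring]
  have s2 : ∑ p : Bool × Fin (n + 1) × (Fin K × Lv n (k0 t)) × (Fin K × Lv n (k0 t)),
      (if p.2.2.2 = i then f p else 0) ≤ 48 / (t : ℝ) := by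
    rw [Fintype.sum_prod_type]
    have : ∀ s : Bool, ∑ q : Fin (n + 1) × (Fin K × Lv n (k0 t)) × (Fin K × Lv n (k0 t)),
        (if q.2.2 = i then f (s, q) else 0) ≤ ∑ h : Fin (n + 1), ∑ b, f (s, h, i, b) := by
      intro s
      rw [Fintype.sum_prod_type]
      refine sum_le_sum (fun h _ => ?_)
      rw [Fintype.sum_prod_type]
      refine sum_le_sum (fun a _ => ?_)
      rw [sum_eq_single i]
      · simp only [if_true]
        exact P_mono (fun φ hφ => pb2_symm S s h a i φ hφ)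
      · intro b _ hb; simp [hb]
      · intro h'; exact absurd (mem_univ i) h'
    refine (sum_le_sum (fun s _ => this s)).trans ?_
    refine (sum_le_sum (fun s _ => hsum s)).trans ?_
    simp only [sum_const, card_univ, Fintype.card_bool, nsmul_eq_mul]
    rw [show ((2 : ℕ) : ℝ) * (24 / (t : ℝ)) = 48 / (t : ℝ) by push_cast; ring]
  have h96 : 48 / (t : ℝ) + 48 / (t : ℝ) ≤ 1 / 100 := by
    rw [← add_div, div_le_div_iff₀ hT0 (by norm_num)]
    have : (10 : ℝ) ^ 5 ≤ 10 ^ 100 := by norm_num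
    linarith
  linarith

end Pool.SCDO
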