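import Mathlib

/-!
# Row PB7 (outer part of the symmetric chain decompositions)
Elementary symmetric sums.
Recipe: T ∋ i of card m+1 corresponds to T \ {i} ∈ powersetCard m (univ.erase i); factor p i; then ∑_{T ∈ powersetCard m B} ∏ ≤ (∑_B p)^m by induction on B and m
(powersetCard_insert-type recursion: e_m(B+b) = e_m(B) + p_b e_(m-1)(B) ≤ μ^m + p_b μ^(m-1) ≤ (μ+p_b)^m for m ≥ 1), and ∑_{univ.erase i} p ≤ μ.
-/

set_option linter.unusedSectionVars false
set_option linter.unusedVariables false

namespace Pool.SCDO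

open Finset

private lemma esymm_insert_aux {V : Type} [DecidableEq V] (p : V → ℝ) (m : ℕ) (b : V)
    (s : Finset V) (hb : b ∉ s) :
    ∑ T ∈ (s.powersetCard m).image (insert b), ∏ v ∈ T, p v
      = p b * ∑ T ∈ s.powersetCard m, ∏ v ∈ T, p v := by
  rw [Finset.sum_image, Finset.mul_sum]
  · refine Finset.sum_congr rfl fun T hT => ?_
    have hTs : T ⊆ s := (Finset.mem_powersetCard.mp hT).1
    rw [Finset.prod_insert (fun h => hb (hTs h))]
  · intro T hT U hU h
    have hTs : T ⊆ s := (Finset.mem_powersetCard.mp hT).1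
    have hUs : U ⊆ s := (Finset.mem_powersetCard.mp hU).1
    have h1 : (insert b T).erase b = T := Finset.erase_insert (fun h => hb (hTs h))
    have h2 : (insert b U).erase b = U := Finset.erase_insert (fun h => hb (hUs h))
    have h' : insert b T = insert b U := h
    rw [← h1, ← h2, h']

private lemma esymm_all_le {V : Type} [DecidableEq V] (p : V → ℝ) (hp : ∀ v, 0 ≤ p v)
    (B : Finset V) : ∀ m : ℕ, ∑ T ∈ B.powersetCard m, ∏ v ∈ T, p v ≤ (∑ v ∈ B, p v) ^ m := by
  induction B using Finset.induction_on with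
  | empty =>
    intro m
    cases m with
    | zero => simp
    | succ n =>
      rw [Finset.powersetCard_eq_empty.mpr (by simp)]
      simp
  | insert b s hb ih =>
    intro m
    cases m with
    | zero => simp
    | succ n =>
      rw [Finset.powersetCard_succ_insert hb, Finset.sum_union, esymm_insert_aux p n b s hb,
        Finset.sum_insert hb]
      · have h1 := ih (n + 1)
        have h2 := ih n
        have hs : 0 ≤ ∑ v ∈ s, p v := Finset.sum_nonneg fun v _ => hp v
        have hbn := hp b
        have h3 : (∑ v ∈ s, p v) ^ n ≤ (p b + ∑ v ∈ s, p v) ^ n :=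
          pow_le_pow_left₀ hs (by linarith) n
        calc ∑ T ∈ s.powersetCard (n + 1), ∏ v ∈ T, p v
              + p b * ∑ T ∈ s.powersetCard n, ∏ v ∈ T, p v
            ≤ (∑ v ∈ s, p v) ^ (n + 1) + p b * (∑ v ∈ s, p v) ^ n :=
              add_le_add h1 (mul_le_mul_of_nonneg_left h2 hbn)
          _ = (p b + ∑ v ∈ s, p v) * (∑ v ∈ s, p v) ^ n := by ring
          _ ≤ (p b + ∑ v ∈ s, p v) * (p b + ∑ v ∈ s, p v) ^ n :=
              mul_le_mul_of_nonneg_left h3 (by linarith)
          _ = (p b + ∑ v ∈ s, p v) ^ (n + 1) := by ring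
      · rw [Finset.disjoint_left]
        intro T hT hT'
        obtain ⟨U, hU, rfl⟩ := Finset.mem_image.mp hT'
        exact hb ((Finset.mem_powersetCard.mp hT).1 (Finset.mem_insert_self b U))

theorem esymm_le {V : Type} [Fintype V] [DecidableEq V] (p : V → ℝ) (hp : ∀ v, 0 ≤ p v) (μ : ℝ)
    (hμ : ∑ v, p v ≤ μ) (m : ℕ) (i : V) :
    ∑ T ∈ ((univ : Finset V).powersetCard (m + 1)).filter (fun T => i ∈ T), ∏ v ∈ T, p v
      ≤ p i * μ ^ m := by
  have hi : i ∉ (univ : Finset V).erase i := Finset.notMem_erase i univ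
  have hset : ((univ : Finset V).powersetCard (m + 1)).filter (fun T => i ∈ T)
      = (((univ : Finset V).erase i).powersetCard m).image (insert i) := by
    ext T
    simp only [Finset.mem_filter, Finset.mem_powersetCard, Finset.subset_univ, true_and,
      Finset.mem_image]
    constructor
    · rintro ⟨hc, hiT⟩
      refine ⟨T.erase i, ⟨Finset.erase_subset_erase i (Finset.subset_univ T), ?_⟩,
        Finset.insert_erase hiT⟩
      rw [Finset.card_erase_of_mem hiT, hc]; rfl
    · rintro ⟨U, ⟨hU, hc⟩, rfl⟩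
      have hiU : i ∉ U := fun h => hi (hU h)
      exact ⟨by rw [Finset.card_insert_of_notMem hiU, hc], Finset.mem_insert_self i U⟩
  rw [hset, esymm_insert_aux p m i _ hi]
  refine mul_le_mul_of_nonneg_left ?_ (hp i)
  refine (esymm_all_le p hp _ m).trans ?_
  refine pow_le_pow_left₀ (Finset.sum_nonneg fun v _ => hp v) ?_ m
  exact (Finset.sum_le_sum_of_subset_of_nonneg (Finset.erase_subset i univ)
    (fun v _ _ => hp v)).trans hμ

end Pool.SCDO
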