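import Pool.Agent.Lib.MP_5fcc10_co_lin.ALLL
import Pool.Agent.Lib.SCDO.PB7

/-!
# Row PB6 (outer part of the symmetric chain decompositions)
Local lemma for pair events and for regions hit too often.
Recipe: p ρ i := P(Hit ρ i (φ i)).  Lin.alll with ι = J ⊕ (R × Finset V), A (inl p) = D p, supp = {e1 p, e2 p}, x = 2 P(D p); A (inr (ρ,T)) φ = (T.card = m+1 ∧ ∀ i ∈ T, Hit ρ i (φ i)),
supp = if T.card = m+1 then T else ∅, x = if T.card = m+1 then exp(m+1) ∏_{i ∈ T} p ρ i else 0; σ = 1/8.  Sum condition at v: 2/100 + exp(m+1) ∑_ρ p ρ v μ^m (PB7) ≤ 2/100 + 1/16 ≤ 1/8.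
x ≤ 1/2: single terms of these sums (T has an element i; for inl use i = e1 p).  P(A (inr (ρ,T))) = ∏ p ρ i (E_prod) ≤ x exp(-(m+1)/4); inl: 1 ≤ 2 exp(-1/2).  If ncard ≥ m+1 there is T ⊆ {i | Hit} with card m+1
(Finset.exists_subset_card_eq).
-/

set_option linter.unusedSectionVars false
set_option linter.unusedVariables false

namespace Pool.SCDO

open Finset Pool.Agent.SK

/-- independence of the hits of different chains -/
private lemma pb6_prod {V κ : Type} [Fintype V] [DecidableEq V] [Fintype κ] [Nonempty κ]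
    (Hit : V → κ → Prop) (T : Finset V) :
    P (fun φ : V → κ => ∀ i ∈ T, Hit i (φ i)) = ∏ i ∈ T, P (fun φ : V → κ => Hit i (φ i)) := by
  classical
  unfold P
  rw [← E_prod T (fun i => {i})
    (fun b _ c _ hbc => by rw [Finset.disjoint_singleton]; exact hbc)
    (fun i φ => if Hit i (φ i) then (1 : ℝ) else 0)
    (fun i _ φ ψ h => by
      have h1 := h i (mem_singleton_self i)
      simp only [h1])]
  refine E_congr (fun φ => ?_)
  by_cases h : ∀ i ∈ T, Hit i (φ i)
  · rw [if_pos h, prod_congr rfl (fun i hi => if_pos (h i hi)), prod_const_one]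
  · rw [if_neg h]
    push Not at h
    obtain ⟨i, hi, hn⟩ := h
    rw [prod_eq_zero hi (if_neg hn)]

theorem hits_lll {V κ J R : Type} [Fintype V] [DecidableEq V] [Fintype κ] [Nonempty κ] [Fintype J]
    [DecidableEq J] [Fintype R] [DecidableEq R] (D : J → (V → κ) → Prop) (e1 e2 : J → V)
    (hD : ∀ p, Dep (D p) {e1 p, e2 p}) (Hit : R → V → κ → Prop) (m : ℕ) (μ S : ℝ)
    (hμ : ∀ ρ, ∑ i, P (fun φ : V → κ => Hit ρ i (φ i)) ≤ μ)
    (hS : ∀ i, ∑ ρ, P (fun φ : V → κ => Hit ρ i (φ i)) ≤ S)
    (hq : ∀ i, ∑ p ∈ univ.filter (fun p => e1 p = i ∨ e2 p = i), P (D p) ≤ 1 / 100)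
    (hm : S * μ ^ m * Real.exp (m + 1) ≤ 1 / 16) :
    ∃ φ : V → κ, (∀ p, ¬ D p φ) ∧ ∀ ρ, {i | Hit ρ i (φ i)}.ncard < m + 1 := by
  classical
  obtain ⟨q, hqd⟩ : ∃ q : R → V → ℝ, q = fun ρ i => P (fun φ : V → κ => Hit ρ i (φ i)) := ⟨_, rfl⟩
  have hq0 : ∀ ρ i, 0 ≤ q ρ i := fun ρ i => by rw [hqd]; exact P_nonneg _
  have hμ' : ∀ ρ, ∑ i, q ρ i ≤ μ := fun ρ => by rw [hqd]; exact hμ ρ
  have hS' : ∀ i, ∑ ρ, q ρ i ≤ S := fun i => by rw [hqd]; exact hS i
  have hprod : ∀ (ρ : R) (T : Finset V), P (fun φ : V → κ => ∀ i ∈ T, Hit ρ i (φ i)) = ∏ i ∈ T, q ρ i := by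
    intro ρ T
    rw [pb6_prod (Hit ρ) T, hqd]
  have hT0 : ∀ (ρ : R) (T : Finset V), 0 ≤ ∏ i ∈ T, q ρ i := fun ρ T => prod_nonneg (fun i _ => hq0 ρ i)
  -- the sum over the sets containing `i`
  have hsumT : ∀ i, ∑ ρ, ∑ T ∈ ((univ : Finset V).powersetCard (m + 1)).filter (fun T => i ∈ T),
      Real.exp (m + 1) * ∏ v ∈ T, q ρ v ≤ 1 / 16 := by
    intro i
    by_cases hR : Nonempty R
    · obtain ⟨ρ0⟩ := hR
      have hμ0 : 0 ≤ μ := (sum_nonneg (fun i _ => hq0 ρ0 i)).trans (hμ' ρ0)
      calc ∑ ρ, ∑ T ∈ ((univ : Finset V).powersetCard (m + 1)).filter (fun T => i ∈ T),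
            Real.exp (m + 1) * ∏ v ∈ T, q ρ v
          ≤ ∑ ρ, Real.exp (m + 1) * (q ρ i * μ ^ m) := by
            refine sum_le_sum (fun ρ _ => ?_)
            rw [← mul_sum]
            exact mul_le_mul_of_nonneg_left (esymm_le (q ρ) (hq0 ρ) μ (hμ' ρ) m i) (Real.exp_pos _).le
        _ = (∑ ρ, q ρ i) * (μ ^ m * Real.exp (m + 1)) := by
            rw [sum_mul]
            refine sum_congr rfl (fun ρ _ => by ring)
        _ ≤ S * (μ ^ m * Real.exp (m + 1)) :=
            mul_le_mul_of_nonneg_right (hS' i) (mul_nonneg (pow_nonneg hμ0 m) (Real.exp_pos _).le)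
        _ = S * μ ^ m * Real.exp (m + 1) := by ring
        _ ≤ 1 / 16 := hm
    · have : IsEmpty R := not_nonempty_iff.1 hR
      rw [Fintype.sum_empty]
      norm_num
  -- single terms
  have hsingle : ∀ (ρ : R) (T : Finset V), T.card = m + 1 → Real.exp (m + 1) * ∏ v ∈ T, q ρ v ≤ 1 / 16 := by
    intro ρ T hT
    obtain ⟨i, hi⟩ : T.Nonempty := by
      rw [← card_pos]
      omega
    refine le_trans ?_ (hsumT i)
    have h1 : Real.exp (m + 1) * ∏ v ∈ T, q ρ v
        ≤ ∑ T ∈ ((univ : Finset V).powersetCard (m + 1)).filter (fun T => i ∈ T),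
          Real.exp (m + 1) * ∏ v ∈ T, q ρ v := by
      refine single_le_sum (f := fun T => Real.exp (m + 1) * ∏ v ∈ T, q ρ v)
        (fun T _ => mul_nonneg (Real.exp_pos _).le (hT0 ρ T)) ?_
      rw [mem_filter, mem_powersetCard]
      exact ⟨⟨subset_univ _, hT⟩, hi⟩
    refine h1.trans ?_
    exact single_le_sum (f := fun ρ => ∑ T ∈ ((univ : Finset V).powersetCard (m + 1)).filter (fun T => i ∈ T),
          Real.exp (m + 1) * ∏ v ∈ T, q ρ v)
      (fun ρ _ => sum_nonneg (fun T _ => mul_nonneg (Real.exp_pos _).le (hT0 ρ T))) (mem_univ ρ)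
  have hDp : ∀ p, P (D p) ≤ 1 / 100 := by
    intro p
    refine le_trans ?_ (hq (e1 p))
    refine single_le_sum (f := fun p => P (D p)) (fun p _ => P_nonneg _) ?_
    rw [mem_filter]
    exact ⟨mem_univ _, Or.inl rfl⟩
  obtain ⟨A, hA⟩ : ∃ A : J ⊕ (R × Finset V) → (V → κ) → Prop,
      A = Sum.elim D (fun rT φ => rT.2.card = m + 1 ∧ ∀ i ∈ rT.2, Hit rT.1 i (φ i)) := ⟨_, rfl⟩
  obtain ⟨supp, hsupp⟩ : ∃ supp : J ⊕ (R × Finset V) → Finset V,
      supp = Sum.elim (fun p => {e1 p, e2 p}) (fun rT => if rT.2.card = m + 1 then rT.2 else ∅) := ⟨_, rfl⟩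
  obtain ⟨x, hx⟩ : ∃ x : J ⊕ (R × Finset V) → ℝ,
      x = Sum.elim (fun p => 2 * P (D p))
        (fun rT => if rT.2.card = m + 1 then Real.exp (m + 1) * ∏ v ∈ rT.2, q rT.1 v else 0) := ⟨_, rfl⟩
  have main : ∃ ψ : V → κ, ∀ i, ¬ A i ψ := by
    refine Lin.alll A supp ?_ x ?_ ?_ (1 / 8) ?_ ?_
    · -- dependence
      rintro (p | ⟨ρ, T⟩)
      · rw [hA, hsupp]
        exact hD p
      · rw [hA, hsupp]
        intro φ φ' h
        simp only [Sum.elim_inr] at h ⊢
        by_cases hT : T.card = m + 1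
        · rw [if_pos hT] at h
          apply propext
          constructor
          · rintro ⟨h1, h2⟩
            exact ⟨h1, fun i hi => by rw [← h i hi]; exact h2 i hi⟩
          · rintro ⟨h1, h2⟩
            exact ⟨h1, fun i hi => by rw [h i hi]; exact h2 i hi⟩
        · simp [hT]
    · -- nonnegative
      rintro (p | ⟨ρ, T⟩)
      · rw [hx]
        simp only [Sum.elim_inl]
        have := P_nonneg (D p)
        linarith
      · rw [hx]
        simp only [Sum.elim_inr]
        split_ifs
        · exact mul_nonneg (Real.exp_pos _).le (hT0 ρ T)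
        · exact le_refl _
    · -- at most one half
      rintro (p | ⟨ρ, T⟩)
      · rw [hx]
        simp only [Sum.elim_inl]
        have := hDp p
        linarith
      · rw [hx]
        simp only [Sum.elim_inr]
        split_ifs with hT
        · have := hsingle ρ T hT
          linarith
        · norm_num
    · -- the sum at a vertex
      intro v
      rw [sum_filter, Fintype.sum_sum_type, Fintype.sum_prod_type]
      have h1 : ∑ p : J, (if v ∈ supp (Sum.inl p) then x (Sum.inl p) else 0) ≤ 2 / 100 := by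
        have h2 : ∑ p : J, (if v ∈ supp (Sum.inl p) then x (Sum.inl p) else 0)
            = 2 * ∑ p ∈ univ.filter (fun p => e1 p = v ∨ e2 p = v), P (D p) := by
          rw [sum_filter, mul_sum]
          refine sum_congr rfl (fun p _ => ?_)
          have h3 : v ∈ supp (Sum.inl p) ↔ (e1 p = v ∨ e2 p = v) := by
            rw [hsupp]
            simp only [Sum.elim_inl, mem_insert, mem_singleton]
            constructor
            · rintro (h | h)
              · exact Or.inl h.symm
              · exact Or.inr h.symm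
            · rintro (h | h)
              · exact Or.inl h.symm
              · exact Or.inr h.symm
          by_cases h4 : e1 p = v ∨ e2 p = v
          · rw [if_pos h4, if_pos (h3.2 h4), hx]
            rfl
          · rw [if_neg h4, if_neg (fun h => h4 (h3.1 h)), mul_zero]
        rw [h2]
        have := hq v
        linarith
      have h2 : ∑ ρ : R, ∑ T : Finset V,
          (if v ∈ supp (Sum.inr (ρ, T)) then x (Sum.inr (ρ, T)) else 0) ≤ 1 / 16 := by
        refine le_trans (le_of_eq ?_) (hsumT v)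
        refine sum_congr rfl (fun ρ _ => ?_)
        have h3 : (((univ : Finset V).powersetCard (m + 1)).filter (fun T => v ∈ T))
            = (univ : Finset (Finset V)).filter (fun T => T.card = m + 1 ∧ v ∈ T) := by
          ext T
          rw [mem_filter, mem_powersetCard, mem_filter]
          simp
        rw [h3, sum_filter]
        refine sum_congr rfl (fun T _ => ?_)
        by_cases hT : T.card = m + 1
        · by_cases hv : v ∈ T
          · have h4 : v ∈ supp (Sum.inr (ρ, T)) := by
              rw [hsupp]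
              simp only [Sum.elim_inr]
              rw [if_pos hT]
              exact hv
            rw [if_pos h4, if_pos ⟨hT, hv⟩, hx]
            simp only [Sum.elim_inr]
            rw [if_pos hT]
          · have h4 : v ∉ supp (Sum.inr (ρ, T)) := by
              rw [hsupp]
              simp only [Sum.elim_inr]
              rw [if_pos hT]
              exact hv
            rw [if_neg h4, if_neg (fun h => hv h.2)]
        · have h4 : v ∉ supp (Sum.inr (ρ, T)) := by
            rw [hsupp]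
            simp only [Sum.elim_inr]
            rw [if_neg hT]
            exact notMem_empty v
          rw [if_neg h4, if_neg (fun h => hT h.1)]
      linarith
    · -- probabilities
      rintro (p | ⟨ρ, T⟩)
      · rw [hA, hx, hsupp]
        simp only [Sum.elim_inl]
        have h1 : ((({e1 p, e2 p} : Finset V).card : ℕ) : ℝ) ≤ 2 := by
          exact_mod_cast card_le_two
        have h2 : Real.exp (-(1 / 2)) ≤ Real.exp (-(2 * (1 / 8) * (({e1 p, e2 p} : Finset V).card : ℝ))) := by
          apply Real.exp_le_exp.2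
          linarith
        have h3 : (1 : ℝ) / 2 ≤ Real.exp (-(1 / 2)) := by
          have := Real.add_one_le_exp (-(1 / 2) : ℝ)
          linarith
        have h4 := P_nonneg (D p)
        have h5 : (1 : ℝ) / 2 ≤ Real.exp (-(2 * (1 / 8) * (({e1 p, e2 p} : Finset V).card : ℝ))) := h3.trans h2
        have h6 := mul_le_mul_of_nonneg_left h5 (by linarith : 0 ≤ 2 * P (D p))
        linarith
      · rw [hA, hx, hsupp]
        simp only [Sum.elim_inr]
        by_cases hT : T.card = m + 1
        · rw [if_pos hT, if_pos hT]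
          have h1 : P (fun φ : V → κ => T.card = m + 1 ∧ ∀ i ∈ T, Hit ρ i (φ i)) = ∏ i ∈ T, q ρ i := by
            rw [← hprod ρ T]
            congr 1
            funext φ
            simp [hT]
          rw [h1, hT]
          have h2 : (1 : ℝ) ≤ Real.exp (m + 1) * Real.exp (-(2 * (1 / 8) * ((m + 1 : ℕ) : ℝ))) := by
            rw [← Real.exp_add]
            apply Real.one_le_exp
            push_cast
            have : (0 : ℝ) ≤ m := Nat.cast_nonneg m
            linarith
          have h3 := hT0 ρ T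
          have h4 := mul_le_mul_of_nonneg_left h2 h3
          calc ∏ i ∈ T, q ρ i = (∏ i ∈ T, q ρ i) * 1 := by ring
            _ ≤ (∏ i ∈ T, q ρ i) * (Real.exp (m + 1) * Real.exp (-(2 * (1 / 8) * ((m + 1 : ℕ) : ℝ)))) := h4
            _ = Real.exp (m + 1) * (∏ v ∈ T, q ρ v) * Real.exp (-(2 * (1 / 8) * ((m + 1 : ℕ) : ℝ))) := by ring
        · rw [if_neg hT, zero_mul]
          have h1 : P (fun φ : V → κ => T.card = m + 1 ∧ ∀ i ∈ T, Hit ρ i (φ i)) = 0 := by
            have h2 : (fun φ : V → κ => T.card = m + 1 ∧ ∀ i ∈ T, Hit ρ i (φ i)) = fun _ => False := by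
              funext φ
              simp [hT]
            rw [h2]
            unfold P
            simp [E_const]
          rw [h1]
  obtain ⟨ψ, hψ⟩ := main
  refine ⟨ψ, fun p hp => ?_, fun ρ => ?_⟩
  · refine hψ (Sum.inl p) ?_
    rw [hA]
    exact hp
  · by_contra hcon
    push Not at hcon
    have h1 : {i | Hit ρ i (ψ i)} = ((univ.filter (fun i => Hit ρ i (ψ i)) : Finset V) : Set V) := by
      ext i
      simp
    rw [h1, Set.ncard_coe_finset] at hcon
    obtain ⟨T, hT, hTc⟩ := exists_subset_card_eq hcon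
    refine hψ (Sum.inr (ρ, T)) ?_
    rw [hA]
    exact ⟨hTc, fun i hi => (mem_filter.1 (hT hi)).2⟩

end Pool.SCDO
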