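import Pool.Agent.Lib.SCDO.Defs
import Pool.Agent.Lib.SCDO.PB3

/-!
# Row PB4 (outer part of the symmetric chain decompositions)
Expected number of chains hitting a set of vertices.
Recipe: P(V ∈ W) ≤ ∑_{v ∈ W} P(V = v) (P_exists) ≤ ∑_{v ∈ W} [z ⊆ v]/C(N,h) (V_prob); exchange the sums over i and v.
-/

set_option linter.unusedSectionVars false
set_option linter.unusedVariables false

namespace Pool.SCDO

open Finset Pool.SCDH Pool.Agent.SK

variable {n t K : ℕ}

theorem mean_gen (S : Sys n t K) (s : Bool) (h : ℕ) (hh : h ≤ NN n t) (W : Finset (Finset (Fin n)))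
    (I : Finset (Fin K × Lv n (k0 t))) (m : ℕ)
    (hm : ∀ v ∈ W, (I.filter (fun i => S.z s i.1 i.2 ⊆ v)).card ≤ m) :
    ∑ i ∈ I, P (fun φ : Lbo n t K => S.V s i (φ i) h ∈ W)
      ≤ ((W.card * m : ℕ) : ℝ) / ((NN n t).choose h : ℝ) := by
  classical
  have h1 : ∀ i ∈ I, P (fun φ : Lbo n t K => S.V s i (φ i) h ∈ W)
      ≤ ∑ v ∈ W, (if S.z s i.1 i.2 ⊆ v then 1 / ((NN n t).choose h : ℝ) else 0) := by
    intro i _
    have e1 : P (fun φ : Lbo n t K => S.V s i (φ i) h ∈ W)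
        ≤ P (fun φ : Lbo n t K => ∃ v ∈ W, S.V s i (φ i) h = v) :=
      P_mono (fun φ hφ => ⟨_, hφ, rfl⟩)
    refine e1.trans ((P_exists W (fun v (φ : Lbo n t K) => S.V s i (φ i) h = v)).trans ?_)
    exact sum_le_sum (fun v _ => V_prob S s i h hh v)
  refine (sum_le_sum h1).trans ?_
  rw [sum_comm]
  have h2 : ∀ v ∈ W, (∑ i ∈ I, (if S.z s i.1 i.2 ⊆ v then 1 / ((NN n t).choose h : ℝ) else 0))
      ≤ (m : ℝ) * (1 / ((NN n t).choose h : ℝ)) := by
    intro v hv
    rw [← sum_filter, sum_const, nsmul_eq_mul]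
    exact mul_le_mul_of_nonneg_right (by exact_mod_cast hm v hv) (by positivity)
  refine (sum_le_sum h2).trans ?_
  rw [sum_const, nsmul_eq_mul]
  apply le_of_eq
  push_cast
  ring

end Pool.SCDO
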