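import Pool.Agent.Lib.SCDO.Defs
import Pool.Agent.Lib.SCDO.PB4
import Pool.Agent.Lib.SCDO.ZC
import Pool.Agent.Lib.SCDO.NU1
import Pool.Agent.Lib.SCDO.VF

/-!
# Row PM1 (outer part of the symmetric chain decompositions)
Expected number of hits, kind 1.
Recipe: if the side conditions on h, A fail the event is False (P = 0).  Otherwise Hit1 implies V s i h ∈ W = A.powersetCard (k0+1+h) (V_card), |W| = k0+2+h; mean_gen with I = univ,
m = (k0+1) C(k0+1+h,k0+1) (cnt_all): ≤ (k0+2+h)(k0+1) φ, φ = C(k0+1+h,k0+1)/C(N,h).  h = 1: φ ≤ t^(-149) (phi_le, m = 1), (k0+3)(k0+1) ≤ 8 t^100.  h ≥ 2: φ ≤ t^(-299), k0+2+h ≤ n ≤ 2t^200.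
-/

set_option linter.unusedSectionVars false
set_option linter.unusedVariables false

namespace Pool.SCDO

open Finset Pool.SCDH Pool.Agent.SK

variable {n t K : ℕ}

private theorem finish1 (S : Sys n t K) (s : Bool) (h : ℕ) (hh : h ≤ NN n t)
    (W : Finset (Finset (Fin n))) (I : Finset (Fin K × Lv n (k0 t))) (m : ℕ)
    (hm : ∀ v ∈ W, (I.filter (fun i => S.z s i.1 i.2 ⊆ v)).card ≤ m)
    (A : Fin K × Lv n (k0 t) → Lbo n t K → Prop)
    (hA : ∀ i φ, A i φ → i ∈ I ∧ S.V s i (φ i) h ∈ W)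
    (ht : 0 < t) (hc : t * (W.card * m) ≤ (NN n t).choose h) :
    ∑ i, P (A i) ≤ 1 / t := by
  classical
  have h1 : ∑ i, P (A i) = ∑ i ∈ I, P (A i) := by
    symm
    refine sum_subset (subset_univ I) (fun i _ hi => ?_)
    have : P (A i) ≤ 0 := by
      have h2 := P_mono (V := Fin K × Lv n (k0 t)) (A := A i) (B := fun _ => False)
        (fun φ hφ => hi (hA i φ hφ).1)
      refine h2.trans (le_of_eq ?_)
      unfold P
      simp only [if_false]
      exact E_const 0
    exact le_antisymm this (P_nonneg _)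
  rw [h1]
  have h2 : ∑ i ∈ I, P (A i) ≤ ∑ i ∈ I, P (fun φ : Lbo n t K => S.V s i (φ i) h ∈ W) :=
    sum_le_sum (fun i _ => P_mono (fun φ hφ => (hA i φ hφ).2))
  refine h2.trans ((mean_gen S s h hh W I m hm).trans ?_)
  have hpos : 0 < (NN n t).choose h := Nat.choose_pos hh
  have hpos' : (0 : ℝ) < ((NN n t).choose h : ℝ) := by exact_mod_cast hpos
  have ht' : (0 : ℝ) < (t : ℝ) := by exact_mod_cast ht
  rw [div_le_div_iff₀ hpos' ht', one_mul]
  have : ((t * (W.card * m) : ℕ) : ℝ) ≤ ((NN n t).choose h : ℝ) := by exact_mod_cast hc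
  calc ((W.card * m : ℕ) : ℝ) * t = ((t * (W.card * m) : ℕ) : ℝ) := by push_cast; ring
    _ ≤ _ := this

private theorem t_ge {ε : ℝ} (hB : Big ε t) : 100 ≤ t := by
  have h0 := hB.e0
  have h1 := hB.e1
  have h2 := hB.b1
  have ht : (0 : ℝ) ≤ (t : ℝ) := Nat.cast_nonneg t
  have h3 : (100 : ℝ) ≤ t := by
    have h4 : ε * t ≤ 1 / 2 * t := mul_le_mul_of_nonneg_right h1 ht
    have h5 : (100 : ℝ) ≤ (10 : ℝ) ^ 100 := by norm_num
    linarith
  exact_mod_cast h3

theorem mean1 {ε : ℝ} (hB : Big ε t) (hR : Rng t n) (S : Sys n t K)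
    (ρ : Bool × Fin (n + 1) × Finset (Fin n)) :
    ∑ i, P (fun φ : Lbo n t K => S.Hit1 ρ i (φ i)) ≤ 1 / t := by
  classical
  obtain ⟨s, h, A⟩ := ρ
  have ht := t_ge hB
  by_cases hc : 1 ≤ (h : ℕ) ∧ 2 * (h : ℕ) ≤ NN n t + 1 ∧ A.card = k0 t + 2 + h
  swap
  · have : ∑ i, P (fun φ : Lbo n t K => S.Hit1 (s, h, A) i (φ i)) = 0 := by
      refine sum_eq_zero (fun i _ => ?_)
      refine le_antisymm ?_ (P_nonneg _)
      have h2 := P_mono (V := Fin K × Lv n (k0 t))
        (A := fun φ : Lbo n t K => S.Hit1 (s, h, A) i (φ i)) (B := fun _ => False)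
        (fun φ hφ => hc ⟨hφ.1, hφ.2.1, hφ.2.2.1⟩)
      refine h2.trans (le_of_eq ?_)
      unfold P
      simp only [if_false]
      exact E_const 0
    rw [this]
    positivity
  obtain ⟨c1, c2, c3⟩ := hc
  have hN : NN n t = n - 2 * (k0 t + 1) := rfl
  have hh : (h : ℕ) ≤ NN n t := by omega
  have hWc : (A.powersetCard (k0 t + 1 + h)).card = k0 t + 2 + h := by
    rw [card_powersetCard, c3, show k0 t + 2 + (h : ℕ) = (k0 t + 1 + h) + 1 by ring,
      Nat.choose_succ_self_right]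
  refine finish1 S s h hh (A.powersetCard (k0 t + 1 + h)) univ
    ((k0 t + 1) * (k0 t + 1 + h).choose (k0 t + 1)) ?_ _ ?_ (by omega) ?_
  · intro v hv
    have := cnt_all S s v
    rwa [(mem_powersetCard.1 hv).2] at this
  · intro i φ hφ
    refine ⟨mem_univ _, mem_powersetCard.2 ⟨hφ.2.2.2, V_card S s i (φ i) h hh⟩⟩
  · rw [hWc]
    have hk : k0 t = t ^ 50 := rfl
    have hk1 : k0 t + 1 ≤ t ^ 51 := by
      rw [hk, pow_succ]
      have : 1 ≤ t ^ 50 := Nat.one_le_pow _ _ (by omega)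
      nlinarith
    have hn : k0 t + 2 + (h : ℕ) ≤ n := by
      rw [← c3]
      simpa using card_le_univ A
    by_cases h2 : 2 ≤ (h : ℕ)
    · have key := phi_le (m := 2) hB hR (by norm_num) (by norm_num) h2 c2
      have e1 : n ≤ t ^ 201 := by
        have := hR.2.le
        refine this.trans ?_
        rw [pow_succ, mul_comm]
        exact Nat.mul_le_mul_left _ (by omega)
      calc t * ((k0 t + 2 + (h : ℕ)) * ((k0 t + 1) * (k0 t + 1 + h).choose (k0 t + 1)))
          ≤ t * (t ^ 201 * (t ^ 51 * (k0 t + 1 + h).choose (k0 t + 1))) := by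
            gcongr
            exact hn.trans e1
        _ = t ^ 253 * (k0 t + 1 + h).choose (k0 t + 1) := by ring
        _ ≤ t ^ (150 * 2 - 1) * (k0 t + 1 + h).choose (k0 t + 1) := by
            gcongr
            · omega
            · norm_num
        _ ≤ _ := key
    · have h1 : (h : ℕ) = 1 := by omega
      have key := phi_le (m := 1) hB hR (by norm_num) (by norm_num) c1 c2
      have hk3 : k0 t + 2 + (h : ℕ) ≤ t ^ 51 := by
        rw [hk, pow_succ, h1]
        have : 1 ≤ t ^ 50 := Nat.one_le_pow _ _ (by omega)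
        nlinarith
      calc t * ((k0 t + 2 + (h : ℕ)) * ((k0 t + 1) * (k0 t + 1 + h).choose (k0 t + 1)))
          ≤ t * (t ^ 51 * (t ^ 51 * (k0 t + 1 + h).choose (k0 t + 1))) := by
            gcongr
        _ = t ^ 103 * (k0 t + 1 + h).choose (k0 t + 1) := by ring
        _ ≤ t ^ (150 * 1 - 1) * (k0 t + 1 + h).choose (k0 t + 1) := by
            gcongr
            · omega
            · norm_num
        _ ≤ _ := key

end Pool.SCDO
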