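import Pool.Agent.Lib.SCDO.Defs
import Pool.Agent.Lib.SCDO.PB3
import Pool.Agent.Lib.SCDO.NU2
import Pool.Agent.Lib.SCDO.VF

/-!
# Row PM3 (outer part of the symmetric chain decompositions)
Expected number of hits, kind 3.
Recipe: only i = (c,x).  A ⊆ V s i 1 = z ∪ {a}, |A| = |z| = k0+1, z ≠ A imply |z \ A| = 1 and V s i 1 = z ∪ A; so P ≤ 1/C(N,1) = 1/N (V_prob) for the x with |z s c x \ A| = 1 and 0 for the others.
Start.near: t^28 #{x} ≤ n, and n ≤ 2... n/N ≤ 8 (ob_NN, Rng).
-/

set_option linter.unusedSectionVars false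
set_option linter.unusedVariables false

namespace Pool.SCDO

open Finset Pool.SCDH Pool.Agent.SK

variable {n t K : ℕ}

theorem mean3 {ε : ℝ} (hB : Big ε t) (hR : Rng t n) (S : Sys n t K)
    (ρ : Bool × Fin K × Finset (Fin n)) :
    ∑ i, P (fun φ : Lbo n t K => S.Hit3 ρ i (φ i)) ≤ 1 / t := by
  classical
  obtain ⟨s, c0, A⟩ := ρ
  have ht := ob_t hB
  obtain ⟨hN1, hN2, hN3⟩ := ob_NN hB hR
  have ht0 : 0 < t := lt_of_lt_of_le (by norm_num) ht
  have htp : 0 < t ^ 200 := pow_pos ht0 _
  have hNpos : 0 < NN n t := by omega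
  have hN1' : 1 ≤ NN n t := hNpos
  -- a bound for every chain
  have hi : ∀ i : Fin K × Lv n (k0 t), P (fun φ : Lbo n t K => S.Hit3 (s, c0, A) i (φ i))
      ≤ if i.1 = c0 ∧ A.card = k0 t + 1 ∧ (S.z s i.1 i.2 \ A).card = 1 then
          1 / (NN n t : ℝ) else 0 := by
    intro i
    split_ifs with h
    · obtain ⟨h1, h2, h3⟩ := h
      have hle : P (fun φ : Lbo n t K => S.Hit3 (s, c0, A) i (φ i))
          ≤ P (fun φ : Lbo n t K => S.V s i (φ i) 1 = S.z s i.1 i.2 ∪ A) := by
        refine P_mono ?_
        intro φ hφ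
        obtain ⟨g1, g2, g3, g4⟩ := hφ
        have hz : S.z s i.1 i.2 ⊆ S.V s i (φ i) 1 := by
          have := V_mono S s i (φ i) (show 0 ≤ 1 by norm_num)
          rwa [V_zero] at this
        have hV := V_card S s i (φ i) 1 hN1'
        symm
        have hu := Finset.card_sdiff_add_card (S.z s i.1 i.2) A
        exact Finset.eq_of_subset_of_card_le (Finset.union_subset hz g3)
          (by omega)
      refine hle.trans ((V_prob S s i 1 hN1' _).trans ?_)
      rw [if_pos Finset.subset_union_left, Nat.choose_one_right]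
    · have hle : P (fun φ : Lbo n t K => S.Hit3 (s, c0, A) i (φ i))
          ≤ P (fun _ : Lbo n t K => False) := by
        refine P_mono ?_
        intro φ hφ
        obtain ⟨g1, g2, g3, g4⟩ := hφ
        apply h
        change i.1 = c0 at g1
        change A.card = k0 t + 1 at g2
        change A ⊆ S.V s i (φ i) 1 at g3
        change S.z s i.1 i.2 ≠ A at g4
        refine ⟨g1, g2, ?_⟩
        have hz : S.z s i.1 i.2 ⊆ S.V s i (φ i) 1 := by
          have := V_mono S s i (φ i) (show 0 ≤ 1 by norm_num)
          rwa [V_zero] at this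
        have hV := V_card S s i (φ i) 1 hN1'
        have hzc := (S.st s).card i.1 i.2
        have hU : (S.z s i.1 i.2 ∪ A).card ≤ k0 t + 2 := by
          have := Finset.card_le_card (Finset.union_subset hz g3)
          omega
        have hu := Finset.card_sdiff_add_card (S.z s i.1 i.2) A
        have hne : 0 < (S.z s i.1 i.2 \ A).card := by
          rw [Finset.card_pos, Finset.sdiff_nonempty]
          intro hsub
          exact g4 (Finset.eq_of_subset_of_card_le hsub (by rw [g2, hzc]))
        omega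
      refine hle.trans (le_of_eq ?_)
      simp [P, E_const]
  -- the number of the chains
  have hcnt : ∑ i : Fin K × Lv n (k0 t), P (fun φ : Lbo n t K => S.Hit3 (s, c0, A) i (φ i))
      ≤ ((univ.filter (fun i : Fin K × Lv n (k0 t) => i.1 = c0 ∧ A.card = k0 t + 1 ∧
          (S.z s i.1 i.2 \ A).card = 1)).card : ℝ) * (1 / (NN n t : ℝ)) := by
    refine (Finset.sum_le_sum (fun i _ => hi i)).trans (le_of_eq ?_)
    rw [← Finset.sum_filter, Finset.sum_const, nsmul_eq_mul]
  by_cases hA : A.card = k0 t + 1
  swap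
  · refine hcnt.trans ?_
    rw [Finset.filter_false_of_mem (fun i _ h => hA h.2.1)]
    simp
  · have hle : (univ.filter (fun i : Fin K × Lv n (k0 t) => i.1 = c0 ∧ A.card = k0 t + 1 ∧
          (S.z s i.1 i.2 \ A).card = 1)).card
          ≤ (univ.filter (fun x => (S.z s c0 x \ A).card = 1)).card := by
      refine Finset.card_le_card_of_injOn (fun i => i.2) ?_ ?_
      · intro i hi'
        have h := (Finset.mem_filter.1 hi').2
        refine Finset.mem_filter.2 ⟨Finset.mem_univ _, ?_⟩
        obtain ⟨h1, h2, h3⟩ := h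
        rw [h1] at h3
        exact h3
      · intro i hi' j hj' hij
        have h := (Finset.mem_filter.1 hi').2
        have h' := (Finset.mem_filter.1 hj').2
        exact Prod.ext (h.1.trans h'.1.symm) hij
    have hnear := (S.st s).near c0 A hA
    set m := (univ.filter (fun x => (S.z s c0 x \ A).card = 1)).card with hm
    have hn4 : n ≤ 4 * NN n t := by
      have := hR.2
      omega
    have h28 : t ^ 28 * m ≤ 4 * NN n t := hnear.trans hn4
    have ht4 : 4 * t ≤ t ^ 28 := by
      calc 4 * t ≤ t * t := Nat.mul_le_mul_right _ (le_trans (by norm_num) ht)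
        _ = t ^ 2 := by ring
        _ ≤ t ^ 28 := Nat.pow_le_pow_right ht0 (by norm_num)
    have hfin : t * m ≤ NN n t := by
      have : 4 * (t * m) ≤ 4 * NN n t := by
        calc 4 * (t * m) = (4 * t) * m := by ring
          _ ≤ t ^ 28 * m := Nat.mul_le_mul_right _ ht4
          _ ≤ _ := h28
      omega
    have hfin' : (t : ℝ) * m ≤ NN n t := by exact_mod_cast hfin
    have hNR : (0 : ℝ) < NN n t := by exact_mod_cast hNpos
    have htR : (0 : ℝ) < t := by exact_mod_cast ht0
    refine hcnt.trans ?_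
    have hle' : ((univ.filter (fun i : Fin K × Lv n (k0 t) => i.1 = c0 ∧ A.card = k0 t + 1 ∧
          (S.z s i.1 i.2 \ A).card = 1)).card : ℝ) ≤ m := by exact_mod_cast hle
    calc _ ≤ (m : ℝ) * (1 / (NN n t : ℝ)) := mul_le_mul_of_nonneg_right hle' (by positivity)
      _ ≤ 1 / t := by
        rw [mul_one_div, div_le_div_iff₀ hNR htR]
        linarith

end Pool.SCDO
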