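import Pool.Agent.Lib.SCDO.Defs
import Pool.Agent.Lib.SCDO.PB4
import Pool.Agent.Lib.SCDO.ZC
import Pool.Agent.Lib.SCDO.NU2
import Pool.Agent.Lib.SCDO.VF
import Pool.Agent.Lib.SCDO.CT

/-!
# Row PM5 (outer part of the symmetric chain decompositions)
Expected number of hits, kind 5.
-/

set_option linter.unusedSectionVars false
set_option linter.unusedVariables false

namespace Pool.SCDO

open Finset Pool.SCDH Pool.Agent.SK

variable {n t K : ℕ}

private theorem pm5_false : P (fun _ : Lbo n t K => False) = 0 := by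
  unfold P
  simp only [if_false]
  exact E_const 0

theorem mean5 {ε : ℝ} (hB : Big ε t) (hR : Rng t n) (S : Sys n t K)
    (ρ : Bool × Fin (n + 1) × Finset (Fin n)) :
    ∑ i, P (fun φ : Lbo n t K => S.Hit5 ρ i (φ i)) ≤ 1 / t := by
  classical
  have ht := ob_t hB
  have ht1 : 1 ≤ t := le_trans (by norm_num) ht
  have htr : (10 : ℝ) ^ 100 ≤ t := by exact_mod_cast ht
  have ht1r : (1 : ℝ) ≤ t := by exact_mod_cast ht1
  obtain ⟨hn, hN1, hN2⟩ := ob_NN hB hR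
  have hN1r : (t : ℝ) ^ 200 ≤ 2 * NN n t := by exact_mod_cast hN1
  have hNpos : (0 : ℝ) < NN n t := by
    have : (0 : ℝ) < (t : ℝ) ^ 200 := by positivity
    linarith
  have hN : 1 ≤ NN n t := by
    have : 0 < NN n t := by exact_mod_cast hNpos
    omega
  by_cases hcard : ρ.2.2.card = k0 t + 1
  swap
  · have h0 : ∀ i : Fin K × Lv n (k0 t), P (fun φ : Lbo n t K => S.Hit5 ρ i (φ i)) ≤ 0 := by
      intro i
      have h1 : P (fun φ : Lbo n t K => S.Hit5 ρ i (φ i)) ≤ P (fun _ : Lbo n t K => False) :=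
        P_mono (fun φ h => hcard h.1)
      rw [pm5_false] at h1
      exact h1
    refine (Finset.sum_nonpos (fun i _ => h0 i)).trans ?_
    positivity
  set W : Finset (Finset (Fin n)) := univ.filter (fun v => ρ.2.2 ⊆ v ∧ v.card = ρ.2.2.card + 1 ∧
    ∀ a ∈ v \ ρ.2.2, (a : ℕ) / t ^ 90 = ρ.2.1) with hW
  have hWc : W.card ≤ t ^ 90 := by
    have h1 := (ct4 (t ^ 90) (ρ.2.1 : ℕ) ρ.2.2 (Nat.one_le_pow _ _ ht1)).1
    have h2 : {v : Finset (Fin n) | ρ.2.2 ⊆ v ∧ v.card = ρ.2.2.card + 1 ∧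
        ∀ a ∈ v \ ρ.2.2, (a : ℕ) / t ^ 90 = ρ.2.1} = (W : Set (Finset (Fin n))) := by
      ext v
      simp [hW]
    rw [h2, Set.ncard_coe_finset] at h1
    exact h1
  have hsum : ∑ i, P (fun φ : Lbo n t K => S.Hit5 ρ i (φ i))
      ≤ ∑ i ∈ (univ : Finset (Fin K × Lv n (k0 t))), P (fun φ : Lbo n t K => S.V ρ.1 i (φ i) 1 ∈ W) := by
    refine Finset.sum_le_sum (fun i _ => P_mono (fun φ h => ?_))
    rw [hW, mem_filter]
    refine ⟨mem_univ _, h.2.1, ?_, h.2.2⟩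
    rw [V_card S ρ.1 i (φ i) 1 hN, hcard]
  have hgen := mean_gen S ρ.1 1 hN W univ ((k0 t + 1) * (k0 t + 2))
    (by
      intro v hv
      refine (cnt_all S ρ.1 v).trans ?_
      rw [hW, mem_filter] at hv
      rw [hv.2.2.1, hcard]
      have h1 : (k0 t + 1 + 1).choose (k0 t + 1) = k0 t + 2 := by
        rw [Nat.choose_succ_self_right]
      rw [h1])
  refine (hsum.trans hgen).trans ?_
  rw [Nat.choose_one_right, div_le_div_iff₀ hNpos (by linarith)]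
  have h1 : ((W.card * ((k0 t + 1) * (k0 t + 2)) : ℕ) : ℝ) ≤ (t : ℝ) ^ 90 * (4 * (t : ℝ) ^ 100) := by
    have h2 : W.card * ((k0 t + 1) * (k0 t + 2)) ≤ t ^ 90 * (4 * t ^ 100) := by
      refine Nat.mul_le_mul hWc ?_
      have h3 : 1 ≤ t ^ 50 := Nat.one_le_pow _ _ ht1
      have h3' : 2 ≤ t ^ 50 := by
        calc 2 ≤ t := le_trans (by norm_num) ht
          _ = t ^ 1 := (pow_one t).symm
          _ ≤ t ^ 50 := Nat.pow_le_pow_right ht1 (by norm_num)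
      have h4 : k0 t + 1 ≤ 2 * t ^ 50 := by unfold k0; omega
      have h5 : k0 t + 2 ≤ 2 * t ^ 50 := by unfold k0; omega
      calc (k0 t + 1) * (k0 t + 2) ≤ (2 * t ^ 50) * (2 * t ^ 50) := Nat.mul_le_mul h4 h5
        _ = 4 * t ^ 100 := by ring
    exact_mod_cast h2
  have h6 : (8 : ℝ) ≤ (t : ℝ) ^ 9 := by
    calc (8 : ℝ) ≤ t := le_trans (by norm_num) htr
      _ = (t : ℝ) ^ 1 := (pow_one _).symm
      _ ≤ (t : ℝ) ^ 9 := pow_le_pow_right₀ ht1r (by norm_num)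
  calc ((W.card * ((k0 t + 1) * (k0 t + 2)) : ℕ) : ℝ) * t
      ≤ (t : ℝ) ^ 90 * (4 * (t : ℝ) ^ 100) * t := mul_le_mul_of_nonneg_right h1 (by linarith)
    _ = 8 * (t : ℝ) ^ 191 / 2 := by ring
    _ ≤ (t : ℝ) ^ 9 * (t : ℝ) ^ 191 / 2 := by gcongr
    _ = (t : ℝ) ^ 200 / 2 := by ring
    _ ≤ 1 * NN n t := by linarith

end Pool.SCDO
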