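import Pool.Agent.Lib.SCDO.Defs
import Pool.Agent.Lib.SCDO.PB4
import Pool.Agent.Lib.SCDO.NU2
import Pool.Agent.Lib.SCDO.VF
import Pool.Agent.Lib.SCDO.CT

/-!
# Row PM6 (outer part of the symmetric chain decompositions)
Expected number of hits, kind 6.
Recipe: I = {i | i.1 = c}; V s i 1 ∈ W = {v | |v \ A| = 1, |v| = |A|, the a ∈ v \ A has a/t^90 = g}, |W| ≤ (k0+2) t^90 (ct4); m = t (Start.down, |v| = k0+2), C(N,1) = N ≥ t^200/2.
-/

set_option linter.unusedSectionVars false
set_option linter.unusedVariables false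

namespace Pool.SCDO

open Finset Pool.SCDH Pool.Agent.SK

variable {n t K : ℕ}

theorem mean6 {ε : ℝ} (hB : Big ε t) (hR : Rng t n) (S : Sys n t K)
    (ρ : Bool × Fin K × Fin (n + 1) × Finset (Fin n)) :
    ∑ i, P (fun φ : Lbo n t K => S.Hit6 ρ i (φ i)) ≤ 1 / t := by
  classical
  obtain ⟨s, c, g, A⟩ := ρ
  have ht := ob_t hB
  obtain ⟨hn, hN1, hN2⟩ := ob_NN hB hR
  have ht1 : 1 ≤ t := le_trans (by norm_num) ht
  have hNpos : 1 ≤ NN n t := by
    have h1 : 1 ≤ t ^ 200 := Nat.one_le_pow _ _ ht1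
    omega
  have htR : (0 : ℝ) < t := by exact_mod_cast ht1
  have hfalse : ∀ (Q : Lbo n t K → Prop), (∀ φ, ¬ Q φ) → P Q = 0 := by
    intro Q hQ
    have h1 : P Q = P (fun _ : Lbo n t K => False) := by
      congr 1
      ext φ
      exact ⟨fun h => hQ φ h, fun h => h.elim⟩
    rw [h1]
    simp [P, E]
  by_cases hA : A.card = k0 t + 2
  swap
  · have : ∑ i, P (fun φ : Lbo n t K => S.Hit6 (s, c, g, A) i (φ i)) = 0 :=
      Finset.sum_eq_zero fun i _ => hfalse _ fun φ h => hA h.2.1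
    rw [this]
    positivity
  set W : Finset (Finset (Fin n)) := univ.filter (fun v => (v \ A).card = 1 ∧ v.card = A.card ∧
      ∀ a ∈ v \ A, (a : ℕ) / t ^ 90 = g) with hW
  have hWc : W.card ≤ (k0 t + 2) * t ^ 90 := by
    have h1 := (ct4 (n := n) (t ^ 90) g A (Nat.one_le_pow _ _ ht1)).2
    rw [hA] at h1
    have h2 : {v : Finset (Fin n) | (v \ A).card = 1 ∧ v.card = k0 t + 2 ∧
      ∀ a ∈ v \ A, (a : ℕ) / t ^ 90 = g}.ncard = W.card := by
      rw [← Set.ncard_coe_finset]
      congr 1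
      ext v
      simp [hW, hA]
    rw [← h2]
    exact h1
  set I : Finset (Fin K × Lv n (k0 t)) := univ.filter (fun i => i.1 = c) with hI
  have hstep : ∑ i, P (fun φ : Lbo n t K => S.Hit6 (s, c, g, A) i (φ i)) ≤
      ∑ i ∈ I, P (fun φ : Lbo n t K => S.V s i (φ i) 1 ∈ W) := by
    have h1 : ∑ i, P (fun φ : Lbo n t K => S.Hit6 (s, c, g, A) i (φ i)) =
        ∑ i ∈ I, P (fun φ : Lbo n t K => S.Hit6 (s, c, g, A) i (φ i)) := by
      symm
      apply Finset.sum_subset (Finset.subset_univ _)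
      intro i _ hi
      apply hfalse
      intro φ h
      apply hi
      rw [hI, Finset.mem_filter]
      exact ⟨Finset.mem_univ _, h.1⟩
    rw [h1]
    refine Finset.sum_le_sum fun i _ => P_mono fun φ h => ?_
    rw [hW, Finset.mem_filter]
    refine ⟨Finset.mem_univ _, h.2.2.1, ?_, h.2.2.2⟩
    rw [V_card S s i (φ i) 1 hNpos, hA]
  have hm : ∀ v ∈ W, (I.filter (fun i => S.z s i.1 i.2 ⊆ v)).card ≤ t := by
    intro v hv
    rw [hW, Finset.mem_filter] at hv
    have h1 := (S.st s).down c v (hv.2.2.1.trans hA)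
    refine le_trans ?_ h1
    apply Finset.card_le_card_of_injOn (fun i => i.2)
    · intro i hi
      simp only [hI, Finset.coe_filter, Finset.mem_filter, Finset.mem_univ, true_and,
        Set.mem_setOf_eq] at hi
      simp only [Finset.coe_filter, Finset.mem_univ, true_and, Set.mem_setOf_eq]
      rw [← hi.1]
      exact hi.2
    · intro i hi j hj hij
      simp only [hI, Finset.coe_filter, Finset.mem_filter, Finset.mem_univ, true_and,
        Set.mem_setOf_eq] at hi hj
      exact Prod.ext (hi.1.trans hj.1.symm) hij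
  have h2 := mean_gen S s 1 hNpos W I t hm
  refine (hstep.trans h2).trans ?_
  rw [Nat.choose_one_right]
  have hNR : (0 : ℝ) < (NN n t : ℝ) := by exact_mod_cast hNpos
  rw [div_le_div_iff₀ hNR htR, one_mul]
  have h3 : W.card * t * t ≤ NN n t := by
    have h4 : W.card * t * t ≤ (k0 t + 2) * t ^ 90 * t * t := by gcongr
    have h5 : k0 t + 2 ≤ t ^ 51 := by
      unfold k0
      have e : t ^ 51 = t * t ^ 50 := by ring
      have h6 : 3 ≤ t := le_trans (by norm_num) ht
      have h7 : 1 ≤ t ^ 50 := Nat.one_le_pow _ _ ht1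
      rw [e]
      nlinarith
    have h8 : (k0 t + 2) * t ^ 90 * t * t ≤ t ^ 51 * t ^ 90 * t * t := by gcongr
    have e2 : t ^ 51 * t ^ 90 * t * t = t ^ 143 := by ring
    have h9 : 2 * t ^ 143 ≤ t ^ 200 := by
      have e3 : t ^ 200 = t ^ 143 * t ^ 57 := by ring
      have h10 : 2 ≤ t ^ 57 := by
        calc 2 ≤ t := le_trans (by norm_num) ht
          _ = t ^ 1 := (pow_one t).symm
          _ ≤ t ^ 57 := Nat.pow_le_pow_right ht1 (by norm_num)
      rw [e3]
      nlinarith [Nat.zero_le (t ^ 143)]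
    omega
  exact_mod_cast h3

end Pool.SCDO
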