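import Pool.Agent.Lib.SCDO.Defs
import Pool.Agent.Lib.SCDO.PB6
import Pool.Agent.Lib.SCDO.PB2
import Pool.Agent.Lib.SCDO.CN1
import Pool.Agent.Lib.SCDO.CN2
import Pool.Agent.Lib.SCDO.PM1
import Pool.Agent.Lib.SCDO.PM2
import Pool.Agent.Lib.SCDO.PM3
import Pool.Agent.Lib.SCDO.PM4
import Pool.Agent.Lib.SCDO.PM5
import Pool.Agent.Lib.SCDO.PM6

/-!
# Row PB8 (outer part of the symmetric chain decompositions)
Good labels exist.
Recipe: hits_lll with D = S.Cl, e1 p = p.2.2.1, e2 p = p.2.2.2, R = the sum of the six index types, Hit by cases, m + 1 = t, μ = 1/t, S = 6 (n+1)^4 (sum_P_le, cnt1..cnt6).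
hm: 6 (n+1)^4 t^(-(t-1)) e^t ≤ 1/16: (n+1)^4 ≤ 81 t^800, t^(t-1) = exp((t-1) log t) and log t ≥ 200 (t ≥ 10^100), t^800 ≤ e^t.
-/

set_option linter.unusedSectionVars false
set_option linter.unusedVariables false

namespace Pool.SCDO

open Finset Pool.SCDH Pool.Agent.SK

variable {n t K : ℕ}

/-- the six kinds of regions together -/
private def HitAll (S : Sys n t K) :
    ((Bool × Fin (n + 1) × Finset (Fin n)) ⊕ (Bool × Fin (n + 1) × Finset (Fin n))) ⊕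
    ((Bool × Fin K × Finset (Fin n)) ⊕ (Bool × Fin K × Fin (n + 1) × Finset (Fin n))) ⊕
    ((Bool × Fin (n + 1) × Finset (Fin n)) ⊕ (Bool × Fin K × Fin (n + 1) × Finset (Fin n))) →
    (Fin K × Lv n (k0 t)) → Equiv.Perm (Fin (NN n t)) → Prop
  | .inl (.inl ρ) => S.Hit1 ρ
  | .inl (.inr ρ) => S.Hit2 ρ
  | .inr (.inl (.inl ρ)) => S.Hit3 ρ
  | .inr (.inl (.inr ρ)) => S.Hit4 ρ
  | .inr (.inr (.inl ρ)) => S.Hit5 ρ
  | .inr (.inr (.inr ρ)) => S.Hit6 ρ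

private lemma pb8_num {ε : ℝ} (hB : Big ε t) (hR : Rng t n) {m : ℕ} (hm : t = m + 1) :
    (6 * ((n : ℝ) + 1) ^ 4) * (1 / (t : ℝ)) ^ m * Real.exp ((m : ℝ) + 1) ≤ 1 / 16 := by
  have hT : (10 : ℝ) ^ 100 ≤ (t : ℝ) := by
    have h1 := hB.b1
    have h2 : ε * (t : ℝ) ≤ 1 * (t : ℝ) :=
      mul_le_mul_of_nonneg_right (by have := hB.e1; linarith) (Nat.cast_nonneg t)
    linarith
  have hT0 : (0 : ℝ) < (t : ℝ) := lt_of_lt_of_le (by norm_num) hT
  have hT1 : (1 : ℝ) ≤ (t : ℝ) := le_trans (by norm_num) hT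
  have hmt : ((m : ℝ) + 1) = (t : ℝ) := by rw [hm]; push_cast; ring
  have hn : ((n : ℝ) + 1) ≤ 2 * (t : ℝ) ^ 200 := by
    have h1 : n + 1 ≤ 2 * t ^ 200 := hR.2
    exact_mod_cast h1
  have hn4 : ((n : ℝ) + 1) ^ 4 ≤ 16 * (t : ℝ) ^ 800 := by
    calc ((n : ℝ) + 1) ^ 4 ≤ (2 * (t : ℝ) ^ 200) ^ 4 :=
          pow_le_pow_left₀ (by positivity) hn 4
      _ = 16 * (t : ℝ) ^ 800 := by ring
  have h800 : (t : ℝ) ^ 800 ≤ Real.exp t :=
    (pow_le_pow_right₀ hT1 (by norm_num)).trans hB.b2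
  have hc : (1536 : ℝ) ≤ Real.exp t := by
    have h1 := Real.add_one_le_exp (t : ℝ)
    have h2 : (1536 : ℝ) ≤ 10 ^ 100 := by norm_num
    linarith
  have hexp1 : Real.exp 1 ≤ 3 := by
    have := Real.exp_one_lt_d9
    linarith
  have hlog : Real.exp 200 ≤ (t : ℝ) := by
    have h1 : Real.exp 200 = (Real.exp 1) ^ 200 := by
      rw [← Real.exp_nat_mul]; norm_num
    rw [h1]
    calc (Real.exp 1) ^ 200 ≤ 3 ^ 200 := pow_le_pow_left₀ (Real.exp_pos 1).le hexp1 200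
      _ ≤ 10 ^ 100 := by norm_num
      _ ≤ _ := hT
  have hpow : Real.exp (200 * m) ≤ (t : ℝ) ^ m := by
    calc Real.exp (200 * m) = (Real.exp 200) ^ m := by
          rw [← Real.exp_nat_mul]; ring_nf
      _ ≤ _ := pow_le_pow_left₀ (Real.exp_pos _).le hlog m
  rw [hmt, one_div, inv_pow]
  have hfin : 16 * ((6 * ((n : ℝ) + 1) ^ 4) * Real.exp t) ≤ (t : ℝ) ^ m := by
    calc 16 * ((6 * ((n : ℝ) + 1) ^ 4) * Real.exp t)
        ≤ 16 * ((6 * (16 * (t : ℝ) ^ 800)) * Real.exp t) := by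
          have := Real.exp_pos (t : ℝ)
          gcongr
      _ = 1536 * (t : ℝ) ^ 800 * Real.exp t := by ring
      _ ≤ Real.exp t * Real.exp t * Real.exp t := by
          have := Real.exp_pos (t : ℝ)
          gcongr
      _ = Real.exp (3 * t) := by
          rw [← Real.exp_add, ← Real.exp_add]; ring_nf
      _ ≤ Real.exp (200 * m) := by
          refine Real.exp_le_exp.2 ?_
          have h2 : (200 : ℝ) ≤ t := le_trans (by norm_num) hT
          linarith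
      _ ≤ _ := hpow
  have hpos : (0 : ℝ) < (t : ℝ) ^ m := by positivity
  calc (6 * ((n : ℝ) + 1) ^ 4) * ((t : ℝ) ^ m)⁻¹ * Real.exp t
      = (16 * ((6 * ((n : ℝ) + 1) ^ 4) * Real.exp t)) * ((t : ℝ) ^ m)⁻¹ / 16 := by ring
    _ ≤ (t : ℝ) ^ m * ((t : ℝ) ^ m)⁻¹ / 16 := by gcongr
    _ = 1 / 16 := by rw [mul_inv_cancel₀ hpos.ne']

theorem goodL_exists {ε : ℝ} (hB : Big ε t) (hR : Rng t n) (S : Sys n t K) :
    ∃ φ : Lbo n t K, GoodL S φ := by
  classical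
  have ht1 : 1 ≤ t := by
    rcases Nat.eq_zero_or_pos t with h0 | h0
    · exfalso
      have h1 := hB.b1
      rw [h0] at h1
      simp only [Nat.cast_zero, mul_zero] at h1
      have : (0 : ℝ) < 10 ^ 100 := by norm_num
      linarith
    · exact h0
  obtain ⟨m, hm⟩ : ∃ m, t = m + 1 := ⟨t - 1, by omega⟩
  have key := hits_lll (V := Fin K × Lv n (k0 t)) (κ := Equiv.Perm (Fin (NN n t)))
    (J := Bool × Fin (n + 1) × (Fin K × Lv n (k0 t)) × (Fin K × Lv n (k0 t)))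
    (D := fun p => S.Cl p) (e1 := fun p => p.2.2.1) (e2 := fun p => p.2.2.2)
    (hD := by
      intro p φ ψ h
      have h1 : φ p.2.2.1 = ψ p.2.2.1 := h _ (by simp)
      have h2 : φ p.2.2.2 = ψ p.2.2.2 := h _ (by simp)
      unfold Sys.Cl
      rw [h1, h2])
    (Hit := HitAll S) (m := m) (μ := 1 / (t : ℝ)) (S := 6 * ((n : ℝ) + 1) ^ 4)
    (hμ := by
      rintro ((ρ | ρ) | ((ρ | ρ) | (ρ | ρ)))
      · exact mean1 hB hR S ρ
      · exact mean2 hB hR S ρ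
      · exact mean3 hB hR S ρ
      · exact mean4 hB hR S ρ
      · exact mean5 hB hR S ρ
      · exact mean6 hB hR S ρ)
    (hS := by
      intro i
      have h1 := sum_P_le (V := Fin K × Lv n (k0 t)) (fun ρ σ => S.Hit1 ρ i σ) i _ (cnt1 hB hR S i)
      have h2 := sum_P_le (V := Fin K × Lv n (k0 t)) (fun ρ σ => S.Hit2 ρ i σ) i _ (cnt2 hB hR S i)
      have h3 := sum_P_le (V := Fin K × Lv n (k0 t)) (fun ρ σ => S.Hit3 ρ i σ) i _ (cnt3 hB hR S i)
      have h4 := sum_P_le (V := Fin K × Lv n (k0 t)) (fun ρ σ => S.Hit4 ρ i σ) i _ (cnt4 hB hR S i)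
      have h5 := sum_P_le (V := Fin K × Lv n (k0 t)) (fun ρ σ => S.Hit5 ρ i σ) i _ (cnt5 hB hR S i)
      have h6 := sum_P_le (V := Fin K × Lv n (k0 t)) (fun ρ σ => S.Hit6 ρ i σ) i _ (cnt6 hB hR S i)
      push_cast at h1 h2 h3 h4 h5 h6
      rw [Fintype.sum_sum_type, Fintype.sum_sum_type, Fintype.sum_sum_type, Fintype.sum_sum_type,
        Fintype.sum_sum_type]
      simp only [HitAll]
      linarith)
    (hq := fun i => pairs_small hB hR S i)
    (hm := pb8_num hB hR hm)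
  obtain ⟨φ, h1, h2⟩ := key
  rw [← hm] at h2
  exact ⟨φ, h1, fun ρ => h2 (.inl (.inl ρ)), fun ρ => h2 (.inl (.inr ρ)),
    fun ρ => h2 (.inr (.inl (.inl ρ))), fun ρ => h2 (.inr (.inl (.inr ρ))),
    fun ρ => h2 (.inr (.inr (.inl ρ))), fun ρ => h2 (.inr (.inr (.inr ρ)))⟩

end Pool.SCDO
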