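import Pool.Agent.Lib.SCDO.Defs
import Pool.Agent.Lib.SCDO.PB8
import Pool.Agent.Lib.SCDO.VF
import Pool.Agent.Lib.SCDO.NU2

/-!
# Row PB9 (outer part of the symmetric chain decompositions)
From good labels to the system of outer chains.
Recipe: w s c x h := S.V s (c,x) (φ (c,x)) h.  card, sub: V_card, V_mono.  inj: h = 0 from Start.inj (V_zero), h ≥ 1 from GoodL.cl, first case, with p = (s, h, (c,x), (c,x')) (h ≤ n).  edge: second case.
mult, down, near: Start with V_zero.  F1..F6: h1..h6 (Set.ncard of a set in Fin K × Lv equals the card of the filter: Set.ncard_eq_toFinset_card'; for F3, F4, F6 inject x ↦ (c,x)); in F5, F6 ρ uses g as Fin (n+1).  opp: V_opp.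
In Hit3 the second vertex is S.z = w _ _ 0.
-/

set_option linter.unusedSectionVars false
set_option linter.unusedVariables false

namespace Pool.SCDO

open Finset Pool.SCDH

private theorem card_le_ncard {α : Type*} [Fintype α] (p : α → Prop) [DecidablePred p]
    (Q : Set α) (h : ∀ i, p i → i ∈ Q) : (univ.filter p).card ≤ Q.ncard := by
  rw [← Set.ncard_coe_finset]
  apply Set.ncard_le_ncard _ (Set.toFinite _)
  intro i hi
  simp only [coe_filter, mem_univ, true_and, Set.mem_setOf_eq] at hi
  exact h i hi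

private theorem card_le_ncard' {α β : Type*} [Fintype α] [Fintype β] (p : β → Prop)
    [DecidablePred p] (f : β → α) (hf : Function.Injective f)
    (Q : Set α) (h : ∀ i, p i → f i ∈ Q) : (univ.filter p).card ≤ Q.ncard := by
  classical
  rw [← card_image_of_injective _ hf, ← Set.ncard_coe_finset]
  apply Set.ncard_le_ncard _ (Set.toFinite _)
  intro i hi
  simp only [coe_image, coe_filter, mem_univ, true_and, Set.mem_image, Set.mem_setOf_eq] at hi
  obtain ⟨j, hj, rfl⟩ := hi
  exact h j hj

theorem osys_of_good {ε : ℝ} {t n K : ℕ} (hB : Big ε t) (hR : Rng t n) (S : Sys n t K)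
    (φ : Lbo n t K) (hφ : GoodL S φ) (ζ : Fin K → Lv n (k0 t) ≃ Lv n (k0 t))
    (h1 : ∀ c x, x.1 ⊆ S.z false c x) (h2 : ∀ c x, (ζ c x).1 ⊆ S.z true c x)
    (h3 : ∀ c c' x, c ≠ c' → S.z false c x ≠ S.z false c' x)
    (h4 : ∀ c c' x x', c ≠ c' → S.z true c x = S.z true c' x' → ζ c x ≠ ζ c' x') :
    OSys n t K ζ (fun s c x h => S.V s (c, x) (φ (c, x)) h) := by
  classical
  have hn : n = NN n t + 2 * (k0 t + 1) := (ob_NN hB hR).1
  refine ⟨fun s => ?_, ?_, ?_, ?_, ?_, ?_⟩
  · refine ⟨?_, ?_, ?_, ?_, ?_, ?_, ?_, ?_, ?_, ?_, ?_, ?_, ?_⟩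
    · -- card
      intro c x h hh
      exact V_card S s (c, x) _ h hh
    · -- sub
      intro c x h
      exact V_mono S s (c, x) _ (Nat.le_succ h)
    · -- inj
      intro c h hh x x' hx
      by_contra hne
      rcases Nat.eq_zero_or_pos h with h0 | h0
      · subst h0
        simp only [V_zero] at hx
        exact hne ((S.st s).inj c hx)
      · apply hφ.cl (s, ⟨h, by omega⟩, (c, x), (c, x'))
        refine ⟨?_, Or.inl ⟨h0, hh, rfl, hx⟩⟩
        intro he
        exact hne (Prod.mk.inj he).2
    · -- edge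
      intro c c' x x' h hc hh hw hw'
      apply hφ.cl (s, ⟨h, by omega⟩, (c, x), (c', x'))
      refine ⟨?_, Or.inr ⟨hh, hc, hw, hw'⟩⟩
      intro he
      exact hc (Prod.mk.inj he).1
    · -- mult
      intro v
      simp only [V_zero]
      exact (S.st s).mult v
    · -- down
      intro c y hy
      simp only [V_zero]
      exact (S.st s).down c y hy
    · -- near
      intro c v hv
      simp only [V_zero]
      exact (S.st s).near c v hv
    · -- F1
      intro h A h1' h2' hA
      refine lt_of_le_of_lt (card_le_ncard _ _ ?_) (hφ.h1 (s, ⟨h, by omega⟩, A))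
      intro i hi
      exact ⟨h1', h2', hA, hi⟩
    · -- F2
      intro h A h1' h2' hA
      refine lt_of_le_of_lt (card_le_ncard _ _ ?_) (hφ.h2 (s, ⟨h, by omega⟩, A))
      intro i hi
      exact ⟨h1', h2', hA, hi⟩
    · -- F3
      intro c A hA
      refine lt_of_le_of_lt (card_le_ncard' _ (fun x => (c, x)) (Prod.mk_right_injective c) _ ?_)
        (hφ.h3 (s, c, A))
      intro x hx
      refine ⟨rfl, hA, hx.1, ?_⟩
      have := hx.2
      rwa [V_zero] at this
    · -- F4
      intro c h A h1' h2' hA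
      refine lt_of_le_of_lt (card_le_ncard' _ (fun x => (c, x)) (Prod.mk_right_injective c) _ ?_)
        (hφ.h4 (s, c, ⟨h, by omega⟩, A))
      intro x hx
      exact ⟨rfl, h1', h2', hA, hx⟩
    · -- F5
      intro g A hg hA
      refine lt_of_le_of_lt (card_le_ncard _ _ ?_) (hφ.h5 (s, ⟨g, by omega⟩, A))
      intro i hi
      exact ⟨hA, hi.1, hi.2⟩
    · -- F6
      intro c g A hg hA
      refine lt_of_le_of_lt (card_le_ncard' _ (fun x => (c, x)) (Prod.mk_right_injective c) _ ?_)
        (hφ.h6 (s, c, ⟨g, by omega⟩, A))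
      intro x hx
      exact ⟨rfl, hA, hx.1, hx.2⟩
  · intro c x
    simp only [V_zero]
    exact h1 c x
  · intro c x
    simp only [V_zero]
    exact h2 c x
  · intro c c' x hc
    simp only [V_zero]
    exact h3 c c' x hc
  · intro c c' x x' hc hx
    simp only [V_zero] at hx
    exact h4 c c' x x' hc hx
  · intro c x h h' hh
    exact V_opp S (c, x) _ h h' hh

end Pool.SCDO
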