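import Pool.Agent.Lib.SCDO.Defs
import Pool.Agent.Lib.SCDO.PB9
import Pool.Agent.Lib.SCDO.FS9

/-!
# Row PB10 (outer part of the symmetric chain decompositions)
The outer chains exist.
Recipe: sys_exists, goodL_exists, osys_of_good.
-/

set_option linter.unusedSectionVars false
set_option linter.unusedVariables false

namespace Pool.SCDO

open Finset Pool.SCDH

theorem outer_exists {ε : ℝ} {t n K : ℕ} (hB : Big ε t) (hR : Rng t n)
    (hK : (K : ℝ) ≤ (1 / 2 - ε) * n) (ζ : Fin K → Lv n (k0 t) ≃ Lv n (k0 t))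
    (hζ : ∀ c x, Disjoint x.1 (ζ c x).1) :
    ∃ w : Bool → Fin K → Lv n (k0 t) → ℕ → Finset (Fin n), OSys n t K ζ w := by
  obtain ⟨S, h1, h2, h3, h4⟩ := sys_exists hB hR hK ζ hζ
  obtain ⟨φ, hφ⟩ := goodL_exists hB hR S
  exact ⟨_, osys_of_good hB hR S φ hφ ζ h1 h2 h3 h4⟩

end Pool.SCDO
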