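import Pool.Agent.Lib.SCDO.Defs
import Pool.Agent.Lib.SCDO.AS4
import Pool.Agent.Lib.SCDO.AS5
import Pool.Agent.Lib.SCDO.AS6
import Pool.Agent.Lib.SCDO.OS3
import Pool.Agent.Lib.SCDO.PB10

/-!
# Row AS7 (outer part of the symmetric chain decompositions)
All decompositions for one n.
Recipe: ζ from oz_exists with k = k0 t (ob_K), w from outer_exists.  Start at the middle: n = 2(k0+1+h) or 2(k0+1+h)+1 (base_even, base_odd), descend h → 0 by inner_step (induction on h; at height h' < h the condition 2h'+2 ≤ NN holds), get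
Fam n (k0+1) K C ζ1 with ζ1 c (w false c x 0) = w true c x 0.  fam_step with k = k0, u c x = ⟨w false c x 0, _⟩, τ = ζ (OSys.bot, bot', inj of Sp at 0, d0, d1).  Then the last property of oz_exists.
-/

set_option linter.unusedSectionVars false
set_option linter.unusedVariables false

namespace Pool.SCDO

open Finset Pool.SCDH Pool.MP_0ccee8_co.Lib

variable {n t K : ℕ}

/-- families on the levels above `k0 + 1 + h` which agree with the outer chains -/
private def FamAt (n t K : ℕ) (w : Bool → Fin K → Lv n (k0 t) → ℕ → Finset (Fin n)) (h : ℕ) : Prop :=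
  ∃ (C : Fin K → Set (List (Finset (Fin n)))) (ζ : Fin K → Lv n (k0 t + 1 + h) ≃ Lv n (k0 t + 1 + h)),
    Fam n (k0 t + 1 + h) K C ζ ∧ ∀ c x y, w false c x h = y.1 → (ζ c y).1 = w true c x h

theorem many_t {ε : ℝ} (hB : Big ε t) (hR : Rng t n) (hK : (K : ℝ) ≤ (1 / 2 - ε) * n)
    (hL : ∀ k, t ^ 50 + 1 ≤ k → 2 * k + 1 ≤ n → LevelThm t n K k) :
    ∃ C : Fin K → Set (List (Finset (Fin n))), (∀ i, Good n 0 (C i)) ∧
      ∀ i i', i ≠ i' → ∀ S T, Edge (C i) S T → ¬ Edge (C i') S T := by
  obtain ⟨hK1, hK2⟩ := ob_K hB hR hK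
  obtain ⟨hN, -, -⟩ := ob_NN hB hR
  obtain ⟨ζ, hζ, hfin⟩ := oz_exists (n := n) (k := k0 t) (K := K) hK1 hK2
  obtain ⟨w, hw⟩ := outer_exists hB hR hK ζ hζ
  obtain ⟨m, hm⟩ : ∃ m, m = NN n t / 2 := ⟨_, rfl⟩
  -- the middle
  have hbase : FamAt n t K w m := by
    rcases Nat.even_or_odd' (NN n t) with ⟨q, hq | hq⟩
    · have hqm : q = m := by omega
      exact base_even m (by omega) ζ w hw
    · have hqm : q = m := by omega
      refine base_odd hB hR m (by omega) ζ w hw (hL (k0 t + 1 + m) ?_ (by omega))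
      have : k0 t = t ^ 50 := rfl
      omega
  -- descend
  have hdesc : ∀ j, j ≤ m → FamAt n t K w (m - j) := by
    intro j
    induction j with
    | zero => exact fun _ => hbase
    | succ j ih =>
      intro hj
      have hih := ih (by omega)
      have hs : m - j = m - (j + 1) + 1 := by omega
      rw [hs] at hih
      obtain ⟨C, ζ', hC, hi⟩ := hih
      refine inner_step hB hR (m - (j + 1)) (by omega) ζ w hw (hL _ ?_ (by omega)) C ζ' hC hi
      have : k0 t = t ^ 50 := rfl
      omega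
  have h0 := hdesc m le_rfl
  rw [Nat.sub_self m] at h0
  obtain ⟨C, ζ1, hC, hi⟩ := h0
  have hcard : ∀ c x, (w false c x 0).card = k0 t + 1 := fun c x =>
    (hw.sp false).card c x 0 (Nat.zero_le _)
  have hval : ∀ c x, (ζ1 c ⟨w false c x 0, hcard c x⟩).1 = w true c x 0 :=
    fun c x => hi c x ⟨w false c x 0, hcard c x⟩ rfl
  obtain ⟨C', hC'⟩ := fam_step (n := n) (k := k0 t) (K := K) (by omega) hC
    (fun c x => ⟨w false c x 0, hcard c x⟩) ζ
    (fun c x x' hxx => (hw.sp false).inj c 0 (by omega) (congrArg Subtype.val hxx))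
    (fun c a => hw.bot c a)
    (fun c a => by
      rw [hval c a]
      exact hw.bot' c a)
    (fun c c' a hcc h => hw.d0 c c' a hcc (congrArg Subtype.val h))
    (fun c c' a a' hcc h => by
      refine hw.d1 c c' a a' hcc ?_
      rw [← hval c a, ← hval c' a']
      exact congrArg Subtype.val h)
  obtain ⟨C'', ζ'', hF⟩ := hfin C' hC'
  exact ⟨C'', hF.good, hF.dis⟩

end Pool.SCDO
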