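import Pool.Agent.Lib.SCDO.Defs
import Pool.Agent.Lib.SCDH.V05

/-!
# Row LT1 (outer part of the symmetric chain decompositions)
The level theorem in the form used here.
Recipe: level_thm (row V05 of the inner part) with X = Lv n k, Y = Lv n (k+1), κ = k+1 ≥ t^50; (O.OY c).image (π c) = O'.OY c from the hypothesis.  Define M1 c x = O.mu c x for x ∈ OX c, M c x otherwise (same for ').
sub: adj of OutOK resp. of Mat, H.G = GLv n k.  inj: mu injective on OX c, M c outside, values in OY c resp. outside OY c (mem, out).  dis: both in OX: OutOK.dis; one in: (x, M c' x) ∉ O.U but (x, mu c x) ∈ O.U; none: Mat.dis.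
im: mu c maps OX c onto OY c (InjOn, card ω = card ω); y = M1 c x for some x iff y ∈ OY c or y ∈ imM O M c; the same for ', and imM O' M' c = (imM O M c).image (π c).
-/

set_option linter.unusedSectionVars false
set_option linter.unusedVariables false

namespace Pool.SCDO

open Finset Pool.SCDH

private theorem lt1_side {t n K k ω : ℕ} (H : Host (Lv n k) (Lv n (k + 1)) n (n - k) (k + 1))
    (hG : H.G = GLv n k) (O : Outer (Lv n k) (Lv n (k + 1)) (Fin K)) (hO : OutOK H t ω O)
    (M : Fin K → Lv n k → Lv n (k + 1)) (hM : Mat (H.G \ O.U) O M) :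
    ∃ M1 : Fin K → Lv n k → Lv n (k + 1), (∀ c x, x.1 ⊆ (M1 c x).1) ∧ (∀ c, Function.Injective (M1 c)) ∧
      (∀ c, ∀ x ∈ O.OX c, M1 c x = O.mu c x) ∧ (∀ c c' x, c ≠ c' → M1 c x ≠ M1 c' x) ∧
      ∀ c y, (∃ x, M1 c x = y) ↔ (y ∈ O.OY c ∨ y ∈ imM O M c) := by
  have hsub : ∀ x y, (x, y) ∈ H.G → x.1 ⊆ y.1 := by
    intro x y h
    rw [hG] at h
    exact (mem_filter.1 h).2
  have hU : ∀ c x, x ∈ O.OX c → (x, O.mu c x) ∈ O.U := by
    intro c x hx
    unfold Outer.U
    simp only [mem_filter, mem_univ, true_and]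
    exact ⟨c, hx, rfl⟩
  have e1 : ∀ c x, x ∈ O.OX c → (if x ∈ O.OX c then O.mu c x else M c x) = O.mu c x :=
    fun c x h => if_pos h
  have e2 : ∀ c x, x ∉ O.OX c → (if x ∈ O.OX c then O.mu c x else M c x) = M c x :=
    fun c x h => if_neg h
  refine ⟨fun c x => if x ∈ O.OX c then O.mu c x else M c x, ?_, ?_, e1, ?_, ?_⟩
  · intro c x
    show x.1 ⊆ (if x ∈ O.OX c then O.mu c x else M c x).1
    by_cases h : x ∈ O.OX c
    · rw [e1 c x h]
      exact hsub _ _ (hO.adj c x h)
    · rw [e2 c x h]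
      exact hsub _ _ (mem_sdiff.1 (hM.adj c x h)).1
  · intro c x x' hxx
    have hxx' : (if x ∈ O.OX c then O.mu c x else M c x) = (if x' ∈ O.OX c then O.mu c x' else M c x') := hxx
    by_cases h : x ∈ O.OX c
    · by_cases h' : x' ∈ O.OX c
      · rw [e1 c x h, e1 c x' h'] at hxx'
        exact hO.inj c h h' hxx'
      · rw [e1 c x h, e2 c x' h'] at hxx'
        exact absurd (hxx' ▸ hO.mem c x h) (hM.out c x' h')
    · by_cases h' : x' ∈ O.OX c
      · rw [e2 c x h, e1 c x' h'] at hxx'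
        exact absurd (hxx'.symm ▸ hO.mem c x' h') (hM.out c x h)
      · rw [e2 c x h, e2 c x' h'] at hxx'
        exact hM.inj c x x' h h' hxx'
  · intro c c' x hc hxx
    have hxx' : (if x ∈ O.OX c then O.mu c x else M c x) = (if x ∈ O.OX c' then O.mu c' x else M c' x) := hxx
    by_cases h : x ∈ O.OX c
    · by_cases h' : x ∈ O.OX c'
      · rw [e1 c x h, e1 c' x h'] at hxx'
        exact hO.dis c c' hc x h h' hxx'
      · rw [e1 c x h, e2 c' x h'] at hxx'
        have h1 := (mem_sdiff.1 (hM.adj c' x h')).2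
        rw [← hxx'] at h1
        exact h1 (hU c x h)
    · by_cases h' : x ∈ O.OX c'
      · rw [e2 c x h, e1 c' x h'] at hxx'
        have h1 := (mem_sdiff.1 (hM.adj c x h)).2
        rw [hxx'] at h1
        exact h1 (hU c' x h')
      · rw [e2 c x h, e2 c' x h'] at hxx'
        exact hM.dis c c' hc x h h' hxx'
  · intro c y
    have hsurj : (O.OX c).image (O.mu c) = O.OY c := by
      refine eq_of_subset_of_card_le ?_ ?_
      · intro y hy
        obtain ⟨x, hx, rfl⟩ := mem_image.1 hy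
        exact hO.mem c x hx
      · rw [card_image_of_injOn (hO.inj c), hO.cX c, hO.cY c]
    constructor
    · rintro ⟨x, hx⟩
      have hx' : (if x ∈ O.OX c then O.mu c x else M c x) = y := hx
      by_cases h : x ∈ O.OX c
      · rw [e1 c x h] at hx'
        exact Or.inl (hx' ▸ hO.mem c x h)
      · rw [e2 c x h] at hx'
        exact Or.inr (mem_image.2 ⟨x, mem_filter.2 ⟨mem_univ _, h⟩, hx'⟩)
    · rintro (h | h)
      · rw [← hsurj] at h
        obtain ⟨x, hx, hxy⟩ := mem_image.1 h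
        exact ⟨x, (e1 c x hx).trans hxy⟩
      · obtain ⟨x, hx, hxy⟩ := mem_image.1 h
        exact ⟨x, (e2 c x (mem_filter.1 hx).2).trans hxy⟩

theorem levelThm_holds {ε : ℝ} {t n K k : ℕ} (hB : Big ε t) (hR : Rng t n)
    (hK : (K : ℝ) ≤ (1 / 2 - ε) * n) (hk : t ^ 50 + 1 ≤ k) (hk2 : 2 * k + 1 ≤ n) : LevelThm t n K k := by
  intro ω H hG O O' hO hO' π hπ
  have hψ : ∀ c, (O.OY c).image (π c) = O'.OY c := by
    intro c
    ext y
    rw [mem_image]
    constructor
    · rintro ⟨y', h1, rfl⟩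
      exact (hπ c y').1 h1
    · intro h
      refine ⟨(π c).symm y, (hπ c _).2 ?_, by simp⟩
      simpa using h
  obtain ⟨M, M', hM, hM', him⟩ := level_thm hB hR H (by omega) hK O O' hO hO' π hψ
  obtain ⟨N, a1, a2, a3, a4, a5⟩ := lt1_side H hG O hO M hM
  obtain ⟨N', b1, b2, b3, b4, b5⟩ := lt1_side H hG O' hO' M' hM'
  refine ⟨N, N', ⟨a1, b1, a2, b2, a3, b3, a4, b4, ?_⟩⟩
  intro c y
  rw [a5 c y, b5 c (π c y), him c, hπ c y]
  have h1 : π c y ∈ (imM O M c).image (π c) ↔ y ∈ imM O M c := by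
    rw [mem_image]
    constructor
    · rintro ⟨y', h1, h2⟩
      rw [← (π c).injective h2]
      exact h1
    · intro h
      exact ⟨y, h, rfl⟩
  rw [h1]

end Pool.SCDO
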