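import Pool.Agent.Lib.SCDO.Defs
import Pool.Agent.Lib.SCDO.AS7
import Pool.Agent.Lib.SCDO.LT1
import Pool.Agent.Lib.SCDH.G04

/-!
# Row AS8 (outer part of the symmetric chain decompositions)
The theorem.
Recipe: WLOG ε ≤ 1/4 (replace ε by min ε (1/4)).  big_exists, rng_exists (SCDH.G04): for n ≥ n₀ there is t with Big ε t and Rng t n.  many_t with levelThm_holds; translate Good n 0 as in `nearly_linear`
(Pool/Agent/Lib/MP_0ccee8_co2/Final.lean).
-/

set_option linter.unusedSectionVars false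
set_option linter.unusedVariables false

namespace Pool.SCDO

open Finset Pool.SCDH Pool.MP_0ccee8_co.Lib

theorem half_many : ∀ ε : ℝ, 0 < ε → ∃ n₀ : ℕ, ∀ n : ℕ, n₀ ≤ n → ∀ K : ℕ, (K : ℝ) ≤ (1 / 2 - ε) * n →
    ∃ D : Fin K → Set (List (Finset (Fin n))),
      (∀ i : Fin K,
        (∀ c ∈ D i,
          (∃ a b : Finset (Fin n), c.head? = some a ∧ c.getLast? = some b ∧
              a.card + b.card = n) ∧
          (∀ a b : Finset (Fin n), List.IsInfix [a, b] c →
              a ⊆ b ∧ b.card = a.card + 1)) ∧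
        (∀ S : Finset (Fin n), ∃! c : List (Finset (Fin n)), c ∈ D i ∧ S ∈ c)) ∧
      (∀ i j : Fin K, i ≠ j →
        ∀ c ∈ D i, ∀ c' ∈ D j, ∀ a b : Finset (Fin n),
          List.IsInfix [a, b] c → List.IsInfix [a, b] c' → False) := by
  intro ε hε
  have h0 : 0 < min ε (1 / 4) := lt_min hε (by norm_num)
  have h1 : min ε (1 / 4) ≤ 1 / 2 := (min_le_right _ _).trans (by norm_num)
  obtain ⟨t0, ht0⟩ := big_exists (min ε (1 / 4)) h0 h1
  obtain ⟨n0, hn0⟩ := rng_exists t0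
  refine ⟨n0, fun n hn K hK => ?_⟩
  obtain ⟨t, ht, hR⟩ := hn0 n hn
  have hB := ht0 t ht
  have hK' : (K : ℝ) ≤ (1 / 2 - min ε (1 / 4)) * n := by
    refine hK.trans (mul_le_mul_of_nonneg_right ?_ (Nat.cast_nonneg _))
    have := min_le_left ε (1 / 4 : ℝ)
    linarith
  obtain ⟨C, hC, hE⟩ := many_t hB hR hK' (fun k hk hk2 => levelThm_holds hB hR hK' hk hk2)
  refine ⟨C, ?_, ?_⟩
  · intro i
    refine ⟨?_, ?_⟩
    · intro c hc
      obtain ⟨a, b, ha, hb, hab, _⟩ := (hC i).ends c hc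
      exact ⟨⟨a, b, ha, hb, hab⟩, (hC i).chain c hc⟩
    · intro S
      have hS : S.card ≤ n := by simpa using card_le_univ S
      exact (hC i).cover S (Nat.zero_le _) (by omega)
  · intro i j hij c hc c' hc' a b h h'
    exact hE i j hij a b ⟨c, hc, h⟩ ⟨c', hc', h'⟩

end Pool.SCDO
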