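import Pool.Agent.Lib.SCDO.Defs
import Pool.Agent.Lib.SCDO.AS7
import Pool.Agent.Lib.SCDO.LT1
import Pool.Agent.Lib.SCDH.G04

/-!
# Row AS9 (outer part of the symmetric chain decompositions)
The theorem, with a power saving.
-/

set_option linter.unusedSectionVars false
set_option linter.unusedVariables false

namespace Pool.SCDO

open Finset Pool.SCDH Pool.MP_0ccee8_co.Lib

theorem half_power : ∃ C : ℝ, 0 < C ∧ ∀ n K : ℕ, (K : ℝ) ≤ n / 2 - C * (n : ℝ) ^ (199 / 200 : ℝ) →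
    ∃ D : Fin K → Set (List (Finset (Fin n))),
      (∀ i : Fin K,
        (∀ c ∈ D i,
          (∃ a b : Finset (Fin n), c.head? = some a ∧ c.getLast? = some b ∧
              a.card + b.card = n) ∧
          (∀ a b : Finset (Fin n), List.IsInfix [a, b] c →
              a ⊆ b ∧ b.card = a.card + 1)) ∧
        (∀ S : Finset (Fin n), ∃! c : List (Finset (Fin n)), c ∈ D i ∧ S ∈ c)) ∧
      (∀ i j : Fin K, i ≠ j →
        ∀ c ∈ D i, ∀ c' ∈ D j, ∀ a b : Finset (Fin n),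
          List.IsInfix [a, b] c → List.IsInfix [a, b] c' → False) := by
  obtain ⟨t0, ht0⟩ := big_exists (1 / 2) (by norm_num) le_rfl
  obtain ⟨n0, hn0⟩ := rng_exists (t0 + 2 * 10 ^ 100)
  refine ⟨2 * 10 ^ 100 + n0, by positivity, ?_⟩
  intro n K hK
  rcases Nat.eq_zero_or_pos K with rfl | hKpos
  · exact ⟨fun _ => ∅, fun i => i.elim0, fun i => i.elim0⟩
  have hKR : (1 : ℝ) ≤ K := by exact_mod_cast hKpos
  have hnpos : 0 < n := by
    rcases Nat.eq_zero_or_pos n with h | h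
    · exfalso
      rw [h] at hK
      have h1 : (0 : ℝ) ≤ (2 * 10 ^ 100 + n0) * ((0 : ℕ) : ℝ) ^ (199 / 200 : ℝ) := by positivity
      have h2 : (((0 : ℕ) : ℝ)) / 2 = 0 := by simp
      rw [h2] at hK
      linarith
    · exact h
  have hn1 : (1 : ℝ) ≤ n := by exact_mod_cast hnpos
  have hp1 : (1 : ℝ) ≤ (n : ℝ) ^ (199 / 200 : ℝ) := Real.one_le_rpow hn1 (by norm_num)
  have hnn0 : n0 ≤ n := by
    by_contra hcon
    push Not at hcon
    have h1 : (n : ℝ) ≤ n0 := by exact_mod_cast hcon.le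
    have h2 : (n0 : ℝ) ≤ (2 * 10 ^ 100 + n0) * (n : ℝ) ^ (199 / 200 : ℝ) := by
      have h3 : (0 : ℝ) ≤ 2 * 10 ^ 100 + n0 := by positivity
      nlinarith
    have h4 : (0 : ℝ) ≤ n := Nat.cast_nonneg n
    linarith
  obtain ⟨t, ht, hR⟩ := hn0 n hnn0
  have htpos : 0 < t := by omega
  have htR : (0 : ℝ) < t := by exact_mod_cast htpos
  have ht2 : (2 * 10 ^ 100 : ℝ) ≤ t := by
    have : 2 * 10 ^ 100 ≤ t := by omega
    exact_mod_cast this
  have hB : Big (10 ^ 100 / (t : ℝ)) t := by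
    refine ⟨by positivity, ?_, ?_, (ht0 t (by omega)).b2⟩
    · rw [div_le_iff₀ htR]; linarith
    · rw [div_mul_cancel₀ _ htR.ne']
  have hK2 : (K : ℝ) ≤ (1 / 2 - 10 ^ 100 / (t : ℝ)) * n := by
    refine hK.trans ?_
    have h1 : (n : ℝ) ≤ 2 * (t : ℝ) ^ 200 := (rng_real hR).2
    have h2 : (n : ℝ) ^ (1 / 200 : ℝ) ≤ 2 * t := by
      have h3 : (n : ℝ) ≤ (2 * (t : ℝ)) ^ 200 := by
        refine h1.trans ?_
        rw [mul_pow]
        apply mul_le_mul_of_nonneg_right _ (by positivity)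
        exact le_self_pow₀ (by norm_num) (by norm_num)
      calc (n : ℝ) ^ (1 / 200 : ℝ) ≤ ((2 * (t : ℝ)) ^ 200) ^ (1 / 200 : ℝ) :=
            Real.rpow_le_rpow (by positivity) h3 (by norm_num)
        _ = 2 * t := by
          rw [← Real.rpow_natCast, ← Real.rpow_mul (by positivity)]
          norm_num
    have h4 : (n : ℝ) = (n : ℝ) ^ (199 / 200 : ℝ) * (n : ℝ) ^ (1 / 200 : ℝ) := by
      rw [← Real.rpow_add (by linarith)]
      norm_num
    have h5 : (n : ℝ) / t ≤ 2 * (n : ℝ) ^ (199 / 200 : ℝ) := by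
      rw [div_le_iff₀ htR]
      calc (n : ℝ) = (n : ℝ) ^ (199 / 200 : ℝ) * (n : ℝ) ^ (1 / 200 : ℝ) := h4
        _ ≤ (n : ℝ) ^ (199 / 200 : ℝ) * (2 * t) := mul_le_mul_of_nonneg_left h2 (by positivity)
        _ = _ := by ring
    have h6 : 10 ^ 100 / (t : ℝ) * n = 10 ^ 100 * ((n : ℝ) / t) := by ring
    rw [sub_mul, h6]
    have h7 : 10 ^ 100 * ((n : ℝ) / t) ≤ (2 * 10 ^ 100 + n0) * (n : ℝ) ^ (199 / 200 : ℝ) := by
      have h8 : (0 : ℝ) ≤ n0 * (n : ℝ) ^ (199 / 200 : ℝ) := by positivity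
      nlinarith
    linarith
  obtain ⟨C, hC, hE⟩ := many_t hB hR hK2 (fun k h1 h2 => levelThm_holds hB hR hK2 h1 h2)
  refine ⟨C, ?_, ?_⟩
  · intro i
    refine ⟨?_, ?_⟩
    · intro c hc
      obtain ⟨a, b, ha, hb, hab, _⟩ := (hC i).ends c hc
      exact ⟨⟨a, b, ha, hb, hab⟩, (hC i).chain c hc⟩
    · intro S
      have hS : S.card ≤ n := by simpa using card_le_univ S
      exact (hC i).cover S (Nat.zero_le _) (by omega)
  · intro i j hij c hc c' hc' a b h h'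
    exact hE i j hij a b ⟨c, hc, h⟩ ⟨c', hc', h'⟩

end Pool.SCDO
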