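import Pool.Agent.Lib.SCDH.LvDefs
import Pool.Agent.Lib.MP_0ccee8_co.Chains
import Pool.Agent.Lib.MP_5fcc10_co_lin.ALLL

/-!
# (1/2 - eps) n edge-disjoint symmetric chain decompositions: the outer part

Upper halves of chains are described by complements: a chain with lowest set `x` and highest set `wᶜ`
is described by the disjoint pair `(x, w)`.
-/

set_option linter.unusedSectionVars false

namespace Pool.SCDO

open Finset Pool.SCDH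

/-- the junction level -/
def k0 (t : ℕ) : ℕ := t ^ 50

/-- size of the classes of the first outer step -/
def D0 (t : ℕ) : ℕ := t ^ 51

/-- number of free directions between the two ends of the inner part of an outer chain -/
def NN (n t : ℕ) : ℕ := n - 2 * (k0 t + 1)

variable {n t K : ℕ}

/-- First vertices of the outer chains above level `k0` (one side). -/
structure Start (n t K : ℕ) (z : Fin K → Lv n (k0 t) → Finset (Fin n)) : Prop where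
  card : ∀ c x, (z c x).card = k0 t + 1
  inj : ∀ c, Function.Injective (z c)
  mult : ∀ v : Finset (Fin n),
    (univ.filter (fun i : Fin K × Lv n (k0 t) => z i.1 i.2 = v)).card ≤ k0 t + 1
  down : ∀ c (y : Finset (Fin n)), y.card = k0 t + 2 → (univ.filter (fun x => z c x ⊆ y)).card ≤ t
  near : ∀ c (v : Finset (Fin n)), v.card = k0 t + 1 →
    t ^ 28 * (univ.filter (fun x => (z c x \ v).card = 1)).card ≤ n

/-- Both ends of the outer chains, and an enumeration of the free directions. -/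
structure Sys (n t K : ℕ) where
  z : Bool → Fin K → Lv n (k0 t) → Finset (Fin n)
  e : Fin K → Lv n (k0 t) → Fin (NN n t) → Fin n
  st : ∀ s, Start n t K (z s)
  disj : ∀ c x, Disjoint (z false c x) (z true c x)
  einj : ∀ c x, Function.Injective (e c x)
  erng : ∀ c x, univ.image (e c x) = (z false c x ∪ z true c x)ᶜ

/-- Labels: one permutation of the free directions for every outer chain. -/
abbrev Lbo (n t K : ℕ) : Type := Fin K × Lv n (k0 t) → Equiv.Perm (Fin (NN n t))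

/-- `v` lies on an edge of class `s`, where `φ (u, a)` is the class of the edge `(u, u ∪ {a})` -/
def Vs {n t M : ℕ} (φ : Lv n (k0 t) × Fin n → Fin (M + 1)) (s : Fin (M + 1)) (v : Finset (Fin n)) : Prop :=
  ∃ u : Lv n (k0 t), ∃ a, a ∉ u.1 ∧ insert a u.1 = v ∧ φ (u, a) = s

/-- the edges below `v` -/
def blkV {n t : ℕ} (v : Finset (Fin n)) : Finset (Lv n (k0 t) × Fin n) :=
  univ.filter (fun e => e.2 ∉ e.1.1 ∧ insert e.2 e.1.1 = v)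

/-- The permutation seen from side `s`. -/
def sg {N : ℕ} (s : Bool) (σ : Equiv.Perm (Fin N)) : Equiv.Perm (Fin N) :=
  if s then Fin.revPerm.trans σ else σ

/-- the first `h` values -/
def pre {N : ℕ} (σ : Equiv.Perm (Fin N)) (h : ℕ) : Finset (Fin N) :=
  (univ.filter (fun j : Fin N => (j : ℕ) < h)).image σ

/-- Vertex of the outer chain `i` at height `h` above level `k0 + 1`, seen from side `s`. -/
def Sys.V (S : Sys n t K) (s : Bool) (i : Fin K × Lv n (k0 t)) (σ : Equiv.Perm (Fin (NN n t)))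
    (h : ℕ) : Finset (Fin n) :=
  S.z s i.1 i.2 ∪ (pre (sg s σ) h).image (S.e i.1 i.2)

/-! Regions hit by outer chains.  In each case the label is `σ` and the chain is `i`. -/

def Sys.Hit1 (S : Sys n t K) (ρ : Bool × Fin (n + 1) × Finset (Fin n)) (i : Fin K × Lv n (k0 t))
    (σ : Equiv.Perm (Fin (NN n t))) : Prop :=
  1 ≤ (ρ.2.1 : ℕ) ∧ 2 * (ρ.2.1 : ℕ) ≤ NN n t + 1 ∧ ρ.2.2.card = k0 t + 2 + ρ.2.1 ∧
    S.V ρ.1 i σ ρ.2.1 ⊆ ρ.2.2

def Sys.Hit2 (S : Sys n t K) (ρ : Bool × Fin (n + 1) × Finset (Fin n)) (i : Fin K × Lv n (k0 t))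
    (σ : Equiv.Perm (Fin (NN n t))) : Prop :=
  2 ≤ (ρ.2.1 : ℕ) ∧ 2 * (ρ.2.1 : ℕ) ≤ NN n t + 1 ∧ ρ.2.2.card = k0 t + ρ.2.1 ∧
    ρ.2.2 ⊆ S.V ρ.1 i σ ρ.2.1

def Sys.Hit3 (S : Sys n t K) (ρ : Bool × Fin K × Finset (Fin n)) (i : Fin K × Lv n (k0 t))
    (σ : Equiv.Perm (Fin (NN n t))) : Prop :=
  i.1 = ρ.2.1 ∧ ρ.2.2.card = k0 t + 1 ∧ ρ.2.2 ⊆ S.V ρ.1 i σ 1 ∧ S.z ρ.1 i.1 i.2 ≠ ρ.2.2

def Sys.Hit4 (S : Sys n t K) (ρ : Bool × Fin K × Fin (n + 1) × Finset (Fin n))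
    (i : Fin K × Lv n (k0 t)) (σ : Equiv.Perm (Fin (NN n t))) : Prop :=
  i.1 = ρ.2.1 ∧ 2 ≤ (ρ.2.2.1 : ℕ) ∧ 2 * (ρ.2.2.1 : ℕ) ≤ NN n t + 1 ∧
    ρ.2.2.2.card = k0 t + 1 + ρ.2.2.1 ∧ (S.V ρ.1 i σ ρ.2.2.1 \ ρ.2.2.2).card = 1

def Sys.Hit5 (S : Sys n t K) (ρ : Bool × Fin (n + 1) × Finset (Fin n)) (i : Fin K × Lv n (k0 t))
    (σ : Equiv.Perm (Fin (NN n t))) : Prop :=
  ρ.2.2.card = k0 t + 1 ∧ ρ.2.2 ⊆ S.V ρ.1 i σ 1 ∧
    ∀ a ∈ S.V ρ.1 i σ 1 \ ρ.2.2, (a : ℕ) / t ^ 90 = ρ.2.1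

def Sys.Hit6 (S : Sys n t K) (ρ : Bool × Fin K × Fin (n + 1) × Finset (Fin n))
    (i : Fin K × Lv n (k0 t)) (σ : Equiv.Perm (Fin (NN n t))) : Prop :=
  i.1 = ρ.2.1 ∧ ρ.2.2.2.card = k0 t + 2 ∧ (S.V ρ.1 i σ 1 \ ρ.2.2.2).card = 1 ∧
    ∀ a ∈ S.V ρ.1 i σ 1 \ ρ.2.2.2, (a : ℕ) / t ^ 90 = ρ.2.2.1

/-- a pair of chains which meet in a forbidden way at height `h` -/
def Sys.Cl (S : Sys n t K) (p : Bool × Fin (n + 1) × (Fin K × Lv n (k0 t)) × (Fin K × Lv n (k0 t)))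
    (φ : Lbo n t K) : Prop :=
  p.2.2.1 ≠ p.2.2.2 ∧
  ((1 ≤ (p.2.1 : ℕ) ∧ 2 * (p.2.1 : ℕ) ≤ NN n t + 1 ∧ p.2.2.1.1 = p.2.2.2.1 ∧
      S.V p.1 p.2.2.1 (φ p.2.2.1) p.2.1 = S.V p.1 p.2.2.2 (φ p.2.2.2) p.2.1) ∨
    (2 * (p.2.1 : ℕ) + 1 ≤ NN n t ∧ p.2.2.1.1 ≠ p.2.2.2.1 ∧
      S.V p.1 p.2.2.1 (φ p.2.2.1) p.2.1 = S.V p.1 p.2.2.2 (φ p.2.2.2) p.2.1 ∧
      S.V p.1 p.2.2.1 (φ p.2.2.1) ((p.2.1 : ℕ) + 1) = S.V p.1 p.2.2.2 (φ p.2.2.2) ((p.2.1 : ℕ) + 1)))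

/-- What we need to know about one side of the system of outer chains. `w c x h` is the vertex of the
chain of `x` in colour `c` on level `k0 + 1 + h`. -/
structure Sp (n t K : ℕ) (w : Fin K → Lv n (k0 t) → ℕ → Finset (Fin n)) : Prop where
  card : ∀ c x h, h ≤ NN n t → (w c x h).card = k0 t + 1 + h
  sub : ∀ c x h, w c x h ⊆ w c x (h + 1)
  inj : ∀ c h, 2 * h ≤ NN n t + 1 → Function.Injective (fun x => w c x h)
  edge : ∀ c c' x x' h, c ≠ c' → 2 * h + 1 ≤ NN n t → w c x h = w c' x' h →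
    w c x (h + 1) ≠ w c' x' (h + 1)
  mult : ∀ v : Finset (Fin n),
    (univ.filter (fun i : Fin K × Lv n (k0 t) => w i.1 i.2 0 = v)).card ≤ k0 t + 1
  down : ∀ c (y : Finset (Fin n)), y.card = k0 t + 2 →
    (univ.filter (fun x => w c x 0 ⊆ y)).card ≤ t
  near : ∀ c (v : Finset (Fin n)), v.card = k0 t + 1 →
    t ^ 28 * (univ.filter (fun x => (w c x 0 \ v).card = 1)).card ≤ n
  F1 : ∀ h (A : Finset (Fin n)), 1 ≤ h → 2 * h ≤ NN n t + 1 → A.card = k0 t + 2 + h →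
    (univ.filter (fun i : Fin K × Lv n (k0 t) => w i.1 i.2 h ⊆ A)).card < t
  F2 : ∀ h (A : Finset (Fin n)), 2 ≤ h → 2 * h ≤ NN n t + 1 → A.card = k0 t + h →
    (univ.filter (fun i : Fin K × Lv n (k0 t) => A ⊆ w i.1 i.2 h)).card < t
  F3 : ∀ c (A : Finset (Fin n)), A.card = k0 t + 1 →
    (univ.filter (fun x => A ⊆ w c x 1 ∧ w c x 0 ≠ A)).card < t
  F4 : ∀ c h (A : Finset (Fin n)), 2 ≤ h → 2 * h ≤ NN n t + 1 → A.card = k0 t + 1 + h →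
    (univ.filter (fun x => (w c x h \ A).card = 1)).card < t
  F5 : ∀ (g : ℕ) (A : Finset (Fin n)), g ≤ n → A.card = k0 t + 1 →
    (univ.filter (fun i : Fin K × Lv n (k0 t) => A ⊆ w i.1 i.2 1 ∧
      ∀ a ∈ w i.1 i.2 1 \ A, (a : ℕ) / t ^ 90 = g)).card < t
  F6 : ∀ c (g : ℕ) (A : Finset (Fin n)), g ≤ n → A.card = k0 t + 2 →
    (univ.filter (fun x => (w c x 1 \ A).card = 1 ∧
      ∀ a ∈ w c x 1 \ A, (a : ℕ) / t ^ 90 = g)).card < t

/-- The complete system of outer chains: the chain of `x` in colour `c` goes through `w false c x h` and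
`(w true c x h)ᶜ`. -/
structure OSys (n t K : ℕ) (ζ : Fin K → Lv n (k0 t) ≃ Lv n (k0 t))
    (w : Bool → Fin K → Lv n (k0 t) → ℕ → Finset (Fin n)) : Prop where
  sp : ∀ s, Sp n t K (w s)
  bot : ∀ c x, x.1 ⊆ w false c x 0
  bot' : ∀ c x, (ζ c x).1 ⊆ w true c x 0
  d0 : ∀ c c' x, c ≠ c' → w false c x 0 ≠ w false c' x 0
  d1 : ∀ c c' x x', c ≠ c' → w true c x 0 = w true c' x' 0 → ζ c x ≠ ζ c' x'
  opp : ∀ c x h h', h + h' = NN n t → w true c x h' = (w false c x h)ᶜ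

/-- The outer data at height `h` built from `w`. -/
structure Fits (w : Fin K → Lv n (k0 t) → ℕ → Finset (Fin n)) (h : ℕ)
    (O : Outer (Lv n (k0 t + 1 + h)) (Lv n (k0 t + 1 + h + 1)) (Fin K)) : Prop where
  OX : ∀ c x, x ∈ O.OX c ↔ ∃ i, w c i h = x.1
  OY : ∀ c y, y ∈ O.OY c ↔ ∃ i, w c i (h + 1) = y.1
  mu : ∀ c i x, w c i h = x.1 → (O.mu c x).1 = w c i (h + 1)

/-- The local conditions on the outer chains at one level. -/
structure OutLoc {n k K : ℕ} (t : ℕ) (O : Outer (Lv n k) (Lv n (k + 1)) (Fin K)) : Prop where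
  a1 : ∀ c (y : Lv n (k + 1)), (univ.filter (fun x => x ∈ O.OX c ∧ x.1 ⊆ y.1)).card ≤ t
  a2 : ∀ c (x : Lv n k), (univ.filter (fun y => y ∈ O.OY c ∧ x.1 ⊆ y.1)).card ≤ t
  a3 : ∀ x, uX O x ≤ t ^ 50 + 1
  a4 : ∀ y, uY O y ≤ t
  a5 : ∀ c (x : Lv n k),
    t ^ 27 * (univ.filter (fun x' => x' ∈ O.OX c ∧ (x'.1 \ x.1).card = 1)).card ≤ n
  a6 : ∀ c (y : Lv n (k + 1)),
    t ^ 27 * (univ.filter (fun y' => y' ∈ O.OY c ∧ (y'.1 \ y.1).card = 1)).card ≤ n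
  a7 : ∀ y : Lv n (k + 1), t ^ 27 * ∑ x ∈ univ.filter (fun x : Lv n k => x.1 ⊆ y.1), uX O x ≤ n
  a8 : ∀ x : Lv n k, t ^ 27 * ∑ y ∈ univ.filter (fun y : Lv n (k + 1) => x.1 ⊆ y.1), uY O y ≤ n

/-- Formal properties of the outer data at one level; every colour has `ω` outer chains. -/
structure OutFm {n k K : ℕ} (ω : ℕ) (O : Outer (Lv n k) (Lv n (k + 1)) (Fin K)) : Prop where
  sub : ∀ c, ∀ x ∈ O.OX c, x.1 ⊆ (O.mu c x).1
  mem : ∀ c, ∀ x ∈ O.OX c, O.mu c x ∈ O.OY c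
  inj : ∀ c, Set.InjOn (O.mu c) (O.OX c)
  cX : ∀ c, (O.OX c).card = ω
  cY : ∀ c, (O.OY c).card = ω
  dis : ∀ c c', c ≠ c' → ∀ x ∈ O.OX c, x ∈ O.OX c' → O.mu c x ≠ O.mu c' x

/-- The bottom of a chain determines its top: `ζ` is the complement of the top. -/
def Linked {n : ℕ} (C : Set (List (Finset (Fin n)))) (k : ℕ) (ζ : Lv n k ≃ Lv n k) : Prop :=
  ∀ y : Lv n k, ∃ ch ∈ C, ch.head? = some y.1 ∧ ch.getLast? = some ((ζ y).1)ᶜ

/-- `K` edge-disjoint families of symmetric chains covering the levels `k, …, n - k`, with their links. -/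
structure Fam (n k K : ℕ) (C : Fin K → Set (List (Finset (Fin n)))) (ζ : Fin K → Lv n k ≃ Lv n k) :
    Prop where
  good : ∀ c, Pool.MP_0ccee8_co.Lib.Good n k (C c)
  linked : ∀ c, Linked (C c) k (ζ c)
  dis : ∀ c c', c ≠ c' → ∀ S T, Pool.MP_0ccee8_co.Lib.Edge (C c) S T →
    ¬ Pool.MP_0ccee8_co.Lib.Edge (C c') S T

/-- The conclusion of the level theorem (both sides). -/
structure LvOut {n k K : ℕ} (O O' : Outer (Lv n k) (Lv n (k + 1)) (Fin K))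
    (π : Fin K → Lv n (k + 1) ≃ Lv n (k + 1)) (M M' : Fin K → Lv n k → Lv n (k + 1)) : Prop where
  sub : ∀ c x, x.1 ⊆ (M c x).1
  sub' : ∀ c x, x.1 ⊆ (M' c x).1
  inj : ∀ c, Function.Injective (M c)
  inj' : ∀ c, Function.Injective (M' c)
  mu : ∀ c, ∀ x ∈ O.OX c, M c x = O.mu c x
  mu' : ∀ c, ∀ x ∈ O'.OX c, M' c x = O'.mu c x
  dis : ∀ c c' x, c ≠ c' → M c x ≠ M c' x
  dis' : ∀ c c' x, c ≠ c' → M' c x ≠ M' c' x
  im : ∀ c y, (∃ x, M c x = y) ↔ ∃ x', M' c x' = π c y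

/-- The level theorem for the levels `k, k + 1` and `K` colours (proved by the inner part). -/
def LevelThm (t n K k : ℕ) : Prop :=
  ∀ (ω : ℕ) (H : Host (Lv n k) (Lv n (k + 1)) n (n - k) (k + 1)) (_ : H.G = GLv n k)
    (O O' : Outer (Lv n k) (Lv n (k + 1)) (Fin K)) (_ : OutOK H t ω O) (_ : OutOK H t ω O')
    (π : Fin K → Lv n (k + 1) ≃ Lv n (k + 1)) (_ : ∀ c y, y ∈ O.OY c ↔ π c y ∈ O'.OY c),
    ∃ M M', LvOut O O' π M M'

/-- what the random permutations have to satisfy -/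
structure GoodL (S : Sys n t K) (φ : Lbo n t K) : Prop where
  cl : ∀ p, ¬ S.Cl p φ
  h1 : ∀ ρ, {i | S.Hit1 ρ i (φ i)}.ncard < t
  h2 : ∀ ρ, {i | S.Hit2 ρ i (φ i)}.ncard < t
  h3 : ∀ ρ, {i | S.Hit3 ρ i (φ i)}.ncard < t
  h4 : ∀ ρ, {i | S.Hit4 ρ i (φ i)}.ncard < t
  h5 : ∀ ρ, {i | S.Hit5 ρ i (φ i)}.ncard < t
  h6 : ∀ ρ, {i | S.Hit6 ρ i (φ i)}.ncard < t

end Pool.SCDO
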