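import Pool.Agent.Lib.SCDO.Defs
import Pool.Agent.Lib.SCDO.NU2

/-!
# Row OK0 (outer part of the symmetric chain decompositions)
The outer data at one height.
Recipe: O.OX c = univ.filter (∃ i, w c i h = x.1), O.OY c likewise with h+1, O.mu c x = ⟨w c i (h+1), card⟩ for the i with w c i h = x.1 (choice; a default element of Lv n (k+1), nonempty
because k0+1+h+1 ≤ n; if n is too small there is nothing: n = N + 2(k0+1) by ob_NN).  mu is well defined by Sp.inj.  OutFm: cX: x ↦ ⟨w c x h, _⟩ is a bijection of Lv n k0 with OX c, card (Lv n k0) = C(n,k0)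
(Fintype.card_finset_len); cY the same with Sp.inj at h+1; inj from Sp.inj at h+1; dis from Sp.edge.
-/

set_option linter.unusedSectionVars false
set_option linter.unusedVariables false

namespace Pool.SCDO

open Finset Pool.SCDH

variable {n t K : ℕ}

theorem fits_exists {ε : ℝ} (hB : Big ε t) (hR : Rng t n) (w : Fin K → Lv n (k0 t) → ℕ → Finset (Fin n))
    (hw : Sp n t K w) (h : ℕ) (hh : 2 * h + 1 ≤ NN n t) :
    ∃ O : Outer (Lv n (k0 t + 1 + h)) (Lv n (k0 t + 1 + h + 1)) (Fin K), Fits w h O := by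
  classical
  have hn := (ob_NN hB hR).1
  have hcard : ∀ c i, (w c i (h + 1)).card = k0 t + 1 + h + 1 := fun c i =>
    hw.card c i (h + 1) (by omega)
  have hne : ∃ y0 : Finset (Fin n), y0.card = k0 t + 1 + h + 1 := by
    obtain ⟨s, -, hs⟩ := Finset.exists_subset_card_eq
      (s := (univ : Finset (Fin n))) (n := k0 t + 1 + h + 1)
      (by rw [card_univ, Fintype.card_fin]; omega)
    exact ⟨s, hs⟩
  obtain ⟨y0, hy0⟩ := hne
  refine ⟨⟨fun c => univ.filter (fun x => ∃ i, w c i h = x.1),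
    fun c => univ.filter (fun y => ∃ i, w c i (h + 1) = y.1),
    fun c x => if hx : ∃ i, w c i h = x.1 then ⟨w c hx.choose (h + 1), hcard _ _⟩
      else ⟨y0, hy0⟩⟩, ⟨?_, ?_, ?_⟩⟩
  · intro c x
    simp
  · intro c y
    simp
  · intro c i x hx
    have hex : ∃ i, w c i h = x.1 := ⟨i, hx⟩
    have h1 : hex.choose = i := by
      apply hw.inj c h (by omega)
      show w c hex.choose h = w c i h
      rw [hex.choose_spec, hx]
    show (dite _ _ _ : Lv n (k0 t + 1 + h + 1)).1 = _
    rw [dif_pos hex]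
    show w c hex.choose (h + 1) = _
    rw [h1]

theorem outFm_of_fits {ε : ℝ} (hB : Big ε t) (hR : Rng t n) (w : Fin K → Lv n (k0 t) → ℕ → Finset (Fin n))
    (hw : Sp n t K w) (h : ℕ) (hh : 2 * h + 1 ≤ NN n t)
    (O : Outer (Lv n (k0 t + 1 + h)) (Lv n (k0 t + 1 + h + 1)) (Fin K)) (hO : Fits w h O) :
    OutFm (n.choose (k0 t)) O := by
  classical
  have hcardLv : Fintype.card (Lv n (k0 t)) = n.choose (k0 t) := by
    rw [Fintype.card_finset_len, Fintype.card_fin]
  have hc0 : ∀ c i, (w c i h).card = k0 t + 1 + h := fun c i => hw.card c i h (by omega)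
  have hc1 : ∀ c i, (w c i (h + 1)).card = k0 t + 1 + h + 1 := fun c i =>
    hw.card c i (h + 1) (by omega)
  refine ⟨?_, ?_, ?_, ?_, ?_, ?_⟩
  · intro c x hx
    obtain ⟨i, hi⟩ := (hO.OX c x).1 hx
    rw [hO.mu c i x hi, ← hi]
    exact hw.sub c i h
  · intro c x hx
    obtain ⟨i, hi⟩ := (hO.OX c x).1 hx
    exact (hO.OY c _).2 ⟨i, (hO.mu c i x hi).symm⟩
  · intro c x hx x' hx' hxx
    obtain ⟨i, hi⟩ := (hO.OX c x).1 hx
    obtain ⟨i', hi'⟩ := (hO.OX c x').1 hx'
    have h1 : w c i (h + 1) = w c i' (h + 1) := by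
      rw [← hO.mu c i x hi, ← hO.mu c i' x' hi', hxx]
    have h2 : i = i' := hw.inj c (h + 1) (by omega) h1
    apply Subtype.ext
    rw [← hi, ← hi', h2]
  · intro c
    have h1 : O.OX c = (univ : Finset (Lv n (k0 t))).image
        (fun i => (⟨w c i h, hc0 c i⟩ : Lv n (k0 t + 1 + h))) := by
      ext x
      rw [hO.OX c x, mem_image]
      constructor
      · rintro ⟨i, hi⟩
        exact ⟨i, mem_univ _, Subtype.ext hi⟩
      · rintro ⟨i, _, hi⟩
        exact ⟨i, congrArg Subtype.val hi⟩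
    rw [h1, card_image_of_injective, card_univ, hcardLv]
    intro i i' hii
    exact hw.inj c h (by omega) (congrArg Subtype.val hii)
  · intro c
    have h1 : O.OY c = (univ : Finset (Lv n (k0 t))).image
        (fun i => (⟨w c i (h + 1), hc1 c i⟩ : Lv n (k0 t + 1 + h + 1))) := by
      ext x
      rw [hO.OY c x, mem_image]
      constructor
      · rintro ⟨i, hi⟩
        exact ⟨i, mem_univ _, Subtype.ext hi⟩
      · rintro ⟨i, _, hi⟩
        exact ⟨i, congrArg Subtype.val hi⟩
    rw [h1, card_image_of_injective, card_univ, hcardLv]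
    intro i i' hii
    exact hw.inj c (h + 1) (by omega) (congrArg Subtype.val hii)
  · intro c c' hcc x hx hx' hmu
    obtain ⟨i, hi⟩ := (hO.OX c x).1 hx
    obtain ⟨i', hi'⟩ := (hO.OX c' x).1 hx'
    apply hw.edge c c' i i' h hcc (by omega) (by rw [hi, hi'])
    rw [← hO.mu c i x hi, ← hO.mu c' i' x hi', hmu]

end Pool.SCDO
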